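import Pool.Agent.J4.H51.AC.Val2

/-!
The cone points: a choice of a vertex for each family of sets with a common element or a split, such
that the vertices of a decreasing chain of families form an amenable set.
-/

set_option autoImplicit false

open scoped Classical

namespace Pool.Agent.J4.H51.AC

open Pool.Agent.W907.SG (W cox)
open Pool.Agent.Q134.SV Pool.Agent.J4.H51.JC

variable {V : Type} [Fintype V] {G : SimpleGraph V}

/-- the common elements -/
def Isec (S : Finset (Finset V)) : Set V := {x | ∀ D ∈ S, x ∈ D}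

variable (G) in
/-- the elements of the splits -/
def spl (S : Finset (Finset V)) : Set V := {x | ∃ P Q, Spl G S P Q ∧ (x ∈ P ∨ x ∈ Q)}

omit [Fintype V] in
theorem Spl.mono {S S' : Finset (Finset V)} (hS : S' ⊆ S) {P Q : Finset V} (h : Spl G S P Q) :
    Spl G S' P Q :=
  ⟨h.1, h.2.1, fun D hD => h.2.2.1 D (hS hD), fun D hD => h.2.2.2 D (hS hD)⟩

omit [Fintype V] in
theorem Spl.symm {S : Finset (Finset V)} {P Q : Finset V} (h : Spl G S P Q) : Spl G S Q P :=
  ⟨h.2.1, h.1, fun D hD => (h.2.2.1 D hD).symm, fun D hD e he hP hQ x hx =>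
    h.2.2.2 D hD e he hQ hP x hx.symm⟩

omit [Fintype V] in
theorem Mv.mono {S S' : Finset (Finset V)} (hS : S' ⊆ S) (h : Mv G S) : Mv G S' := by
  rcases h with ⟨s, hs⟩ | ⟨P, Q, h⟩
  · exact Or.inl ⟨s, fun D hD => hs D (hS hD)⟩
  · exact Or.inr ⟨P, Q, h.mono hS⟩

omit [Fintype V] in
theorem Isec_anti {S S' : Finset (Finset V)} (hS : S' ⊆ S) : Isec S ⊆ Isec S' :=
  fun _ hx D hD => hx D (hS hD)

omit [Fintype V] in
theorem spl_anti {S S' : Finset (Finset V)} (hS : S' ⊆ S) : spl G S ⊆ spl G S' := by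
  rintro x ⟨P, Q, h, hx⟩
  exact ⟨P, Q, h.mono hS, hx⟩

omit [Fintype V] in
theorem spl_in {S : Finset (Finset V)} (hI : ¬ (Isec S).Nonempty) {x : V} (hx : x ∈ spl G S) :
    ∃ D ∈ S, x ∈ D := by
  obtain ⟨P, Q, h, hx⟩ : ∃ P Q, Spl G S P Q ∧ x ∈ P := by
    obtain ⟨P, Q, h, hx | hx⟩ := hx
    · exact ⟨P, Q, h, hx⟩
    · exact ⟨Q, P, h.symm, hx⟩
  by_contra hcon
  push Not at hcon
  obtain ⟨q, hq⟩ := h.2.1
  apply hI
  refine ⟨q, fun D hD => ?_⟩
  rcases h.2.2.1 D hD with h1 | h1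
  · exact absurd (h1.1 hx) (hcon D hD)
  · exact h1.1 hq

section

variable [Nonempty V]

/-- a numbering -/
noncomputable def rk (x : V) : ℕ := Fintype.equivFin V x

omit [Nonempty V] in
theorem rk_inj {x y : V} (h : rk x = rk y) : x = y := (Fintype.equivFin V).injective (Fin.ext h)

/-- the first element -/
noncomputable def mn (A : Set V) : V :=
  if h : A.Nonempty then Function.argminOn rk A h else Classical.arbitrary V

theorem mn_mem {A : Set V} (h : A.Nonempty) : mn A ∈ A := by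
  rw [mn, dif_pos h]
  exact Function.argminOn_mem _ _ _

theorem mn_le {A : Set V} {x : V} (hx : x ∈ A) : rk (mn A) ≤ rk x := by
  rw [mn, dif_pos ⟨x, hx⟩]
  exact Function.argminOn_le _ _ hx

variable (G) in
/-- the cone point -/
noncomputable def cS (S : Finset (Finset V)) : V :=
  if (Isec S).Nonempty then mn (Isec S) else if (spl G S).Nonempty then mn (spl G S) else
    mn {x | ∃ D ∈ S, x ∈ D}

theorem cS_I {S : Finset (Finset V)} (h : (Isec S).Nonempty) : cS G S = mn (Isec S) := by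
  rw [cS, if_pos h]

theorem cS_s {S : Finset (Finset V)} (h : ¬ (Isec S).Nonempty) (h' : (spl G S).Nonempty) :
    cS G S = mn (spl G S) := by
  rw [cS, if_neg h, if_pos h']

theorem cS_in {S : Finset (Finset V)} (hS : S.Nonempty) (hD : ∀ D ∈ S, D.Nonempty) :
    ∃ D ∈ S, cS G S ∈ D := by
  obtain ⟨D, hDS⟩ := hS
  by_cases h : (Isec S).Nonempty
  · rw [cS_I h]
    exact ⟨D, hDS, mn_mem h D hDS⟩
  · by_cases h' : (spl G S).Nonempty
    · rw [cS_s h h']
      exact spl_in h (mn_mem h')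
    · rw [cS, if_neg h, if_neg h']
      obtain ⟨x, hx⟩ := hD D hDS
      exact mn_mem (A := {x | ∃ D ∈ S, x ∈ D}) ⟨x, D, hDS, hx⟩

/-- two families without common elements -/
theorem L1 {S S' : Finset (Finset V)} (hSS : S' ⊆ S) (hI : ¬ (Isec S').Nonempty) (hM : Mv G S) :
    cS G S = cS G S' ∨ G.Adj (cS G S) (cS G S') := by
  have hI1 : ¬ (Isec S).Nonempty := fun h => hI (h.mono (Isec_anti hSS))
  have hs : (spl G S).Nonempty := by
    rcases hM with ⟨s, hs⟩ | ⟨P, Q, h⟩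
    · exact absurd ⟨s, hs⟩ hI1
    · obtain ⟨p, hp⟩ := h.1
      exact ⟨p, P, Q, h, Or.inl hp⟩
  have hs' : (spl G S').Nonempty := hs.mono (spl_anti hSS)
  rw [cS_s hI1 hs, cS_s hI hs']
  have hx := mn_mem hs
  have hx' := mn_mem hs'
  set x := mn (spl G S) with hxd
  set x' := mn (spl G S') with hxd'
  obtain ⟨P, Q, h, hxPQ⟩ := id hx
  by_cases hx'PQ : x' ∈ P ∨ x' ∈ Q
  · left
    apply rk_inj
    refine le_antisymm (mn_le ⟨P, Q, h, hx'PQ⟩) (mn_le (spl_anti hSS hx))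
  · right
    rw [not_or] at hx'PQ
    obtain ⟨D, hD, hxD⟩ := spl_in hI hx'
    exact (h.2.2.2 D (hSS hD) x' hxD hx'PQ.1 hx'PQ.2 x hxPQ).symm

/-- distinct cone points which are not adjacent -/
theorem L0 {S S' : Finset (Finset V)} (hSS : S' ⊆ S) (hne : S'.Nonempty) (hM : Mv G S)
    (hC : ∀ D ∈ S, Cq G (D : Set V)) (h1 : cS G S ≠ cS G S') (h2 : ¬ G.Adj (cS G S) (cS G S')) :
    ¬ (Isec S).Nonempty ∧ (Isec S').Nonempty := by
  by_cases h3 : (Isec S').Nonempty
  · refine ⟨fun h4 => h2 ?_, h3⟩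
    obtain ⟨D, hD⟩ := hne
    have a := mn_mem h4 D (hSS hD)
    have b := mn_mem h3 D hD
    rw [← cS_I (G := G) h4] at a
    rw [← cS_I (G := G) h3] at b
    exact hC D (hSS hD) _ a _ b h1
  · rcases L1 hSS h3 hM with h | h
    · exact absurd h h1
    · exact absurd h h2

/-- the cone points of a chain form an amenable set -/
theorem am_chain {k : ℕ} (S : Fin k → Finset (Finset V)) (hS : ∀ i j, i ≤ j → S j ⊆ S i)
    (hne : ∀ i, (S i).Nonempty) (hM : ∀ i, Mv G (S i)) (hC : ∀ i, ∀ D ∈ S i, Cq G (D : Set V)) :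
    Am G (Set.range fun i => cS G (S i)) := by
  -- the index of the common elements is larger
  have hord : ∀ i j, cS G (S i) ≠ cS G (S j) → ¬ G.Adj (cS G (S i)) (cS G (S j)) →
      (i ≤ j ∧ ¬ (Isec (S i)).Nonempty ∧ (Isec (S j)).Nonempty) ∨
      (j ≤ i ∧ ¬ (Isec (S j)).Nonempty ∧ (Isec (S i)).Nonempty) := by
    intro i j h1 h2
    rcases le_total i j with h | h
    · exact Or.inl ⟨h, L0 (hS i j h) (hne j) (hM i) (hC i) h1 h2⟩
    · exact Or.inr ⟨h, L0 (hS j i h) (hne i) (hM j) (hC j) h1.symm fun h => h2 h.symm⟩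
  -- the centre has no common element
  have hA : ∀ i j l, i ≤ j → j ≤ l → ¬ (Isec (S i)).Nonempty → (Isec (S j)).Nonempty →
      (Isec (S l)).Nonempty → ¬ G.Adj (cS G (S i)) (cS G (S j)) →
      ¬ G.Adj (cS G (S i)) (cS G (S l)) → cS G (S j) = cS G (S l) := by
    intro i j l hij hjl h1 h2 h3 h4 h5
    have hs : (spl G (S i)).Nonempty := by
      rcases hM i with ⟨s, hs⟩ | ⟨P, Q, h⟩
      · exact absurd ⟨s, hs⟩ h1
      · obtain ⟨p, hp⟩ := h.1
        exact ⟨p, P, Q, h, Or.inl hp⟩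
    have hx := mn_mem hs
    rw [← cS_s h1 hs] at hx
    obtain ⟨P, Q, h, hxPQ⟩ := id hx
    obtain ⟨D0, hD0⟩ := hne l
    have hy := mn_mem h2
    have hz := mn_mem h3
    rw [← cS_I (G := G) h2] at hy
    rw [← cS_I (G := G) h3] at hz
    have hyPQ : cS G (S j) ∈ P ∨ cS G (S j) ∈ Q := by
      by_contra hcon
      rw [not_or] at hcon
      exact h4 (h.2.2.2 D0 (hS i l (hij.trans hjl) hD0) _ (hy D0 (hS j l hjl hD0)) hcon.1 hcon.2 _
        hxPQ).symm
    have hzPQ : cS G (S l) ∈ P ∨ cS G (S l) ∈ Q := by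
      by_contra hcon
      rw [not_or] at hcon
      exact h5 (h.2.2.2 D0 (hS i l (hij.trans hjl) hD0) _ (hz D0 hD0) hcon.1 hcon.2 _ hxPQ).symm
    have key : ∀ P Q : Finset V, Spl G (S i) P Q → cS G (S j) ∈ P →
        (cS G (S l) ∈ P ∨ cS G (S l) ∈ Q) → cS G (S l) ∈ Isec (S j) := by
      intro P Q h hyP hz'
      have hkind : ∀ D ∈ S j, P ⊆ D ∧ Disjoint Q D := by
        intro D hD
        rcases h.2.2.1 D (hS i j hij hD) with h6 | h6
        · exact h6
        · exact absurd (hy D hD) (Finset.disjoint_left.1 h6.2 hyP)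
      have hzP : cS G (S l) ∈ P := by
        rcases hz' with h7 | h7
        · exact h7
        · exact absurd (hz D0 hD0) (Finset.disjoint_left.1 (hkind D0 (hS j l hjl hD0)).2 h7)
      exact fun D hD => (hkind D hD).1 hzP
    have hzI : cS G (S l) ∈ Isec (S j) := by
      rcases hyPQ with h6 | h6
      · exact key P Q h h6 hzPQ
      · exact key Q P h.symm h6 hzPQ.symm
    apply rk_inj
    refine le_antisymm ?_ ?_
    · rw [cS_I (G := G) h2]; exact mn_le hzI
    · have := mn_le (Isec_anti (hS j l hjl) hy)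
      rwa [← cS_I (G := G) h3] at this
  -- the centre has common elements
  have hB : ∀ i j l, j ≤ l → l ≤ i → ¬ (Isec (S j)).Nonempty → ¬ (Isec (S l)).Nonempty →
      (Isec (S i)).Nonempty → ¬ G.Adj (cS G (S i)) (cS G (S j)) →
      ¬ G.Adj (cS G (S i)) (cS G (S l)) → cS G (S j) = cS G (S l) := by
    intro i j l hjl hli h1 h2 h3 h4 h5
    have hs : ∀ j, ¬ (Isec (S j)).Nonempty → (spl G (S j)).Nonempty := by
      intro j h1
      rcases hM j with ⟨s, hs⟩ | ⟨P, Q, h⟩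
      · exact absurd ⟨s, hs⟩ h1
      · obtain ⟨p, hp⟩ := h.1
        exact ⟨p, P, Q, h, Or.inl hp⟩
    have hy := mn_mem (hs j h1)
    have hz := mn_mem (hs l h2)
    rw [← cS_s h1 (hs j h1)] at hy
    rw [← cS_s h2 (hs l h2)] at hz
    have hx := mn_mem h3
    rw [← cS_I (G := G) h3] at hx
    obtain ⟨P, Q, h, hyPQ⟩ := id hy
    obtain ⟨D0, hD0⟩ := hne i
    have hxPQ : cS G (S i) ∈ P ∨ cS G (S i) ∈ Q := by
      by_contra hcon
      rw [not_or] at hcon
      exact h4 (h.2.2.2 D0 (hS j i (hjl.trans hli) hD0) _ (hx D0 hD0) hcon.1 hcon.2 _ hyPQ)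
    by_cases hzPQ : cS G (S l) ∈ P ∨ cS G (S l) ∈ Q
    · apply rk_inj
      refine le_antisymm ?_ ?_
      · rw [cS_s h1 (hs j h1)]; exact mn_le ⟨P, Q, h, hzPQ⟩
      · have := mn_le (spl_anti (hS j l hjl) hy)
        rwa [← cS_s h2 (hs l h2)] at this
    · rw [not_or] at hzPQ
      obtain ⟨D, hD, hzD⟩ := spl_in h2 hz
      exact absurd (h.2.2.2 D (hS j l hjl hD) _ hzD hzPQ.1 hzPQ.2 _ hxPQ).symm h5
  rintro _ ⟨i, rfl⟩ _ ⟨j, rfl⟩ _ ⟨l, rfl⟩ hxy hxz nxy nxz
  rcases hord i j hxy nxy with ⟨a1, a2, a3⟩ | ⟨a1, a2, a3⟩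
  · rcases hord i l hxz nxz with ⟨b1, b2, b3⟩ | ⟨b1, b2, b3⟩
    · rcases le_total j l with h | h
      · exact hA i j l a1 h a2 a3 b3 nxy nxz
      · exact (hA i l j b1 h b2 b3 a3 nxz nxy).symm
    · exact absurd b3 a2
  · rcases hord i l hxz nxz with ⟨b1, b2, b3⟩ | ⟨b1, b2, b3⟩
    · exact absurd a3 b2
    · rcases le_total j l with h | h
      · exact hB i j l h b1 a2 b2 a3 nxy nxz
      · exact (hB i l j h a1 b2 a2 b3 nxz nxy).symm

end

end Pool.Agent.J4.H51.AC
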