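import Pool.Agent.J4.H51.AC.Coch2

/-!
The values of the cochain at the simplices.
-/

set_option autoImplicit false

open scoped Classical

namespace Pool.Agent.J4.H51.AC

open Pool.Agent.W907.SG (W cox)
open Pool.Agent.Q134.SV Pool.Agent.J4.H51.JC

variable {V : Type} [Fintype V] {G : SimpleGraph V} {n : ℕ} {Ψ : (Fin n → Finset V) → ℝ}

variable {s : Fin n → V} (hs : ∀ i j, i ≠ j → G.Adj (s i) (s j))

include hs

/-- the local term vanishes outside of the points -/
theorem cobd_out (h : OK G Ψ) (v : W G) (hv : ∀ i, v ≠ Fin.partialProd (gen G ∘ s) i) :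
    (cobd Ψ fun i => dr v (Fin.partialProd (gen G ∘ s) i)) = 0 := by
  have hne : ∀ i, (dr v (Fin.partialProd (gen G ∘ s) i)).Nonempty := by
    intro i
    rw [Finset.nonempty_iff_ne_empty]
    exact fun e => hv i (dr_eq_empty.1 e)
  by_cases hA : ∃ j : Fin n, wl G v (s j) ≠ gen G (s j)
  · obtain ⟨j, hj⟩ := hA
    refine cobd_adj Ψ h.adj _ j ?_
    ext x
    rw [mem_dr, mem_dr, sep_tri _ v (Fin.partialProd (gen G ∘ s) j.castSucc)
      (Fin.partialProd (gen G ∘ s) j.succ)]
    have h1 : ¬ Sep G (wl G v x) (Fin.partialProd (gen G ∘ s) j.castSucc)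
        (Fin.partialProd (gen G ∘ s) j.succ) := by
      rw [Fin.partialProd_succ, Function.comp_apply, sep_wl, wl_pp hs]
      intro e
      apply hj
      have e' := e
      rw [← wl_one (G := G) (s j)] at e'
      rw [← wl_label e']
      rw [e, wl_label e']
    tauto
  · push Not at hA
    by_cases hB : ∃ a ∈ dr v (Fin.partialProd (gen G ∘ s) 0), ∀ l, a ≠ s l
    · obtain ⟨a, ha, hal⟩ := hB
      refine h.mv _ hne (fun i => dr_cq _ _) (Or.inl ⟨a, fun D hD => ?_⟩)
      rw [Finset.mem_image] at hD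
      obtain ⟨i, -, rfl⟩ := hD
      rw [mem_dr] at ha ⊢
      rw [sep_tri _ v (Fin.partialProd (gen G ∘ s) 0)]
      have h1 : ¬ Sep G (wl G v a) (Fin.partialProd (gen G ∘ s) 0)
          (Fin.partialProd (gen G ∘ s) i) := by
        rw [sep_pp hs]
        rintro ⟨l, -, e⟩
        rw [← wl_one (G := G) (s l)] at e
        exact hal l (wl_label e)
      tauto
    · push Not at hB
      have hx : ∀ x i, x ∈ dr v (Fin.partialProd (gen G ∘ s) i) → ∃ l, x = s l := by
        intro x i hi
        by_cases hx0 : x ∈ dr v (Fin.partialProd (gen G ∘ s) 0)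
        · exact hB x hx0
        · rw [mem_dr] at hi hx0
          rw [sep_tri _ v (Fin.partialProd (gen G ∘ s) 0)] at hi
          have h2 : Sep G (wl G v x) (Fin.partialProd (gen G ∘ s) 0)
            (Fin.partialProd (gen G ∘ s) i) := by tauto
          rw [sep_pp hs] at h2
          obtain ⟨l, -, e⟩ := h2
          rw [← wl_one (G := G) (s l)] at e
          exact ⟨l, wl_label e⟩
      refine h.cl _ hne ?_
      rintro x ⟨i, hi⟩ y ⟨j, hj⟩ hxy
      obtain ⟨l, rfl⟩ := hx x i hi
      obtain ⟨l', rfl⟩ := hx y j hj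
      exact hs l l' fun e => hxy (by rw [e])

omit [Fintype V] hs in
theorem cobd_emp {X : Type} [Fintype X] (Ψ : (Fin n → Finset X) → ℝ)
    (h : ∀ τ : Fin n → Finset X, ∀ i, τ i = ∅ → Ψ τ = 0)
    (τ : Fin (n + 1) → Finset X) (i : Fin (n + 1)) (hi : τ i = ∅) :
    cobd Ψ τ = (-1) ^ (i : ℕ) * Ψ (τ ∘ i.succAbove) := by
  unfold cobd
  rw [Finset.sum_eq_single i]
  · intro k _ hk
    obtain ⟨i', hi'⟩ := Fin.exists_succAbove_eq (x := i) (y := k) hk.symm
    rw [h _ i' (by simp [hi', hi]), mul_zero]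
  · intro hn; exact absurd (Finset.mem_univ _) hn

/-- the value at a simplex -/
theorem be_val (h : OK G Ψ) : be G Ψ (Fin.partialProd (gen G ∘ s)) =
    ∑ i : Fin (n + 1), Ψ ((fun j => dr (Fin.partialProd (gen G ∘ s) i)
      (Fin.partialProd (gen G ∘ s) j)) ∘ i.succAbove) := by
  rw [be_eq_sum _ (Finset.univ.image (Fin.partialProd (gen G ∘ s))),
    Finset.sum_image (fun a _ b _ e => pp_inj hs e)]
  · refine Finset.sum_congr rfl fun i _ => ?_
    rw [par_pp, cobd_emp Ψ h.emp _ i (dr_eq_empty.2 rfl), ← mul_assoc, ← mul_pow]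
    simp
  · intro v hv
    by_contra hn'
    apply hv
    refine cobd_out hs h v fun i e => hn' ?_
    rw [e]
    simp

end Pool.Agent.J4.H51.AC
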