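import Pool.Agent.J4.H51.AC.SpDefs
import Pool.Agent.J4.H51.AC.Val2

/-!
The bounded cochain of an orbit of vertices of a special cubulated manifold.
-/

set_option autoImplicit false

open scoped Classical

namespace Pool.Agent.J4.H51.AC

open Pool.Agent.W907.SG (W cox chiW)
open Pool.Agent.Q134.SV Pool.Agent.J4.H51.JC

variable {V : Type} [Fintype V] {G : SimpleGraph V} {n : ℕ}

/-- the vertices in `O` with nonzero local term -/
def So (O : Set (W G)) (Ψ : (Fin n → Finset V) → ℝ) (g : Fin (n + 1) → W G) : Set (W G) :=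
  {v | v ∈ O ∧ (cobd Ψ fun i => dr v (g i)) ≠ 0}

theorem bo_eq_sum {O : Set (W G)} {Ψ : (Fin n → Finset V) → ℝ} (g : Fin (n + 1) → W G)
    (s : Finset (W G)) (hs : So O Ψ g ⊆ s) :
    bo G O Ψ g = ∑ v ∈ s, if v ∈ O then cobd Ψ (fun i => dr v (g i)) else 0 := by
  unfold bo
  refine finsum_eq_sum_of_support_subset _ ?_
  intro v hv
  apply hs
  rw [Function.mem_support] at hv
  by_cases hO : v ∈ O
  · rw [if_pos hO] at hv
    exact ⟨hO, hv⟩
  · rw [if_neg hO] at hv
    exact absurd rfl hv

section G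

variable {K : Set V} {X O : Set (W G)} {Ψ : (Fin n → Finset V) → ℝ} (h : OKK G K Ψ)
  (hO : ∀ v ∈ O, ∀ g ∈ X, (dr v g : Set V) ⊆ K)

include h hO

/-- the number of the vertices with nonzero local term is bounded -/
theorem So_card : ∃ B : ℕ, ∀ g : Fin (n + 1) → W G, (∀ i, g i ∈ X) →
    (So O Ψ g).Finite ∧ (So O Ψ g).ncard ≤ B := by
  obtain ⟨N, hN⟩ := many (G := G) (n + 1)
  have key : ∀ (g : Fin (n + 1) → W G), (∀ i, g i ∈ X) →
      ∀ (s : Finset (W G)), (s : Set (W G)) ⊆ So O Ψ g →
      s.card ≤ (n + 1) + Fintype.card (Fin (n + 1) → Finset V) * N := by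
    intro g hg s hs
    have h1 : s.card ≤ (s.filter fun v => ∃ i, v = g i).card +
        (s.filter fun v => ¬ ∃ i, v = g i).card := by
      rw [Finset.card_filter_add_card_filter_not]
    have h2 : (s.filter fun v => ∃ i, v = g i).card ≤ n + 1 := by
      calc (s.filter fun v => ∃ i, v = g i).card ≤ (Finset.univ.image g).card := by
            refine Finset.card_le_card fun v hv => ?_
            rw [Finset.mem_filter] at hv
            obtain ⟨i, rfl⟩ := hv.2
            exact Finset.mem_image_of_mem _ (Finset.mem_univ _)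
        _ ≤ (Finset.univ : Finset (Fin (n + 1))).card := Finset.card_image_le
        _ = n + 1 := by simp
    have h3 : (s.filter fun v => ¬ ∃ i, v = g i).card ≤
        Fintype.card (Fin (n + 1) → Finset V) * N := by
      have := Finset.card_le_mul_card_image_of_maps_to
        (s := s.filter fun v => ¬ ∃ i, v = g i) (f := fun v i => dr v (g i))
        (t := (Finset.univ : Finset (Fin (n + 1) → Finset V)))
        (fun _ _ => Finset.mem_univ _) N (by
          intro D _
          by_contra hcon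
          have hc : N ≤ ((s.filter fun v => ¬ ∃ i, v = g i).filter
            fun v => (fun i => dr v (g i)) = D).card := by omega
          have hM := hN g _ hc D (by
            intro v hv i
            rw [Finset.mem_filter] at hv
            exact congrFun hv.2 i)
          have hne : ((s.filter fun v => ¬ ∃ i, v = g i).filter
            fun v => (fun i => dr v (g i)) = D).Nonempty := by
            rw [← Finset.card_pos]; omega
          obtain ⟨v, hv⟩ := hne
          rw [Finset.mem_filter, Finset.mem_filter] at hv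
          obtain ⟨⟨hvs, hvg⟩, hvD⟩ := hv
          apply (hs hvs).2
          rw [hvD]
          refine h.mv D (fun i => ?_) (fun i => ?_) (fun i => ?_) hM
          · rw [← congrFun hvD i, Finset.nonempty_iff_ne_empty]
            intro e
            exact hvg ⟨i, dr_eq_empty.1 e⟩
          · rw [← congrFun hvD i]; exact dr_cq v (g i)
          · rw [← congrFun hvD i]; exact hO v (hs hvs).1 (g i) (hg i))
      rw [Finset.card_univ] at this
      linarith
    omega
  refine ⟨(n + 1) + Fintype.card (Fin (n + 1) → Finset V) * N, fun g hg => ?_⟩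
  have hfin : (So O Ψ g).Finite := by
    by_contra hinf
    obtain ⟨s, hs, hc⟩ := Set.Infinite.exists_subset_card_eq (s := So O Ψ g) hinf
      ((n + 1) + Fintype.card (Fin (n + 1) → Finset V) * N + 1)
    have := key g hg s hs
    omega
  refine ⟨hfin, ?_⟩
  rw [Set.ncard_eq_toFinset_card _ hfin]
  exact key g hg _ (by rw [Set.Finite.coe_toFinset])

theorem bo_bound : ∃ B : ℝ, ∀ g : Fin (n + 1) → W G, (∀ i, g i ∈ X) → |bo G O Ψ g| ≤ B := by
  obtain ⟨B, hB⟩ := So_card h hO
  refine ⟨B * ((n + 1) * ∑ τ, |Ψ τ|), fun g hg => ?_⟩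
  have hM : ∀ τ, |Ψ τ| ≤ ∑ τ, |Ψ τ| := fun τ =>
    Finset.single_le_sum (f := fun τ => |Ψ τ|) (fun _ _ => abs_nonneg _) (Finset.mem_univ τ)
  have hM0 : 0 ≤ ∑ τ, |Ψ τ| := Finset.sum_nonneg fun _ _ => abs_nonneg _
  obtain ⟨hf, hc⟩ := hB g hg
  rw [bo_eq_sum g hf.toFinset (by rw [Set.Finite.coe_toFinset])]
  calc |∑ v ∈ hf.toFinset, if v ∈ O then cobd Ψ (fun i => dr v (g i)) else 0|
      ≤ ∑ v ∈ hf.toFinset, |if v ∈ O then cobd Ψ (fun i => dr v (g i)) else 0| :=
        Finset.abs_sum_le_sum_abs _ _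
    _ ≤ ∑ _v ∈ hf.toFinset, ((n + 1) * ∑ τ, |Ψ τ|) := by
        refine Finset.sum_le_sum fun v _ => ?_
        split_ifs
        · exact cobd_le Ψ hM _
        · rw [abs_zero]; positivity
    _ = (hf.toFinset.card : ℝ) * ((n + 1) * ∑ τ, |Ψ τ|) := by
        rw [Finset.sum_const, nsmul_eq_mul]
    _ ≤ B * ((n + 1) * ∑ τ, |Ψ τ|) := by
        refine mul_le_mul_of_nonneg_right ?_ (by positivity)
        rw [← Set.ncard_eq_toFinset_card _ hf]
        exact_mod_cast hc

theorem bo_coc (g : Fin (n + 2) → W G) (hg : ∀ i, g i ∈ X) : cobd (bo G O Ψ) g = 0 := by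
  obtain ⟨B, hB⟩ := So_card h hO
  let s : Finset (W G) := Finset.univ.biUnion fun k : Fin (n + 2) =>
    (hB (g ∘ k.succAbove) fun i => hg _).1.toFinset
  have h1 : ∀ k : Fin (n + 2), bo G O Ψ (g ∘ k.succAbove) =
      ∑ v ∈ s, if v ∈ O then cobd Ψ ((fun i => dr v (g i)) ∘ k.succAbove) else 0 := by
    intro k
    refine bo_eq_sum _ s ?_
    intro v hv
    rw [Finset.mem_coe, Finset.mem_biUnion]
    exact ⟨k, Finset.mem_univ _, by rwa [Set.Finite.mem_toFinset]⟩
  unfold cobd
  simp only [h1, Finset.mul_sum]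
  rw [Finset.sum_comm]
  refine Finset.sum_eq_zero fun v _ => ?_
  by_cases hv : v ∈ O
  · simp only [if_pos hv]
    have h2 := cobd_cobd n Ψ fun i => dr v (g i)
    rw [cobd] at h2
    exact h2
  · simp only [if_neg hv, mul_zero, Finset.sum_const_zero]

omit h hO in
theorem bo_inv (γ : W G) (hγ : ∀ v, γ * v ∈ O ↔ v ∈ O) (g : Fin (n + 1) → W G) :
    bo G O Ψ (fun i => γ * g i) = bo G O Ψ g := by
  unfold bo
  rw [← finsum_comp_equiv (Equiv.mulLeft γ)]
  refine finsum_congr fun v => ?_
  simp only [Equiv.coe_mulLeft, dr_mul, hγ]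

omit hO in
/-- the local term vanishes outside of the points -/
theorem cobd_outK {s : Fin n → V} (hs : ∀ i j, i ≠ j → G.Adj (s i) (s j)) (v : W G)
    (hv : ∀ i, v ≠ Fin.partialProd (gen G ∘ s) i)
    (hK : ∀ i, (dr v (Fin.partialProd (gen G ∘ s) i) : Set V) ⊆ K) :
    (cobd Ψ fun i => dr v (Fin.partialProd (gen G ∘ s) i)) = 0 := by
  have hne : ∀ i, (dr v (Fin.partialProd (gen G ∘ s) i)).Nonempty := by
    intro i
    rw [Finset.nonempty_iff_ne_empty]
    exact fun e => hv i (dr_eq_empty.1 e)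
  by_cases hA : ∃ j : Fin n, wl G v (s j) ≠ gen G (s j)
  · obtain ⟨j, hj⟩ := hA
    refine cobd_adj Ψ h.adj _ j ?_
    ext x
    rw [mem_dr, mem_dr, sep_tri _ v (Fin.partialProd (gen G ∘ s) j.castSucc)
      (Fin.partialProd (gen G ∘ s) j.succ)]
    have h1 : ¬ Sep G (wl G v x) (Fin.partialProd (gen G ∘ s) j.castSucc)
        (Fin.partialProd (gen G ∘ s) j.succ) := by
      rw [Fin.partialProd_succ, Function.comp_apply, sep_wl, wl_pp hs]
      intro e
      apply hj
      have e' := e
      rw [← wl_one (G := G) (s j)] at e'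
      rw [← wl_label e']
      rw [e, wl_label e']
    tauto
  · push Not at hA
    by_cases hB : ∃ a ∈ dr v (Fin.partialProd (gen G ∘ s) 0), ∀ l, a ≠ s l
    · obtain ⟨a, ha, hal⟩ := hB
      refine h.mv _ hne (fun i => dr_cq _ _) hK (Or.inl ⟨a, fun D hD => ?_⟩)
      rw [Finset.mem_image] at hD
      obtain ⟨i, -, rfl⟩ := hD
      rw [mem_dr] at ha ⊢
      rw [sep_tri _ v (Fin.partialProd (gen G ∘ s) 0)]
      have h1 : ¬ Sep G (wl G v a) (Fin.partialProd (gen G ∘ s) 0)
          (Fin.partialProd (gen G ∘ s) i) := by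
        rw [sep_pp hs]
        rintro ⟨l, -, e⟩
        rw [← wl_one (G := G) (s l)] at e
        exact hal l (wl_label e)
      tauto
    · push Not at hB
      have hx : ∀ x i, x ∈ dr v (Fin.partialProd (gen G ∘ s) i) → ∃ l, x = s l := by
        intro x i hi
        by_cases hx0 : x ∈ dr v (Fin.partialProd (gen G ∘ s) 0)
        · exact hB x hx0
        · rw [mem_dr] at hi hx0
          rw [sep_tri _ v (Fin.partialProd (gen G ∘ s) 0)] at hi
          have h2 : Sep G (wl G v x) (Fin.partialProd (gen G ∘ s) 0)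
            (Fin.partialProd (gen G ∘ s) i) := by tauto
          rw [sep_pp hs] at h2
          obtain ⟨l, -, e⟩ := h2
          rw [← wl_one (G := G) (s l)] at e
          exact ⟨l, wl_label e⟩
      refine h.cl _ hne hK ?_
      rintro x ⟨i, hi⟩ y ⟨j, hj⟩ hxy
      obtain ⟨l, rfl⟩ := hx x i hi
      obtain ⟨l', rfl⟩ := hx y j hj
      exact hs l l' fun e => hxy (by rw [e])

/-- the value at a cube -/
theorem bo_val {s : Fin n → V} (hs : ∀ i j, i ≠ j → G.Adj (s i) (s j)) (w : W G)
    (hw : ∀ i, w * Fin.partialProd (gen G ∘ s) i ∈ X) :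
    bo G O Ψ (fun i => w * Fin.partialProd (gen G ∘ s) i) =
      ∑ i : Fin (n + 1), if w * Fin.partialProd (gen G ∘ s) i ∈ O then (-1 : ℝ) ^ (i : ℕ) *
        Ψ ((fun j => dr (Fin.partialProd (gen G ∘ s) i)
          (Fin.partialProd (gen G ∘ s) j)) ∘ i.succAbove) else 0 := by
  unfold bo
  rw [← finsum_comp_equiv (Equiv.mulLeft w)]
  simp only [Equiv.coe_mulLeft, dr_mul]
  rw [finsum_eq_sum_of_support_subset (s := Finset.univ.image (Fin.partialProd (gen G ∘ s))),
    Finset.sum_image (fun a _ b _ e => pp_inj hs e)]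
  · refine Finset.sum_congr rfl fun i _ => ?_
    split_ifs
    · rw [cobd_emp Ψ h.emp _ i (dr_eq_empty.2 rfl)]
    · rfl
  · intro v hv
    rw [Function.mem_support] at hv
    by_contra hn'
    apply hv
    split_ifs with hvO
    · refine cobd_outK h hs v (fun i e => hn' ?_) fun i => ?_
      · rw [e]
        simp
      · have := hO _ hvO _ (hw i)
        rwa [dr_mul] at this
    · rfl

end G

end Pool.Agent.J4.H51.AC
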