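import Pool.Agent.J4.H51.AC.NuDefs

/-!
The family of relative cochains `ν`, constructed by recursion from the cohomology of the flag sphere.
-/

set_option autoImplicit false

open scoped Classical

namespace Pool.Agent.J4.H51.AC

open Pool.Agent.W907.SG (W cox chiW)
open Pool.Agent.Q134.SV Pool.Agent.J4.H51.JC

theorem dbl {X : Type} : ∀ (k : ℕ) (F : X → X → (Fin k → X) → ℝ), (∀ p q y, F p q y = F q p y) →
    ∀ x : Fin (k + 2) → X, ∑ i : Fin (k + 2), ∑ j : Fin (k + 1), (-1 : ℝ) ^ (i : ℕ) * ((-1 : ℝ) ^ (j : ℕ) *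
      F (x i) ((x ∘ i.succAbove) j) ((x ∘ i.succAbove) ∘ j.succAbove)) = 0 := by
  intro k F hF x
  rw [← Fintype.sum_prod_type' (f := fun (i : Fin (k + 2)) (j : Fin (k + 1)) =>
    (-1 : ℝ) ^ (i : ℕ) * ((-1 : ℝ) ^ (j : ℕ) *
      F (x i) ((x ∘ i.succAbove) j) ((x ∘ i.succAbove) ∘ j.succAbove)))]
  refine Finset.sum_involution (fun p _ => (p.1.succAbove p.2, p.2.predAbove p.1)) ?_ ?_ ?_ ?_
  · rintro ⟨i, j⟩ _
    simp only [Function.comp_apply]
    have e1 : (x ∘ (i.succAbove j).succAbove) ∘ (j.predAbove i).succAbove =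
        (x ∘ i.succAbove) ∘ j.succAbove := by
      funext l
      simp only [Function.comp_apply]
      rw [Fin.succAbove_succAbove_succAbove_predAbove]
    rw [e1, Fin.succAbove_succAbove_predAbove, hF (x (i.succAbove j)) (x i)]
    have e2 := Fin.neg_one_pow_succAbove_add_predAbove (R := ℝ) i j
    rw [pow_add, pow_add] at e2
    linear_combination (F (x i) (x (i.succAbove j)) ((x ∘ i.succAbove) ∘ j.succAbove)) * e2
  · rintro ⟨i, j⟩ _ _ h
    exact Fin.succAbove_ne i j (congrArg Prod.fst h)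
  · intro _ _
    exact Finset.mem_univ _
  · rintro ⟨i, j⟩ _
    simp only [Fin.succAbove_succAbove_predAbove, Fin.predAbove_predAbove_succAbove]

variable {V : Type} {G : SimpleGraph V}

theorem Rel.zero (η : Finset V) (d : ℕ) : Rel G η d (0 : (Fin d → V) → ℝ) :=
  ⟨fun v i j _ => by simp, fun v hv => absurd rfl hv⟩

theorem Rel.mono {η η' : Finset V} (h : η ⊆ η') {d : ℕ} {f : (Fin d → V) → ℝ} (hf : Rel G η' d f) :
    Rel G η d f :=
  ⟨hf.1, fun v hv => ⟨(hf.2 v hv).1, fun x hx => (hf.2 v hv).2 x (h hx)⟩⟩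

theorem Rel.sub {η : Finset V} {d : ℕ} {f g : (Fin d → V) → ℝ} (hf : Rel G η d f)
    (hg : Rel G η d g) : Rel G η d (fun v => f v - g v) := by
  refine ⟨fun v i j hij => ?_, fun v hv => ?_⟩
  · simp only
    rw [hf.1 v i j hij, hg.1 v i j hij]
    ring
  · by_cases h0 : f v = 0
    · by_cases h1 : g v = 0
      · exact absurd (by simp [h0, h1]) hv
      · exact hg.2 v h1
    · exact hf.2 v h0

theorem Rel.smul {η : Finset V} {d : ℕ} {f : (Fin d → V) → ℝ} (hf : Rel G η d f) (r : ℝ) :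
    Rel G η d (fun v => r * f v) := by
  refine ⟨fun v i j hij => ?_, fun v hv => hf.2 v fun h0 => hv (by simp [h0])⟩
  simp only
  rw [hf.1 v i j hij]
  ring

theorem Rel.sum {η : Finset V} {d : ℕ} {ι : Type} (s : Finset ι) (f : ι → (Fin d → V) → ℝ)
    (hf : ∀ i ∈ s, Rel G η d (f i)) : Rel G η d (fun v => ∑ i ∈ s, f i v) := by
  refine ⟨fun v i j hij => ?_, fun v hv => ?_⟩
  · simp only
    rw [← Finset.sum_neg_distrib]
    exact Finset.sum_congr rfl fun l hl => (hf l hl).1 v i j hij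
  · obtain ⟨l, hl, h⟩ := Finset.exists_ne_zero_of_sum_ne_zero hv
    exact (hf l hl).2 v h

theorem Gd.rem {η : Finset V} {k : ℕ} {x : Fin (k + 1) → V} (h : Gd G η x) (i : Fin (k + 1)) :
    Gd G η (x ∘ i.succAbove) :=
  ⟨h.1.comp (Fin.succAbove_right_injective), fun _ => h.2.1 _,
    h.2.2.subset (Set.union_subset_union_right _ (Set.range_comp_subset_range _ _))⟩

theorem Gd.ins {η : Finset V} {k : ℕ} {x : Fin (k + 1) → V} (h : Gd G η x) (i : Fin (k + 1)) :
    Gd G (insert (x i) η) (x ∘ i.succAbove) := by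
  refine ⟨h.1.comp (Fin.succAbove_right_injective), fun j => ?_, ?_⟩
  · rw [Finset.mem_insert, not_or]
    exact ⟨fun e => Fin.succAbove_ne i j (h.1 e), h.2.1 _⟩
  · refine h.2.2.subset ?_
    rw [Finset.coe_insert]
    refine Set.union_subset (Set.insert_subset (Or.inr ⟨i, rfl⟩) Set.subset_union_left)
      ((Set.range_comp_subset_range _ _).trans Set.subset_union_right)

theorem Gd.clique {η : Finset V} {k : ℕ} {x : Fin k → V} (h : Gd G η x) :
    G.IsClique (η : Set V) := h.2.2.subset Set.subset_union_left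

theorem Gd.clique_ins {η : Finset V} {k : ℕ} {x : Fin (k + 1) → V} (h : Gd G η x)
    (i : Fin (k + 1)) : G.IsClique ((insert (x i) η : Finset V) : Set V) := (h.ins i).clique

/-- the right side of the recursion -/
noncomputable def nuRho {k : ℕ} (ν : Finset V → (Fin k → V) → Tot V) (η : Finset V)
    (x : Fin (k + 1) → V) : Tot V := fun d w =>
  ∑ i : Fin (k + 1), (-1 : ℝ) ^ (i : ℕ) * (ν (insert (x i) η) (x ∘ i.succAbove) d w -
    ν η (x ∘ i.succAbove) d w)

theorem nuRho_rel {k : ℕ} {ν : Finset V → (Fin k → V) → Tot V}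
    (hν : ∀ (η : Finset V) x, G.IsClique (η : Set V) → ∀ d, Rel G η d (ν η x d)) {η : Finset V}
    {x : Fin (k + 1) → V} (hx : Gd G η x) (d : ℕ) : Rel G η d (nuRho ν η x d) := by
  refine Rel.sum _ _ fun i _ => ?_
  refine Rel.smul ?_ _
  exact Rel.sub ((hν _ _ (hx.clique_ins i) d).mono (Finset.subset_insert _ _))
    (hν _ _ hx.clique d)

theorem cobd_nuRho {k : ℕ} (ν : Finset V → (Fin k → V) → Tot V) (η : Finset V)
    (x : Fin (k + 1) → V) (d : ℕ) (w : Fin (d + 1) → V) : cobd (nuRho ν η x d) w =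
      ∑ i : Fin (k + 1), (-1 : ℝ) ^ (i : ℕ) * (cobd (ν (insert (x i) η) (x ∘ i.succAbove) d) w -
        cobd (ν η (x ∘ i.succAbove) d) w) := by
  unfold cobd nuRho
  simp only [Finset.mul_sum, ← Finset.sum_sub_distrib]
  rw [Finset.sum_comm]
  refine Finset.sum_congr rfl fun i _ => Finset.sum_congr rfl fun j _ => ?_
  ring

/-- the properties of one member of the family -/
structure NuP {V : Type} [Fintype V] (G : SimpleGraph V) (n : ℕ) (a : (Fin n → V) → ℝ) (k : ℕ)
    (ν : Finset V → (Fin k → V) → Tot V) : Prop where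
  rel : ∀ (η : Finset V) x, G.IsClique (η : Set V) → ∀ d, Rel G η d (ν η x d)
  deg : ∀ η x d, d + k ≠ n → ν η x d = 0
  gd : ∀ η x, ¬ Gd G η x → ν η x = 0
  int : k = 0 → ∀ (η : Finset V) x, G.IsClique (η : Set V) → ∑ v, a v * ν η x n v = 1
  clo : ∀ (η : Finset V) (x : Fin (k + 1) → V), Gd G η x → ∀ d (w : Fin (d + 1) → V),
    (∀ i j, i ≠ j → G.Adj (w i) (w j)) → cobd (nuRho ν η x d) w = 0

variable [Fintype V]

theorem nu_base {n : ℕ} {a : (Fin n → V) → ℝ} (hG : HSph n G a) :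
    ∃ ν : Finset V → (Fin 0 → V) → Tot V, NuP G n a 0 ν := by
  have h1 : ∀ η : Finset V, ∃ f : (Fin n → V) → ℝ, (G.IsClique (η : Set V) →
      Rel G η n f ∧ ∑ v, a v * f v = 1) ∧ (¬ G.IsClique (η : Set V) → f = 0) := by
    intro η
    by_cases hη : G.IsClique (η : Set V)
    · obtain ⟨f, hf, h0⟩ := hG.gen η hη
      refine ⟨fun v => (∑ v, a v * f v)⁻¹ * f v, fun _ => ⟨hf.smul _, ?_⟩, fun h => absurd hη h⟩
      rw [← mul_inv_cancel₀ h0, Finset.sum_mul]
      exact Finset.sum_congr rfl fun v _ => by ring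
    · exact ⟨0, fun h => absurd h hη, fun _ => rfl⟩
  choose f hf hf0 using h1
  let ν : Finset V → (Fin 0 → V) → Tot V := fun η _ d =>
    if h : d = n then fun v => f η (v ∘ Fin.cast h.symm) else 0
  have hνn : ∀ η x, ν η x n = f η := by
    intro η x
    simp only [ν, dif_pos rfl]
    rfl
  have hν0 : ∀ η x d, d ≠ n → ν η x d = 0 := by
    intro η x d hd
    simp only [ν, dif_neg hd]
  refine ⟨ν, ?_, ?_, ?_, ?_, ?_⟩
  · intro η x hη d
    by_cases hd : d = n
    · subst hd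
      rw [hνn η x]
      exact (hf η hη).1
    · rw [hν0 η x d hd]
      exact Rel.zero _ _
  · intro η x d hd
    exact hν0 η x d (by simpa using hd)
  · intro η x hx
    have hη : ¬ G.IsClique (η : Set V) := by
      intro hη
      refine hx ⟨fun i => i.elim0, fun i => i.elim0, ?_⟩
      simpa using hη
    funext d
    by_cases hd : d = n
    · subst hd
      rw [hνn η x, hf0 η hη]
      rfl
    · rw [hν0 η x d hd]
      rfl
  · intro _ η x hη
    rw [hνn η x]
    exact (hf η hη).2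
  · intro η x hx d w hw
    by_cases hd : d = n
    · subst hd
      obtain ⟨i, j, hij, h⟩ := hG.dim w
      exact absurd (hw i j hij) h
    · rw [cobd_nuRho]
      refine Finset.sum_eq_zero fun i _ => ?_
      rw [hν0 (insert (x i) η) (x ∘ i.succAbove) d hd, hν0 η (x ∘ i.succAbove) d hd]
      simp

theorem nu_step {n : ℕ} {a : (Fin n → V) → ℝ} (hG : HSph n G a) (k : ℕ)
    (ν : Finset V → (Fin k → V) → Tot V) (h : NuP G n a k ν) :
    ∃ ν' : Finset V → (Fin (k + 1) → V) → Tot V, NuP G n a (k + 1) ν' ∧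
      ∀ (η : Finset V) (x : Fin (k + 1) → V), Gd G η x → ∀ d (w : Fin (d + 1) → V),
        (∀ i j, i ≠ j → G.Adj (w i) (w j)) → cobd (ν' η x d) w = nuRho ν η x (d + 1) w := by
  have h1 : ∀ (η : Finset V) (x : Fin (k + 1) → V) (d : ℕ), ∃ g : (Fin d → V) → ℝ,
      ((Gd G η x ∧ d + (k + 1) = n) → Rel G η d g ∧
        ∀ w : Fin (d + 1) → V, (∀ i j, i ≠ j → G.Adj (w i) (w j)) →
          cobd g w = nuRho ν η x (d + 1) w) ∧ (¬ (Gd G η x ∧ d + (k + 1) = n) → g = 0) := by
    intro η x d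
    by_cases hc : Gd G η x ∧ d + (k + 1) = n
    swap
    · exact ⟨0, fun h => absurd h hc, fun _ => rfl⟩
    obtain ⟨hx, hd⟩ := hc
    have hR : Rel G η (d + 1) (nuRho ν η x (d + 1)) := nuRho_rel h.rel hx (d + 1)
    have hE : Ex G η (d + 1) (nuRho ν η x (d + 1)) := by
      by_cases hdn : d + 1 = n
      · subst hdn
        have hk : k = 0 := by omega
        subst hk
        refine hG.top η hx.clique _ hR ?_
        have e1 := h.int rfl (insert (x 0) η) (x ∘ (0 : Fin 1).succAbove) (hx.clique_ins 0)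
        have e2 := h.int rfl η (x ∘ (0 : Fin 1).succAbove) hx.clique
        have e3 : ∀ v, a v * nuRho ν η x (d + 1) v =
            a v * ν (insert (x 0) η) (x ∘ (0 : Fin 1).succAbove) (d + 1) v -
              a v * ν η (x ∘ (0 : Fin 1).succAbove) (d + 1) v := by
          intro v
          unfold nuRho
          rw [Fin.sum_univ_one]
          simp
          ring
        rw [Finset.sum_congr rfl fun v _ => e3 v, Finset.sum_sub_distrib, e1, e2, sub_self]
      · exact hG.ex η hx.clique (d + 1) _ hR (fun w hw => h.clo η x hx (d + 1) w hw) hdn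
    obtain ⟨g, hg1, hg2⟩ := hE
    exact ⟨g, fun _ => ⟨hg1, hg2⟩, fun hn => absurd ⟨hx, hd⟩ hn⟩
  choose ν' hν' hν'0 using h1
  have hQ : ∀ (η : Finset V) (x : Fin (k + 1) → V), Gd G η x → ∀ d (w : Fin (d + 1) → V),
        (∀ i j, i ≠ j → G.Adj (w i) (w j)) → cobd (ν' η x d) w = nuRho ν η x (d + 1) w := by
    intro η x hx d w hw
    by_cases hd : d + (k + 1) = n
    · exact (hν' η x d ⟨hx, hd⟩).2 w hw
    · rw [hν'0 η x d (fun hc => hd hc.2)]
      unfold nuRho
      symm
      rw [show cobd (0 : (Fin d → V) → ℝ) w = 0 by simp [cobd]]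
      refine Finset.sum_eq_zero fun i _ => ?_
      rw [h.deg _ _ (d + 1) (by omega), h.deg _ _ (d + 1) (by omega)]
      simp
  refine ⟨ν', ⟨?_, ?_, ?_, ?_, ?_⟩, hQ⟩
  · intro η x hη d
    by_cases hc : Gd G η x ∧ d + (k + 1) = n
    · exact (hν' η x d hc).1
    · rw [hν'0 η x d hc]
      exact Rel.zero _ _
  · intro η x d hd
    exact hν'0 η x d fun hc => hd hc.2
  · intro η x hx
    funext d
    rw [hν'0 η x d fun hc => hx hc.1]
    rfl
  · intro hk
    exact absurd hk (Nat.succ_ne_zero k)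
  · intro η x hx d w hw
    rw [cobd_nuRho]
    have e1 : ∀ i : Fin (k + 2), (-1 : ℝ) ^ (i : ℕ) *
        (cobd (ν' (insert (x i) η) (x ∘ i.succAbove) d) w -
          cobd (ν' η (x ∘ i.succAbove) d) w) =
        ∑ j : Fin (k + 1), (-1 : ℝ) ^ (i : ℕ) * ((-1 : ℝ) ^ (j : ℕ) *
          (fun (p q : V) (y : Fin k → V) => ν (insert q (insert p η)) y (d + 1) w -
            ν (insert p η) y (d + 1) w - ν (insert q η) y (d + 1) w + ν η y (d + 1) w)
            (x i) ((x ∘ i.succAbove) j) ((x ∘ i.succAbove) ∘ j.succAbove)) := by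
      intro i
      rw [hQ _ _ (hx.ins i) d w hw, hQ _ _ (hx.rem i) d w hw]
      unfold nuRho
      rw [← Finset.sum_sub_distrib, Finset.mul_sum]
      refine Finset.sum_congr rfl fun j _ => ?_
      ring
    rw [Finset.sum_congr rfl fun i _ => e1 i]
    refine dbl k (fun (p q : V) (y : Fin k → V) => ν (insert q (insert p η)) y (d + 1) w -
            ν (insert p η) y (d + 1) w - ν (insert q η) y (d + 1) w + ν η y (d + 1) w) ?_ x
    intro p q y
    rw [Finset.insert_comm]
    ring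

theorem ex_nu {n : ℕ} {a : (Fin n → V) → ℝ} (hG : HSph n G a) :
    ∃ ν : (k : ℕ) → Finset V → (Fin k → V) → Tot V,
      (∀ k (η : Finset V) x, G.IsClique (η : Set V) → ∀ d, Rel G η d (ν k η x d)) ∧
      (∀ k η x d, d + k ≠ n → ν k η x d = 0) ∧
      (∀ k η x, ¬ Gd G η x → ν k η x = 0) ∧
      (∀ η : Finset V, G.IsClique (η : Set V) → ∀ x : Fin 0 → V, ∑ v, a v * ν 0 η x n v = 1) ∧
      (∀ k η (x : Fin (k + 1) → V), Gd G η x → ∀ d (w : Fin (d + 1) → V),
        (∀ i j, i ≠ j → G.Adj (w i) (w j)) → cobd (ν (k + 1) η x d) w =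
          ∑ i : Fin (k + 1), (-1 : ℝ) ^ (i : ℕ) * (ν k (insert (x i) η) (x ∘ i.succAbove) (d + 1) w -
            ν k η (x ∘ i.succAbove) (d + 1) w)) := by
  obtain ⟨ν0, h0⟩ := nu_base hG
  choose nx hnx hQ using nu_step hG
  let S : (k : ℕ) → {ν : Finset V → (Fin k → V) → Tot V // NuP G n a k ν} :=
    fun k => Nat.rec (motive := fun k => {ν : Finset V → (Fin k → V) → Tot V // NuP G n a k ν})
      ⟨ν0, h0⟩ (fun k s => ⟨nx k s.1 s.2, hnx k s.1 s.2⟩) k
  refine ⟨fun k => (S k).1, fun k => (S k).2.rel, fun k => (S k).2.deg, fun k => (S k).2.gd,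
    fun η hη x => (S 0).2.int rfl η x hη, fun k η x hx d w hw => ?_⟩
  exact hQ k (S k).1 (S k).2 η x hx d w hw

end Pool.Agent.J4.H51.AC
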