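import Pool.Agent.J4.H51.AC.NuDefs

/-!
The pairing of cochains and chains on the amenable sets, and the operators `R z`.
-/

set_option autoImplicit false

open scoped Classical

namespace Pool.Agent.J4.H51.AC

open Pool.Agent.W907.SG (W cox chiW)
open Pool.Agent.Q134.SV Pool.Agent.J4.H51.JC

variable {V : Type} [Fintype V] {G : SimpleGraph V}

theorem pr_bd {c : Tot V} (h : ∀ d, Alt (c d)) (d : ℕ) (f : (Fin d → V) → ℝ) :
    pr d f (bd c d) = pr (d + 1) (cobd f) (c (d + 1)) := by
  have h1 := adjoint (h (d + 1)) f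
  unfold pr bd
  have h2 : ∑ u, cobd f u * c (d + 1) u = ∑ w, c (d + 1) w * cobd f w :=
    Finset.sum_congr rfl fun _ _ => mul_comm _ _
  have h3 : ∑ u, f u * bdy (c (d + 1)) u = ∑ u, bdy (c (d + 1)) u * f u :=
    Finset.sum_congr rfl fun _ _ => mul_comm _ _
  rw [h2, h1, h3, Nat.factorial_succ]
  push_cast
  have h4 : ((d : ℝ) + 1) ≠ 0 := by positivity
  have h5 : (d.factorial : ℝ) ≠ 0 := by positivity
  field_simp

omit [Fintype V] in
/-- the part of an alternating chain on the simplices is alternating -/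
theorem alt_cl {n : ℕ} {b : (Fin n → V) → ℝ} (hb : Alt b) :
    Alt fun w => if (∀ i j, i ≠ j → G.Adj (w i) (w j)) then b w else 0 := by
  intro v i j hij
  have h1 : (∀ i' j', i' ≠ j' → G.Adj ((v ∘ Equiv.swap i j) i') ((v ∘ Equiv.swap i j) j')) ↔
      ∀ i' j', i' ≠ j' → G.Adj (v i') (v j') := by
    constructor
    · intro h a b hab
      have := h (Equiv.swap i j a) (Equiv.swap i j b) fun e => hab ((Equiv.swap i j).injective e)
      simpa using this
    · intro h a b hab
      exact h _ _ fun e => hab ((Equiv.swap i j).injective e)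
  by_cases hv : ∀ i' j', i' ≠ j' → G.Adj (v i') (v j')
  · simp only [if_pos (h1.2 hv), if_pos hv, hb v i j hij]
  · simp only [if_neg fun e => hv (h1.1 e), if_neg hv, neg_zero]

theorem pr_dl {c : Tot V} (h : ∀ d, Alt (c d)) (d : ℕ) (f : (Fin d → V) → ℝ) :
    pr (d + 1) (dl G f) (c (d + 1)) = (d.factorial : ℝ)⁻¹ * ∑ u, f u * ∑ w,
      (if (∀ i j, i ≠ j → G.Adj ((Fin.cons w u : Fin (d + 1) → V) i)
        ((Fin.cons w u : Fin (d + 1) → V) j)) then c (d + 1) (Fin.cons w u) else 0) := by
  have h1 := adjoint (alt_cl (G := G) (h (d + 1))) f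
  unfold pr
  have h2 : ∑ u, dl G f u * c (d + 1) u = ∑ w, (if (∀ i j, i ≠ j → G.Adj (w i) (w j)) then
      c (d + 1) w else 0) * cobd f w := by
    refine Finset.sum_congr rfl fun w _ => ?_
    unfold dl
    split_ifs
    · ring
    · ring
  rw [h2, h1, Nat.factorial_succ]
  unfold bdy
  have h3 : ∀ u : Fin d → V, (∑ x, if (∀ i j, i ≠ j → G.Adj ((Fin.cons x u : Fin (d + 1) → V) i)
        ((Fin.cons x u : Fin (d + 1) → V) j)) then c (d + 1) (Fin.cons x u) else 0) * f u =
      f u * ∑ x, if (∀ i j, i ≠ j → G.Adj ((Fin.cons x u : Fin (d + 1) → V) i)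
        ((Fin.cons x u : Fin (d + 1) → V) j)) then c (d + 1) (Fin.cons x u) else 0 :=
    fun u => mul_comm _ _
  rw [Finset.sum_congr rfl fun u _ => h3 u]
  push_cast
  have h4 : ((d : ℝ) + 1) ≠ 0 := by positivity
  have h5 : (d.factorial : ℝ) ≠ 0 := by positivity
  field_simp

omit [Fintype V] in
/-- the pairs in a set `insert w U`, where `U` is a clique -/
theorem Pr_iff {w : V} {U : Set V} (hw : w ∉ U)
    (hT : Am G (insert w U)) {y : V} (hy : y ∈ U) (hwy : ¬ G.Adj w y) (z : V) :
    Pr G (insert w U) z w ↔ z = w ∨ z = y := by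
  have hyw : y ≠ w := fun e => hw (e ▸ hy)
  constructor
  · rintro ⟨hz, x, hx, hxz, hadj, h1⟩
    rcases h1 with rfl | rfl
    · exact Or.inl rfl
    · have hzU : z ∈ U := by
        rcases hz with rfl | hz
        · exact absurd rfl hxz
        · exact hz
      refine Or.inr (hT w (Set.mem_insert _ _) z hz y (Set.mem_insert_of_mem _ hy) hxz hyw.symm
        (fun h => hadj h.symm) hwy)
  · rintro (rfl | rfl)
    · exact ⟨Set.mem_insert _ _, y, Set.mem_insert_of_mem _ hy, hyw, hwy, Or.inl rfl⟩
    · exact ⟨Set.mem_insert_of_mem _ hy, w, Set.mem_insert _ _, hyw.symm, fun h => hwy h.symm,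
        Or.inr rfl⟩

omit [Fintype V] in
theorem Pr_none {w : V} {U : Set V} (hw' : ∀ y ∈ U, G.Adj w y) (z : V) :
    ¬ Pr G (insert w U) z w := by
  rintro ⟨hz, x, hx, hxz, hadj, h1⟩
  rcases h1 with rfl | rfl
  · rcases hx with rfl | hx
    · exact hxz rfl
    · exact hadj (hw' x hx)
  · rcases hz with rfl | hz
    · exact hxz rfl
    · exact hadj (hw' z hz).symm

omit [Fintype V] in
/-- facts about a simplex `u` and a vertex `w` -/
theorem key {c : Tot V} (h : AmC G c) {d : ℕ} {u : Fin d → V} {w : V}
    (hu : ∀ i j, i ≠ j → G.Adj (u i) (u j)) (hc : c (d + 1) (Fin.cons w u) ≠ 0) :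
    (∀ x ∈ Set.range u, ∀ y ∈ Set.range u, x ≠ y → G.Adj x y) ∧ w ∉ Set.range u ∧
      Am G (insert w (Set.range u)) := by
  refine ⟨?_, ?_, ?_⟩
  · rintro _ ⟨i, rfl⟩ _ ⟨j, rfl⟩ hij
    exact hu i j fun e => hij (by rw [e])
  · rintro ⟨i, rfl⟩
    refine hc ((h.alt (d + 1)).self _ (i := 0) (j := i.succ) (Fin.succ_ne_zero i).symm ?_)
    simp
  · have := h.am _ _ hc
    rwa [Fin.range_cons] at this

omit [Fintype V] in
theorem cl_cons {d : ℕ} {u : Fin d → V} {w : V} (hu : ∀ i j, i ≠ j → G.Adj (u i) (u j)) :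
    (∀ i j, i ≠ j → G.Adj ((Fin.cons w u : Fin (d + 1) → V) i)
        ((Fin.cons w u : Fin (d + 1) → V) j)) ↔ ∀ y ∈ Set.range u, G.Adj w y := by
  constructor
  · rintro h _ ⟨i, rfl⟩
    have := h 0 i.succ (Fin.succ_ne_zero i).symm
    simpa using this
  · intro h i j
    refine Fin.cases ?_ (fun i => ?_) i
    · refine Fin.cases (fun e => absurd rfl e) (fun j _ => ?_) j
      simpa using h _ ⟨j, rfl⟩
    · refine Fin.cases (fun _ => ?_) (fun j hij => ?_) j
      · simpa using (h _ ⟨i, rfl⟩).symm
      · simpa using hu i j fun e => hij (by rw [e])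

theorem pr_R {d : ℕ} (f : (Fin d → V) → ℝ) (c : Tot V) (z : V) : pr d f (R G z c d) =
    - ((d.factorial : ℝ)⁻¹ * ∑ u, ∑ w, if Pr G (insert w (Set.range u)) z w then
      f u * c (d + 1) (Fin.cons w u) else 0) := by
  unfold pr R
  rw [← mul_neg, ← Finset.sum_neg_distrib]
  congr 1
  refine Finset.sum_congr rfl fun u _ => ?_
  rw [mul_neg, Finset.mul_sum]
  congr 1
  refine Finset.sum_congr rfl fun w _ => ?_
  rw [mul_ite, mul_zero]

/-- summation over `z` with a weight -/
theorem sum_pr_R {d : ℕ} (f : (Fin d → V) → ℝ) (c : Tot V) (P : V → Prop) [DecidablePred P] :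
    ∑ z, (if P z then pr d f (R G z c d) else 0) =
    - ((d.factorial : ℝ)⁻¹ * ∑ u, ∑ w, ∑ z, if P z ∧ Pr G (insert w (Set.range u)) z w then
      f u * c (d + 1) (Fin.cons w u) else 0) := by
  have h1 : ∀ z, (if P z then pr d f (R G z c d) else 0) =
      - ((d.factorial : ℝ)⁻¹ * ∑ u, ∑ w, if P z ∧ Pr G (insert w (Set.range u)) z w then
      f u * c (d + 1) (Fin.cons w u) else 0) := by
    intro z
    by_cases hz : P z
    · rw [if_pos hz, pr_R]
      simp only [hz, true_and]
    · rw [if_neg hz]
      simp only [hz, false_and, if_false, Finset.sum_const_zero, mul_zero, neg_zero]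
  rw [Finset.sum_congr rfl fun z _ => h1 z, Finset.sum_neg_distrib, ← Finset.mul_sum,
    Finset.sum_comm]
  congr 2
  refine Finset.sum_congr rfl fun u _ => ?_
  rw [Finset.sum_comm]

theorem sum_R {c : Tot V} (h : AmC G c) {η : Finset V} {d : ℕ} {f : (Fin d → V) → ℝ} (hf : Rel G η d f) :
    ∑ z, pr d f (R G z c d) = 2 * (pr (d + 1) (dl G f) (c (d + 1)) - pr d f (bd c d)) := by
  have h1 := sum_pr_R (G := G) f c fun _ => True
  simp only [if_true, true_and] at h1
  have h2 : pr d f (bd c d) = (d.factorial : ℝ)⁻¹ * ∑ u, f u * ∑ w, c (d + 1) (Fin.cons w u) := rfl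
  rw [h1, pr_dl h.alt, h2, ← mul_sub, mul_left_comm, ← mul_neg]
  congr 1
  rw [← Finset.sum_neg_distrib, ← Finset.sum_sub_distrib, Finset.mul_sum]
  refine Finset.sum_congr rfl fun u _ => ?_
  rw [← mul_sub, ← Finset.sum_sub_distrib, ← Finset.sum_neg_distrib, Finset.mul_sum, Finset.mul_sum]
  refine Finset.sum_congr rfl fun w _ => ?_
  by_cases hfu : f u = 0
  · simp [hfu]
  by_cases hc : c (d + 1) (Fin.cons w u) = 0
  · simp [hc]
  have hu := (hf.2 u hfu).1
  obtain ⟨hU, hw, hT⟩ := key h hu hc
  by_cases hw' : ∀ y ∈ Set.range u, G.Adj w y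
  · rw [if_pos ((cl_cons hu).2 hw'), sub_self, mul_zero, mul_zero,
      Finset.sum_eq_zero fun z _ => if_neg (Pr_none hw' z), neg_zero]
  · rw [if_neg fun e => hw' ((cl_cons hu).1 e)]
    push Not at hw'
    obtain ⟨y, hy, hwy⟩ := hw'
    have hyw : w ≠ y := fun e => hw (e ▸ hy)
    have h3 : ∑ z, (if Pr G (insert w (Set.range u)) z w then f u * c (d + 1) (Fin.cons w u) else 0)
        = 2 * (f u * c (d + 1) (Fin.cons w u)) := by
      simp only [Pr_iff hw hT hy hwy]
      rw [← Finset.sum_filter, Finset.sum_const]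
      have : (Finset.univ.filter fun z => z = w ∨ z = y) = {w, y} := by
        ext z; simp
      rw [this, Finset.card_pair hyw, nsmul_eq_mul]
      norm_num
    rw [h3]
    ring

theorem tel1 {c : Tot V} (h : AmC G c) {η : Finset V} (hη : G.IsClique (η : Set V)) {d : ℕ}
    {f : (Fin d → V) → ℝ} (hf : Rel G η d f) :
    ∑ x, (if x ∈ η then pr d f (R G x c d) else 0) =
      ∑ x, (if x ∉ η ∧ ¬ G.IsClique (insert x η : Set V) then pr d f (R G x c d) else 0) := by
  rw [sum_pr_R, sum_pr_R]
  congr 2
  refine Finset.sum_congr rfl fun u _ => Finset.sum_congr rfl fun w _ => ?_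
  by_cases hfu : f u = 0
  · simp [hfu]
  by_cases hc : c (d + 1) (Fin.cons w u) = 0
  · simp [hc]
  obtain ⟨hu, hηu⟩ := hf.2 u hfu
  obtain ⟨hU, hw, hT⟩ := key h hu hc
  by_cases hw' : ∀ y ∈ Set.range u, G.Adj w y
  · rw [Finset.sum_eq_zero fun z _ => if_neg fun e => Pr_none hw' z e.2,
      Finset.sum_eq_zero fun z _ => if_neg fun e => Pr_none hw' z e.2]
  · push Not at hw'
    obtain ⟨y, hy, hwy⟩ := hw'
    have hyw : w ≠ y := fun e => hw (e ▸ hy)
    simp only [Pr_iff hw hT hy hwy]
    have hwη : w ∉ η := fun e => hw (hηu w e)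
    have hyc : G.IsClique (insert y (η : Set V)) := by
      intro a ha b hb hab
      have hm : ∀ a ∈ insert y (η : Set V), a ∈ Set.range u := by
        rintro a (rfl | ha)
        · exact hy
        · exact hηu a ha
      exact hU a (hm a ha) b (hm b hb) hab
    have hwc : ¬ G.IsClique (insert w (η : Set V)) ↔ y ∈ η := by
      constructor
      · intro hn
        by_contra hyη
        apply hn
        rw [SimpleGraph.isClique_insert]
        refine ⟨hη, fun b hb hwb => ?_⟩
        by_contra hadj
        have hbU := hηu b hb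
        have := hT w (Set.mem_insert _ _) b (Set.mem_insert_of_mem _ hbU) y
          (Set.mem_insert_of_mem _ hy) hwb hyw hadj hwy
        exact hyη (this ▸ hb)
      · intro hyη hn
        exact hwy (hn (Set.mem_insert _ _) (Set.mem_insert_of_mem _ hyη) hyw)
    by_cases hyη : y ∈ η
    · rw [Finset.sum_eq_single y, Finset.sum_eq_single w]
      · rw [if_pos ⟨hyη, Or.inr rfl⟩, if_pos ⟨⟨hwη, hwc.2 hyη⟩, Or.inl rfl⟩]
      · rintro z - hz
        rw [if_neg]
        rintro ⟨⟨h1, h2⟩, h3 | h3⟩
        · exact hz h3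
        · exact h1 (h3 ▸ hyη)
      · exact fun e => absurd (Finset.mem_univ _) e
      · rintro z - hz
        rw [if_neg]
        rintro ⟨h1, h3 | h3⟩
        · exact hwη (h3 ▸ h1)
        · exact hz h3
      · exact fun e => absurd (Finset.mem_univ _) e
    · rw [Finset.sum_eq_zero, Finset.sum_eq_zero]
      · rintro z -
        rw [if_neg]
        rintro ⟨⟨h1, h2⟩, h3 | h3⟩
        · exact hyη (hwc.1 (h3 ▸ h2))
        · exact h2 (h3 ▸ hyc)
      · rintro z -
        rw [if_neg]
        rintro ⟨h1, h3 | h3⟩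
        · exact hwη (h3 ▸ h1)
        · exact hyη (h3 ▸ h1)

theorem pr_sub {d : ℕ} (f g c : (Fin d → V) → ℝ) : pr d (fun u => f u - g u) c = pr d f c - pr d g c := by
  unfold pr
  rw [← mul_sub, ← Finset.sum_sub_distrib]
  congr 1
  exact Finset.sum_congr rfl fun u _ => by ring

theorem tel {c : Tot V} (h : AmC G c) {d : ℕ} (κ : Finset V → (Fin d → V) → ℝ)
    (hκ : ∀ η : Finset V, G.IsClique (η : Set V) → Rel G η d (κ η)) :
    ∑ η : Finset V, (Pool.Agent.Q134.SE.tm G η : ℝ) * ∑ x, (if x ∉ η ∧ G.IsClique (insert x η : Set V) then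
      pr d (fun u => κ (insert x η) u - κ η u) (R G x c d) else 0) =
    - ∑ η : Finset V, (Pool.Agent.Q134.SE.tm G η : ℝ) * ∑ x, pr d (κ η) (R G x c d) := by
  set T : Finset V → ℝ := fun η => (Pool.Agent.Q134.SE.tm G η : ℝ) with hTdef
  set p : Finset V → V → ℝ := fun η x => pr d (κ η) (R G x c d) with hp
  -- the reindexing
  have h1 : ∑ η : Finset V, T η * ∑ x, (if x ∉ η ∧ G.IsClique (insert x η : Set V) then
      p (insert x η) x else 0) = - 2 * ∑ η : Finset V, T η * ∑ x, if x ∈ η then p η x else 0 := by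
    simp only [Finset.mul_sum]
    rw [Finset.sum_comm, Finset.sum_comm (s := Finset.univ) (t := Finset.univ)
      (f := fun η x => -2 * (T η * if x ∈ η then p η x else 0))]
    refine Finset.sum_congr rfl fun x _ => ?_
    have e1 : ∀ η : Finset V, T η * (if x ∉ η ∧ G.IsClique (insert x η : Set V) then
        p (insert x η) x else 0) = if x ∉ η then -2 * (T (insert x η) * p (insert x η) x) else 0 := by
      intro η
      by_cases hx : x ∈ η
      · simp [hx]
      · rw [if_pos hx]
        by_cases hc : G.IsClique (insert x η : Set V)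
        · rw [if_pos ⟨hx, hc⟩]
          have h2 : T (insert x η) = -1 / 2 * T η := by
            have h3 : G.IsClique ((insert x η : Finset V) : Set V) := by
              rw [Finset.coe_insert]; exact hc
            have h4 : G.IsClique (η : Set V) := hc.subset (Set.subset_insert _ _)
            simp only [hTdef, Pool.Agent.Q134.SE.tm, if_pos h3, if_pos h4,
              Finset.card_insert_of_notMem hx, pow_succ]
            push_cast
            ring
          rw [h2]
          ring
        · rw [if_neg fun e => hc e.2]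
          have h2 : T (insert x η) = 0 := by
            have h3 : ¬ G.IsClique ((insert x η : Finset V) : Set V) := by
              rw [Finset.coe_insert]; exact hc
            simp only [hTdef, Pool.Agent.Q134.SE.tm, if_neg h3]
            norm_num
          rw [h2]
          ring
    have e2 : ∀ η : Finset V, -2 * (T η * if x ∈ η then p η x else 0) =
        if x ∈ η then -2 * (T η * p η x) else 0 := by
      intro η
      split_ifs
      · rfl
      · ring
    rw [Finset.sum_congr rfl fun η _ => e1 η, Finset.sum_congr rfl fun η _ => e2 η,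
      ← Finset.sum_filter, ← Finset.sum_filter]
    refine Finset.sum_bij' (fun η _ => insert x η) (fun η _ => η.erase x) ?_ ?_ ?_ ?_ ?_
    · intro η _
      simp
    · intro η _
      simp
    · intro η hη
      simp only [Finset.mem_filter] at hη
      exact Finset.erase_insert hη.2
    · intro η hη
      simp only [Finset.mem_filter] at hη
      exact Finset.insert_erase hη.2
    · intro η _
      rfl
  have h2 : ∀ η : Finset V, T η * ∑ x, p η x = T η * (2 * ∑ x, if x ∈ η then p η x else 0) +
      T η * ∑ x, (if x ∉ η ∧ G.IsClique (insert x η : Set V) then p η x else 0) := by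
    intro η
    by_cases hη : G.IsClique (η : Set V)
    · rw [← mul_add]
      congr 1
      rw [two_mul]
      nth_rewrite 2 [tel1 h hη (hκ η hη)]
      rw [← Finset.sum_add_distrib, ← Finset.sum_add_distrib]
      refine Finset.sum_congr rfl fun x _ => ?_
      by_cases hx : x ∈ η
      · simp [hx]
      · by_cases hc : G.IsClique (insert x η : Set V)
        · simp [hx, hc]
        · simp only [hx, hc, if_false, not_false_eq_true, and_self, if_true, and_false, zero_add,
            add_zero]
          rfl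
    · have h3 : T η = 0 := by
        simp only [hTdef, Pool.Agent.Q134.SE.tm, if_neg hη]
        norm_num
      rw [h3]
      ring
  have h3 : ∀ (η : Finset V) (x : V), (if x ∉ η ∧ G.IsClique (insert x η : Set V) then
      pr d (fun u => κ (insert x η) u - κ η u) (R G x c d) else 0) =
      (if x ∉ η ∧ G.IsClique (insert x η : Set V) then p (insert x η) x else 0) -
      (if x ∉ η ∧ G.IsClique (insert x η : Set V) then p η x else 0) := by
    intro η x
    by_cases hx : x ∉ η ∧ G.IsClique (insert x η : Set V)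
    · simp only [if_pos hx, pr_sub]
      rfl
    · simp only [if_neg hx, sub_zero]
  calc _ = ∑ η : Finset V, (T η * ∑ x, (if x ∉ η ∧ G.IsClique (insert x η : Set V) then
        p (insert x η) x else 0) - T η * ∑ x, (if x ∉ η ∧ G.IsClique (insert x η : Set V) then
        p η x else 0)) := by
        refine Finset.sum_congr rfl fun η _ => ?_
        rw [← mul_sub, ← Finset.sum_sub_distrib]
        congr 1
        exact Finset.sum_congr rfl fun x _ => h3 η x
    _ = - ∑ η : Finset V, T η * ∑ x, p η x := by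
        rw [Finset.sum_sub_distrib, h1, Finset.sum_congr rfl fun η _ => h2 η,
          Finset.sum_add_distrib]
        have h4 : ∑ η : Finset V, T η * (2 * ∑ x, if x ∈ η then p η x else 0) =
            2 * ∑ η : Finset V, T η * ∑ x, if x ∈ η then p η x else 0 := by
          rw [Finset.mul_sum]
          exact Finset.sum_congr rfl fun η _ => by ring
        rw [h4]
        ring

end Pool.Agent.J4.H51.AC
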