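import Pool.Agent.J4.H51.AC.RA
import Pool.Agent.J4.H51.AC.RB
import Pool.Agent.J4.H51.AC.Nu

/-!
The Euler characteristic vanishes if the fundamental cycle bounds in the amenable complex.
-/

set_option autoImplicit false

open scoped Classical

namespace Pool.Agent.J4.H51.AC

open Pool.Agent.W907.SG (W cox chiW)
open Pool.Agent.Q134.SV Pool.Agent.J4.H51.JC

section D

variable {V : Type} [Fintype V] {G : SimpleGraph V}

theorem R_zero (z : V) : R G z (0 : Tot V) = 0 := by
  funext d u
  simp [R]

theorem pr_smul {d : ℕ} (f c : (Fin d → V) → ℝ) (r : ℝ) : pr d f (r • c) = r * pr d f c := by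
  unfold pr
  simp only [Pi.smul_apply, smul_eq_mul, Finset.mul_sum]
  refine Finset.sum_congr rfl fun u _ => ?_
  ring

theorem pr_zero_left {d : ℕ} {f : (Fin d → V) → ℝ} (hf : ∀ u, f u = 0) (c : (Fin d → V) → ℝ) :
    pr d f c = 0 := by
  unfold pr
  simp [hf]

theorem pr_zero_right {d : ℕ} (f : (Fin d → V) → ℝ) : pr d f 0 = 0 := by
  unfold pr
  simp

/-- iterated operators kill `c` if all operators kill `c` -/
theorem RR_kill {c : Tot V} (h : ∀ z, R G z c = 0) : ∀ (k : ℕ) (x : Fin (k + 1) → V),
    RR G (k + 1) x c = 0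
  | 0, x => h (x 0)
  | k + 1, x => by
    have h1 := RR_kill h k (Fin.tail x)
    change R G (x 0) (RR G (k + 1) (Fin.tail x) c) = 0
    rw [h1, R_zero]

/-- the sums of the recursion -/
noncomputable def DD (G : SimpleGraph V) (ν : (k : ℕ) → Finset V → (Fin k → V) → Tot V) (c : Tot V)
    (k m : ℕ) : ℝ :=
  ∑ η : Finset V, (Pool.Agent.Q134.SE.tm G η : ℝ) *
    ∑ x : Fin k → V, ∑ z, pr m (ν k η x m) (R G z (RR G k x c) m)

/-- the sum over all tuples by splitting off an entry -/
theorem sum_split {k : ℕ} (F : V → (Fin k → V) → ℝ) : ∑ x : Fin (k + 1) → V, ∑ i : Fin (k + 1),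
    F (x i) (x ∘ i.succAbove) = (k + 1) * ∑ y : Fin k → V, ∑ p, F p y := by
  rw [Finset.sum_comm]
  have h1 : ∀ i : Fin (k + 1), ∑ x : Fin (k + 1) → V, F (x i) (x ∘ i.succAbove) =
      ∑ y : Fin k → V, ∑ p, F p y := by
    intro i
    rw [← Equiv.sum_comp (Fin.insertNthEquiv (fun _ : Fin (k + 1) => V) i), Fintype.sum_prod_type,
      Finset.sum_comm]
    refine Finset.sum_congr rfl fun y _ => Finset.sum_congr rfl fun p _ => ?_
    have e1 : (Fin.insertNthEquiv (fun _ : Fin (k + 1) => V) i) (p, y) ∘ i.succAbove = y := by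
      funext j
      simp [Fin.insertNthEquiv]
    have e2 : (Fin.insertNthEquiv (fun _ : Fin (k + 1) => V) i) (p, y) i = p := by
      simp [Fin.insertNthEquiv]
    rw [e1, e2]
  rw [Finset.sum_congr rfl fun i _ => h1 i, Finset.sum_const, Finset.card_univ, Fintype.card_fin,
    nsmul_eq_mul]
  push_cast
  rfl

/-- the terms of a tuple -/
theorem term {ν : (k : ℕ) → Finset V → (Fin k → V) → Tot V}
    (h1 : ∀ k (η : Finset V) x, G.IsClique (η : Set V) → ∀ d, Rel G η d (ν k η x d))
    (h3 : ∀ k η x, ¬ Gd G η x → ν k η x = 0)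
    (h5 : ∀ k η (x : Fin (k + 1) → V), Gd G η x → ∀ d (w : Fin (d + 1) → V),
        (∀ i j, i ≠ j → G.Adj (w i) (w j)) → cobd (ν (k + 1) η x d) w =
          ∑ i : Fin (k + 1), (-1 : ℝ) ^ (i : ℕ) * (ν k (insert (x i) η) (x ∘ i.succAbove) (d + 1) w -
            ν k η (x ∘ i.succAbove) (d + 1) w))
    {c : Tot V} (hc : AmC G c) {k : ℕ} (m : ℕ) {η : Finset V} (hη : G.IsClique (η : Set V))
    (x : Fin (k + 1) → V) :
    pr (m + 1) (dl G (ν (k + 1) η x m)) (RR G (k + 1) x c (m + 1)) =
      ∑ i : Fin (k + 1), (if x i ∉ η ∧ G.IsClique (insert (x i) η : Set V) then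
        pr (m + 1) (fun u => ν k (insert (x i) η) (x ∘ i.succAbove) (m + 1) u -
          ν k η (x ∘ i.succAbove) (m + 1) u) (R G (x i) (RR G k (x ∘ i.succAbove) c) (m + 1))
        else 0) := by
  have hmove : ∀ i : Fin (k + 1), RR G (k + 1) x c (m + 1) =
      (-1 : ℝ) ^ (i : ℕ) • R G (x i) (RR G k (x ∘ i.succAbove) c) (m + 1) := by
    intro i
    rw [RR_move hc x i]
    rfl
  have hmove' : ∀ i : Fin (k + 1), R G (x i) (RR G k (x ∘ i.succAbove) c) (m + 1) =
      (-1 : ℝ) ^ (i : ℕ) • RR G (k + 1) x c (m + 1) := by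
    intro i
    rw [hmove i, smul_smul, ← mul_pow]
    simp
  by_cases hG : Gd G η x
  · obtain ⟨hinj, hout, hcl⟩ := hG
    have hcl' : ∀ i, G.IsClique (insert (x i) η : Set V) := by
      intro i
      refine hcl.subset ?_
      rintro v (rfl | hv)
      · exact Or.inr ⟨i, rfl⟩
      · exact Or.inl hv
    have e1 : ∀ i : Fin (k + 1), (if x i ∉ η ∧ G.IsClique (insert (x i) η : Set V) then
        pr (m + 1) (fun u => ν k (insert (x i) η) (x ∘ i.succAbove) (m + 1) u -
          ν k η (x ∘ i.succAbove) (m + 1) u) (R G (x i) (RR G k (x ∘ i.succAbove) c) (m + 1))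
        else 0) = (-1 : ℝ) ^ (i : ℕ) *
        pr (m + 1) (fun u => ν k (insert (x i) η) (x ∘ i.succAbove) (m + 1) u -
          ν k η (x ∘ i.succAbove) (m + 1) u) (RR G (k + 1) x c (m + 1)) := by
      intro i
      rw [if_pos ⟨hout i, hcl' i⟩, hmove' i, pr_smul]
    rw [Finset.sum_congr rfl fun i _ => e1 i]
    unfold pr
    simp only [Finset.mul_sum]
    rw [Finset.sum_comm]
    refine Finset.sum_congr rfl fun w _ => ?_
    have e2 : dl G (ν (k + 1) η x m) w = ∑ i : Fin (k + 1), (-1 : ℝ) ^ (i : ℕ) *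
        (ν k (insert (x i) η) (x ∘ i.succAbove) (m + 1) w -
          ν k η (x ∘ i.succAbove) (m + 1) w) := by
      unfold dl
      by_cases hw : ∀ i j, i ≠ j → G.Adj (w i) (w j)
      · rw [if_pos hw, h5 k η x ⟨hinj, hout, hcl⟩ m w hw]
      · rw [if_neg hw]
        symm
        refine Finset.sum_eq_zero fun i _ => ?_
        have hci : G.IsClique ((insert (x i) η : Finset V) : Set V) := by
          rw [Finset.coe_insert]
          exact hcl' i
        have f1 : ν k (insert (x i) η) (x ∘ i.succAbove) (m + 1) w = 0 := by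
          by_contra hne
          exact hw ((h1 k _ (x ∘ i.succAbove) hci (m + 1)).2 w hne).1
        have f2 : ν k η (x ∘ i.succAbove) (m + 1) w = 0 := by
          by_contra hne
          exact hw ((h1 k _ (x ∘ i.succAbove) hη (m + 1)).2 w hne).1
        rw [f1, f2]
        ring
    rw [e2, Finset.sum_mul, Finset.mul_sum]
    refine Finset.sum_congr rfl fun i _ => ?_
    ring
  · have e0 : pr (m + 1) (dl G (ν (k + 1) η x m)) (RR G (k + 1) x c (m + 1)) = 0 := by
      refine pr_zero_left (fun w => ?_) _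
      have := h3 (k + 1) η x hG
      unfold dl
      rw [this]
      split_ifs
      · unfold cobd
        simp
      · rfl
    rw [e0]
    symm
    refine Finset.sum_eq_zero fun i _ => ?_
    split_ifs with hi
    · obtain ⟨hi1, hi2⟩ := hi
      -- either two entries are not adjacent, or both members of the family vanish
      by_cases hadj : ∀ j : Fin k, G.Adj (x i) ((x ∘ i.succAbove) j)
      · refine pr_zero_left (fun u => ?_) _
        have g1 : ¬ Gd G (insert (x i) η) (x ∘ i.succAbove) := by
          rintro ⟨a1, a2, a3⟩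
          apply hG
          refine ⟨?_, ?_, ?_⟩
          · intro p q hpq
            rcases Fin.eq_self_or_eq_succAbove i p with rfl | ⟨p', rfl⟩
            · rcases Fin.eq_self_or_eq_succAbove p q with rfl | ⟨q', rfl⟩
              · rfl
              · have := hadj q'
                rw [Function.comp_apply, ← hpq] at this
                exact absurd this (G.loopless.irrefl _)
            · rcases Fin.eq_self_or_eq_succAbove i q with rfl | ⟨q', rfl⟩
              · have := hadj p'
                rw [Function.comp_apply, hpq] at this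
                exact absurd this (G.loopless.irrefl _)
              · rw [a1 hpq]
          · intro p
            rcases Fin.eq_self_or_eq_succAbove i p with rfl | ⟨p', rfl⟩
            · exact hi1
            · exact fun hp => a2 p' (Finset.mem_insert_of_mem hp)
          · refine a3.subset ?_
            rintro v (hv | ⟨p, rfl⟩)
            · exact Or.inl (Finset.mem_coe.2 (Finset.mem_insert_of_mem hv))
            · rcases Fin.eq_self_or_eq_succAbove i p with rfl | ⟨p', rfl⟩
              · exact Or.inl (Finset.mem_coe.2 (Finset.mem_insert_self _ _))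
              · exact Or.inr ⟨p', rfl⟩
        have g2 : ¬ Gd G η (x ∘ i.succAbove) := by
          rintro ⟨a1, a2, a3⟩
          apply g1
          refine ⟨a1, ?_, ?_⟩
          · intro j hj
            rcases Finset.mem_insert.1 hj with hj | hj
            · have := hadj j
              rw [hj] at this
              exact G.loopless.irrefl _ this
            · exact a2 j hj
          · rw [Finset.coe_insert, Set.insert_union, SimpleGraph.isClique_insert]
            refine ⟨a3, ?_⟩
            rintro v (hv | ⟨j, rfl⟩) hne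
            · exact hi2 (Set.mem_insert _ _) (Set.mem_insert_of_mem _ hv) hne
            · exact hadj j
        rw [h3 k _ _ g1, h3 k _ _ g2]
        simp
      · push Not at hadj
        obtain ⟨j, hj⟩ := hadj
        have hz : RR G (k + 1) x c = 0 :=
          RR_nadj hc x i (i.succAbove j) (Fin.succAbove_ne i j).symm hj
        rw [hmove' i, hz]
        have : ((-1 : ℝ) ^ (i : ℕ) • (0 : Tot V) (m + 1)) = 0 := by
          simp
        rw [this, pr_zero_right]
    · rfl

/-- the recursion -/
theorem step {ν : (k : ℕ) → Finset V → (Fin k → V) → Tot V}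
    (h1 : ∀ k (η : Finset V) x, G.IsClique (η : Set V) → ∀ d, Rel G η d (ν k η x d))
    (h3 : ∀ k η x, ¬ Gd G η x → ν k η x = 0)
    (h5 : ∀ k η (x : Fin (k + 1) → V), Gd G η x → ∀ d (w : Fin (d + 1) → V),
        (∀ i j, i ≠ j → G.Adj (w i) (w j)) → cobd (ν (k + 1) η x d) w =
          ∑ i : Fin (k + 1), (-1 : ℝ) ^ (i : ℕ) * (ν k (insert (x i) η) (x ∘ i.succAbove) (d + 1) w -
            ν k η (x ∘ i.succAbove) (d + 1) w))
    {c : Tot V} (hc : AmC G c) (hcb : ∀ z, R G z (bd c) = 0) (k m : ℕ) :
    DD G ν c (k + 1) m = - (2 * (k + 1)) * DD G ν c k (m + 1) := by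
  have e1 : ∀ η : Finset V, (Pool.Agent.Q134.SE.tm G η : ℝ) *
      ∑ x : Fin (k + 1) → V, ∑ z, pr m (ν (k + 1) η x m) (R G z (RR G (k + 1) x c) m) =
      (2 * (k + 1)) * ((Pool.Agent.Q134.SE.tm G η : ℝ) * ∑ y : Fin k → V, ∑ p,
        (if p ∉ η ∧ G.IsClique (insert p η : Set V) then
        pr (m + 1) (fun u => ν k (insert p η) y (m + 1) u -
          ν k η y (m + 1) u) (R G p (RR G k y c) (m + 1)) else 0)) := by
    intro η
    by_cases hη : G.IsClique (η : Set V)
    · have f1 : ∀ x : Fin (k + 1) → V, ∑ z, pr m (ν (k + 1) η x m) (R G z (RR G (k + 1) x c) m) =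
          2 * ∑ i : Fin (k + 1), (if x i ∉ η ∧ G.IsClique (insert (x i) η : Set V) then
          pr (m + 1) (fun u => ν k (insert (x i) η) (x ∘ i.succAbove) (m + 1) u -
            ν k η (x ∘ i.succAbove) (m + 1) u) (R G (x i) (RR G k (x ∘ i.succAbove) c) (m + 1))
          else 0) := by
        intro x
        rw [sum_R (RR_am hc x) (h1 (k + 1) η x hη m), term h1 h3 h5 hc m hη x, RR_bd hc x,
          RR_kill hcb k x, smul_zero]
        have : pr m (ν (k + 1) η x m) ((0 : Tot V) m) = 0 := pr_zero_right _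
        rw [this, sub_zero]
      rw [Finset.sum_congr rfl fun x _ => f1 x, ← Finset.mul_sum,
        sum_split (fun p y => if p ∉ η ∧ G.IsClique (insert p η : Set V) then
          pr (m + 1) (fun u => ν k (insert p η) y (m + 1) u -
            ν k η y (m + 1) u) (R G p (RR G k y c) (m + 1)) else 0)]
      ring
    · have : Pool.Agent.Q134.SE.tm G η = 0 := by
        unfold Pool.Agent.Q134.SE.tm
        rw [if_neg hη]
      rw [this]
      push_cast
      ring
  unfold DD
  rw [Finset.sum_congr rfl fun η _ => e1 η, ← Finset.mul_sum]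
  have e2 : ∑ η : Finset V, (Pool.Agent.Q134.SE.tm G η : ℝ) * ∑ y : Fin k → V, ∑ p,
        (if p ∉ η ∧ G.IsClique (insert p η : Set V) then
        pr (m + 1) (fun u => ν k (insert p η) y (m + 1) u -
          ν k η y (m + 1) u) (R G p (RR G k y c) (m + 1)) else 0) =
      - ∑ η : Finset V, (Pool.Agent.Q134.SE.tm G η : ℝ) * ∑ y : Fin k → V, ∑ p,
        pr (m + 1) (ν k η y (m + 1)) (R G p (RR G k y c) (m + 1)) := by
    simp only [Finset.mul_sum (s := (Finset.univ : Finset (Fin k → V)))]
    rw [Finset.sum_comm, Finset.sum_comm (s := (Finset.univ : Finset (Finset V))),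
      ← Finset.sum_neg_distrib]
    refine Finset.sum_congr rfl fun y _ => ?_
    exact tel (RR_am hc y) (fun η => ν k η y (m + 1)) (fun η hη => h1 k η y hη (m + 1))
  rw [e2]
  ring

theorem DD_zero {ν : (k : ℕ) → Finset V → (Fin k → V) → Tot V}
    (h1 : ∀ k (η : Finset V) x, G.IsClique (η : Set V) → ∀ d, Rel G η d (ν k η x d))
    (h3 : ∀ k η x, ¬ Gd G η x → ν k η x = 0)
    (h5 : ∀ k η (x : Fin (k + 1) → V), Gd G η x → ∀ d (w : Fin (d + 1) → V),
        (∀ i j, i ≠ j → G.Adj (w i) (w j)) → cobd (ν (k + 1) η x d) w =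
          ∑ i : Fin (k + 1), (-1 : ℝ) ^ (i : ℕ) * (ν k (insert (x i) η) (x ∘ i.succAbove) (d + 1) w -
            ν k η (x ∘ i.succAbove) (d + 1) w))
    {c : Tot V} (hc : AmC G c) (hcb : ∀ z, R G z (bd c) = 0) : ∀ m k : ℕ, DD G ν c k m = 0
  | 0, k => by
    unfold DD
    refine Finset.sum_eq_zero fun η _ => ?_
    have : ∀ x : Fin k → V, ∑ z, pr 0 (ν k η x 0) (R G z (RR G k x c) 0) = 0 := by
      intro x
      refine Finset.sum_eq_zero fun z _ => ?_
      have h0 : R G z (RR G k x c) 0 = 0 := by
        funext u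
        unfold R
        rw [Finset.sum_eq_zero, neg_zero]
        · rfl
        · intro w _
          rw [if_neg]
          rintro ⟨a1, y, a2, a3, -⟩
          have hu : Set.range u = ∅ := Set.range_eq_empty u
          rw [hu] at a1 a2
          simp only [Set.mem_insert_iff, Set.mem_empty_iff_false, or_false] at a1 a2
          exact a3 (a2.trans a1.symm)
      rw [h0, pr_zero_right]
    rw [Finset.sum_congr rfl fun x _ => this x]
    simp
  | m + 1, k => by
    have h := step h1 h3 h5 hc hcb k m
    rw [DD_zero h1 h3 h5 hc hcb m (k + 1)] at h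
    have h2 : (- (2 * ((k : ℝ) + 1))) ≠ 0 := by
      have : (0 : ℝ) < 2 * ((k : ℝ) + 1) := by positivity
      exact neg_ne_zero.2 this.ne'
    exact (mul_eq_zero.1 h.symm).resolve_left h2

/-- a function on tuples of one length -/
noncomputable def ext1 {n : ℕ} (b : (Fin n → V) → ℝ) : Tot V := fun d =>
  if h : n = d then h ▸ b else 0

omit [Fintype V] in
theorem ext1_self {n : ℕ} (b : (Fin n → V) → ℝ) : ext1 b n = b := by
  unfold ext1
  rw [dif_pos rfl]

omit [Fintype V] in
theorem ext1_ne {n d : ℕ} (b : (Fin n → V) → ℝ) (h : n ≠ d) : ext1 b d = 0 := by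
  unfold ext1
  rw [dif_neg h]

theorem chi_zero {n : ℕ} {a : (Fin n → V) → ℝ} (ha : IsCyc n G a) (hG : HSph n G a) (hb : AmBd G a) :
    chiW G = 0 := by
  obtain ⟨b, hb1, hb2, hb3⟩ := hb
  obtain ⟨ν, h1, -, h3, h4, h5⟩ := ex_nu hG
  have hc : AmC G (ext1 b) := by
    refine ⟨fun d => ?_, fun d u hu => ?_⟩
    · rcases eq_or_ne (n + 1) d with rfl | hd
      · rw [ext1_self]
        exact hb1
      · rw [ext1_ne b hd]
        intro v i j _
        simp
    · rcases eq_or_ne (n + 1) d with rfl | hd
      · rw [ext1_self] at hu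
        exact hb2 u hu
      · rw [ext1_ne b hd] at hu
        exact absurd rfl hu
  have hbd : ∀ d u, bd (ext1 b) d u ≠ 0 → n = d := by
    intro d u hu
    by_contra hd
    apply hu
    unfold bd
    rw [ext1_ne b (fun e => hd (Nat.succ_injective e))]
    simp [bdy]
  have hbn : bd (ext1 b) n = a := by
    unfold bd
    rw [ext1_self, hb3]
  have hcb : ∀ z, R G z (bd (ext1 b)) = 0 := by
    intro z
    refine R_cl (fun d u hu => ?_) z
    obtain rfl := hbd d u hu
    rw [hbn] at hu
    exact ha.supp u hu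
  have hD := DD_zero h1 h3 h5 hc hcb n 0
  unfold DD at hD
  have e1 : ∀ η : Finset V, (Pool.Agent.Q134.SE.tm G η : ℝ) *
      ∑ x : Fin 0 → V, ∑ z, pr n (ν 0 η x n) (R G z (RR G 0 x (ext1 b)) n) =
      - (2 * (n.factorial : ℝ)⁻¹) * (Pool.Agent.Q134.SE.tm G η : ℝ) := by
    intro η
    by_cases hη : G.IsClique (η : Set V)
    · have f1 : ∀ x : Fin 0 → V, ∑ z, pr n (ν 0 η x n) (R G z (RR G 0 x (ext1 b)) n) =
          - (2 * (n.factorial : ℝ)⁻¹) := by
        intro x
        change ∑ z, pr n (ν 0 η x n) (R G z (ext1 b) n) = _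
        rw [sum_R hc (h1 0 η x hη n), hbn]
        have g1 : pr (n + 1) (dl G (ν 0 η x n)) (ext1 b (n + 1)) = 0 := by
          refine pr_zero_left (fun w => ?_) _
          unfold dl
          rw [if_neg]
          intro hw
          obtain ⟨i, j, hij, hn⟩ := hG.dim w
          exact hn (hw i j hij)
        have g2 : pr n (ν 0 η x n) a = (n.factorial : ℝ)⁻¹ := by
          unfold pr
          have := h4 η hη x
          rw [Finset.sum_congr rfl fun u _ => mul_comm (ν 0 η x n u) (a u), this, mul_one]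
        rw [g1, g2]
        ring
      rw [Finset.sum_congr rfl fun x _ => f1 x]
      simp
      ring
    · have : Pool.Agent.Q134.SE.tm G η = 0 := by
        unfold Pool.Agent.Q134.SE.tm
        rw [if_neg hη]
      rw [this]
      push_cast
      ring
  rw [Finset.sum_congr rfl fun η _ => e1 η, ← Finset.mul_sum] at hD
  have hfac : - (2 * (n.factorial : ℝ)⁻¹) ≠ 0 := by
    have : (0 : ℝ) < (n.factorial : ℝ)⁻¹ := by positivity
    exact neg_ne_zero.2 (mul_ne_zero two_ne_zero this.ne')
  have hs := (mul_eq_zero.1 hD).resolve_left hfac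
  rw [Pool.Agent.Q134.SE.chiW_eq]
  exact_mod_cast hs

end D

end Pool.Agent.J4.H51.AC
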