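import Pool.Agent.J4.H51.AC.Key2

/-!
The bounded cochain of a local term.
-/

set_option autoImplicit false

open scoped Classical

namespace Pool.Agent.J4.H51.AC

open Pool.Agent.W907.SG (W cox)
open Pool.Agent.Q134.SV Pool.Agent.J4.H51.JC

variable {V : Type} [Fintype V] {G : SimpleGraph V} {n : ℕ}

variable (G) in
/-- the cochain -/
noncomputable def be (Ψ : (Fin n → Finset V) → ℝ) (g : Fin (n + 1) → W G) : ℝ :=
  ∑ᶠ v : W G, ((par G v : ℤ) : ℝ) * cobd Ψ fun i => dr v (g i)

/-- the vertices with nonzero local term -/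
def Sq (Ψ : (Fin n → Finset V) → ℝ) (g : Fin (n + 1) → W G) : Set (W G) :=
  {v | (cobd Ψ fun i => dr v (g i)) ≠ 0}

theorem dr_cq (v g : W G) : Cq G (dr v g : Set V) := by
  intro x hx y hy hxy
  exact dir_adj (mem_dr.1 hx) (mem_dr.1 hy) hxy

/-- the number of the vertices with nonzero local term is bounded -/
theorem Sq_card (n : ℕ) : ∃ B : ℕ, ∀ (Ψ : (Fin n → Finset V) → ℝ), OK G Ψ →
    ∀ g : Fin (n + 1) → W G, (Sq Ψ g).Finite ∧ (Sq Ψ g).ncard ≤ B := by
  obtain ⟨N, hN⟩ := many (G := G) (n + 1)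
  have key : ∀ (Ψ : (Fin n → Finset V) → ℝ), OK G Ψ → ∀ (g : Fin (n + 1) → W G)
      (s : Finset (W G)), (s : Set (W G)) ⊆ Sq Ψ g →
      s.card ≤ (n + 1) + Fintype.card (Fin (n + 1) → Finset V) * N := by
    intro Ψ hΨ g s hs
    have h1 : s.card ≤ (s.filter fun v => ∃ i, v = g i).card +
        (s.filter fun v => ¬ ∃ i, v = g i).card := by
      rw [Finset.card_filter_add_card_filter_not]
    have h2 : (s.filter fun v => ∃ i, v = g i).card ≤ n + 1 := by
      calc (s.filter fun v => ∃ i, v = g i).card ≤ (Finset.univ.image g).card := by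
            refine Finset.card_le_card fun v hv => ?_
            rw [Finset.mem_filter] at hv
            obtain ⟨i, rfl⟩ := hv.2
            exact Finset.mem_image_of_mem _ (Finset.mem_univ _)
        _ ≤ (Finset.univ : Finset (Fin (n + 1))).card := Finset.card_image_le
        _ = n + 1 := by simp
    have h3 : (s.filter fun v => ¬ ∃ i, v = g i).card ≤
        Fintype.card (Fin (n + 1) → Finset V) * N := by
      have := Finset.card_le_mul_card_image_of_maps_to
        (s := s.filter fun v => ¬ ∃ i, v = g i) (f := fun v i => dr v (g i))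
        (t := (Finset.univ : Finset (Fin (n + 1) → Finset V)))
        (fun _ _ => Finset.mem_univ _) N (by
          intro D _
          by_contra hcon
          have hc : N ≤ ((s.filter fun v => ¬ ∃ i, v = g i).filter
            fun v => (fun i => dr v (g i)) = D).card := by omega
          have hM := hN g _ hc D (by
            intro v hv i
            rw [Finset.mem_filter] at hv
            exact congrFun hv.2 i)
          have hne : ((s.filter fun v => ¬ ∃ i, v = g i).filter
            fun v => (fun i => dr v (g i)) = D).Nonempty := by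
            rw [← Finset.card_pos]; omega
          obtain ⟨v, hv⟩ := hne
          rw [Finset.mem_filter, Finset.mem_filter] at hv
          obtain ⟨⟨hvs, hvg⟩, hvD⟩ := hv
          apply hs hvs
          rw [hvD]
          refine hΨ.mv D (fun i => ?_) (fun i => ?_) hM
          · rw [← congrFun hvD i, Finset.nonempty_iff_ne_empty]
            intro e
            exact hvg ⟨i, dr_eq_empty.1 e⟩
          · rw [← congrFun hvD i]; exact dr_cq v (g i))
      rw [Finset.card_univ] at this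
      linarith
    omega
  refine ⟨(n + 1) + Fintype.card (Fin (n + 1) → Finset V) * N, fun Ψ hΨ g => ?_⟩
  have hfin : (Sq Ψ g).Finite := by
    by_contra hinf
    obtain ⟨s, hs, hc⟩ := Set.Infinite.exists_subset_card_eq (s := Sq Ψ g) hinf
      ((n + 1) + Fintype.card (Fin (n + 1) → Finset V) * N + 1)
    have := key Ψ hΨ g s hs
    omega
  refine ⟨hfin, ?_⟩
  rw [Set.ncard_eq_toFinset_card _ hfin]
  exact key Ψ hΨ g _ (by rw [Set.Finite.coe_toFinset])

variable {Ψ : (Fin n → Finset V) → ℝ}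

theorem be_eq_sum (g : Fin (n + 1) → W G) (s : Finset (W G)) (hs : Sq Ψ g ⊆ s) :
    be G Ψ g = ∑ v ∈ s, ((par G v : ℤ) : ℝ) * cobd Ψ fun i => dr v (g i) := by
  unfold be
  refine finsum_eq_sum_of_support_subset _ ?_
  intro v hv
  apply hs
  intro h0
  apply hv
  simp only [h0, mul_zero]

theorem cobd_le {X : Type} {n : ℕ} (Ψ : (Fin n → X) → ℝ) {M : ℝ} (hM : ∀ τ, |Ψ τ| ≤ M)
    (τ : Fin (n + 1) → X) : |cobd Ψ τ| ≤ (n + 1) * M := by
  unfold cobd
  calc |∑ k : Fin (n + 1), (-1 : ℝ) ^ (k : ℕ) * Ψ (τ ∘ k.succAbove)|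
      ≤ ∑ k : Fin (n + 1), |(-1 : ℝ) ^ (k : ℕ) * Ψ (τ ∘ k.succAbove)| :=
        Finset.abs_sum_le_sum_abs _ _
    _ ≤ ∑ _k : Fin (n + 1), M := by
        refine Finset.sum_le_sum fun k _ => ?_
        rw [abs_mul, abs_pow, abs_neg, abs_one, one_pow, one_mul]
        exact hM _
    _ = (n + 1) * M := by
        rw [Finset.sum_const, Finset.card_univ, Fintype.card_fin, nsmul_eq_mul]
        push_cast
        ring

theorem be_bound (n : ℕ) : ∃ B : ℕ, ∀ (Ψ : (Fin n → Finset V) → ℝ), OK G Ψ →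
    ∀ M : ℝ, (∀ τ, |Ψ τ| ≤ M) → 0 ≤ M → ∀ g : Fin (n + 1) → W G, |be G Ψ g| ≤ B * M := by
  obtain ⟨B, hB⟩ := Sq_card (G := G) n
  refine ⟨B * (n + 1), fun Ψ hΨ M hM hM0 g => ?_⟩
  obtain ⟨hf, hc⟩ := hB Ψ hΨ g
  rw [be_eq_sum g hf.toFinset (by rw [Set.Finite.coe_toFinset])]
  calc |∑ v ∈ hf.toFinset, ((par G v : ℤ) : ℝ) * cobd Ψ fun i => dr v (g i)|
      ≤ ∑ v ∈ hf.toFinset, |((par G v : ℤ) : ℝ) * cobd Ψ fun i => dr v (g i)| :=
        Finset.abs_sum_le_sum_abs _ _
    _ ≤ ∑ _v ∈ hf.toFinset, ((n + 1) * M) := by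
        refine Finset.sum_le_sum fun v _ => ?_
        rw [abs_mul, par_abs, one_mul]
        exact cobd_le Ψ hM _
    _ = (hf.toFinset.card : ℝ) * ((n + 1) * M) := by
        rw [Finset.sum_const, nsmul_eq_mul]
    _ ≤ B * ((n + 1) * M) := by
        refine mul_le_mul_of_nonneg_right ?_ (by positivity)
        rw [← Set.ncard_eq_toFinset_card _ hf]
        exact_mod_cast hc
    _ = (B * (n + 1) : ℕ) * M := by push_cast; ring

theorem be_coc (h : OK G Ψ) (g : Fin (n + 2) → W G) : cobd (be G Ψ) g = 0 := by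
  obtain ⟨B, hB⟩ := Sq_card (G := G) n
  let s : Finset (W G) := Finset.univ.biUnion fun k : Fin (n + 2) =>
    (hB Ψ h (g ∘ k.succAbove)).1.toFinset
  have h1 : ∀ k : Fin (n + 2), be G Ψ (g ∘ k.succAbove) =
      ∑ v ∈ s, ((par G v : ℤ) : ℝ) * cobd Ψ ((fun i => dr v (g i)) ∘ k.succAbove) := by
    intro k
    refine be_eq_sum _ s ?_
    intro v hv
    rw [Finset.mem_coe, Finset.mem_biUnion]
    exact ⟨k, Finset.mem_univ _, by rwa [Set.Finite.mem_toFinset]⟩
  unfold cobd
  simp only [h1, Finset.mul_sum]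
  rw [Finset.sum_comm]
  refine Finset.sum_eq_zero fun v _ => ?_
  have h2 := cobd_cobd n Ψ fun i => dr v (g i)
  rw [cobd] at h2
  calc ∑ k : Fin (n + 2), (-1 : ℝ) ^ (k : ℕ) *
        (((par G v : ℤ) : ℝ) * cobd Ψ ((fun i => dr v (g i)) ∘ k.succAbove))
      = ((par G v : ℤ) : ℝ) * ∑ k : Fin (n + 2), (-1 : ℝ) ^ (k : ℕ) *
        cobd Ψ ((fun i => dr v (g i)) ∘ k.succAbove) := by
        rw [Finset.mul_sum]
        refine Finset.sum_congr rfl fun k _ => ?_
        ring
    _ = 0 := by rw [h2, mul_zero]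

theorem be_gen (x : V) (g : Fin (n + 1) → W G) :
    be G Ψ (fun i => gen G x * g i) = - be G Ψ g := by
  unfold be
  rw [← finsum_comp_equiv (Equiv.mulLeft (gen G x)), ← finsum_neg_distrib]
  refine finsum_congr fun v => ?_
  simp only [Equiv.coe_mulLeft, dr_mul, map_mul, par_gen]
  push_cast
  ring

/-- the coboundary vanishes if two adjacent entries are the same -/
theorem cobd_adj {X : Type} {n : ℕ} (Ψ : (Fin n → X) → ℝ)
    (h : ∀ τ : Fin n → X, ∀ i j : Fin n, (j : ℕ) = i + 1 → τ i = τ j → Ψ τ = 0)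
    (τ : Fin (n + 1) → X) (i : Fin n) (hi : τ i.castSucc = τ i.succ) : cobd Ψ τ = 0 := by
  unfold cobd
  rw [← Finset.add_sum_erase _ _ (Finset.mem_univ i.castSucc),
    ← Finset.add_sum_erase _ _ (Finset.mem_erase.2 ⟨(Fin.castSucc_lt_succ).ne', Finset.mem_univ i.succ⟩),
    ← add_assoc]
  have h1 : τ ∘ i.castSucc.succAbove = τ ∘ i.succ.succAbove := by
    funext k
    simp only [Function.comp_apply]
    rcases lt_trichotomy k i with hk | hk | hk
    · rw [Fin.succAbove_of_castSucc_lt _ _ (by simpa using hk),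
        Fin.succAbove_of_castSucc_lt _ _ (by
          rw [Fin.lt_def] at hk ⊢
          simp only [Fin.val_castSucc, Fin.val_succ]; omega)]
    · subst hk
      rw [Fin.succAbove_castSucc_self, Fin.succAbove_succ_self]
      exact hi.symm
    · rw [Fin.succAbove_of_le_castSucc _ _ (by
          rw [Fin.le_def]
          rw [Fin.lt_def] at hk
          simp only [Fin.val_castSucc]; omega),
        Fin.succAbove_of_le_castSucc _ _ (by
          rw [Fin.le_def]
          rw [Fin.lt_def] at hk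
          simp only [Fin.val_castSucc, Fin.val_succ]; omega)]
  have h2 : ∀ k ∈ (Finset.univ.erase i.castSucc).erase i.succ,
      (-1 : ℝ) ^ (k : ℕ) * Ψ (τ ∘ k.succAbove) = 0 := by
    intro k hk
    rw [Finset.mem_erase, Finset.mem_erase] at hk
    have hk1 : (k : ℕ) ≠ i := fun e => hk.2.1 (Fin.ext (by simpa using e))
    have hk2 : (k : ℕ) ≠ i + 1 := fun e => hk.1 (Fin.ext (by simpa using e))
    obtain ⟨i', hi'⟩ := Fin.exists_succAbove_eq (x := i.castSucc) (y := k) hk.2.1.symm
    obtain ⟨j', hj'⟩ := Fin.exists_succAbove_eq (x := i.succ) (y := k) hk.1.symm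
    rw [h _ i' j' ?_ (by simp only [Function.comp_apply, hi', hj', hi]), mul_zero]
    have e1 := congrArg Fin.val hi'
    have e2 := congrArg Fin.val hj'
    simp only [Fin.succAbove, Fin.lt_def, Fin.val_castSucc, Fin.val_succ] at e1 e2
    split_ifs at e1 e2 <;> simp only [Fin.val_castSucc, Fin.val_succ] at e1 e2 <;> omega
  rw [Finset.sum_eq_zero h2, add_zero, h1, Fin.val_castSucc, Fin.val_succ]
  ring

theorem be_nrm (h : OK G Ψ) (g : Fin (n + 1) → W G) (i : Fin n) (he : g i.castSucc = g i.succ) :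
    be G Ψ g = 0 := by
  unfold be
  rw [← finsum_zero (α := W G)]
  refine finsum_congr fun v => ?_
  rw [cobd_adj Ψ h.adj _ i (by simp [he]), mul_zero]

/-- the cochain is a bounded cocycle -/
theorem be_good (h : OK G Ψ) : Good G n (be G Ψ) := by
  refine ⟨fun x g => be_gen x g, fun g => be_coc h g, ?_, fun g i hi => be_nrm h g i hi⟩
  obtain ⟨B, hB⟩ := be_bound (G := G) n
  refine ⟨B * ∑ τ, |Ψ τ|, fun g => hB Ψ h _ (fun τ => ?_) (by positivity) g⟩
  exact Finset.single_le_sum (f := fun τ => |Ψ τ|) (fun _ _ => abs_nonneg _) (Finset.mem_univ τ)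

end Pool.Agent.J4.H51.AC
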