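import Pool.Agent.J4.H51.AC.SpDefs

/-!
The special subgroups of the cliques and their cosets (cubes).
-/

set_option autoImplicit false

open scoped Classical

namespace Pool.Agent.J4.H51.AC

open Pool.Agent.W907.SG (W cox chiW)
open Pool.Agent.Q134.SV Pool.Agent.J4.H51.JC

variable {V : Type}

namespace CB

variable {G : SimpleGraph V}

theorem gen_mem {σ : Finset V} {s : V} (h : s ∈ σ) :
    gen G s ∈ Subgroup.closure (gen G '' (σ : Set V)) := Subgroup.subset_closure ⟨s, h, rfl⟩

theorem lbl_out {σ : Finset V} {s : V} (hs : s ∉ σ) {g : W G}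
    (hg : g ∈ Subgroup.closure (gen G '' (σ : Set V))) : lbl G s g = 1 := by
  have : Subgroup.closure (gen G '' (σ : Set V)) ≤ (lbl G s).ker := by
    rw [Subgroup.closure_le]
    rintro _ ⟨t, ht, rfl⟩
    change lbl G s (gen G t) = 1
    rw [lbl_gen, if_neg]
    rintro rfl
    exact hs ht
  exact this hg

theorem ofAdd_ne : (Multiplicative.ofAdd (1 : ZMod 2)) ≠ 1 := by decide

theorem mem_of_gen {σ : Finset V} {s : V}
    (h : gen G s ∈ Subgroup.closure (gen G '' (σ : Set V))) : s ∈ σ := by
  by_contra hs
  have h1 := lbl_out hs h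
  rw [lbl_gen, if_pos rfl] at h1
  exact ofAdd_ne h1

theorem comm_gen {σ : Finset V} {s : V} (h : ∀ t ∈ σ, G.Adj s t) {g : W G}
    (hg : g ∈ Subgroup.closure (gen G '' (σ : Set V))) : gen G s * g = g * gen G s := by
  have : Subgroup.closure (gen G '' (σ : Set V)) ≤ Subgroup.centralizer {gen G s} := by
    rw [Subgroup.closure_le]
    rintro _ ⟨t, ht, rfl⟩
    rw [SetLike.mem_coe, Subgroup.mem_centralizer_iff]
    rintro _ rfl
    exact gen_comm G (h t ht)
  have h1 := this hg
  rw [Subgroup.mem_centralizer_iff] at h1
  exact h1 _ rfl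

theorem adj_of_clique {σ : Finset V} {s : V} (hs : s ∉ σ)
    (h : G.IsClique ((insert s σ : Finset V) : Set V)) : ∀ t ∈ σ, G.Adj s t := by
  intro t ht
  refine h (by simp) (by simp [ht]) ?_
  rintro rfl
  exact hs ht

theorem mem_ins {σ : Finset V} {s : V} (h : ∀ t ∈ σ, G.Adj s t) {g : W G}
    (hg : g ∈ Subgroup.closure (gen G '' ((insert s σ : Finset V) : Set V))) :
    ∃ k ∈ Subgroup.closure (gen G '' (σ : Set V)), g = k ∨ g = k * gen G s := by
  induction hg using Subgroup.closure_induction with
  | mem x hx =>
    obtain ⟨t, ht, rfl⟩ := hx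
    rcases Finset.mem_insert.1 (Finset.mem_coe.1 ht) with rfl | ht
    · exact ⟨1, one_mem _, Or.inr (by simp)⟩
    · exact ⟨gen G t, gen_mem ht, Or.inl rfl⟩
  | one => exact ⟨1, one_mem _, Or.inl rfl⟩
  | mul x y _ _ hx hy =>
    obtain ⟨a, ha, hxa⟩ := hx
    obtain ⟨b, hb, hyb⟩ := hy
    have hc := comm_gen h hb
    rcases hxa with rfl | rfl
    · rcases hyb with rfl | rfl
      · exact ⟨_, mul_mem ha hb, Or.inl rfl⟩
      · exact ⟨_, mul_mem ha hb, Or.inr (by rw [mul_assoc])⟩
    · rcases hyb with rfl | rfl
      · exact ⟨_, mul_mem ha hb, Or.inr (by rw [mul_assoc, hc, mul_assoc])⟩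
      · refine ⟨_, mul_mem ha hb, Or.inl ?_⟩
        calc a * gen G s * (b * gen G s) = a * (gen G s * b) * gen G s := by group
          _ = a * (b * gen G s) * gen G s := by rw [hc]
          _ = a * b * (gen G s * gen G s) := by group
          _ = a * b := by rw [gen_sq, mul_one]
  | inv x _ hx =>
    obtain ⟨a, ha, hxa⟩ := hx
    have hc := comm_gen h (inv_mem ha)
    rcases hxa with rfl | rfl
    · exact ⟨_, inv_mem ha, Or.inl rfl⟩
    · refine ⟨_, inv_mem ha, Or.inr ?_⟩
      rw [mul_inv_rev, gen_inv, hc]

theorem mono {σ τ : Finset V} (h : σ ⊆ τ) : Subgroup.closure (gen G '' (σ : Set V)) ≤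
    Subgroup.closure (gen G '' (τ : Set V)) :=
  Subgroup.closure_mono (Set.image_mono (by exact_mod_cast h))

theorem card_cl : ∀ σ : Finset V, G.IsClique (σ : Set V) →
    Nat.card (Subgroup.closure (gen G '' (σ : Set V))) = 2 ^ σ.card := by
  intro σ
  induction σ using Finset.induction_on with
  | empty => 
    intro _
    rw [Finset.coe_empty, Set.image_empty, Subgroup.closure_empty]
    simp
  | insert s σ hs ih =>
    intro hcl
    have hadj := adj_of_clique hs hcl
    have ih' := ih (hcl.subset (by simp))
    rw [Finset.card_insert_of_notMem hs, pow_succ, ← ih']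
    have hB : Nat.card Bool = 2 := by simp
    conv_rhs => rw [← hB, ← Nat.card_prod]
    symm
    refine Nat.card_congr (Equiv.ofBijective (fun p : (Subgroup.closure (gen G '' (σ : Set V))) × Bool =>
      (⟨(p.1 : W G) * (if p.2 then gen G s else 1), ?_⟩ :
        Subgroup.closure (gen G '' ((insert s σ : Finset V) : Set V)))) ⟨?_, ?_⟩)
    · refine mul_mem (mono (Finset.subset_insert _ _) p.1.2) ?_
      split_ifs
      · exact gen_mem (Finset.mem_insert_self _ _)
      · exact one_mem _
    · rintro ⟨⟨a, ha⟩, i⟩ ⟨⟨b, hb⟩, j⟩ hab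
      have h1 : a * (if i then gen G s else 1) = b * (if j then gen G s else 1) :=
        congrArg Subtype.val hab
      have h2 := congrArg (lbl G s) h1
      rw [map_mul, map_mul, lbl_out hs ha, lbl_out hs hb, one_mul, one_mul] at h2
      have hij : i = j := by
        cases i <;> cases j
        · rfl
        · exfalso
          simp only [Bool.false_eq_true, if_false, if_true, map_one, lbl_gen] at h2
          exact ofAdd_ne h2.symm
        · exfalso
          simp only [Bool.false_eq_true, if_false, if_true, map_one, lbl_gen] at h2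
          exact ofAdd_ne h2
        · rfl
      subst hij
      have h3 : a = b := mul_right_cancel h1
      subst h3
      rfl
    · rintro ⟨g, hg⟩
      obtain ⟨k, hk, h | h⟩ := mem_ins hadj hg
      · exact ⟨⟨⟨k, hk⟩, false⟩, Subtype.ext (by simp [h])⟩
      · exact ⟨⟨⟨k, hk⟩, true⟩, Subtype.ext (by simp [h])⟩

theorem triv : ∀ σ : Finset V, G.IsClique (σ : Set V) → ∀ g ∈ Subgroup.closure (gen G '' (σ : Set V)),
    (∀ s ∈ σ, lbl G s g = 1) → g = 1 := by
  intro σ
  induction σ using Finset.induction_on with
  | empty =>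
    intro _ g hg _
    rw [Finset.coe_empty, Set.image_empty, Subgroup.closure_empty] at hg
    exact Subgroup.mem_bot.1 hg
  | insert s σ hs ih =>
    intro hcl g hg hl
    have hadj := adj_of_clique hs hcl
    have hcl' : G.IsClique (σ : Set V) := hcl.subset (by simp)
    obtain ⟨k, hk, rfl | rfl⟩ := mem_ins hadj hg
    · exact ih hcl' _ hk fun t ht => hl t (Finset.mem_insert_of_mem ht)
    · exfalso
      have h1 := hl s (Finset.mem_insert_self _ _)
      rw [map_mul, lbl_out hs hk, one_mul, lbl_gen, if_pos rfl] at h1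
      exact ofAdd_ne h1

/-! ### cubes -/

theorem mem_cube {x y : W G} {σ : Finset V} :
    y ∈ cube G x σ ↔ x⁻¹ * y ∈ Subgroup.closure (gen G '' (σ : Set V)) := Iff.rfl

theorem self_mem (x : W G) (σ : Finset V) : x ∈ cube G x σ := by
  rw [mem_cube, inv_mul_cancel]
  exact one_mem _

theorem cube_eq {x y : W G} {σ : Finset V} (h : y ∈ cube G x σ) : cube G y σ = cube G x σ := by
  have h' : x⁻¹ * y ∈ Subgroup.closure (gen G '' (σ : Set V)) := h
  ext z
  rw [mem_cube, mem_cube]
  constructor
  · intro hz
    have : x⁻¹ * z = (x⁻¹ * y) * (y⁻¹ * z) := by group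
    rw [this]
    exact mul_mem h' hz
  · intro hz
    have : y⁻¹ * z = (x⁻¹ * y)⁻¹ * (x⁻¹ * z) := by group
    rw [this]
    exact mul_mem (inv_mem h') hz

theorem sub_of_cube {x y : W G} {σ τ : Finset V} (h : cube G x σ ⊆ cube G y τ) : σ ⊆ τ := by
  intro s hs
  apply mem_of_gen (G := G)
  have h1 : x ∈ cube G y τ := h (self_mem _ _)
  have h2 : x * gen G s ∈ cube G y τ := h (by
    rw [mem_cube, inv_mul_cancel_left]
    exact gen_mem hs)
  have : gen G s = (y⁻¹ * x)⁻¹ * (y⁻¹ * (x * gen G s)) := by group
  rw [this]
  exact mul_mem (inv_mem h1) h2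

theorem dir_eq {x y : W G} {σ τ : Finset V} (h : cube G x σ = cube G y τ) : σ = τ :=
  Finset.Subset.antisymm (sub_of_cube h.subset) (sub_of_cube h.symm.subset)

theorem mul_cube (γ x : W G) (σ : Finset V) : (fun y => γ * y) '' cube G x σ = cube G (γ * x) σ := by
  ext z
  constructor
  · rintro ⟨y, hy, rfl⟩
    change γ * y ∈ cube G (γ * x) σ
    rw [mem_cube]
    have : (γ * x)⁻¹ * (γ * y) = x⁻¹ * y := by group
    rw [this]
    exact hy
  · intro hz
    refine ⟨γ⁻¹ * z, ?_, by simp⟩
    rw [mem_cube]
    have : x⁻¹ * (γ⁻¹ * z) = (γ * x)⁻¹ * z := by group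
    rw [this]
    exact hz

theorem card_cube (x : W G) {σ : Finset V} (h : G.IsClique (σ : Set V)) :
    Nat.card (cube G x σ) = 2 ^ σ.card := by
  rw [← card_cl σ h]
  refine Nat.card_congr
    { toFun := fun y => ⟨x⁻¹ * y, y.2⟩
      invFun := fun k => ⟨x * k, by
        rw [mem_cube, inv_mul_cancel_left]
        exact k.2⟩
      left_inv := fun y => Subtype.ext (by simp)
      right_inv := fun k => Subtype.ext (by simp) }

/-- a set which contains the neighbours of `x` in the directions `σ` and which is convex contains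
the cube -/
theorem cube_sub {X : Set (W G)}
    (conv : ∀ x ∈ X, ∀ y ∈ X, ∀ s, len G ((x * gen G s)⁻¹ * y) < len G (x⁻¹ * y) → x * gen G s ∈ X)
    {x : W G} (hx : x ∈ X) {σ : Finset V} (h : G.IsClique (σ : Set V))
    (hs : ∀ s ∈ σ, x * gen G s ∈ X) : cube G x σ ⊆ X := by
  have key : ∀ (k : ℕ) (g : W G), g ∈ Subgroup.closure (gen G '' (σ : Set V)) →
      (σ.filter fun s => lbl G s g ≠ 1).card = k → x * g ∈ X := by
    intro k
    induction k using Nat.strong_induction_on with
    | _ k ih =>
      intro g hg hk
      -- removing a letter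
      have hrem : ∀ s ∈ σ, lbl G s g ≠ 1 → g * gen G s ∈ Subgroup.closure (gen G '' (σ : Set V)) ∧
          ((σ.filter fun t => lbl G t (g * gen G s) ≠ 1) = (σ.filter fun t => lbl G t g ≠ 1).erase s) := by
        intro s hsσ hls
        refine ⟨mul_mem hg (gen_mem hsσ), ?_⟩
        ext t
        simp only [Finset.mem_filter, Finset.mem_erase]
        by_cases hts : t = s
        · subst hts
          have h1 : lbl G t (g * gen G t) = 1 := by
            rw [map_mul, lbl_gen, if_pos rfl]
            revert hls
            generalize lbl G t g = u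
            revert u
            decide
          constructor
          · rintro ⟨_, h2⟩
            exact absurd h1 h2
          · rintro ⟨h2, _⟩
            exact absurd rfl h2
        · rw [map_mul, lbl_gen, if_neg (Ne.symm hts), mul_one]
          constructor
          · rintro ⟨h1, h2⟩
            exact ⟨hts, h1, h2⟩
          · rintro ⟨_, h1, h2⟩
            exact ⟨h1, h2⟩
      rcases Nat.lt_or_ge 1 k with hk1 | hk1
      · -- at least two letters
        rw [← hk, Finset.one_lt_card] at hk1
        obtain ⟨s, hs1, t, ht1, hst⟩ := hk1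
        have hs2 := Finset.mem_filter.1 hs1
        have ht2 := Finset.mem_filter.1 ht1
        obtain ⟨a1, a2⟩ := hrem s hs2.1 hs2.2
        obtain ⟨b1, b2⟩ := hrem t ht2.1 ht2.2
        have hpos : 0 < k := by
          rw [← hk]
          exact Finset.card_pos.2 ⟨s, hs1⟩
        have hx1 : x * (g * gen G s) ∈ X := ih (k - 1) (by omega) _ a1 (by
          rw [a2, Finset.card_erase_of_mem hs1, hk])
        have hx2 : x * (g * gen G t) ∈ X := ih (k - 1) (by omega) _ b1 (by
          rw [b2, Finset.card_erase_of_mem ht1, hk])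
        have hadj : G.Adj s t := h hs2.1 ht2.1 hst
        have e1 : x * (g * gen G s) * gen G s = x * g := by
          rw [mul_assoc, mul_assoc, gen_sq, mul_one]
        have hc := conv _ hx1 _ hx2 s ?_
        · rwa [e1] at hc
        · rw [e1]
          have e2 : (x * g)⁻¹ * (x * (g * gen G t)) = gen G t := by group
          have e3 : (x * (g * gen G s))⁻¹ * (x * (g * gen G t)) = (gen G s) * gen G t := by
            rw [mul_inv_rev, mul_inv_rev, gen_inv]
            group
          rw [e2, e3]
          have l1 : len G (gen G t) = 1 := by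
            rcases len_mul_gen (1 : W G) t with h1 | h1
            · rw [one_mul, len_one] at h1
              exact h1
            · rw [len_one] at h1
              omega
          rcases len_gen_mul s (gen G t) with h1 | h1
          · omega
          · exfalso
            rw [l1] at h1
            have h2 : len G (gen G s * gen G t) = 0 := by omega
            rw [len_eq_zero] at h2
            have h3 := congrArg (lbl G s) h2
            rw [map_mul, lbl_gen, lbl_gen, if_pos rfl, if_neg hst.symm, mul_one,
              map_one (lbl G s)] at h3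
            exact ofAdd_ne h3
      · -- at most one letter
        rcases Nat.eq_zero_or_pos k with rfl | hk0
        · have h1 : g = 1 := by
            refine triv σ h g hg fun s hsσ => ?_
            by_contra hne
            have : s ∈ σ.filter fun s => lbl G s g ≠ 1 := Finset.mem_filter.2 ⟨hsσ, hne⟩
            rw [Finset.card_eq_zero.1 hk] at this
            simp at this
          rw [h1, mul_one]
          exact hx
        · have hk' : k = 1 := by omega
          rw [hk', Finset.card_eq_one] at hk
          obtain ⟨s, hs1⟩ := hk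
          have hs2 : s ∈ σ.filter fun s => lbl G s g ≠ 1 := by
            rw [hs1]
            simp
          have hs3 := Finset.mem_filter.1 hs2
          obtain ⟨a1, a2⟩ := hrem s hs3.1 hs3.2
          rw [hs1, Finset.erase_singleton] at a2
          have h1 : g * gen G s = 1 := by
            refine triv σ h _ a1 fun t ht => ?_
            by_contra hne
            have : t ∈ σ.filter fun t => lbl G t (g * gen G s) ≠ 1 := Finset.mem_filter.2 ⟨ht, hne⟩
            rw [a2] at this
            simp at this
          have h2 : g = gen G s := by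
            rw [← gen_inv G s]
            exact eq_inv_of_mul_eq_one_left h1
          rw [h2]
          exact hs s hs3.1
  intro y hy
  have h1 := key _ (x⁻¹ * y) hy rfl
  rwa [mul_inv_cancel_left] at h1

/-- a torsion-free group acts freely on the cubes -/
theorem free {Γ : Subgroup (W G)} (hΓ : ∀ γ ∈ Γ, ∀ k : ℕ, 0 < k → γ ^ k = 1 → γ = 1) {x : W G}
    {σ : Finset V} (h : G.IsClique (σ : Set V)) {γ : W G} (hγ : γ ∈ Γ)
    (hc : cube G (γ * x) σ = cube G x σ) : γ = 1 := by
  have hfin : Finite (cube G x σ) := by
    refine Nat.finite_of_card_ne_zero ?_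
    rw [card_cube x h]
    positivity
  have hpow : ∀ k : ℕ, γ ^ k * x ∈ cube G x σ := by
    intro k
    induction k with
    | zero => rw [pow_zero, one_mul]; exact self_mem _ _
    | succ k ih =>
      have h1 : γ * (γ ^ k * x) ∈ cube G (γ * x) σ := by
        rw [← mul_cube]
        exact ⟨_, ih, rfl⟩
      rw [hc] at h1
      rw [pow_succ', mul_assoc]
      exact h1
  obtain ⟨k, l, hkl, he⟩ := Finite.exists_ne_map_eq_of_infinite
    (fun k : ℕ => (⟨γ ^ k * x, hpow k⟩ : cube G x σ))
  have he' : γ ^ k = γ ^ l := mul_right_cancel (congrArg Subtype.val he)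
  rcases Nat.lt_or_gt_of_ne hkl with hlt | hlt
  · refine hΓ γ hγ (l - k) (by omega) ?_
    have : γ ^ l = γ ^ k * γ ^ (l - k) := by rw [← pow_add]; congr 1; omega
    rw [this] at he'
    exact (mul_eq_left.1 he'.symm)
  · refine hΓ γ hγ (k - l) (by omega) ?_
    have : γ ^ k = γ ^ l * γ ^ (k - l) := by rw [← pow_add]; congr 1; omega
    rw [this] at he'
    exact (mul_eq_left.1 he')

end CB

end Pool.Agent.J4.H51.AC
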