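import Pool.Agent.J4.H51.JC.Dual

/-!
The amenable complex of a graph: definitions.
-/

set_option autoImplicit false

open scoped Classical

namespace Pool.Agent.J4.H51.AC

open Pool.Agent.W907.SG (W cox chiW)
open Pool.Agent.Q134.SV Pool.Agent.J4.H51.JC

/-- each vertex of `T` is not adjacent to at most one other vertex of `T` -/
def Am {V : Type} (G : SimpleGraph V) (T : Set V) : Prop :=
  ∀ x ∈ T, ∀ y ∈ T, ∀ z ∈ T, x ≠ y → x ≠ z → ¬ G.Adj x y → ¬ G.Adj x z → y = z

section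

variable {V : Type} [Fintype V] (G : SimpleGraph V) {n : ℕ}

/-- `a` is a boundary in the complex of the sets `Am` -/
def AmBd (a : (Fin n → V) → ℝ) : Prop :=
  ∃ b : (Fin (n + 1) → V) → ℝ, Alt b ∧ (∀ w, b w ≠ 0 → Am G (Set.range w)) ∧ bdy b = a

/-- a split of a family of sets -/
def Spl (S : Finset (Finset V)) (P Q : Finset V) : Prop :=
  P.Nonempty ∧ Q.Nonempty ∧ (∀ D ∈ S, (P ⊆ D ∧ Disjoint Q D) ∨ (Q ⊆ D ∧ Disjoint P D)) ∧
  ∀ D ∈ S, ∀ e ∈ D, e ∉ P → e ∉ Q → ∀ x, (x ∈ P ∨ x ∈ Q) → G.Adj e x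

/-- a common element or a split -/
def Mv (S : Finset (Finset V)) : Prop := (∃ s, ∀ D ∈ S, s ∈ D) ∨ ∃ P Q, Spl G S P Q

/-- `τ i` are cliques -/
def Cq (T : Set V) : Prop := ∀ x ∈ T, ∀ y ∈ T, x ≠ y → G.Adj x y

/-- the conditions on the local term -/
structure OK (Ψ : (Fin n → Finset V) → ℝ) : Prop where
  adj : ∀ τ : Fin n → Finset V, ∀ i j : Fin n, (j : ℕ) = i + 1 → τ i = τ j → Ψ τ = 0
  emp : ∀ τ : Fin n → Finset V, ∀ i, τ i = ∅ → Ψ τ = 0
  mv : ∀ τ : Fin (n + 1) → Finset V, (∀ i, (τ i).Nonempty) → (∀ i, Cq G (τ i : Set V)) →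
    Mv G (Finset.univ.image τ) → cobd Ψ τ = 0
  cl : ∀ τ : Fin (n + 1) → Finset V, (∀ i, (τ i).Nonempty) → Cq G {x | ∃ i, x ∈ τ i} →
    cobd Ψ τ = 0

end

/-- `f` is an alternating function on `d`-tuples which vanishes at tuples which are not simplices of
the flag complex of `G` or do not contain `η` (a simplicial `(d-1)`-cochain of the pair of the flag complex `L`
and the complement of the open star of `η`). -/
def Rel {V : Type} (G : SimpleGraph V) (η : Finset V) (d : ℕ) (f : (Fin d → V) → ℝ) : Prop :=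
  (∀ (v : Fin d → V) (i j : Fin d), i ≠ j → f (v ∘ Equiv.swap i j) = - f v) ∧ ∀ v, f v ≠ 0 → (∀ i j, i ≠ j → G.Adj (v i) (v j)) ∧ ∀ x ∈ η, x ∈ Set.range v

/-- `f` is a coboundary relative to the complement of the open star of `η` -/
def Ex {V : Type} (G : SimpleGraph V) (η : Finset V) : (d : ℕ) → ((Fin d → V) → ℝ) → Prop
  | 0, f => f = 0
  | d + 1, f => ∃ g : (Fin d → V) → ℝ, Rel G η d g ∧
      ∀ w : Fin (d + 1) → V, (∀ i j, i ≠ j → G.Adj (w i) (w j)) → cobd g w = f w

/-- The flag complex `L` of `G` is an oriented real homology sphere of dimension `n - 1` all of whose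
links are homology spheres, with fundamental cycle `a`, in terms of local cohomology: for all simplices
`η` (the empty one included, then the cohomology is reduced), the real simplicial cochain complex of the pair
of `L` and the complement of the open star of `η` has cohomology only in degree `n - 1`, where the
evaluation at `a` is an isomorphism to `ℝ`. -/
structure HSph (n : ℕ) {V : Type} [Fintype V] (G : SimpleGraph V) (a : (Fin n → V) → ℝ) : Prop where
  dim : ∀ w : Fin (n + 1) → V, ∃ i j, i ≠ j ∧ ¬ G.Adj (w i) (w j)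
  ex : ∀ η : Finset V, G.IsClique (η : Set V) → ∀ d, ∀ f : (Fin d → V) → ℝ, Rel G η d f →
    (∀ w : Fin (d + 1) → V, (∀ i j, i ≠ j → G.Adj (w i) (w j)) → cobd f w = 0) → d ≠ n → Ex G η d f
  top : ∀ η : Finset V, G.IsClique (η : Set V) → ∀ f : (Fin n → V) → ℝ, Rel G η n f →
    ∑ v, a v * f v = 0 → Ex G η n f
  gen : ∀ η : Finset V, G.IsClique (η : Set V) → ∃ f : (Fin n → V) → ℝ, Rel G η n f ∧
    ∑ v, a v * f v ≠ 0

end Pool.Agent.J4.H51.AC
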