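import Pool.Agent.J4.H51.AC.NuDefs

/-!
The values at the simplices: the sum over a cycle of a coboundary in the rows is zero.
-/

set_option autoImplicit false

open scoped Classical

namespace Pool.Agent.J4.H51.AC

open Pool.Agent.W907.SG (W cox chiW)
open Pool.Agent.Q134.SV Pool.Agent.J4.H51.JC

section row

variable {V : Type} [Fintype V] {G : SimpleGraph V} {m : ℕ}

theorem row_swap {a : (Fin (m + 1) → V) → ℝ} (ha : IsCyc (m + 1) G a)
    (F : (Fin (m + 1) → V) → ℝ) (p q : Fin (m + 1)) (hpq : p ≠ q)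
    (hF : ∀ s, F (s ∘ Equiv.swap p q) = F s) : ∑ s, a s * F s = 0 := by
  have h1 : ∑ s : Fin (m + 1) → V, a s * F s = ∑ s : Fin (m + 1) → V, - (a s * F s) := by
    rw [← Equiv.sum_comp (Equiv.arrowCongr (Equiv.swap p q) (Equiv.refl V))]
    refine Finset.sum_congr rfl fun s _ => ?_
    have e : (Equiv.arrowCongr (Equiv.swap p q) (Equiv.refl V)) s = s ∘ Equiv.swap p q := by
      funext k
      simp [Equiv.arrowCongr]
    rw [e, ha.alt s p q hpq, hF]
    ring
  rw [Finset.sum_neg_distrib] at h1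
  linarith

theorem row_ind {a : (Fin (m + 1) → V) → ℝ} (ha : IsCyc (m + 1) G a)
    (F : (Fin (m + 1) → V) → ℝ) (p : Fin (m + 1))
    (hF : ∀ s s' : Fin (m + 1) → V, (∀ l, l ≠ p → s l = s' l) → F s = F s') :
    ∑ s, a s * F s = 0 := by
  rw [← Equiv.sum_comp (Fin.insertNthEquiv (fun _ : Fin (m + 1) => V) p), Fintype.sum_prod_type,
    Finset.sum_comm]
  refine Finset.sum_eq_zero fun u _ => ?_
  rcases isEmpty_or_nonempty V with h | ⟨⟨x₀⟩⟩
  · simp
  · have : ∀ x : V, a ((Fin.insertNthEquiv (fun _ : Fin (m + 1) => V) p) (x, u)) *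
        F ((Fin.insertNthEquiv (fun _ : Fin (m + 1) => V) p) (x, u)) =
        a (p.insertNth (α := fun _ => V) x u) * F (p.insertNth (α := fun _ => V) x₀ u) := by
      intro x
      have e2 : (Fin.insertNthEquiv (fun _ : Fin (m + 1) => V) p) (x, u) =
        p.insertNth (α := fun _ => V) x u := rfl
      rw [e2]
      congr 1
      refine hF _ _ fun l hl => ?_
      obtain ⟨l', rfl⟩ := Fin.exists_succAbove_eq hl
      simp
    rw [Finset.sum_congr rfl fun x _ => this x, ← Finset.sum_mul, sum_insertNth ha, zero_mul]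

/-- the row of a tuple -/
noncomputable def rowJ (i : Fin (m + 2)) (s : Fin (m + 1) → V) (k : Fin (m + 1)) : Finset V :=
  (Finset.univ.filter fun l : Fin (m + 1) => ((k : ℕ) < i ∧ (k : ℕ) ≤ l ∧ (l : ℕ) < i) ∨
    ((i : ℕ) ≤ k ∧ (i : ℕ) ≤ l ∧ (l : ℕ) ≤ k)).image s

omit [Fintype V] in
theorem mem_rowJ (i : Fin (m + 2)) (s : Fin (m + 1) → V) (k : Fin (m + 1)) (x : V) :
    x ∈ rowJ i s k ↔ ∃ l : Fin (m + 1), x = s l ∧ (((k : ℕ) < i ∧ (k : ℕ) ≤ l ∧ (l : ℕ) < i) ∨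
        ((i : ℕ) ≤ k ∧ (i : ℕ) ≤ l ∧ (l : ℕ) ≤ k)) := by
  unfold rowJ
  rw [Finset.mem_image]
  constructor
  · rintro ⟨l, hl, rfl⟩; exact ⟨l, rfl, by simpa using hl⟩
  · rintro ⟨l, rfl, hl⟩; exact ⟨l, by simpa using hl, rfl⟩

omit [Fintype V] in
theorem rowJ_swap (i : Fin (m + 2)) (s : Fin (m + 1) → V) (k p q : Fin (m + 1))
    (h : (((k : ℕ) < i ∧ (k : ℕ) ≤ p ∧ (p : ℕ) < i) ∨ ((i : ℕ) ≤ k ∧ (i : ℕ) ≤ p ∧ (p : ℕ) ≤ k)) ↔
      (((k : ℕ) < i ∧ (k : ℕ) ≤ q ∧ (q : ℕ) < i) ∨ ((i : ℕ) ≤ k ∧ (i : ℕ) ≤ q ∧ (q : ℕ) ≤ k))) :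
    rowJ i (s ∘ Equiv.swap p q) k = rowJ i s k := by
  ext x
  rw [mem_rowJ, mem_rowJ]
  have key : ∀ l : Fin (m + 1), (((k : ℕ) < i ∧ (k : ℕ) ≤ l ∧ (l : ℕ) < i) ∨
      ((i : ℕ) ≤ k ∧ (i : ℕ) ≤ l ∧ (l : ℕ) ≤ k)) →
      (((k : ℕ) < i ∧ (k : ℕ) ≤ (Equiv.swap p q l : Fin (m + 1)) ∧
        ((Equiv.swap p q l : Fin (m + 1)) : ℕ) < i) ∨
      ((i : ℕ) ≤ k ∧ (i : ℕ) ≤ (Equiv.swap p q l : Fin (m + 1)) ∧
        ((Equiv.swap p q l : Fin (m + 1)) : ℕ) ≤ k)) := by
    intro l hl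
    rcases eq_or_ne l p with rfl | h1
    · rw [Equiv.swap_apply_left]; exact h.1 hl
    · rcases eq_or_ne l q with rfl | h2
      · rw [Equiv.swap_apply_right]; exact h.2 hl
      · rw [Equiv.swap_apply_of_ne_of_ne h1 h2]; exact hl
  constructor
  · rintro ⟨l, rfl, hl⟩
    exact ⟨Equiv.swap p q l, rfl, key l hl⟩
  · rintro ⟨l, rfl, hl⟩
    exact ⟨Equiv.swap p q l, by simp, key l hl⟩

omit [Fintype V] in
theorem rowJ_ind (i : Fin (m + 2)) (s s' : Fin (m + 1) → V) (k p : Fin (m + 1))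
    (h : ¬ (((k : ℕ) < i ∧ (k : ℕ) ≤ p ∧ (p : ℕ) < i) ∨ ((i : ℕ) ≤ k ∧ (i : ℕ) ≤ p ∧ (p : ℕ) ≤ k)))
    (hs : ∀ l, l ≠ p → s l = s' l) : rowJ i s k = rowJ i s' k := by
  ext x
  rw [mem_rowJ, mem_rowJ]
  refine exists_congr fun l => ?_
  by_cases hl : l = p
  · subst hl
    constructor
    · rintro ⟨-, h1⟩; exact absurd h1 h
    · rintro ⟨-, h1⟩; exact absurd h1 h
  · rw [hs l hl]

theorem rowJ_eq {s : Fin (m + 1) → V} (hs : ∀ i j, i ≠ j → G.Adj (s i) (s j)) (i : Fin (m + 2)) :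
    ((fun j => dr (Fin.partialProd (gen G ∘ s) i)
      (Fin.partialProd (gen G ∘ s) j)) ∘ i.succAbove) = rowJ i s := by
  funext k
  ext x
  rw [mem_rowJ, Function.comp_apply]
  exact mem_row hs i k x

/-- independent of the rest. -/
theorem sum_row {a : (Fin (m + 1) → V) → ℝ} (ha : IsCyc (m + 1) G a) (e : (Fin m → Finset V) → ℝ)
    (i : Fin (m + 2)) : ∑ s : Fin (m + 1) → V, a s * cobd e ((fun j => dr (Fin.partialProd (gen G ∘ s) i)
      (Fin.partialProd (gen G ∘ s) j)) ∘ i.succAbove) = 0 := by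
  have h1 : ∀ s : Fin (m + 1) → V, a s * cobd e ((fun j => dr (Fin.partialProd (gen G ∘ s) i)
      (Fin.partialProd (gen G ∘ s) j)) ∘ i.succAbove) = ∑ k : Fin (m + 1),
        (-1 : ℝ) ^ (k : ℕ) * (a s * e (rowJ i s ∘ k.succAbove)) := by
    intro s
    by_cases h0 : a s = 0
    · simp [h0]
    · rw [rowJ_eq (ha.supp s h0) i]
      unfold cobd
      rw [Finset.mul_sum]
      exact Finset.sum_congr rfl fun k _ => by ring
  rw [Finset.sum_congr rfl fun s _ => h1 s, Finset.sum_comm]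
  refine Finset.sum_eq_zero fun k _ => ?_
  rw [← Finset.mul_sum]
  suffices h : ∑ s : Fin (m + 1) → V, a s * e (rowJ i s ∘ k.succAbove) = 0 by rw [h, mul_zero]
  have hk := k.2
  have hi := i.2
  have hne : ∀ l : Fin m, ((k.succAbove l : Fin (m + 1)) : ℕ) ≠ (k : ℕ) := fun l h =>
    Fin.succAbove_ne k l (Fin.ext h)
  by_cases hki : (k : ℕ) < i
  · by_cases hk0 : (k : ℕ) = 0
    · refine row_ind ha (fun s => e (rowJ i s ∘ k.succAbove)) k fun s s' hss => ?_
      congr 1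
      funext l
      refine rowJ_ind i s s' _ k ?_ hss
      have := hne l
      omega
    · refine row_swap ha (fun s => e (rowJ i s ∘ k.succAbove)) ⟨(k : ℕ) - 1, by omega⟩ k
        (fun h => ?_) fun s => ?_
      · have := congrArg Fin.val h
        simp only at this
        omega
      · congr 1
        funext l
        refine rowJ_swap i s _ _ _ ?_
        have := hne l
        simp only
        omega
  · by_cases hkm : (k : ℕ) = m
    · refine row_ind ha (fun s => e (rowJ i s ∘ k.succAbove)) k fun s s' hss => ?_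
      congr 1
      funext l
      refine rowJ_ind i s s' _ k ?_ hss
      have := hne l
      have := (k.succAbove l).2
      omega
    · refine row_swap ha (fun s => e (rowJ i s ∘ k.succAbove)) k ⟨(k : ℕ) + 1, by omega⟩
        (fun h => ?_) fun s => ?_
      · have := congrArg Fin.val h
        simp only at this
        omega
      · congr 1
        funext l
        refine rowJ_swap i s _ _ _ ?_
        have := hne l
        simp only
        omega

end row

end Pool.Agent.J4.H51.AC
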