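import Pool.Agent.J4.H51.AC.Psi
import Pool.Agent.J4.H51.AC.Row

/-!
Duality and the values at cycles: a cycle which is not a boundary in the amenable complex gives a bounded
class.
-/

set_option autoImplicit false

open scoped Classical

namespace Pool.Agent.J4.H51.AC

open Pool.Agent.W907.SG (W cox)
open Pool.Agent.Q134.SV Pool.Agent.J4.H51.JC

section

variable {V : Type} [Fintype V] {G : SimpleGraph V} {n : ℕ}

theorem dual2 {a : (Fin n → V) → ℝ} (ha : Alt a) (hn : ¬ AmBd G a) : ∃ ψ : (Fin n → V) → ℝ, Alt ψ ∧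
    (∀ w : Fin (n + 1) → V, Am G (Set.range w) → cobd ψ w = 0) ∧ ∑ v, a v * ψ v ≠ 0 := by
  let S : Submodule ℝ (EuclideanSpace ℝ (Fin n → V)) :=
    { carrier := {x | AmBd G (fun v => x v)}
      add_mem' := by
        rintro x y ⟨b, h1, h2, h3⟩ ⟨b', h1', h2', h3'⟩
        refine ⟨b + b', h1.add h1', fun w hw => ?_, ?_⟩
        · by_cases h0 : b w = 0
          · refine h2' w fun h0' => hw ?_
            simp [h0, h0']
          · exact h2 w h0
        · funext u
          have e1 := congrFun h3 u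
          have e2 := congrFun h3' u
          unfold bdy at e1 e2 ⊢
          simp only [Pi.add_apply, Finset.sum_add_distrib, e1, e2]
          rfl
      zero_mem' := by
        refine ⟨0, fun v i j _ => by simp, fun w hw => absurd rfl hw, ?_⟩
        funext u
        simp [bdy]
      smul_mem' := by
        rintro r x ⟨b, h1, h2, h3⟩
        refine ⟨r • b, h1.smul r, fun w hw => h2 w fun h0 => hw (by simp [h0]), ?_⟩
        funext u
        have e1 := congrFun h3 u
        unfold bdy at e1 ⊢
        simp only [Pi.smul_apply, ← Finset.smul_sum, e1]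
        rfl }
  obtain ⟨y, hy, z, hz, haz⟩ := S.exists_add_mem_mem_orthogonal (WithLp.toLp 2 a)
  have haz' : ∀ v, a v = y v + z v := fun v => by
    have := congrArg (fun x : EuclideanSpace ℝ (Fin n → V) => x v) haz
    exact this
  obtain ⟨b, h1, h2, h3⟩ := hy
  have hyA : Alt (fun v => y v) := by rw [← h3]; exact h1.bd
  have hzA : Alt (fun v => z v) := by
    intro v i j hij
    have e1 := haz' (v ∘ Equiv.swap i j)
    have e2 := haz' v
    have e3 := ha v i j hij
    have e4 := hyA v i j hij
    simp only at e4 ⊢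
    linarith
  have hinner : ∀ x : EuclideanSpace ℝ (Fin n → V), x ∈ S → ∑ v, x v * z v = 0 := by
    intro x hx
    have := (Submodule.mem_orthogonal _ _).1 hz x hx
    rw [EuclideanSpace.inner_eq_star_dotProduct] at this
    simp only [dotProduct, star_trivial] at this
    rw [← this]
    exact Finset.sum_congr rfl fun v _ => by ring
  refine ⟨fun v => z v, hzA, ?_, ?_⟩
  · -- cocycle on joins
    let b' : (Fin (n + 1) → V) → ℝ := fun w =>
      if Am G (Set.range w) then cobd (fun v => z v) w else 0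
    have hb'A : Alt b' := by
      intro w i j hij
      simp only [b', range_swap]
      rw [hzA.cob w i j hij]
      split_ifs <;> simp
    have hmem : (WithLp.toLp 2 (bdy b') : EuclideanSpace ℝ (Fin n → V)) ∈ S := by
      refine ⟨b', hb'A, fun w hw => ?_, rfl⟩
      by_contra hJ
      exact hw (by simp [b', hJ])
    have h4 := adjoint hb'A (fun v => z v)
    have h5 := hinner _ hmem
    simp only at h5
    rw [h5, mul_zero] at h4
    have h6 : ∀ w, b' w * cobd (fun v => z v) w = b' w ^ 2 := by
      intro w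
      simp only [b']
      split_ifs
      · ring
      · ring
    simp only [h6] at h4
    rw [Finset.sum_eq_zero_iff_of_nonneg (fun w _ => sq_nonneg _)] at h4
    intro w hw
    have h7 := h4 w (Finset.mem_univ w)
    simp only [b', if_pos hw] at h7
    exact pow_eq_zero_iff (two_ne_zero) |>.1 h7
  · intro h0
    have hyS : ∑ v, y v * z v = 0 := hinner y ⟨b, h1, h2, h3⟩
    have h4 : ∑ v, z v ^ 2 = 0 := by
      rw [← h0, ← sub_eq_zero, ← Finset.sum_sub_distrib]
      have : ∀ v, z v ^ 2 - a v * z v = - (y v * z v) := fun v => by rw [haz' v]; ring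
      rw [Finset.sum_congr rfl fun v _ => this v, Finset.sum_neg_distrib, hyS, neg_zero]
    rw [Finset.sum_eq_zero_iff_of_nonneg (fun w _ => sq_nonneg _)] at h4
    apply hn
    refine ⟨b, h1, h2, ?_⟩
    rw [h3]
    funext v
    have := pow_eq_zero_iff (two_ne_zero) |>.1 (h4 v (Finset.mem_univ v))
    rw [haz' v, this, add_zero]

end

section

variable {V : Type} [Fintype V] {G : SimpleGraph V}

theorem sum_coef (n : ℕ) : ∑ i : Fin (n + 1), (((i : ℕ).factorial : ℝ) * ((n - i).factorial : ℝ))⁻¹ =
    2 ^ n / (n.factorial : ℝ) := by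
  rw [Fin.sum_univ_eq_sum_range (fun i : ℕ => ((i.factorial : ℝ) * ((n - i).factorial : ℝ))⁻¹)
    (n + 1), eq_div_iff (by positivity), Finset.sum_mul]
  have h2 := Nat.sum_range_choose n
  have h3 : ((∑ i ∈ Finset.range (n + 1), n.choose i : ℕ) : ℝ) = 2 ^ n := by
    rw [h2]; push_cast; rfl
  rw [← h3]
  push_cast
  refine Finset.sum_congr rfl fun i hi => ?_
  rw [Finset.mem_range] at hi
  rw [Nat.cast_choose ℝ (by omega : i ≤ n), div_eq_mul_inv, mul_comm]

/-- the bounded cochain of an alternating function which is closed on the amenable sets -/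
theorem ex_coch {m : ℕ} (θ : (Fin (m + 1) → V) → ℝ) (h : Alt θ)
    (hθ : ∀ w : Fin (m + 2) → V, Am G (Set.range w) → cobd θ w = 0) :
    ∃ c : (Fin (m + 2) → W G) → ℝ, Good G (m + 1) c ∧
      ∀ a : (Fin (m + 1) → V) → ℝ, IsCyc (m + 1) G a →
        pair (gen G) a c = 2 ^ (m + 1) / ((m + 1).factorial : ℝ) * ∑ v, a v * θ v := by
  obtain ⟨Ψ, hΨ, e, he⟩ := ex_Psi θ h hθ
  refine ⟨be G Ψ, be_good hΨ, fun a ha => ?_⟩
  unfold pair
  have h1 : ∀ s : Fin (m + 1) → V, a s * be G Ψ (Fin.partialProd (gen G ∘ s)) =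
      ∑ i : Fin (m + 2), (a s * ((((i : ℕ).factorial : ℝ) * ((m + 1 - i).factorial : ℝ))⁻¹ * θ s) +
        a s * cobd e ((fun j => dr (Fin.partialProd (gen G ∘ s) i)
          (Fin.partialProd (gen G ∘ s) j)) ∘ i.succAbove)) := by
    intro s
    by_cases h0 : a s = 0
    · simp [h0]
    · have hs := ha.supp s h0
      rw [be_val hs hΨ, Finset.mul_sum]
      refine Finset.sum_congr rfl fun i _ => ?_
      rw [← mul_add, he, evA_row hs h i]
      · intro k
        rw [Finset.nonempty_iff_ne_empty]
        intro e0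
        have := pp_inj hs (dr_eq_empty.1 e0)
        exact Fin.succAbove_ne _ _ this.symm
      · rintro x ⟨k, hx⟩ y ⟨l, hy⟩ hxy
        obtain ⟨p, rfl, -⟩ := (mem_row hs i k x).1 hx
        obtain ⟨q, rfl, -⟩ := (mem_row hs i l y).1 hy
        exact hs p q fun e => hxy (by rw [e])
  rw [Finset.sum_congr rfl fun s _ => h1 s, Finset.sum_comm]
  simp only [Finset.sum_add_distrib]
  have h2 : ∑ i : Fin (m + 2), ∑ s : Fin (m + 1) → V, a s * cobd e
      ((fun j => dr (Fin.partialProd (gen G ∘ s) i) (Fin.partialProd (gen G ∘ s) j)) ∘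
        i.succAbove) = 0 := Finset.sum_eq_zero fun i _ => sum_row ha e i
  rw [h2, add_zero, ← sum_coef, Finset.sum_mul]
  refine Finset.sum_congr rfl fun i _ => ?_
  rw [Finset.mul_sum]
  refine Finset.sum_congr rfl fun s _ => ?_
  ring

/-- a cycle which is not a boundary in the amenable complex gives a bounded class -/
theorem ex_good2 {m : ℕ} {a : (Fin (m + 1) → V) → ℝ} (ha : IsCyc (m + 1) G a) (hJ : ¬ AmBd G a) :
    ∃ c, Good G (m + 1) c ∧ pair (gen G) a c ≠ 0 := by
  obtain ⟨θ, h, hθ, hp⟩ := dual2 ha.alt hJ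
  obtain ⟨c, hc, hpc⟩ := ex_coch θ h hθ
  refine ⟨c, hc, ?_⟩
  rw [hpc a ha]
  have : (2 : ℝ) ^ (m + 1) / ((m + 1).factorial : ℝ) ≠ 0 := by positivity
  exact mul_ne_zero this hp

end

end Pool.Agent.J4.H51.AC
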