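import Pool.Agent.J4.H51.AC.Cube

/-!
The Euler characteristic of the quotient of a convex cube complex by a torsion-free group: the
alternating sum of the numbers of the orbits of cubes is the sum of the curvatures of the vertices.
-/

set_option autoImplicit false

open scoped Classical

namespace Pool.Agent.J4.H51.AC

open Pool.Agent.W907.SG (W cox chiW)
open Pool.Agent.Q134.SV Pool.Agent.J4.H51.JC

variable {V : Type}

namespace CB

variable {G : SimpleGraph V} {Γ : Subgroup (W G)} {X : Set (W G)}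

theorem rel_equiv (d : ℕ) :
    Equivalence (fun C D : Cub G X d => ∃ γ ∈ Γ, D.1 = (fun y => γ * y) '' C.1) := by
  refine ⟨fun C => ⟨1, one_mem _, by simp⟩, ?_, ?_⟩
  · rintro C D ⟨γ, hγ, h⟩
    refine ⟨γ⁻¹, inv_mem hγ, ?_⟩
    rw [h, Set.image_image]
    simp
  · rintro C D E ⟨γ, hγ, h⟩ ⟨δ, hδ, h'⟩
    refine ⟨δ * γ, mul_mem hδ hγ, ?_⟩
    rw [h', h, Set.image_image]
    simp only [mul_assoc]

/-- the class of a vertex -/
noncomputable def cls (Γ : Subgroup (W G)) (y : W G) : Quotient (QuotientGroup.rightRel Γ) :=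
  Quotient.mk (QuotientGroup.rightRel Γ) y

theorem cls_mul {γ : W G} (hγ : γ ∈ Γ) (y : W G) : cls Γ (γ * y) = cls Γ y := by
  refine Quotient.sound (s := QuotientGroup.rightRel Γ) ?_
  change QuotientGroup.rightRel Γ _ _
  rw [QuotientGroup.rightRel_apply]
  have : y * (γ * y)⁻¹ = γ⁻¹ := by group
  rw [this]
  exact inv_mem hγ

theorem cls_eq {y z : W G} (h : cls Γ y = cls Γ z) : ∃ γ ∈ Γ, z = γ * y := by
  have h1 : QuotientGroup.rightRel Γ y z := Quotient.exact (s := QuotientGroup.rightRel Γ) h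
  rw [QuotientGroup.rightRel_apply] at h1
  exact ⟨z * y⁻¹, h1, by group⟩

theorem cls_out (q : Quotient (QuotientGroup.rightRel Γ)) : cls Γ (Quotient.out q) = q :=
  Quotient.out_eq q

theorem out_cls (y : W G) : ∃ γ ∈ Γ, Quotient.out (cls Γ y) = γ * y :=
  cls_eq (cls_out (cls Γ y)).symm

/-- the pairs of an orbit of vertices and a direction set of a cube of dimension `d` -/
def Fl (Γ : Subgroup (W G)) (X : Set (W G)) (d : ℕ) : Type :=
  {p : Quotient (QuotientGroup.rightRel Γ) × Finset V // Quotient.out p.1 ∈ X ∧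
    G.IsClique (p.2 : Set V) ∧ p.2.card = d ∧ ∀ s ∈ p.2, Quotient.out p.1 * gen G s ∈ X}

variable (conv : ∀ x ∈ X, ∀ y ∈ X, ∀ s, len G ((x * gen G s)⁻¹ * y) < len G (x⁻¹ * y) →
  x * gen G s ∈ X)

/-- the orbit of cubes of a pair -/
noncomputable def toC (d : ℕ) (p : Fl Γ X d) :
    Quot fun C D : Cub G X d => ∃ γ ∈ Γ, D.1 = (fun y => γ * y) '' C.1 :=
  Quot.mk _ ⟨cube G (Quotient.out p.1.1) p.1.2, cube_sub conv p.2.1 p.2.2.1 p.2.2.2.2,
    ⟨_, _, p.2.2.1, p.2.2.2.1, rfl⟩⟩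

theorem card_fib (hinv : ∀ γ ∈ Γ, ∀ x ∈ X, γ * x ∈ X)
    (hΓ : ∀ γ ∈ Γ, ∀ k : ℕ, 0 < k → γ ^ k = 1 → γ = 1) (d : ℕ)
    (c : Quot fun C D : Cub G X d => ∃ γ ∈ Γ, D.1 = (fun y => γ * y) '' C.1) :
    Nat.card {p : Fl Γ X d // toC conv d p = c} = 2 ^ d := by
  induction c using Quot.ind with
  | mk C =>
    obtain ⟨C, hCX, x, σ, hσ, hd, hC⟩ := C
    subst hC
    have hcc : 2 ^ d = Nat.card (cube G x σ) := by rw [card_cube x hσ, hd]
    refine Eq.trans ?_ hcc.symm
    symm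
    have hy0 : ∀ y : cube G x σ, cube G (y : W G) σ = cube G x σ := fun y => cube_eq y.2
    refine Nat.card_congr (Equiv.ofBijective (fun y : cube G x σ =>
      (⟨⟨(cls Γ (y : W G), σ), ?_, hσ, hd, ?_⟩, ?_⟩ : {p : Fl Γ X d // toC conv d p = _})) ⟨?_, ?_⟩)
    · obtain ⟨γ, hγ, h⟩ := out_cls (Γ := Γ) (y : W G)
      change Quotient.out (cls Γ (y : W G)) ∈ X
      rw [h]
      exact hinv γ hγ _ (hCX y.2)
    · intro s hs
      obtain ⟨γ, hγ, h⟩ := out_cls (Γ := Γ) (y : W G)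
      change Quotient.out (cls Γ (y : W G)) * gen G s ∈ X
      rw [h, mul_assoc]
      refine hinv γ hγ _ (hCX ((hy0 y).subset ?_))
      rw [mem_cube, inv_mul_cancel_left]
      exact gen_mem hs
    · obtain ⟨γ, hγ, h⟩ := out_cls (Γ := Γ) (y : W G)
      refine Quot.sound ?_
      refine ⟨γ⁻¹, inv_mem hγ, ?_⟩
      change cube G x σ = (fun z => γ⁻¹ * z) '' cube G (Quotient.out (cls Γ (y : W G))) σ
      rw [h, mul_cube, inv_mul_cancel_left, hy0 y]
    · intro y z hyz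
      have h1 : cls Γ (y : W G) = cls Γ (z : W G) :=
        congrArg (fun p : {p : Fl Γ X d // toC conv d p = _} => p.1.1.1) hyz
      obtain ⟨γ, hγ, h⟩ := cls_eq h1
      have h2 : γ = 1 := by
        refine free hΓ (x := (y : W G)) hσ hγ ?_
        rw [← h, hy0 z, hy0 y]
      rw [h2, one_mul] at h
      exact Subtype.ext h.symm
    · rintro ⟨⟨⟨q, τ⟩, hq, hτ, hτd, hτX⟩, hp⟩
      have h1 := (rel_equiv (G := G) (Γ := Γ) (X := X) d).eqvGen_iff.1 (Quot.eq.1 hp)
      obtain ⟨γ, hγ, h⟩ := h1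
      change cube G x σ = (fun z => γ * z) '' cube G (Quotient.out q) τ at h
      rw [mul_cube] at h
      have h2 : σ = τ := dir_eq h
      subst h2
      refine ⟨⟨γ * Quotient.out q, ?_⟩, ?_⟩
      · rw [h]
        exact self_mem _ _
      · refine Subtype.ext (Subtype.ext (Prod.ext ?_ rfl))
        change cls Γ (γ * Quotient.out q) = q
        rw [cls_mul hγ, cls_out]

theorem fin_cls (hcoc : ∃ F : Finset (W G), ∀ x ∈ X, ∃ γ ∈ Γ, γ * x ∈ F) :
    {q : Quotient (QuotientGroup.rightRel Γ) | Quotient.out q ∈ X}.Finite := by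
  obtain ⟨F, hF⟩ := hcoc
  refine (F.finite_toSet.image (cls Γ)).subset ?_
  intro q hq
  obtain ⟨γ, hγ, h⟩ := hF _ hq
  exact ⟨_, h, by rw [cls_mul hγ, cls_out]⟩

theorem card_Fl [Finite V] (hcoc : ∃ F : Finset (W G), ∀ x ∈ X, ∃ γ ∈ Γ, γ * x ∈ F)
    (hinv : ∀ γ ∈ Γ, ∀ x ∈ X, γ * x ∈ X)
    (hΓ : ∀ γ ∈ Γ, ∀ k : ℕ, 0 < k → γ ^ k = 1 → γ = 1)
    (conv : ∀ x ∈ X, ∀ y ∈ X, ∀ s, len G ((x * gen G s)⁻¹ * y) < len G (x⁻¹ * y) →
      x * gen G s ∈ X) (d : ℕ) : Nat.card (Fl Γ X d) = ncub Γ X d * 2 ^ d := by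
  have hA : Finite {q : Quotient (QuotientGroup.rightRel Γ) // Quotient.out q ∈ X} := fin_cls hcoc
  have hF : Finite (Fl Γ X d) := by
    refine Finite.of_injective (β := {q : Quotient (QuotientGroup.rightRel Γ) //
      Quotient.out q ∈ X} × Finset V) (fun p => (⟨p.1.1, p.2.1⟩, p.1.2)) ?_
    rintro ⟨⟨q, τ⟩, hp⟩ ⟨⟨q', τ'⟩, hp'⟩ h
    have h1 : q = q' := congrArg (fun r => (r.1.1)) h
    have h2 : τ = τ' := congrArg (fun r => r.2) h
    subst h1
    subst h2
    rfl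
  have hsur : Function.Surjective (toC (Γ := Γ) conv d) := by
    intro c
    have h1 := card_fib conv hinv hΓ d c
    have h2 : Nat.card {p : Fl Γ X d // toC conv d p = c} ≠ 0 := by
      rw [h1]
      positivity
    obtain ⟨⟨p, hp⟩⟩ := (Nat.card_ne_zero.1 h2).1
    exact ⟨p, hp⟩
  have hQ : Finite (Quot fun C D : Cub G X d => ∃ γ ∈ Γ, D.1 = (fun y => γ * y) '' C.1) :=
    Finite.of_surjective _ hsur
  have : Fintype (Quot fun C D : Cub G X d => ∃ γ ∈ Γ, D.1 = (fun y => γ * y) '' C.1) :=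
    Fintype.ofFinite _
  rw [← Nat.card_congr (Equiv.sigmaFiberEquiv (toC (Γ := Γ) conv d)), Nat.card_sigma,
    Finset.sum_congr rfl fun c _ => card_fib conv hinv hΓ d c, Finset.sum_const, Finset.card_univ,
    ncub, Nat.card_eq_fintype_card, smul_eq_mul]

end CB

variable [Fintype V]

open CB in
/-- the Euler characteristic of a special cubulated manifold -/
theorem chiX_eq {n : ℕ} {G : SimpleGraph V} {Γ : Subgroup (W G)} {X : Set (W G)}
    {a : W G → (Fin n → V) → ℝ} (hX : SpC n G Γ X a) (hΓ : ∀ γ ∈ Γ, ∀ k : ℕ, 0 < k → γ ^ k = 1 → γ = 1) :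
    (chiX Γ X : ℝ) = qs Γ (fun x => if x ∈ X then (chiW (G.induce {s | x * gen G s ∈ X}) : ℝ) else 0) := by
  have hfin := fin_cls hX.coc
  obtain ⟨A, hA⟩ : ∃ A : Finset (Quotient (QuotientGroup.rightRel Γ)),
      ∀ q, q ∈ A ↔ Quotient.out q ∈ X := ⟨hfin.toFinset, fun q => by simp⟩
  -- the right side
  have h1 : qs Γ (fun x => if x ∈ X then (chiW (G.induce {s | x * gen G s ∈ X}) : ℝ) else 0) =
      ∑ q ∈ A, (chiW (G.induce {s | Quotient.out q * gen G s ∈ X}) : ℝ) := by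
    unfold qs
    rw [finsum_eq_sum_of_support_subset _ (s := A)]
    · refine Finset.sum_congr rfl fun q hq => ?_
      exact if_pos ((hA q).1 hq)
    · intro q hq
      rw [Function.mem_support] at hq
      rw [Finset.mem_coe, hA]
      by_contra hne
      exact hq (if_neg hne)
  let Z : Finset (Quotient (QuotientGroup.rightRel Γ) × Finset V) :=
    (A ×ˢ Finset.univ).filter fun p => G.IsClique (p.2 : Set V) ∧
      ∀ s ∈ p.2, Quotient.out p.1 * gen G s ∈ X
  have h2 : ∑ q ∈ A, (chiW (G.induce {s | Quotient.out q * gen G s ∈ X}) : ℝ) =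
      ∑ p ∈ Z, (-1 / 2 : ℝ) ^ p.2.card := by
    rw [Finset.sum_filter, Finset.sum_product]
    refine Finset.sum_congr rfl fun q _ => ?_
    rw [Pool.Agent.Q134.SE.chiW_induce]
    push_cast
    refine Finset.sum_congr rfl fun T _ => ?_
    have e1 : ((T : Set V) ⊆ {s | Quotient.out q * gen G s ∈ X}) ↔
        ∀ s ∈ T, Quotient.out q * gen G s ∈ X := Iff.rfl
    unfold Pool.Agent.Q134.SE.tm
    by_cases hcl : G.IsClique (T : Set V)
    · by_cases hT : ∀ s ∈ T, Quotient.out q * gen G s ∈ X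
      · rw [if_pos (e1.2 hT), if_pos hcl, if_pos ⟨hcl, hT⟩]
        push_cast
        rfl
      · rw [if_neg (fun h => hT (e1.1 h)), if_neg (fun h => hT h.2)]
        simp
    · rw [if_neg (fun h : _ ∧ _ => hcl h.1), if_neg hcl]
      simp
  have h3 : ∑ p ∈ Z, (-1 / 2 : ℝ) ^ p.2.card = ∑ d ∈ Finset.range (Fintype.card V + 1),
      (-1 / 2 : ℝ) ^ d * (Nat.card (Fl Γ X d) : ℝ) := by
    rw [← Finset.sum_fiberwise_of_maps_to (t := Finset.range (Fintype.card V + 1))
      (g := fun p : Quotient (QuotientGroup.rightRel Γ) × Finset V => p.2.card)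
      (fun p _ => Finset.mem_range.2 (Nat.lt_succ_of_le (Finset.card_le_univ _)))]
    refine Finset.sum_congr rfl fun d _ => ?_
    have e1 : Nat.card (Fl Γ X d) = (Z.filter fun p => p.2.card = d).card := by
      unfold Fl
      refine Nat.subtype_card _ fun p => ?_
      rw [Finset.mem_filter, Finset.mem_filter, Finset.mem_product, hA]
      simp only [Finset.mem_univ, and_true]
      tauto
    rw [e1, Finset.sum_congr rfl (g := fun _ => (-1 / 2 : ℝ) ^ d)
      (fun p hp => by rw [(Finset.mem_filter.1 hp).2]), Finset.sum_const, nsmul_eq_mul]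
    ring
  rw [h1, h2, h3]
  unfold chiX
  push_cast
  refine Finset.sum_congr rfl fun d _ => ?_
  rw [card_Fl hX.coc hX.inv hΓ hX.conv d]
  push_cast
  have : (-1 / 2 : ℝ) ^ d * 2 ^ d = (-1) ^ d := by
    rw [← mul_pow]
    norm_num
  linear_combination (-(ncub Γ X d : ℝ)) * this

end Pool.Agent.J4.H51.AC
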