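import Pool.Agent.J4.H51.AC.SpDefs

/-!
Sums over the orbits of a group which acts on a convex subset of a right-angled Coxeter group, and
Stokes for these sums.
-/

set_option autoImplicit false

open scoped Classical

namespace Pool.Agent.J4.H51.AC

open Pool.Agent.W907.SG (W cox chiW)
open Pool.Agent.Q134.SV Pool.Agent.J4.H51.JC

variable {V : Type} [Fintype V] {G : SimpleGraph V} {n : ℕ}

section H

variable {Γ : Subgroup (W G)} {X : Set (W G)} {a : W G → (Fin n → V) → ℝ}

omit [Fintype V] in
theorem mk_eq_iff {x y : W G} : (Quotient.mk (QuotientGroup.rightRel Γ) x =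
    Quotient.mk (QuotientGroup.rightRel Γ) y) ↔ ∃ γ ∈ Γ, y = γ * x := by
  rw [Quotient.eq, QuotientGroup.rightRel_apply]
  constructor
  · intro h
    exact ⟨y * x⁻¹, h, by group⟩
  · rintro ⟨γ, h, rfl⟩
    simpa using h

omit [Fintype V] in
/-- the representatives -/
theorem out_mk (Γ : Subgroup (W G)) (x : W G) :
    ∃ γ ∈ Γ, Quotient.out (Quotient.mk (QuotientGroup.rightRel Γ) x) = γ * x :=
  mk_eq_iff.1 (Quotient.out_eq _).symm

omit [Fintype V] in
theorem inv_out {φ : W G → ℝ} (hφ : ∀ γ ∈ Γ, ∀ x, φ (γ * x) = φ x) (x : W G) :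
    φ (Quotient.out (Quotient.mk (QuotientGroup.rightRel Γ) x)) = φ x := by
  obtain ⟨γ, h, e⟩ := out_mk Γ x
  rw [e, hφ γ h]

omit [Fintype V] in
theorem mk_mul_out {γ : W G} (h : γ ∈ Γ) (q : Quotient (QuotientGroup.rightRel Γ)) :
    Quotient.mk (QuotientGroup.rightRel Γ) (γ * Quotient.out q) = q := by
  conv_rhs => rw [← Quotient.out_eq q]
  exact (mk_eq_iff.2 ⟨γ, h, rfl⟩).symm

/-- right multiplication on the quotient -/
noncomputable def mulQ (Γ : Subgroup (W G)) (w : W G) : Quotient (QuotientGroup.rightRel Γ) ≃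
    Quotient (QuotientGroup.rightRel Γ) where
  toFun q := Quotient.mk _ (Quotient.out q * w)
  invFun q := Quotient.mk _ (Quotient.out q * w⁻¹)
  left_inv q := by
    obtain ⟨γ, h, e⟩ := out_mk Γ (Quotient.out q * w)
    beta_reduce
    rw [e, show γ * (Quotient.out q * w) * w⁻¹ = γ * Quotient.out q by group]
    exact mk_mul_out h q
  right_inv q := by
    obtain ⟨γ, h, e⟩ := out_mk Γ (Quotient.out q * w⁻¹)
    beta_reduce
    rw [e, show γ * (Quotient.out q * w⁻¹) * w = γ * Quotient.out q by group]
    exact mk_mul_out h q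

omit [Fintype V] in
/-- right multiplication by w is a bijection of the quotient -/
theorem qs_mul (φ : W G → ℝ) (hφ : ∀ γ ∈ Γ, ∀ x, φ (γ * x) = φ x) (w : W G) :
    qs Γ (fun x => φ (x * w)) = qs Γ φ := by
  unfold qs
  rw [← finsum_comp_equiv (mulQ Γ w) (f := fun q => φ (Quotient.out q))]
  exact finsum_congr fun q => (inv_out hφ _).symm

/-- a function which vanishes outside of X has finite support in the quotient -/
theorem qs_fin (hX : SpC n G Γ X a) (w : W G) (φ : W G → ℝ) (hφ : ∀ x, x * w ∉ X → φ x = 0) :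
    (Function.support fun q : Quotient (QuotientGroup.rightRel Γ) =>
      φ (Quotient.out q)).Finite := by
  obtain ⟨F, hF⟩ := hX.coc
  refine (F.image (fun f => Quotient.mk (QuotientGroup.rightRel Γ)
    (f * w⁻¹))).finite_toSet.subset (fun q hq => ?_)
  have h1 : Quotient.out q * w ∈ X := by
    by_contra hc
    exact hq (hφ _ hc)
  obtain ⟨γ, hγ, hm⟩ := hF _ h1
  rw [Finset.coe_image]
  refine ⟨γ * (Quotient.out q * w), hm, ?_⟩
  change Quotient.mk _ (γ * (Quotient.out q * w) * w⁻¹) = q
  rw [show γ * (Quotient.out q * w) * w⁻¹ = γ * Quotient.out q by group]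
  exact mk_mul_out hγ q

theorem qs_sum (hX : SpC n G Γ X a) {ι : Type} (s : Finset ι) (w : ι → W G) (φ : ι → W G → ℝ)
    (hφ : ∀ i x, x * w i ∉ X → φ i x = 0) :
    qs Γ (fun x => ∑ i ∈ s, φ i x) = ∑ i ∈ s, qs Γ (φ i) := by
  unfold qs
  exact finsum_sum_comm s (fun q i => φ i (Quotient.out q)) fun i _ => qs_fin hX (w i) (φ i) (hφ i)

omit [Fintype V] in
/-- the value on one orbit -/
theorem qs_orbit (φ : W G → ℝ) (hφ : ∀ γ ∈ Γ, ∀ x, φ (γ * x) = φ x) (v₀ : W G) :
    qs Γ (fun x => if (∃ γ ∈ Γ, x = γ * v₀) then φ x else 0) = φ v₀ := by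
  unfold qs
  rw [finsum_eq_single _ (Quotient.mk (QuotientGroup.rightRel Γ) v₀)]
  · beta_reduce
    rw [if_pos (out_mk Γ v₀)]
    exact inv_out hφ v₀
  · intro q hq
    beta_reduce
    rw [if_neg]
    rintro ⟨γ, h, e⟩
    apply hq
    rw [← Quotient.out_eq q, e]
    exact (mk_eq_iff.2 ⟨γ, h, rfl⟩).symm

/-- the vertices of the cubes are in X, and the orientation changes its sign at each edge -/
theorem pp_mem (hX : SpC n G Γ X a) {x : W G} (hx : x ∈ X) {s : Fin n → V} (hs : a x s ≠ 0)
    (i : Fin (n + 1)) : x * Fin.partialProd (gen G ∘ s) i ∈ X ∧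
      a (x * Fin.partialProd (gen G ∘ s) i) s = (-1) ^ (i : ℕ) * a x s := by
  refine Fin.induction (motive := fun i => x * Fin.partialProd (gen G ∘ s) i ∈ X ∧
      a (x * Fin.partialProd (gen G ∘ s) i) s = (-1) ^ (i : ℕ) * a x s) ?_ ?_ i
  · rw [Fin.partialProd_zero, mul_one]
    exact ⟨hx, by simp⟩
  · rintro j ⟨h1, h2⟩
    rw [Fin.partialProd_succ, ← mul_assoc, Function.comp_apply]
    have h3 : a (x * Fin.partialProd (gen G ∘ s) j.castSucc) s ≠ 0 := by
      rw [h2]
      exact mul_ne_zero (pow_ne_zero _ (by norm_num)) hs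
    have h4 := hX.a_lk _ h1 s h3 j
    refine ⟨h4, ?_⟩
    rw [hX.a_edge _ h1 _ h4 s ⟨j, rfl⟩, h2, Fin.val_castSucc, Fin.val_succ, pow_succ]
    ring

end H

section H'

variable {m : ℕ} {Γ : Subgroup (W G)} {X : Set (W G)} {a : W G → (Fin (m + 1) → V) → ℝ}

/-- the faces which are not the first one -/
theorem red_succ {Λ : Type} [Group Λ] {m : ℕ} (γ : V → Λ)
    (hcomm : ∀ x y, G.Adj x y → γ x * γ y = γ y * γ x) {a : (Fin (m + 1) → V) → ℝ}
    (ha : IsCyc (m + 1) G a) (b : (Fin (m + 1) → Λ) → ℝ) (j : Fin (m + 1)) :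
    ∑ v : Fin (m + 1) → V, a v * b (Fin.partialProd (γ ∘ v) ∘ j.succ.succAbove) = 0 := by
  have e : ∀ v : Fin (m + 1) → V, Fin.partialProd (γ ∘ v) ∘ j.succ.succAbove =
      Fin.partialProd (Fin.contractNth j (· * ·) (γ ∘ v)) :=
    fun v => (Fin.partialProd_contractNth (γ ∘ v) j).symm
  simp only [e]
  refine Fin.lastCases ?_ (fun k => ?_) j
  · rw [← Equiv.sum_comp (Fin.insertNthEquiv (fun _ : Fin (m + 1) => V) (Fin.last m)),
      Fintype.sum_prod_type, Finset.sum_comm]
    refine Finset.sum_eq_zero fun u _ => ?_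
    have : ∀ x : V, a ((Fin.insertNthEquiv (fun _ : Fin (m + 1) => V) (Fin.last m)) (x, u)) *
        b (Fin.partialProd (Fin.contractNth (Fin.last m) (· * ·)
          (γ ∘ (Fin.insertNthEquiv (fun _ : Fin (m + 1) => V) (Fin.last m)) (x, u)))) =
        a ((Fin.last m).insertNth (α := fun _ => V) x u) * (b (Fin.partialProd (γ ∘ u))) := by
      intro x
      congr 3
      funext l
      rw [Fin.contractNth_apply_of_lt _ _ _ _ (by simp)]
      simp
    rw [Finset.sum_congr rfl fun x _ => this x, ← Finset.sum_mul, sum_insertNth ha, zero_mul]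
  · have hne : k.castSucc ≠ k.succ := (Fin.castSucc_lt_succ).ne
    set σ := Equiv.swap k.castSucc k.succ with hσ
    have h1 : ∑ v : Fin (m + 1) → V, a v *
        b (Fin.partialProd (Fin.contractNth k.castSucc (· * ·) (γ ∘ v))) =
        ∑ v : Fin (m + 1) → V, - (a v *
        b (Fin.partialProd (Fin.contractNth k.castSucc (· * ·) (γ ∘ v)))) := by
      rw [← Equiv.sum_comp (Equiv.arrowCongr σ (Equiv.refl V))]
      refine Finset.sum_congr rfl fun v _ => ?_
      have e1 : (Equiv.arrowCongr σ (Equiv.refl V)) v = v ∘ σ := by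
        funext l
        simp [Equiv.arrowCongr, hσ]
      rw [e1, ha.alt v _ _ hne]
      by_cases h0 : a v = 0
      · rw [h0]; simp
      · have hadj := ha.supp v h0 _ _ hne
        have e2 : Fin.contractNth k.castSucc (· * ·) (γ ∘ v ∘ σ) =
            Fin.contractNth k.castSucc (· * ·) (γ ∘ v) := by
          funext l
          rcases lt_trichotomy (l : ℕ) (k : ℕ) with h | h | h
          · rw [Fin.contractNth_apply_of_lt _ _ _ _ (by simpa using h),
              Fin.contractNth_apply_of_lt _ _ _ _ (by simpa using h)]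
            simp only [Function.comp_apply, hσ]
            rw [Equiv.swap_apply_of_ne_of_ne]
            · intro e; rw [Fin.ext_iff] at e; simp at e; omega
            · intro e; rw [Fin.ext_iff] at e; simp at e; omega
          · rw [Fin.contractNth_apply_of_eq _ _ _ _ (by simpa using h),
              Fin.contractNth_apply_of_eq _ _ _ _ (by simpa using h)]
            have : l = k := Fin.ext h
            subst this
            simp only [Function.comp_apply, hσ, Equiv.swap_apply_left, Equiv.swap_apply_right]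
            exact (hcomm _ _ hadj).symm
          · rw [Fin.contractNth_apply_of_gt _ _ _ _ (by simpa using h),
              Fin.contractNth_apply_of_gt _ _ _ _ (by simpa using h)]
            simp only [Function.comp_apply, hσ]
            rw [Equiv.swap_apply_of_ne_of_ne]
            · intro e; rw [Fin.ext_iff] at e; simp at e; omega
            · intro e; rw [Fin.ext_iff] at e; simp at e; omega
        rw [e2]
        ring
    rw [Finset.sum_neg_distrib] at h1
    linarith

/-- **Stokes.** -/
theorem stokesX (hX : SpC (m + 1) G Γ X a) (B : (Fin (m + 1) → W G) → ℝ)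
    (hB : ∀ γ ∈ Γ, ∀ g : Fin (m + 1) → W G, (∀ i, g i ∈ X) → B (fun i => γ * g i) = B g) :
    qs Γ (fun x => if x ∈ X then
      ∑ s, a x s * cobd B (fun i => x * Fin.partialProd (gen G ∘ s) i) else 0) = 0 := by
  let φ : V → W G → ℝ := fun t x => if x ∈ X then ∑ u : Fin m → V,
    a x (Fin.cons t u) * B (fun i => x * gen G t * Fin.partialProd (gen G ∘ u) i) else 0
  let ψ : V → W G → ℝ := fun t x => if x ∈ X then ∑ u : Fin m → V,
    - a x (Fin.cons t u) * B (fun i => x * Fin.partialProd (gen G ∘ u) i) else 0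
  -- only the first face remains
  have hpp : ∀ (t : V) (u : Fin m → V) (i : Fin (m + 1)),
      Fin.partialProd (gen G ∘ (Fin.cons t u : Fin (m + 1) → V)) i.succ =
        gen G t * Fin.partialProd (gen G ∘ u) i := by
    intro t u i
    rw [Fin.partialProd_succ']
    congr 1
  have h1 : ∀ x, (if x ∈ X then ∑ s, a x s * cobd B (fun i => x * Fin.partialProd (gen G ∘ s) i)
      else 0) = ∑ t : V, φ t x := by
    intro x
    by_cases hx : x ∈ X
    · simp only [φ, if_pos hx]
      unfold cobd
      simp only [Finset.mul_sum]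
      rw [Finset.sum_comm, Fin.sum_univ_succ]
      have hz : ∀ j : Fin (m + 1), ∑ s, a x s * ((-1 : ℝ) ^ ((j.succ : Fin (m + 2)) : ℕ) *
          B ((fun i => x * Fin.partialProd (gen G ∘ s) i) ∘ j.succ.succAbove)) = 0 := by
        intro j
        have h := red_succ (gen G) (fun x y h => gen_comm _ h) (hX.a_cyc x hx)
          (fun g => B (fun i => x * g i)) j
        have e : ∀ s, a x s * ((-1 : ℝ) ^ ((j.succ : Fin (m + 2)) : ℕ) *
          B ((fun i => x * Fin.partialProd (gen G ∘ s) i) ∘ j.succ.succAbove)) =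
          (-1 : ℝ) ^ ((j.succ : Fin (m + 2)) : ℕ) * (a x s *
            B (fun i => x * (Fin.partialProd (gen G ∘ s) ∘ j.succ.succAbove) i)) := by
          intro s
          change a x s * ((-1 : ℝ) ^ ((j.succ : Fin (m + 2)) : ℕ) *
            B (fun i => x * (Fin.partialProd (gen G ∘ s) ∘ j.succ.succAbove) i)) = _
          ring
        rw [Finset.sum_congr rfl fun s _ => e s, ← Finset.mul_sum, h, mul_zero]
      rw [Finset.sum_eq_zero fun j _ => hz j, add_zero,
        ← (Fin.consEquiv (fun _ : Fin (m + 1) => V)).sum_comp, Fintype.sum_prod_type]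
      refine Finset.sum_congr rfl fun t _ => Finset.sum_congr rfl fun u _ => ?_
      change a x (Fin.cons t u) * ((-1 : ℝ) ^ ((0 : Fin (m + 2)) : ℕ) *
        B ((fun i => x * Fin.partialProd (gen G ∘ (Fin.cons t u : Fin (m + 1) → V)) i) ∘
          (0 : Fin (m + 2)).succAbove)) = _
      rw [Fin.val_zero, pow_zero, one_mul]
      congr 2
      funext i
      rw [Function.comp_apply, Fin.succAbove_zero, hpp, mul_assoc]
    · simp only [φ, if_neg hx, Finset.sum_const_zero]
  have hinv : ∀ t, ∀ γ ∈ Γ, ∀ x, φ t (γ * x) = φ t x := by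
    intro t γ hγ x
    by_cases hx : x ∈ X
    · have hx' := hX.inv γ hγ x hx
      simp only [φ, if_pos hx, if_pos hx']
      refine Finset.sum_congr rfl fun u _ => ?_
      rw [hX.a_inv γ hγ x hx]
      by_cases h0 : a x (Fin.cons t u) = 0
      · rw [h0, zero_mul, zero_mul]
      · congr 1
        rw [← hB γ hγ (fun i => x * gen G t * Fin.partialProd (gen G ∘ u) i)]
        · congr 1
          funext i
          group
        · intro i
          have := (pp_mem hX hx h0 i.succ).1
          rwa [hpp, ← mul_assoc] at this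
    · have hx' : γ * x ∉ X := by
        intro h
        apply hx
        simpa using hX.inv γ⁻¹ (Γ.inv_mem hγ) _ h
      simp only [φ, if_neg hx, if_neg hx']
  have h2 : ∀ t, qs Γ (φ t) = qs Γ (ψ t) := by
    intro t
    rw [← qs_mul (φ t) (hinv t) (gen G t)]
    congr 1
    funext x
    have hg : x * gen G t * gen G t = x := by rw [mul_assoc, gen_sq, mul_one]
    by_cases hx : x ∈ X
    · by_cases hxt : x * gen G t ∈ X
      · simp only [φ, ψ, if_pos hx, if_pos hxt, hg]
        refine Finset.sum_congr rfl fun u _ => ?_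
        rw [hX.a_edge x hx t hxt (Fin.cons t u) ⟨0, by simp⟩]
      · simp only [φ, ψ, if_pos hx, if_neg hxt]
        refine (Finset.sum_eq_zero fun u _ => ?_).symm
        have h0 : a x (Fin.cons t u) = 0 := by
          by_contra h0
          have := hX.a_lk x hx _ h0 0
          rw [Fin.cons_zero] at this
          exact hxt this
        rw [h0, neg_zero, zero_mul]
    · by_cases hxt : x * gen G t ∈ X
      · simp only [φ, ψ, if_neg hx, if_pos hxt]
        refine Finset.sum_eq_zero fun u _ => ?_
        have h0 : a (x * gen G t) (Fin.cons t u) = 0 := by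
          by_contra h0
          have := hX.a_lk _ hxt _ h0 0
          rw [Fin.cons_zero, hg] at this
          exact hx this
        rw [h0, zero_mul]
      · simp only [φ, ψ, if_neg hx, if_neg hxt]
  have h3 : ∀ x, ∑ t : V, ψ t x = 0 := by
    intro x
    by_cases hx : x ∈ X
    · simp only [ψ, if_pos hx]
      rw [Finset.sum_comm]
      refine Finset.sum_eq_zero fun u _ => ?_
      rw [← Finset.sum_mul, Finset.sum_neg_distrib]
      have h := sum_insertNth (hX.a_cyc x hx) 0 u
      simp only [Fin.insertNth_zero'] at h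
      rw [h, neg_zero, zero_mul]
    · simp only [ψ, if_neg hx, Finset.sum_const_zero]
  rw [funext h1]
  rw [qs_sum hX Finset.univ (fun _ => 1) φ (fun t x hx => by
    rw [mul_one] at hx
    simp only [φ, if_neg hx])]
  rw [Finset.sum_congr rfl fun t _ => h2 t]
  rw [← qs_sum hX Finset.univ (fun _ => 1) ψ (fun t x hx => by
    rw [mul_one] at hx
    simp only [ψ, if_neg hx])]
  rw [funext h3]
  unfold qs
  exact finsum_zero

end H'

end Pool.Agent.J4.H51.AC
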