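import Pool.Agent.J4.H51.AC.Bo
import Pool.Agent.J4.H51.AC.Qs

/-!
Special cubulated manifolds: the evaluation of the cochain of an orbit of vertices.
-/

set_option autoImplicit false

open scoped Classical

namespace Pool.Agent.J4.H51.AC

open Pool.Agent.W907.SG (W cox chiW)
open Pool.Agent.Q134.SV Pool.Agent.J4.H51.JC

variable {V : Type} [Fintype V] {G : SimpleGraph V} {n : ℕ}


variable {m : ℕ} {Γ : Subgroup (W G)} {X : Set (W G)} {a : W G → (Fin (m + 1) → V) → ℝ}

omit [Fintype V] in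
theorem pp_sq {s : Fin n → V} (hs : ∀ i j, i ≠ j → G.Adj (s i) (s j)) (i : Fin (n + 1)) :
    Fin.partialProd (gen G ∘ s) i * Fin.partialProd (gen G ∘ s) i = 1 := by
  have hc : ∀ (i : Fin (n + 1)) (j : Fin n),
      Commute (Fin.partialProd (gen G ∘ s) i) (gen G (s j)) := by
    intro i j
    induction i using Fin.induction with
    | zero => rw [Fin.partialProd_zero]; exact Commute.one_left _
    | succ k ih =>
      rw [Fin.partialProd_succ]
      refine Commute.mul_left ih ?_
      by_cases hkj : k = j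
      · subst hkj; exact Commute.refl _
      · exact gen_comm G (hs _ _ hkj)
  induction i using Fin.induction with
  | zero => rw [Fin.partialProd_zero, one_mul]
  | succ k ih =>
    rw [Fin.partialProd_succ]
    have h1 := (hc k.castSucc k).eq
    calc Fin.partialProd (gen G ∘ s) k.castSucc * (gen G ∘ s) k *
          (Fin.partialProd (gen G ∘ s) k.castSucc * (gen G ∘ s) k)
        = Fin.partialProd (gen G ∘ s) k.castSucc * (gen G (s k) *
          Fin.partialProd (gen G ∘ s) k.castSucc) * gen G (s k) := by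
            simp only [Function.comp_apply, mul_assoc]
      _ = (Fin.partialProd (gen G ∘ s) k.castSucc * Fin.partialProd (gen G ∘ s) k.castSucc) *
          (gen G (s k) * gen G (s k)) := by
            rw [← h1]; simp only [mul_assoc]
      _ = 1 := by rw [ih, gen_sq, one_mul]

theorem ev_bo (hX : SpC (m + 1) G Γ X a) {v₀ : W G} (hv : v₀ ∈ X) {Ψ : (Fin (m + 1) → Finset V) → ℝ}
    (h : OKK G {s | v₀ * gen G s ∈ X} Ψ)
    (hO : ∀ v, (∃ γ ∈ Γ, v = γ * v₀) → ∀ g ∈ X, (dr v g : Set V) ⊆ {s | v₀ * gen G s ∈ X}) :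
    qs Γ (fun x => if x ∈ X then ∑ s, a x s * bo G {v | ∃ γ ∈ Γ, v = γ * v₀} Ψ
      (fun i => x * Fin.partialProd (gen G ∘ s) i) else 0) =
    ∑ i : Fin (m + 2), ∑ s, a v₀ s * Ψ ((fun j => dr (Fin.partialProd (gen G ∘ s) i)
      (Fin.partialProd (gen G ∘ s) j)) ∘ i.succAbove) := by
  set O : Set (W G) := {v | ∃ γ ∈ Γ, v = γ * v₀} with hOd
  have hOX : ∀ y ∈ O, y ∈ X := by
    rintro y ⟨γ, hγ, rfl⟩; exact hX.inv γ hγ _ hv
  let E : Fin (m + 2) → (Fin (m + 1) → V) → (Fin (m + 1) → Finset V) := fun i s =>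
    (fun j => dr (Fin.partialProd (gen G ∘ s) i) (Fin.partialProd (gen G ∘ s) j)) ∘ i.succAbove
  let pp : (Fin (m + 1) → V) → Fin (m + 2) → W G := fun s i => Fin.partialProd (gen G ∘ s) i
  let φ : ((Fin (m + 1) → V) × Fin (m + 2)) → W G → ℝ := fun q y =>
    if y ∈ X then a y q.1 * Ψ (E q.2 q.1) else 0
  have hφ : ∀ q, ∀ γ ∈ Γ, ∀ y, φ q (γ * y) = φ q y := by
    intro q γ hγ y
    simp only [φ]
    by_cases hy : y ∈ X
    · rw [if_pos hy, if_pos (hX.inv γ hγ y hy), hX.a_inv γ hγ y hy]
    · rw [if_neg hy, if_neg]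
      intro h1
      apply hy
      have := hX.inv γ⁻¹ (Γ.inv_mem hγ) _ h1
      rwa [inv_mul_cancel_left] at this
  have hinO : ∀ γ ∈ Γ, ∀ y, γ * y ∈ O ↔ y ∈ O := by
    intro γ hγ y
    constructor
    · rintro ⟨δ, hδ, h1⟩
      exact ⟨γ⁻¹ * δ, Γ.mul_mem (Γ.inv_mem hγ) hδ, by rw [mul_assoc, ← h1, inv_mul_cancel_left]⟩
    · rintro ⟨δ, hδ, rfl⟩
      exact ⟨γ * δ, Γ.mul_mem hγ hδ, by rw [mul_assoc]⟩
  have key : ∀ x : W G, (if x ∈ X then ∑ s, a x s * bo G O Ψ
      (fun i => x * Fin.partialProd (gen G ∘ s) i) else 0) =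
      ∑ q : (Fin (m + 1) → V) × Fin (m + 2), (fun y => if y ∈ O then φ q y else 0)
        (x * pp q.1 q.2) := by
    intro x
    rw [Fintype.sum_prod_type]
    have h0 : ∀ (s : Fin (m + 1) → V) (i : Fin (m + 2)), ¬ (x ∈ X ∧ a x s ≠ 0) →
        (if x * pp s i ∈ O then φ (s, i) (x * pp s i) else 0) = 0 := by
      intro s i hn
      split_ifs with h1
      · have h2 := hOX _ h1
        simp only [φ, if_pos h2]
        by_cases h3 : a (x * pp s i) s = 0
        · rw [h3, zero_mul]
        · exfalso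
          have h4 := pp_mem hX h2 h3 i
          have h5 : x * pp s i * Fin.partialProd (gen G ∘ s) i = x := by
            rw [mul_assoc, pp_sq ((hX.a_cyc _ h2).supp s h3), mul_one]
          rw [h5] at h4
          apply hn
          refine ⟨h4.1, ?_⟩
          rw [h4.2]
          exact mul_ne_zero (pow_ne_zero _ (by norm_num)) h3
      · rfl
    by_cases hx : x ∈ X
    · rw [if_pos hx]
      refine Finset.sum_congr rfl fun s _ => ?_
      by_cases ha : a x s = 0
      · rw [ha, zero_mul]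
        symm
        exact Finset.sum_eq_zero fun i _ => h0 s i (fun h => h.2 ha)
      · have hO' : ∀ v ∈ O, ∀ g ∈ X, (dr v g : Set V) ⊆ {s | v₀ * gen G s ∈ X} := hO
        rw [bo_val h hO' ((hX.a_cyc _ hx).supp s ha) x
          (fun i => (pp_mem hX hx ha i).1), Finset.mul_sum]
        refine Finset.sum_congr rfl fun i _ => ?_
        show a x s * (if x * pp s i ∈ O then (-1 : ℝ) ^ (i : ℕ) * Ψ (E i s) else 0) =
          if x * pp s i ∈ O then φ (s, i) (x * pp s i) else 0
        split_ifs with h1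
        · simp only [φ, if_pos (hOX _ h1)]
          have h2 := (pp_mem hX hx ha i).2
          show _ = a (x * Fin.partialProd (gen G ∘ s) i) s * _
          rw [h2]
          ring
        · rw [mul_zero]
    · rw [if_neg hx]
      symm
      exact Finset.sum_eq_zero fun s _ => Finset.sum_eq_zero fun i _ => h0 s i (fun h => hx h.1)
  have e1 : (fun x : W G => (if x ∈ X then ∑ s, a x s * bo G O Ψ
      (fun i => x * Fin.partialProd (gen G ∘ s) i) else 0)) =
      fun x => ∑ q ∈ (Finset.univ : Finset ((Fin (m + 1) → V) × Fin (m + 2))),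
        (fun q x => (fun y => if y ∈ O then φ q y else 0) (x * pp q.1 q.2)) q x := by
    funext x; exact key x
  rw [e1, qs_sum hX Finset.univ (fun q => pp q.1 q.2)
    (fun q x => (fun y => if y ∈ O then φ q y else 0) (x * pp q.1 q.2)) (by
      intro q x hx
      show (if x * pp q.1 q.2 ∈ O then _ else _) = _
      rw [if_neg (fun h => hx (hOX _ h))])]
  rw [Fintype.sum_prod_type, Finset.sum_comm]
  refine Finset.sum_congr rfl fun i _ => Finset.sum_congr rfl fun s _ => ?_
  rw [qs_mul (fun y => if y ∈ O then φ (s, i) y else 0) (by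
    intro γ hγ y
    simp only [hinO γ hγ y, hφ (s, i) γ hγ y]) (pp s i)]
  have e2 := qs_orbit (Γ := Γ) (φ (s, i)) (hφ (s, i)) v₀
  refine Eq.trans ?_ (e2.trans ?_)
  · rfl
  · simp only [φ, if_pos hv]
    rfl

end Pool.Agent.J4.H51.AC
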