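import Pool.Agent.J4.H51.AC.Dual2
import Pool.Agent.J4.H51.AC.Chi
import Pool.Agent.J4.H51.JC.Fin

/-!
Assembly: Gromov's question for right-angled Coxeter groups which are virtual Poincare duality groups.
-/

set_option autoImplicit false

open scoped Classical

namespace Pool.Agent.J4.H51.AC

open Pool.Agent.W907.SG (W cox chiW)
open Pool.Agent.Q134.SV Pool.Agent.N13.QC Pool.Agent.J4.H51.JC

section

variable {V V₀ : Type} [Fintype V] [Fintype V₀] {G : SimpleGraph V} {G₀ : SimpleGraph V₀}

/-- the lower bound of the simplicial volume by a function which is closed on the amenable sets -/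
theorem A_quant {m : ℕ} (θ : (Fin (m + 1) → V₀) → ℝ) (h : Alt θ)
    (hθ : ∀ w : Fin (m + 2) → V₀, Am G₀ (Set.range w) → cobd θ w = 0) :
    ∃ C : ℝ, 0 < C ∧ ∀ (V : Type) [Fintype V] (G : SimpleGraph V) (f : V → V₀),
      (∀ x y, G.Adj x y → f x = f y ∨ G₀.Adj (f x) (f y)) →
      ∀ a : (Fin (m + 1) → V) → ℝ, IsCyc (m + 1) G a →
      ∀ H : Subgroup (W G), H.index ≠ 0 → H ≤ (par G).ker →
      (H.index : ℝ) * |∑ v, push f a v * θ v| ≤ C * svol G (m + 1) a H := by
  obtain ⟨c₀, g₀, p₀⟩ := ex_coch θ h hθ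
  obtain ⟨K, hK⟩ := g₀.bdd
  have hK0 : 0 ≤ K := (abs_nonneg _).trans (hK 1)
  refine ⟨((m + 1).factorial : ℝ) * (K + 1), by positivity, ?_⟩
  intro V _ G f hf a ha H hi hε
  obtain ⟨c, gc, bc, pc⟩ := pull f hf g₀ (K + 1) fun g => (hK g).trans (by linarith)
  have h1 := t_T V G (m + 1) a c _ gc bc H hi hε
  rw [pc a, p₀ _ (ha.push f hf), abs_mul,
    abs_of_nonneg (show (0 : ℝ) ≤ 2 ^ (m + 1) / ((m + 1).factorial : ℝ) by positivity)] at h1
  have hf0 : (0 : ℝ) < ((m + 1).factorial : ℝ) := by positivity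
  have h2 : (0 : ℝ) < 2 ^ (m + 1) := by positivity
  have h3 : 2 ^ (m + 1) * ((H.index : ℝ) * |∑ v, push f a v * θ v|) ≤ 2 ^ (m + 1) *
      (((m + 1).factorial : ℝ) * (K + 1) * svol G (m + 1) a H) := by
    calc 2 ^ (m + 1) * ((H.index : ℝ) * |∑ v, push f a v * θ v|)
        = ((m + 1).factorial : ℝ) * ((H.index : ℝ) * (2 ^ (m + 1) / ((m + 1).factorial : ℝ) *
            |∑ v, push f a v * θ v|)) := by
          field_simp
      _ ≤ ((m + 1).factorial : ℝ) * (2 ^ (m + 1) * (K + 1) * svol G (m + 1) a H) :=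
          mul_le_mul_of_nonneg_left h1 hf0.le
      _ = _ := by ring
  exact le_of_mul_le_mul_left h3 h2

theorem A_main {m : ℕ} (f : V → V₀) (hf : ∀ x y, G.Adj x y → f x = f y ∨ G₀.Adj (f x) (f y))
    (a : (Fin (m + 1) → V) → ℝ) (ha : IsCyc (m + 1) G a) (H : Subgroup (W G)) (hi : H.index ≠ 0)
    (hε : H ≤ (par G).ker) (hz : ZeroSV (m + 1) H) : AmBd G₀ (push f a) := by
  by_contra hJ
  obtain ⟨c₀, g₀, p₀⟩ := ex_good2 (ha.push f hf) hJ
  obtain ⟨C, hC⟩ := g₀.bdd
  obtain ⟨c, gc, -, pc⟩ := pull f hf g₀ C hC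
  refine Pool.Agent.Q134.SV.not_zeroSV (m := m) ha gc ?_ H hi hε hz
  rw [pc a]
  exact p₀

theorem B_main {m : ℕ} (a : (Fin (m + 1) → V) → ℝ) (ha : IsCyc (m + 1) G a)
    (hG : HSph (m + 1) G a) (H : Subgroup (W G)) (hi : H.index ≠ 0)
    (hε : H ≤ (par G).ker) (hz : ZeroSV (m + 1) H) : chiW G = 0 := by
  by_contra hne
  have hJ : ¬ AmBd G a := fun hb => hne (chi_zero ha hG hb)
  obtain ⟨c, hc, hp⟩ := ex_good2 ha hJ
  exact Pool.Agent.Q134.SV.not_zeroSV (m := m) ha hc hp H hi hε hz

theorem B_quant {m : ℕ} (a : (Fin (m + 1) → V) → ℝ) (ha : IsCyc (m + 1) G a)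
    (hG : HSph (m + 1) G a) : ∃ C : ℝ, 0 < C ∧ ∀ H : Subgroup (W G), H.index ≠ 0 →
      H ≤ (par G).ker → (H.index : ℝ) * |(chiW G : ℝ)| ≤ C * svol G (m + 1) a H := by
  by_cases h0 : chiW G = 0
  · refine ⟨1, one_pos, fun H hi hε => ?_⟩
    have hθ : Alt (fun _ : Fin (m + 1) → V => (0 : ℝ)) := fun v i j _ => by simp
    obtain ⟨C, hC0, hC⟩ := A_quant (V₀ := V) (G₀ := G) _ hθ (fun w _ => by simp [cobd])
    have h1 := hC V G id (fun x y h => Or.inr h) a ha H hi hε
    simp only [mul_zero, Finset.sum_const_zero, abs_zero] at h1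
    rw [h0]
    simp only [Rat.cast_zero, abs_zero, mul_zero, one_mul]
    exact nonneg_of_mul_nonneg_right h1 hC0
  · have hJ : ¬ AmBd G a := fun hb => h0 (chi_zero ha hG hb)
    obtain ⟨θ, h, hθ, hp⟩ := dual2 ha.alt hJ
    obtain ⟨C, hC0, hC⟩ := A_quant (V₀ := V) (G₀ := G) θ h hθ
    have hp' : 0 < |∑ v, a v * θ v| := abs_pos.2 hp
    have hpush : push (fun x : V => x) a = a := by
      funext v
      unfold push
      rw [Finset.sum_eq_single v]
      · exact if_pos rfl
      · intro w _ hw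
        exact if_neg fun e => hw e
      · intro h; exact absurd (Finset.mem_univ _) h
    refine ⟨C * (|(chiW G : ℝ)| / |∑ v, a v * θ v|), ?_, fun H hi hε => ?_⟩
    · have : (chiW G : ℝ) ≠ 0 := by exact_mod_cast h0
      positivity
    · have h1 := hC V G (fun x => x) (fun x y h => Or.inr h) a ha H hi hε
      rw [hpush] at h1
      have h2 := mul_le_mul_of_nonneg_right h1
        (show (0 : ℝ) ≤ |(chiW G : ℝ)| / |∑ v, a v * θ v| by positivity)
      calc (H.index : ℝ) * |(chiW G : ℝ)|
          = (H.index : ℝ) * |∑ v, a v * θ v| * (|(chiW G : ℝ)| / |∑ v, a v * θ v|) := by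
            field_simp
        _ ≤ C * svol G (m + 1) a H * (|(chiW G : ℝ)| / |∑ v, a v * θ v|) := h2
        _ = _ := by ring

end

section

variable {V : Type} [Fintype V] {G : SimpleGraph V} {n : ℕ}

/-- the alternating function of a tuple -/
noncomputable def dta (w : Fin n → V) : (Fin n → V) → ℝ := fun v =>
  ∑ π : Equiv.Perm (Fin n), ((Equiv.Perm.sign π : ℤ) : ℝ) * if v = w ∘ π then 1 else 0

omit [Fintype V] in
theorem dta_alt (w : Fin n → V) : Alt (dta w) := by
  intro v i j hij
  unfold dta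
  rw [← Equiv.sum_comp (Equiv.mulRight (Equiv.swap i j)), ← Finset.sum_neg_distrib]
  refine Finset.sum_congr rfl fun π _ => ?_
  simp only [Equiv.coe_mulRight, map_mul, Equiv.Perm.sign_swap hij]
  have h1 : (v ∘ Equiv.swap i j = w ∘ (π * Equiv.swap i j : Equiv.Perm (Fin n))) ↔ v = w ∘ π := by
    rw [Equiv.Perm.coe_mul, ← Function.comp_assoc]
    exact (Equiv.swap i j).surjective.injective_comp_right.eq_iff
  simp only [h1]
  push_cast
  ring

theorem sum_dta {a : (Fin n → V) → ℝ} (ha : Alt a) (w : Fin n → V) :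
    ∑ v, a v * dta w v = (n.factorial : ℝ) * a w := by
  unfold dta
  simp only [Finset.mul_sum]
  rw [Finset.sum_comm]
  have h1 : ∀ π : Equiv.Perm (Fin n), ∑ v, a v * (((Equiv.Perm.sign π : ℤ) : ℝ) *
      if v = w ∘ π then 1 else 0) = a w := by
    intro π
    rw [Finset.sum_eq_single (w ∘ π)]
    · rw [if_pos rfl, ha.perm w π, mul_one]
      rcases Int.units_eq_one_or (Equiv.Perm.sign π) with h | h <;> simp [h]
    · intro v _ hv
      rw [if_neg hv]; ring
    · intro h; exact absurd (Finset.mem_univ _) h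
  rw [Finset.sum_congr rfl fun π _ => h1 π, Finset.sum_const, Finset.card_univ, Fintype.card_perm,
    Fintype.card_fin, nsmul_eq_mul]

omit [Fintype V] in
theorem dta_rel {w : Fin n → V} (hw : ∀ i j, i ≠ j → G.Adj (w i) (w j)) (η : Finset V)
    (hη : ∀ x ∈ η, x ∈ Set.range w) : Rel G η n (dta w) := by
  refine ⟨dta_alt w, fun v hv => ?_⟩
  obtain ⟨π, -, hπ⟩ := Finset.exists_ne_zero_of_sum_ne_zero hv
  have hvw : v = w ∘ π := by
    by_contra hne
    rw [if_neg hne, mul_zero] at hπ
    exact hπ rfl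
  subst hvw
  refine ⟨fun i j hij => hw _ _ fun e => hij (π.injective e), fun x hx => ?_⟩
  rw [π.surjective.range_comp]
  exact hη x hx

/-- a homology sphere is a pseudo-manifold -/
theorem opm_of {m : ℕ} {a : (Fin (m + 1) → V) → ℝ} (ha : IsCyc (m + 1) G a)
    (hG : HSph (m + 1) G a) : OPM (m + 1) G := by
  have hfull : ∀ v : Fin (m + 1) → V, (∀ i j, i ≠ j → G.Adj (v i) (v j)) → a v ≠ 0 := by
    intro v hv h0
    -- the simplex of `v`
    set η : Finset V := Finset.univ.image v with hη
    have hcl : G.IsClique (η : Set V) := by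
      intro x hx y hy hxy
      obtain ⟨i, -, rfl⟩ := Finset.mem_image.1 (Finset.mem_coe.1 hx)
      obtain ⟨j, -, rfl⟩ := Finset.mem_image.1 (Finset.mem_coe.1 hy)
      exact hv i j (fun e => hxy (by rw [e]))
    obtain ⟨f, hf, hs⟩ := hG.gen η hcl
    apply hs
    refine Finset.sum_eq_zero fun u _ => ?_
    by_cases hu : f u = 0
    · rw [hu, mul_zero]
    · obtain ⟨h1, h2⟩ := hf.2 u hu
      -- `u` is a permutation of `v`
      have hvi : Function.Injective v := s_inj hv
      have hui : Function.Injective u := s_inj h1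
      have hex : ∀ i, ∃ j, u j = v i := fun i => h2 (v i) (by rw [hη]; simp)
      choose p hp using hex
      have hpi : Function.Injective p := by
        intro i j e
        apply hvi
        rw [← hp i, ← hp j, e]
      let π : Equiv.Perm (Fin (m + 1)) := Equiv.ofBijective p (Finite.injective_iff_bijective.1 hpi)
      have hvu : v = u ∘ π := by
        funext i
        exact (hp i).symm
      have h3 : a (u ∘ π) = 0 := by rw [← hvu]; exact h0
      have h4 : Alt a := ha.alt
      rw [h4.perm u π] at h3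
      have h5 : ((Equiv.Perm.sign π : ℤ) : ℝ) ≠ 0 := by
        rcases Int.units_eq_one_or (Equiv.Perm.sign π) with h | h <;> simp [h]
      rcases mul_eq_zero.1 h3 with h6 | h6
      · exact absurd h6 h5
      · rw [h6, zero_mul]
  have hA : Alt a := ha.alt
  have hane : a ≠ 0 := by
    obtain ⟨f, -, hs⟩ := hG.gen ∅ (by simp)
    rintro rfl
    apply hs
    simp
  refine ⟨?_, ⟨a, ha, hane⟩, ?_⟩
  · intro t ht
    obtain ⟨i, j, hij, hn⟩ := hG.dim fun i => ((t.equivFinOfCardEq ht.2).symm i : V)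
    exact hn (ht.1 (Finset.coe_mem _) (Finset.coe_mem _) fun e => hij
      ((t.equivFinOfCardEq ht.2).symm.injective (Subtype.ext e)))
  · intro b hb hbne v hv hv0
    have hB : Alt b := hb.alt
    -- proportionality
    have hprop : ∀ w : Fin (m + 1) → V, (∀ i j, i ≠ j → G.Adj (w i) (w j)) →
        a v * b w = a w * b v := by
      intro w hw
      have hR : Rel G ∅ (m + 1) (fun u => a v * dta w u - a w * dta v u) := by
        have r1 := dta_rel hw ∅ (by simp)
        have r2 := dta_rel hv ∅ (by simp)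
        refine ⟨fun u i j hij => ?_, fun u hu => ⟨?_, by simp⟩⟩
        · simp only
          rw [r1.1 u i j hij, r2.1 u i j hij]; ring
        · by_cases h1 : dta w u = 0
          · by_cases h2 : dta v u = 0
            · exact absurd (by simp only [h1, h2]; ring) hu
            · exact (r2.2 u h2).1
          · exact (r1.2 u h1).1
      obtain ⟨g, hg, hgc⟩ := hG.top ∅ (by simp) _ hR (by
        have e1 := sum_dta hA w
        have e2 := sum_dta hA v
        calc ∑ u, a u * (a v * dta w u - a w * dta v u)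
            = a v * ∑ u, a u * dta w u - a w * ∑ u, a u * dta v u := by
              rw [Finset.mul_sum, Finset.mul_sum, ← Finset.sum_sub_distrib]
              exact Finset.sum_congr rfl fun u _ => by ring
          _ = 0 := by rw [e1, e2]; ring)
      have h1 : ∑ u, b u * (a v * dta w u - a w * dta v u) = 0 := by
        have h2 := adjoint hB g
        have h3 : bdy b = 0 := by
          funext u
          have := sum_insertNth hb 0 u
          simpa [bdy, Fin.insertNth_zero'] using this
        rw [h3] at h2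
        simp only [Pi.zero_apply, zero_mul, Finset.sum_const_zero, mul_zero] at h2
        rw [← h2]
        refine Finset.sum_congr rfl fun u _ => ?_
        by_cases h0 : b u = 0
        · rw [h0, zero_mul, zero_mul]
        · rw [hgc u (hb.supp u h0)]
      have h4 : a v * ∑ u, b u * dta w u - a w * ∑ u, b u * dta v u = 0 := by
        rw [← h1, Finset.mul_sum, Finset.mul_sum, ← Finset.sum_sub_distrib]
        exact Finset.sum_congr rfl fun u _ => by ring
      rw [sum_dta hB w, sum_dta hB v] at h4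
      have hf0 : ((m + 1).factorial : ℝ) ≠ 0 := by positivity
      have h5 : ((m + 1).factorial : ℝ) * (a v * b w - a w * b v) = 0 := by
        rw [← h4]; ring
      rcases mul_eq_zero.1 h5 with h6 | h6
      · exact absurd h6 hf0
      · linarith
    apply hbne
    funext w
    by_contra hbw
    have h1 := hprop w (hb.supp w hbw)
    rw [hv0, mul_zero] at h1
    rcases mul_eq_zero.1 h1 with h2 | h2
    · exact hfull v hv h2
    · exact hbw h2

theorem B_cls {m : ℕ} {a : (Fin (m + 1) → V) → ℝ} (ha : IsCyc (m + 1) G a)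
    (hG : HSph (m + 1) G a) : Cls (m + 1) V G := by
  have hO := opm_of ha hG
  by_cases h0 : chiW G = 0
  · exact Cls.flat G hO h0
  · exact Cls.pos G hO (pos_of_one hO ha (ex_good2 ha fun hb => h0 (chi_zero ha hG hb)))

end

end Pool.Agent.J4.H51.AC
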