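import Pool.Agent.J4.H51.AC.SpDefs

/-!
Right-angled reflection manifolds are special cubulated manifolds.
-/

set_option autoImplicit false

open scoped Classical

namespace Pool.Agent.J4.H51.AC

open Pool.Agent.W907.SG (W cox chiW)
open Pool.Agent.Q134.SV Pool.Agent.J4.H51.JC

variable {V : Type} [Fintype V] {G : SimpleGraph V} {n : ℕ}

theorem isCyc_smul {a : (Fin n → V) → ℝ} (ha : IsCyc n G a) (r : ℝ) : IsCyc n G (fun v => r * a v) where
  alt v i j hij := by rw [ha.alt v i j hij]; ring
  supp v hv i j hij := ha.supp v (fun h => hv (by simp [h])) i j hij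
  cyc v i := by rw [← Finset.mul_sum, ha.cyc, mul_zero]

/-- the links of the Davis complex -/
theorem HSph.univ {a : (Fin n → V) → ℝ} (h : HSph n G a) (r : ℝ) (hr : r ≠ 0) (S : Set V)
    (hS : S = Set.univ) : HSph n (G.induce S) (fun u : Fin n → S => r * a (fun i => (u i : V))) := by
  -- the bijection of the vertices
  let up : V → S := fun x => ⟨x, by rw [hS]; trivial⟩
  -- transport of the cochains
  have hR1 : ∀ (η : Finset S) (d : ℕ) (f : (Fin d → S) → ℝ),
      Rel (G.induce S) η d f →
      Rel G (η.image Subtype.val) d (fun v => f (fun i => up (v i))) := by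
    intro η d f hf
    refine ⟨fun v i j hij => hf.1 (fun k => up (v k)) i j hij, fun v hv => ?_⟩
    obtain ⟨h1, h2⟩ := hf.2 _ hv
    refine ⟨fun i j hij => h1 i j hij, fun x hx => ?_⟩
    obtain ⟨y, hy, rfl⟩ := Finset.mem_image.1 hx
    obtain ⟨i, hi⟩ := h2 y hy
    exact ⟨i, congrArg Subtype.val hi⟩
  have hR2 : ∀ (η : Finset S) (d : ℕ) (g : (Fin d → V) → ℝ),
      Rel G (η.image Subtype.val) d g →
      Rel (G.induce S) η d (fun v => g (fun i => (v i : V))) := by
    intro η d g hg
    refine ⟨fun v i j hij => hg.1 (fun k => (v k : V)) i j hij, fun v hv => ?_⟩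
    obtain ⟨h1, h2⟩ := hg.2 _ hv
    refine ⟨fun i j hij => h1 i j hij, fun x hx => ?_⟩
    obtain ⟨i, hi⟩ := h2 x (Finset.mem_image_of_mem _ hx)
    exact ⟨i, Subtype.ext hi⟩
  have hcl : ∀ η : Finset S, (G.induce S).IsClique (η : Set _) →
      G.IsClique ((η.image Subtype.val : Finset V) : Set V) := by
    intro η hη x hx y hy hxy
    obtain ⟨x', hx', rfl⟩ := Finset.mem_image.1 (Finset.mem_coe.1 hx)
    obtain ⟨y', hy', rfl⟩ := Finset.mem_image.1 (Finset.mem_coe.1 hy)
    exact hη hx' hy' fun e => hxy (by rw [e])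
  have hEx : ∀ (η : Finset S) (d : ℕ) (f : (Fin d → S) → ℝ),
      Ex G (η.image Subtype.val) d (fun v => f (fun i => up (v i))) →
      Ex (G.induce S) η d f := by
    intro η d f hf
    cases d with
    | zero =>
      funext v
      have := congrFun hf (fun i => (v i : V))
      exact this
    | succ d =>
      obtain ⟨g, hg, hgc⟩ := hf
      refine ⟨_, hR2 η d g hg, fun w hw => ?_⟩
      exact hgc (fun i => (w i : V)) hw
  have hsum : ∀ f : (Fin n → S) → ℝ,
      ∑ v : Fin n → S, r * a (fun i => (v i : V)) * f v =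
      r * ∑ v : Fin n → V, a v * f (fun i => up (v i)) := by
    intro f
    rw [Finset.mul_sum]
    let e : (Fin n → S) ≃ (Fin n → V) :=
      { toFun := fun v i => (v i : V)
        invFun := fun v i => up (v i)
        left_inv := fun v => rfl
        right_inv := fun v => rfl }
    rw [← Equiv.sum_comp e]
    refine Finset.sum_congr rfl fun v _ => ?_
    rw [mul_assoc]
    rfl
  refine ⟨fun w => ?_, fun η hη d f hf hc hd => ?_, fun η hη f hf hs => ?_, fun η hη => ?_⟩
  · obtain ⟨i, j, hij, hn⟩ := h.dim (fun i => (w i : V))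
    exact ⟨i, j, hij, hn⟩
  · exact hEx η d f (h.ex _ (hcl η hη) d _ (hR1 η d f hf)
      (fun w hw => hc (fun i => up (w i)) hw) hd)
  · refine hEx η n f (h.top _ (hcl η hη) _ (hR1 η n f hf) ?_)
    rw [hsum f] at hs
    rcases mul_eq_zero.1 hs with h0 | h0
    · exact absurd h0 hr
    · exact h0
  · obtain ⟨f, hf, hs⟩ := h.gen _ (hcl η hη)
    refine ⟨_, hR2 η n f hf, ?_⟩
    rw [hsum]
    exact mul_ne_zero hr hs

/-- the reflection manifolds -/
theorem spm_racg {a : (Fin n → V) → ℝ} (ha : IsCyc n G a) (hG : HSph n G a) (H : Subgroup (W G))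
    (hi : H.index ≠ 0) (hε : H ≤ (par G).ker) :
    SpM n G H Set.univ (fun x v => ((par G x : ℤ) : ℝ) * a v) where
  inv _ _ _ _ := trivial
  coc := by
    have hfi : H.FiniteIndex := ⟨hi⟩
    have hfin : Finite (Quotient (QuotientGroup.rightRel H)) :=
      Finite.of_equiv _ (QuotientGroup.quotientRightRelEquivQuotientLeftRel H).symm
    have hft : Fintype (Quotient (QuotientGroup.rightRel H)) := Fintype.ofFinite _
    refine ⟨Finset.univ.image fun q : Quotient (QuotientGroup.rightRel H) => q.out, fun x _ => ?_⟩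
    refine ⟨(Quotient.mk (QuotientGroup.rightRel H) x).out * x⁻¹, ?_, ?_⟩
    · have h : (QuotientGroup.rightRel H) (Quotient.out (Quotient.mk (QuotientGroup.rightRel H) x)) x :=
        Quotient.mk_out x
      rw [QuotientGroup.rightRel_apply] at h
      have := H.inv_mem h
      rwa [mul_inv_rev, inv_inv] at this
    · rw [inv_mul_cancel_right]
      exact Finset.mem_image_of_mem _ (Finset.mem_univ _)
  conv _ _ _ _ _ _ := trivial
  a_inv γ hγ x _ := by
    funext v
    rw [map_mul, MonoidHom.mem_ker.1 (hε hγ), one_mul]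
  a_cyc x _ := isCyc_smul ha _
  a_lk _ _ _ _ _ := trivial
  a_edge x _ s _ u _ := by
    rw [map_mul, par_gen]
    simp
  sph x _ := hG.univ _ (by
    intro h0
    have := par_abs (G := G) x
    rw [h0] at this
    simp at this) _ (by ext; simp)

end Pool.Agent.J4.H51.AC
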