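import Mathlib

/-!
A Ramsey lemma: a colouring of the ordered pairs has a monochromatic triple.
-/

set_option autoImplicit false

open scoped Classical

namespace Pool.Agent.J4.H51.AC

theorem ram {κ : Type} (m : ℕ) : ∃ N : ℕ, ∀ (C : Finset κ), C.card = m → ∀ {α : Type} (s : Finset α)
    (f : α → α → κ), N ≤ s.card → (∀ x ∈ s, ∀ y ∈ s, x ≠ y → f x y ∈ C) →
    ∃ x ∈ s, ∃ y ∈ s, ∃ z ∈ s, x ≠ y ∧ x ≠ z ∧ y ≠ z ∧ f x y = f x z ∧ f x z = f y z := by
  induction m with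
  | zero =>
    refine ⟨2, fun C hC α s f hs hf => ?_⟩
    obtain ⟨x, hx, y, hy, hxy⟩ := Finset.one_lt_card.1 (by omega : 1 < s.card)
    have := hf x hx y hy hxy
    rw [Finset.card_eq_zero.1 hC] at this
    exact absurd this (Finset.notMem_empty _)
  | succ m ih =>
    obtain ⟨N, hN⟩ := ih
    refine ⟨(m + 1) * N + 2, fun C hC α s f hs hf => ?_⟩
    obtain ⟨x, hx⟩ : s.Nonempty := Finset.card_pos.1 (by omega)
    have h1 : (m + 1) * N < (s.erase x).card := by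
      rw [Finset.card_erase_of_mem hx]; omega
    obtain ⟨c, hc, hcN⟩ := Finset.exists_lt_card_fiber_of_mul_lt_card_of_maps_to
      (s := s.erase x) (t := C) (f := fun y => f x y) (n := N) (by
        intro y hy
        rw [Finset.mem_erase] at hy
        exact hf x hx y hy.2 hy.1.symm) (by rw [hC]; exact h1)
    set s' := (s.erase x).filter fun y => f x y = c with hs'
    have hs'1 : ∀ y ∈ s', y ∈ s ∧ y ≠ x ∧ f x y = c := by
      intro y hy
      rw [hs', Finset.mem_filter, Finset.mem_erase] at hy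
      exact ⟨hy.1.2, hy.1.1, hy.2⟩
    by_cases h2 : ∃ y ∈ s', ∃ z ∈ s', y ≠ z ∧ f y z = c
    · obtain ⟨y, hy, z, hz, hyz, e⟩ := h2
      obtain ⟨a1, a2, a3⟩ := hs'1 y hy
      obtain ⟨b1, b2, b3⟩ := hs'1 z hz
      exact ⟨x, hx, y, a1, z, b1, a2.symm, b2.symm, hyz, a3.trans b3.symm, b3.trans e.symm⟩
    · push Not at h2
      obtain ⟨y, hy, z, hz, t, ht, h3⟩ := hN (C.erase c) (by
        rw [Finset.card_erase_of_mem hc, hC]; rfl) s' f hcN.le (by
        intro y hy z hz hyz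
        rw [Finset.mem_erase]
        exact ⟨h2 y hy z hz hyz, hf y (hs'1 y hy).1 z (hs'1 z hz).1 hyz⟩)
      exact ⟨y, (hs'1 y hy).1, z, (hs'1 z hz).1, t, (hs'1 t ht).1, h3⟩

theorem ram' (κ : Type) [Fintype κ] : ∃ N : ℕ, ∀ {α : Type} (s : Finset α)
    (f : α → α → κ), N ≤ s.card →
    ∃ x ∈ s, ∃ y ∈ s, ∃ z ∈ s, x ≠ y ∧ x ≠ z ∧ y ≠ z ∧ f x y = f x z ∧ f x z = f y z := by
  obtain ⟨N, hN⟩ := ram (κ := κ) (Fintype.card κ)
  exact ⟨N, fun s f hs => hN Finset.univ rfl s f hs fun _ _ _ _ _ => Finset.mem_univ _⟩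

end Pool.Agent.J4.H51.AC
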