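import Pool.Agent.J4.H51.AC.Defs
import Pool.Agent.J4.H51.AC.Ram

/-!
The key lemma for many vertices: if there are many vertices at which the directions to given points are
the same then the sets of directions have a common element or a split.
-/

set_option autoImplicit false

open scoped Classical

namespace Pool.Agent.J4.H51.AC

open Pool.Agent.W907.SG (W cox)
open Pool.Agent.Q134.SV Pool.Agent.J4.H51.JC

section

variable {V : Type} {G : SimpleGraph V}

/-- two walls which divide the vertices into four nonempty parts have adjacent types -/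
theorem cross {s t : V} {u v p00 p01 p10 p11 : W G} (h1 : ¬ Sep G (wl G v s) p00 p01)
    (h2 : ¬ Sep G (wl G v s) p10 p11) (h3 : Sep G (wl G v s) p00 p10)
    (h4 : ¬ Sep G (wl G u t) p00 p10) (h5 : ¬ Sep G (wl G u t) p01 p11)
    (h6 : Sep G (wl G u t) p00 p01) : G.Adj s t := by
  by_contra hn
  have hk : wl G u t ≠ wl G v s := fun e => h4 (by rw [e]; exact h3)
  have key : ∀ g, Sep G (wl G u t) v g → ¬ Sep G (wl G v s) u g := fun g hg => nocross hn hk hg
  have tri : ∀ (r x y z : W G), ¬ Sep G r y z → (Sep G r x y ↔ Sep G r x z) := by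
    intro r x y z h
    have := sep_tri r x y z
    tauto
  have tri' : ∀ (r x y z : W G), Sep G r y z → (¬ Sep G r x y ↔ Sep G r x z) := by
    intro r x y z h
    have := sep_tri r x y z
    tauto
  by_cases c1 : Sep G (wl G u t) v p00
  · by_cases c2 : Sep G (wl G v s) u p00
    · exact key p00 c1 c2
    · exact key p10 ((tri _ _ _ _ h4).1 c1) ((tri' _ _ _ _ h3).1 c2)
  · by_cases c2 : Sep G (wl G v s) u p00
    · exact key p01 ((tri' _ _ _ _ h6).1 c1) ((tri _ _ _ _ h1).1 c2)
    · refine key p11 ((tri _ _ _ _ h5).1 ((tri' _ _ _ _ h6).1 c1))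
        ((tri _ _ _ _ h2).1 ((tri' _ _ _ _ h3).1 c2))

theorem gate' {v : W G} (S : Set (W G)) (u : W G) (a : V) (h : ∀ g ∈ S, Sep G (wl G u a) v g) :
    ∃ t, ∀ g ∈ S, Sep G (wl G v t) v g := by
  by_cases hu : Sep G (wl G u a) u v
  · refine gate S _ (u * gen G a) a le_rfl ?_ ?_
    · rw [wl_gen_self]
      have h1 := sep_tri (wl G u a) u (u * gen G a) v
      have h2 := sep_wl_self u a
      tauto
    · rw [wl_gen_self]; exact h
  · exact gate S _ u a le_rfl hu h

/-- the walls of types in `T`, which commute with the other ones, come first -/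
theorem first {T T' : Set V} (hTT : ∀ a ∈ T, ∀ b ∈ T', G.Adj a b) {w : W G} (n : ℕ) :
    ∀ p : W G, len G (p⁻¹ * w) ≤ n → (∃ u t, t ∈ T ∧ Sep G (wl G u t) p w) →
    (∀ u t, Sep G (wl G u t) p w → t ∈ T ∨ t ∈ T') → ∃ t ∈ T, Sep G (wl G p t) p w := by
  induction n with
  | zero =>
    intro p hp hex _
    have := len_eq_zero.1 (Nat.le_zero.1 hp)
    have hxy : w = p := by
      have h3 : w = p * (p⁻¹ * w) := by group
      rw [h3, this, mul_one]
    obtain ⟨u, t, -, h⟩ := hex
    rw [hxy] at h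
    exact absurd h (sep_self _ _)
  | succ n ih =>
    intro p hp hex hall
    obtain ⟨u, t, ht, hu⟩ := hex
    have hpw : p ≠ w := by rintro rfl; exact sep_self _ _ hu
    obtain ⟨x, hx, hlen⟩ := exists_dir hpw
    by_cases hxT : x ∈ T
    · exact ⟨x, hxT, hx⟩
    have hxT' : x ∈ T' := by
      rcases hall p x hx with h | h
      · exact absurd h hxT
      · exact h
    have hsub : ∀ r, Sep G r (p * gen G x) w → Sep G r p w := by
      intro r hr
      have h1 := sep_tri r p (p * gen G x) w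
      rw [sep_wl] at h1
      have h2 : r ≠ wl G p x := by
        rintro rfl
        have h3 := sep_tri (wl G p x) p (p * gen G x) w
        have h4 := sep_wl_self p x
        tauto
      tauto
    obtain ⟨t', ht', h'⟩ := ih (p * gen G x) (by omega) (by
      refine ⟨u, t, ht, ?_⟩
      have h1 := sep_tri (wl G u t) p (p * gen G x) w
      rw [sep_wl] at h1
      have h2 : wl G u t ≠ wl G p x := by
        intro e
        exact hxT (by rw [← wl_label e]; exact ht)
      tauto) (fun u t h => hall u t (hsub _ h))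
    refine ⟨t', ht', ?_⟩
    rw [wl_gen_adj p (hTT t' ht' x hxT')] at h'
    exact hsub _ h'

theorem com {w1 w2 g : W G} {t : V} (h1 : Sep G (wl G w1 t) w1 g) (h2 : Sep G (wl G w2 t) w2 g)
    (h3 : ¬ Sep G (wl G w1 t) w1 w2) (h4 : ¬ Sep G (wl G w2 t) w1 w2) {u : W G} {y : V}
    (hy : Sep G (wl G u y) w1 w2) : G.Adj t y := by
  have he : wl G w1 t = wl G w2 t := by
    by_contra hne
    exact step_ne h1 h2 hne h3 h4
  by_contra hn
  exact step_eq he hn (fun e => h3 (by rw [← e]; exact hy)) hy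

end

variable {V : Type} [Fintype V] {G : SimpleGraph V}

/-- the types of the walls which separate `v` from `a` and `b` -/
noncomputable def ty (v a b : W G) : Finset V :=
  Finset.univ.filter fun s => ∃ u, Sep G (wl G u s) v a ∧ Sep G (wl G u s) v b

theorem mem_ty {v a b : W G} {s : V} :
    s ∈ ty v a b ↔ ∃ u, Sep G (wl G u s) v a ∧ Sep G (wl G u s) v b := by
  simp [ty]

theorem AB_adj {w1 w2 w3 g : W G} (hno : ∀ r, r ∈ dr w2 w3 → r ∉ dr w2 w1) {a b : V}
    (ha : a ∈ ty w2 w3 g) (hb : b ∈ ty w2 w1 g) : G.Adj a b := by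
  rw [mem_ty] at ha hb
  obtain ⟨u, hu3, hug⟩ := ha
  obtain ⟨v, hv1, hvg⟩ := hb
  have hgate : ∀ u x, Sep G (wl G u x) w2 w1 → ¬ Sep G (wl G u x) w2 w3 := by
    intro u x h1 h3
    obtain ⟨t, ht⟩ := gate' (v := w2) {w1, w3} u x (by
      rintro g (rfl | rfl)
      · exact h1
      · exact h3)
    exact hno t (mem_dr.2 (ht w3 (by simp))) (mem_dr.2 (ht w1 (by simp)))
  have h1 : ¬ Sep G (wl G u a) w2 w1 := fun h => hgate u a h hu3
  have h2 : ¬ Sep G (wl G v b) w2 w3 := fun h => hgate v b hv1 h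
  refine (cross (s := b) (t := a) (v := v) (u := u) (p00 := w2) (p01 := w3) (p10 := w1) (p11 := g)
    h2 ?_ hv1 h1 ?_ hu3).symm
  · have := sep_tri (wl G v b) w2 w1 g
    tauto
  · have := sep_tri (wl G u a) w2 w3 g
    tauto

theorem key2 {ι : Type} (g : ι → W G) {w1 w2 w3 : W G} (hne : w1 ≠ w2)
    (hd : ∀ k, dr w1 (g k) = dr w2 (g k)) (e1 : dr w1 w3 = dr w1 w2) (e2 : dr w2 w3 = dr w1 w2)
    (e3 : ∀ k, ty w2 w3 (g k) = ty w1 w2 (g k)) :
    (∃ s, ∀ k, s ∈ dr w1 (g k)) ∨ ∃ P Q : Finset V, P.Nonempty ∧ Q.Nonempty ∧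
      (∀ k, (P ⊆ dr w1 (g k) ∧ Disjoint Q (dr w1 (g k))) ∨
        (Q ⊆ dr w1 (g k) ∧ Disjoint P (dr w1 (g k)))) ∧
      ∀ k, ∀ e ∈ dr w1 (g k), e ∉ P → e ∉ Q → ∀ x, (x ∈ P ∨ x ∈ Q) → G.Adj e x := by
  by_cases hPQ : ∃ r, r ∈ dr w1 w2 ∧ r ∈ dr w2 w1
  · left
    obtain ⟨r, hr1, hr2⟩ := hPQ
    refine ⟨r, fun k => ?_⟩
    by_contra hn
    have hn2 : r ∉ dr w2 (g k) := by rw [← hd k]; exact hn
    have hr3 : r ∈ dr w1 w3 := by rw [e1]; exact hr1
    have hr4 : r ∈ dr w2 w3 := by rw [e2]; exact hr1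
    rw [mem_dr] at hn hn2 hr1 hr2 hr3 hr4
    have hH : wl G w1 r ≠ wl G w2 r := by
      intro e
      have h1 := sep_tri (wl G w1 r) w1 w2 w3
      rw [← e] at hr4
      tauto
    have h1 : Sep G (wl G w1 r) w2 (g k) := by
      have := sep_tri (wl G w1 r) w1 w2 (g k)
      tauto
    have h2 := nocross (s := r) (t := r) (u := w1) (v := w2) (SimpleGraph.irrefl G) hH h1
    have h3 := sep_tri (wl G w2 r) w2 w1 (g k)
    tauto
  · right
    push Not at hPQ
    obtain ⟨s0, hs0, -⟩ := exists_dir hne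
    let S : Set V := {s | ∃ u, Sep G (wl G u s) w1 w2}
    let T : Set V := {s | s ∈ S ∧ ∀ k, (s ∈ ty w1 w2 (g k) ↔ s0 ∈ ty w1 w2 (g k))}
    have hSAB : ∀ k, ∀ s ∈ S, s ∈ ty w1 w2 (g k) ∨ s ∈ ty w2 w1 (g k) := by
      rintro k s ⟨u, hu⟩
      rw [mem_ty, mem_ty]
      by_cases h : Sep G (wl G u s) w1 (g k)
      · exact Or.inl ⟨u, hu, h⟩
      · refine Or.inr ⟨u, sep_comm.1 hu, ?_⟩
        have := sep_tri (wl G u s) w1 w2 (g k)
        tauto
    have hAB : ∀ k a b, a ∈ ty w1 w2 (g k) → b ∈ ty w2 w1 (g k) → G.Adj a b := by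
      intro k a b ha hb
      rw [← e3 k] at ha
      refine AB_adj (fun r h1 h2 => ?_) ha hb
      rw [e2] at h1
      exact hPQ r h1 h2
    have hTS : ∀ a ∈ T, ∀ b ∈ S, b ∉ T → G.Adj a b := by
      rintro a ⟨haS, ha⟩ b hbS hb
      have hex : ∃ k, ¬ (b ∈ ty w1 w2 (g k) ↔ s0 ∈ ty w1 w2 (g k)) := by
        by_contra hcon
        push Not at hcon
        exact hb ⟨hbS, hcon⟩
      obtain ⟨k, hk⟩ := hex
      rw [← ha k] at hk
      have h1 := hSAB k a haS
      have h2 := hSAB k b hbS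
      by_cases h3 : a ∈ ty w1 w2 (g k)
      · have h4 : b ∈ ty w2 w1 (g k) := by tauto
        exact hAB k a b h3 h4
      · have h4 : a ∈ ty w2 w1 (g k) := by tauto
        have h5 : b ∈ ty w1 w2 (g k) := by tauto
        exact (hAB k b a h5 h4).symm
    have hs0T : s0 ∈ T := ⟨⟨w1, hs0⟩, fun _ => Iff.rfl⟩
    have hTT : ∀ a ∈ T, ∀ b ∈ S \ T, G.Adj a b := fun a ha b hb => hTS a ha b hb.1 hb.2
    obtain ⟨p, hpT, hp⟩ := first hTT (w := w2) _ w1 le_rfl ⟨w1, s0, hs0T, hs0⟩ (by
      intro u t h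
      by_cases ht : t ∈ T
      · exact Or.inl ht
      · exact Or.inr ⟨⟨u, h⟩, ht⟩)
    obtain ⟨q, hqT, hq⟩ := first hTT (w := w1) _ w2 le_rfl ⟨w1, s0, hs0T, sep_comm.1 hs0⟩ (by
      intro u t h
      by_cases ht : t ∈ T
      · exact Or.inl ht
      · exact Or.inr ⟨⟨u, sep_comm.1 h⟩, ht⟩)
    refine ⟨(dr w1 w2).filter (· ∈ T), (dr w2 w1).filter (· ∈ T), ⟨p, ?_⟩, ⟨q, ?_⟩, ?_, ?_⟩
    · rw [Finset.mem_filter]; exact ⟨mem_dr.2 hp, hpT⟩
    · rw [Finset.mem_filter]; exact ⟨mem_dr.2 hq, hqT⟩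
    · intro k
      -- an element of `T` which is a direction to `g k`
      have hback : ∀ t ∈ T, t ∈ dr w1 (g k) → Sep G (wl G w1 t) w1 w2 ∨ Sep G (wl G w2 t) w1 w2 := by
        intro t htT ht
        by_contra hcon
        rw [not_or] at hcon
        obtain ⟨⟨u, hu⟩, -⟩ := htT
        have ht2 := ht
        rw [hd k, mem_dr] at ht2
        rw [mem_dr] at ht
        exact (com ht ht2 hcon.1 hcon.2 hu).ne rfl
      by_cases hA : s0 ∈ ty w1 w2 (g k)
      · left
        have hTA : ∀ t ∈ T, t ∈ ty w1 w2 (g k) := fun t ht => (ht.2 k).2 hA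
        have hTB : ∀ t ∈ T, t ∉ ty w2 w1 (g k) := fun t ht h => (hAB k t t (hTA t ht) h).ne rfl
        constructor
        · intro t ht
          rw [Finset.mem_filter, mem_dr] at ht
          rw [mem_dr]
          by_contra hn
          apply hTB t ht.2
          rw [mem_ty]
          refine ⟨w1, sep_comm.1 ht.1, ?_⟩
          have := sep_tri (wl G w1 t) w1 w2 (g k)
          tauto
        · rw [Finset.disjoint_left]
          intro t ht htk
          rw [Finset.mem_filter, mem_dr] at ht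
          rcases hback t ht.2 htk with h | h
          · exact hPQ t (mem_dr.2 h) (mem_dr.2 ht.1)
          · apply hTB t ht.2
            rw [mem_ty]
            rw [hd k, mem_dr] at htk
            exact ⟨w2, ht.1, htk⟩
      · right
        have hTA : ∀ t ∈ T, t ∉ ty w1 w2 (g k) := fun t ht h => hA ((ht.2 k).1 h)
        constructor
        · intro t ht
          rw [Finset.mem_filter, mem_dr] at ht
          rw [hd k, mem_dr]
          by_contra hn
          apply hTA t ht.2
          rw [mem_ty]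
          refine ⟨w2, sep_comm.1 ht.1, ?_⟩
          have := sep_tri (wl G w2 t) w2 w1 (g k)
          tauto
        · rw [Finset.disjoint_left]
          intro t ht htk
          rw [Finset.mem_filter, mem_dr] at ht
          apply hTA t ht.2
          rw [mem_ty]
          rw [mem_dr] at htk
          exact ⟨w1, ht.1, htk⟩
    · intro k e he heP heQ x hx
      have hxT : x ∈ T := by
        rcases hx with h | h
        · exact (Finset.mem_filter.1 h).2
        · exact (Finset.mem_filter.1 h).2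
      obtain ⟨⟨u, hu⟩, -⟩ := id hxT
      have he2 := he
      rw [hd k, mem_dr] at he2
      rw [mem_dr] at he
      by_cases h1 : Sep G (wl G w1 e) w1 w2
      · have heS : e ∈ S := ⟨w1, h1⟩
        have heT : e ∉ T := fun h => heP (Finset.mem_filter.2 ⟨mem_dr.2 h1, h⟩)
        exact (hTS x hxT e heS heT).symm
      · by_cases h2 : Sep G (wl G w2 e) w1 w2
        · have heS : e ∈ S := ⟨w2, h2⟩
          have heT : e ∉ T := fun h => heQ (Finset.mem_filter.2 ⟨mem_dr.2 (sep_comm.1 h2), h⟩)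
          exact (hTS x hxT e heS heT).symm
        · exact com he he2 h1 h2 hu

/-- many vertices with the same directions -/
theorem many (k : ℕ) : ∃ N : ℕ, ∀ (g : Fin k → W G) (s : Finset (W G)), N ≤ s.card →
    ∀ D : Fin k → Finset V, (∀ v ∈ s, ∀ i, dr v (g i) = D i) → Mv G (Finset.univ.image D) := by
  obtain ⟨N, hN⟩ := ram' (Finset V × Finset V × (Fin k → Finset V))
  refine ⟨N, fun g s hs D hD => ?_⟩
  obtain ⟨x, hx, y, hy, z, hz, hxy, -, -, h1, h2⟩ := hN s
    (fun x y => (dr x y, dr y x, fun i => ty x y (g i))) hs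
  simp only [Prod.mk.injEq] at h1 h2
  have h3 := key2 (w1 := x) (w2 := y) (w3 := z) g hxy (fun i => by rw [hD x hx, hD y hy]) h1.1.symm
    (h2.1.symm.trans h1.1.symm) (fun i => by
      have e1 := congrFun h1.2.2 i
      have e2 := congrFun h2.2.2 i
      rw [← e2, e1])
  have hDx : ∀ i, dr x (g i) = D i := fun i => hD x hx i
  simp only [hDx] at h3
  rcases h3 with ⟨s, hs⟩ | ⟨P, Q, hP, hQ, h4, h5⟩
  · left
    refine ⟨s, fun E hE => ?_⟩
    rw [Finset.mem_image] at hE
    obtain ⟨i, -, rfl⟩ := hE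
    exact hs i
  · right
    refine ⟨P, Q, hP, hQ, fun E hE => ?_, fun E hE => ?_⟩
    · rw [Finset.mem_image] at hE
      obtain ⟨i, -, rfl⟩ := hE
      exact h4 i
    · rw [Finset.mem_image] at hE
      obtain ⟨i, -, rfl⟩ := hE
      exact h5 i

end Pool.Agent.J4.H51.AC
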