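import Pool.Agent.J4.H51.AC.MnDefs

/-!
Invariant means: a limit for all bounded sequences.
-/

set_option autoImplicit false

open scoped Classical
open Filter Topology

namespace Pool.Agent.J4.H51.AC

theorem lim_ex (x : ℕ → ℝ) (hx : Bd x) : ∃ l, Tendsto x (hyperfilter ℕ : Filter ℕ) (𝓝 l) := by
  obtain ⟨C, hC⟩ := hx
  have hc : IsCompact (Set.Icc (-C) C) := isCompact_Icc
  obtain ⟨l, -, hl⟩ := hc.ultrafilter_le_nhds ((hyperfilter ℕ).map x) (by
    rw [Ultrafilter.coe_map, le_principal_iff, mem_map]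
    exact Filter.univ_mem' fun k => abs_le.1 (hC k))
  exact ⟨l, hl⟩

theorem ex_lim : ∃ L : (ℕ → ℝ) → ℝ, (∀ x y, Bd x → Bd y → L (fun k => x k + y k) = L x + L y) ∧
    (∀ (c : ℝ) x, Bd x → L (fun k => c * x k) = c * L x) ∧ L (fun _ => 1) = 1 ∧
    (∀ x (C : ℝ), (∀ k, |x k| ≤ C) → |L x| ≤ C) ∧
    (∀ x y, Bd x → Bd y → Tendsto (fun k => x k - y k) atTop (𝓝 0) → L x = L y) := by
  let L : (ℕ → ℝ) → ℝ := fun x => limUnder (hyperfilter ℕ : Filter ℕ) x
  have hL : ∀ x, Bd x → Tendsto x (hyperfilter ℕ : Filter ℕ) (𝓝 (L x)) := fun x hx =>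
    tendsto_nhds_limUnder (lim_ex x hx)
  have hu : ∀ x l, Bd x → Tendsto x (hyperfilter ℕ : Filter ℕ) (𝓝 l) → L x = l := fun x l hx h =>
    tendsto_nhds_unique (hL x hx) h
  refine ⟨L, ?_, ?_, ?_, ?_, ?_⟩
  · intro x y hx hy
    refine hu _ _ ?_ ((hL x hx).add (hL y hy))
    obtain ⟨C, hC⟩ := hx
    obtain ⟨D, hD⟩ := hy
    exact ⟨C + D, fun k => (abs_add_le _ _).trans (add_le_add (hC k) (hD k))⟩
  · intro c x hx
    refine hu _ _ ?_ ((hL x hx).const_mul c)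
    obtain ⟨C, hC⟩ := hx
    exact ⟨|c| * C, fun k => by rw [abs_mul]; exact mul_le_mul_of_nonneg_left (hC k) (abs_nonneg _)⟩
  · exact hu _ _ ⟨1, fun _ => by simp⟩ tendsto_const_nhds
  · intro x C hC
    exact le_of_tendsto ((hL x ⟨C, hC⟩).abs) (Filter.Eventually.of_forall hC)
  · intro x y hx hy h
    have h1 : Tendsto (fun k => x k - y k) (hyperfilter ℕ : Filter ℕ) (𝓝 0) :=
      h.mono_left (by rw [← Nat.cofinite_eq_atTop]; exact hyperfilter_le_cofinite)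
    have h2 := (hL x hx).sub (hL y hy)
    have h3 := tendsto_nhds_unique h1 h2
    linarith

end Pool.Agent.J4.H51.AC
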