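import Pool.Agent.J4.H51.AC.Mn0

/-!
Invariant means exist for the amenable sets of generators.
-/

set_option autoImplicit false

open scoped Classical

namespace Pool.Agent.J4.H51.AC

open Pool.Agent.W907.SG (W cox chiW)
open Pool.Agent.Q134.SV Pool.Agent.N13.QC Pool.Agent.J4.H51.JC

variable {V : Type} {G : SimpleGraph V}

/-- the words `1, x, x y, x y x, …` -/
noncomputable def pw (G : SimpleGraph V) : ℕ → V → V → W G
  | 0, _, _ => 1
  | j + 1, x, y => gen G x * pw G j y x

theorem pw_mul (j : ℕ) (x y : V) : gen G x * pw G (j + 1) x y = pw G j y x := by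
  rw [pw, ← mul_assoc, gen_sq, one_mul]

theorem pw_comm {x y z : V} (hx : G.Adj x z) (hy : G.Adj y z) (j : ℕ) :
    gen G z * pw G j x y = pw G j x y * gen G z := by
  induction j generalizing x y with
  | zero => rw [pw, mul_one, one_mul]
  | succ j ih => rw [pw, ← mul_assoc, ← gen_comm G hx, mul_assoc, ih hy hx, mul_assoc]

/-- sums over the words -/
noncomputable def sw (G : SimpleGraph V) (x y : V) (φ : W G → ℝ) (k : ℕ) : ℝ :=
  (∑ j ∈ Finset.range (k + 1), (φ (pw G j x y) + φ (pw G j y x))) / (2 * ((k : ℝ) + 1))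

theorem sw_symm (x y : V) (φ : W G → ℝ) : sw G x y φ = sw G y x φ := by
  funext k
  unfold sw
  congr 1
  exact Finset.sum_congr rfl fun j _ => add_comm _ _

theorem sw_add (x y : V) (φ χ : W G → ℝ) (k : ℕ) :
    sw G x y (fun h => φ h + χ h) k = sw G x y φ k + sw G x y χ k := by
  unfold sw
  rw [← add_div, ← Finset.sum_add_distrib]
  congr 1
  exact Finset.sum_congr rfl fun j _ => by ring

theorem sw_smul (x y : V) (c : ℝ) (φ : W G → ℝ) (k : ℕ) :
    sw G x y (fun h => c * φ h) k = c * sw G x y φ k := by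
  unfold sw
  rw [← mul_div_assoc, Finset.mul_sum]
  congr 1
  exact Finset.sum_congr rfl fun j _ => by ring

theorem sw_one (x y : V) (k : ℕ) : sw G x y (fun _ => 1) k = 1 := by
  unfold sw
  rw [Finset.sum_const, Finset.card_range, nsmul_eq_mul]
  push_cast
  have : (2 * ((k : ℝ) + 1)) ≠ 0 := by positivity
  rw [div_eq_one_iff_eq this]
  ring

theorem sw_bd (x y : V) (φ : W G → ℝ) (C : ℝ) (h : ∀ g, |φ g| ≤ C) (k : ℕ) :
    |sw G x y φ k| ≤ C := by
  unfold sw
  have hk : (0 : ℝ) < 2 * ((k : ℝ) + 1) := by positivity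
  rw [abs_div, abs_of_pos hk, div_le_iff₀ hk]
  refine (Finset.abs_sum_le_sum_abs _ _).trans ?_
  refine (Finset.sum_le_sum fun j _ => (abs_add_le _ _).trans (add_le_add (h _) (h _))).trans ?_
  rw [Finset.sum_const, Finset.card_range, nsmul_eq_mul]
  push_cast
  exact le_of_eq (by ring)

theorem sw_tel (x y : V) (φ : W G → ℝ) (k : ℕ) :
    (∑ j ∈ Finset.range (k + 1), (φ (gen G x * pw G j x y) + φ (gen G x * pw G j y x))) -
      ∑ j ∈ Finset.range (k + 1), (φ (pw G j x y) + φ (pw G j y x)) =
      φ (pw G 1 x y) - φ (pw G k y x) + φ (pw G (k + 1) x y) - φ 1 := by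
  induction k with
  | zero =>
    simp only [zero_add, Finset.range_one, Finset.sum_singleton]
    have h1 : gen G x * pw G 0 x y = pw G 1 x y := rfl
    have h2 : gen G x * pw G 0 y x = pw G 1 x y := rfl
    have h3 : pw G 0 x y = 1 := rfl
    have h4 : pw G 0 y x = 1 := rfl
    rw [h1, h2, h3, h4]
    ring
  | succ k ih =>
    rw [Finset.sum_range_succ _ (k + 1), Finset.sum_range_succ (fun j => φ (pw G j x y) + _) (k + 1),
      pw_mul]
    have h2 : gen G x * pw G (k + 1) y x = pw G (k + 1 + 1) x y := rfl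
    rw [h2]
    linear_combination ih

theorem sw_inv (x y : V) (φ : W G → ℝ) (hφ : Bd φ) :
    Filter.Tendsto (fun k => sw G x y (fun h => φ (gen G x * h)) k - sw G x y φ k) Filter.atTop
      (nhds 0) := by
  obtain ⟨C, hC⟩ := hφ
  have h1 : ∀ k : ℕ, |sw G x y (fun h => φ (gen G x * h)) k - sw G x y φ k| ≤
      (2 * C) * (1 / ((k : ℝ) + 1)) := by
    intro k
    have hk : (0 : ℝ) < 2 * ((k : ℝ) + 1) := by positivity
    unfold sw
    rw [← sub_div, sw_tel, abs_div, abs_of_pos hk, div_le_iff₀ hk]
    have h2 : (2 * C) * (1 / ((k : ℝ) + 1)) * (2 * ((k : ℝ) + 1)) = 4 * C := by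
      field_simp
      ring
    rw [h2]
    have a1 := abs_le.mp (hC (pw G 1 x y))
    have a2 := abs_le.mp (hC (pw G k y x))
    have a3 := abs_le.mp (hC (pw G (k + 1) x y))
    have a4 := abs_le.mp (hC 1)
    rw [abs_le]
    constructor <;> linarith
  have h3 : Filter.Tendsto (fun k : ℕ => (2 * C) * (1 / ((k : ℝ) + 1))) Filter.atTop (nhds 0) := by
    have := (tendsto_one_div_add_atTop_nhds_zero_nat (𝕜 := ℝ)).const_mul (2 * C)
    rwa [mul_zero] at this
  exact squeeze_zero_norm h1 h3

/-- a mean on the infinite dihedral group generated by two generators -/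
theorem ex_dih (x y : V) : ∃ M : (W G → ℝ) → ℝ,
    (∀ f g : W G → ℝ, Bd f → Bd g → M (fun h => f h + g h) = M f + M g) ∧
    (∀ (c : ℝ) (f : W G → ℝ), Bd f → M (fun h => c * f h) = c * M f) ∧
    M (fun _ => 1) = 1 ∧
    (∀ (f : W G → ℝ) (C : ℝ), (∀ h, |f h| ≤ C) → |M f| ≤ C) ∧
    (∀ f : W G → ℝ, Bd f → M (fun h => f (gen G x * h)) = M f) ∧
    (∀ f : W G → ℝ, Bd f → M (fun h => f (gen G y * h)) = M f) ∧
    (∀ z, G.Adj x z → G.Adj y z → ∀ f : W G → ℝ,
      M (fun h => f (gen G z * h)) = M (fun h => f (h * gen G z))) := by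
  obtain ⟨L, l1, l2, l3, l4, l5⟩ := ex_lim
  have hB : ∀ f : W G → ℝ, Bd f → Bd (sw G x y f) := fun f ⟨C, hC⟩ =>
    ⟨C, fun k => sw_bd x y f C hC k⟩
  refine ⟨fun f => L (sw G x y f), ?_, ?_, ?_, ?_, ?_, ?_, ?_⟩
  · intro f g hf hg
    have e : sw G x y (fun h => f h + g h) = fun k => sw G x y f k + sw G x y g k := by
      funext k; exact sw_add x y f g k
    show L (sw G x y (fun h => f h + g h)) = _
    rw [e]
    exact l1 _ _ (hB f hf) (hB g hg)
  · intro c f hf
    have e : sw G x y (fun h => c * f h) = fun k => c * sw G x y f k := by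
      funext k; exact sw_smul x y c f k
    show L (sw G x y (fun h => c * f h)) = _
    rw [e]
    exact l2 _ _ (hB f hf)
  · have e : sw G x y (fun _ => 1) = fun _ => 1 := by
      funext k; exact sw_one x y k
    show L (sw G x y (fun _ => 1)) = _
    rw [e]
    exact l3
  · intro f C hC
    exact l4 _ _ (fun k => sw_bd x y f C hC k)
  · intro f hf
    have hf' : Bd (fun h => f (gen G x * h)) := by
      obtain ⟨C, hC⟩ := hf; exact ⟨C, fun h => hC _⟩
    exact l5 _ _ (hB _ hf') (hB f hf) (sw_inv x y f hf)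
  · intro f hf
    have hf' : Bd (fun h => f (gen G y * h)) := by
      obtain ⟨C, hC⟩ := hf; exact ⟨C, fun h => hC _⟩
    refine l5 _ _ (hB _ hf') (hB f hf) ?_
    rw [sw_symm x y f, sw_symm x y (fun h => f (gen G y * h))]
    exact sw_inv y x f hf
  · intro z hx hy f
    have e : sw G x y (fun h => f (gen G z * h)) = sw G x y (fun h => f (h * gen G z)) := by
      funext k
      unfold sw
      congr 1
      exact Finset.sum_congr rfl fun j _ => by
        show f (gen G z * pw G j x y) + f (gen G z * pw G j y x) =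
          f (pw G j x y * gen G z) + f (pw G j y x * gen G z)
        rw [pw_comm hx hy, pw_comm hy hx]
    show L (sw G x y (fun h => f (gen G z * h))) = L (sw G x y (fun h => f (h * gen G z)))
    rw [e]

/-- induction step: a mean for a subgroup which commutes with the rest -/
theorem mean_step {T' : Set V} {m' : (W G → ℝ) → ℝ} (hm : Mn G T' m') (P : Set V)
    (M : (W G → ℝ) → ℝ)
    (m1 : ∀ f g : W G → ℝ, Bd f → Bd g → M (fun h => f h + g h) = M f + M g)
    (m2 : ∀ (c : ℝ) (f : W G → ℝ), Bd f → M (fun h => c * f h) = c * M f)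
    (m3 : M (fun _ => 1) = 1)
    (m4 : ∀ (f : W G → ℝ) (C : ℝ), (∀ h, |f h| ≤ C) → |M f| ≤ C)
    (m5 : ∀ x ∈ P, ∀ f : W G → ℝ, Bd f → M (fun h => f (gen G x * h)) = M f)
    (m6 : ∀ z ∈ T', ∀ f : W G → ℝ, M (fun h => f (gen G z * h)) = M (fun h => f (h * gen G z))) :
    Mn G (T' ∪ P) (fun f => m' (fun g => M (fun h => f (h * g)))) := by
  have hR : ∀ (f : W G → ℝ) (g : W G), Bd f → Bd (fun h => f (h * g)) := fun f g ⟨C, hC⟩ =>
    ⟨C, fun h => hC _⟩
  have hB : ∀ f : W G → ℝ, Bd f → Bd (fun g => M (fun h => f (h * g))) := fun f ⟨C, hC⟩ =>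
    ⟨C, fun g => m4 _ C (fun h => hC _)⟩
  refine ⟨?_, ?_, ?_, ?_, ?_⟩
  · intro f g hf hg
    have e : (fun g' => M (fun h => f (h * g') + g (h * g'))) =
        fun g' => M (fun h => f (h * g')) + M (fun h => g (h * g')) := by
      funext g'
      exact m1 _ _ (hR f g' hf) (hR g g' hg)
    show m' (fun g' => M (fun h => f (h * g') + g (h * g'))) = _
    rw [e]
    exact hm.add _ _ (hB f hf) (hB g hg)
  · intro c f hf
    have e : (fun g' => M (fun h => c * f (h * g'))) =
        fun g' => c * M (fun h => f (h * g')) := by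
      funext g'
      exact m2 _ _ (hR f g' hf)
    show m' (fun g' => M (fun h => c * f (h * g'))) = _
    rw [e]
    exact hm.smul _ _ (hB f hf)
  · show m' (fun _ => M (fun _ => 1)) = 1
    rw [m3]
    exact hm.one
  · intro f C hC
    exact hm.bd _ C (fun g => m4 _ C (fun h => hC _))
  · rintro s (hs | hs) f hf
    · have e : (fun g => M (fun h => f (gen G s * (h * g)))) =
          fun g => (fun g' => M (fun h => f (h * g'))) (gen G s * g) := by
        funext g
        have h1 := m6 s hs (fun h => f (h * g))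
        simp only [mul_assoc] at h1
        exact h1
      show m' (fun g => M (fun h => f (gen G s * (h * g)))) = _
      rw [e]
      exact hm.inv s hs _ (hB f hf)
    · have e : (fun g => M (fun h => f (gen G s * (h * g)))) =
          fun g => M (fun h => f (h * g)) := by
        funext g
        have h1 := m5 s hs (fun h => f (h * g)) (hR f g hf)
        simp only [mul_assoc] at h1
        exact h1
      show m' (fun g => M (fun h => f (gen G s * (h * g)))) = _
      rw [e]

theorem ex_mean {T : Set V} (hf : T.Finite) (hT : Am G T) : ∃ m, Mn G T m := by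
  obtain ⟨n, hn⟩ : ∃ n, n = T.ncard := ⟨_, rfl⟩
  induction n using Nat.strong_induction_on generalizing T with
  | _ n ih =>
    rcases T.eq_empty_or_nonempty with h0 | ⟨x, hx⟩
    · subst h0
      exact ⟨fun f => f 1, ⟨fun _ _ _ _ => rfl, fun _ _ _ => rfl, rfl, fun f C hC => hC 1,
        fun s hs => absurd hs (Set.notMem_empty s)⟩⟩
    · by_cases hc : ∀ y ∈ T, y ≠ x → G.Adj x y
      · obtain ⟨m', hm'⟩ := ih (T \ {x}).ncard
          (by rw [hn]; exact Set.ncard_sdiff_singleton_lt_of_mem hx hf)
          (hf.subset Set.sdiff_subset)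
          (fun a ha b hb c hc' => hT a ha.1 b hb.1 c hc'.1) rfl
        have h1 := mean_step hm' {x} (fun f => (f 1 + f (gen G x)) / 2)
          (fun f g _ _ => by ring) (fun c f _ => by ring) (by norm_num)
          (fun f C hC => by
            have a1 := abs_le.mp (hC 1)
            have a2 := abs_le.mp (hC (gen G x))
            rw [abs_le]
            constructor <;> linarith)
          (fun z hz f _ => by
            rw [Set.mem_singleton_iff] at hz
            subst hz
            show (f (gen G z * 1) + f (gen G z * gen G z)) / 2 = (f 1 + f (gen G z)) / 2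
            rw [mul_one, gen_sq, add_comm])
          (fun z hz f => by
            show (f (gen G z * 1) + f (gen G z * gen G x)) / 2 =
              (f (1 * gen G z) + f (gen G x * gen G z)) / 2
            rw [mul_one, one_mul, gen_comm G (hc z hz.1 hz.2)])
        rw [Set.sdiff_union_of_subset (Set.singleton_subset_iff.mpr hx)] at h1
        exact ⟨_, h1⟩
      · push Not at hc
        obtain ⟨y, hy, hyx, hadj⟩ := hc
        have hxz : ∀ z ∈ T, z ≠ x → z ≠ y → G.Adj x z := by
          intro z hz hzx hzy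
          by_contra h
          exact hzy (hT x hx y hy z hz hyx.symm hzx.symm hadj h).symm
        have hyz : ∀ z ∈ T, z ≠ x → z ≠ y → G.Adj y z := by
          intro z hz hzx hzy
          by_contra h
          exact hzx (hT y hy x hx z hz hyx hzy.symm (fun h' => hadj h'.symm) h).symm
        have hsub : T \ {x, y} ⊂ T := by
          refine ⟨Set.sdiff_subset, fun h => ?_⟩
          exact (h hx).2 (Or.inl rfl)
        obtain ⟨m', hm'⟩ := ih (T \ {x, y}).ncard
          (by rw [hn]; exact Set.ncard_lt_ncard hsub hf)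
          (hf.subset Set.sdiff_subset)
          (fun a ha b hb c hc' => hT a ha.1 b hb.1 c hc'.1) rfl
        obtain ⟨M, m1, m2, m3, m4, m5, m5', m6⟩ := ex_dih (G := G) x y
        have h1 := mean_step hm' {x, y} M m1 m2 m3 m4
          (by
            rintro z (hz | hz) f hf'
            · rw [hz]; exact m5 f hf'
            · rw [Set.mem_singleton_iff] at hz
              rw [hz]; exact m5' f hf')
          (by
            intro z hz f
            have hzx : z ≠ x := fun h => hz.2 (Or.inl h)
            have hzy : z ≠ y := fun h => hz.2 (Or.inr h)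
            exact m6 z (hxz z hz.1 hzx hzy) (hyz z hz.1 hzx hzy) f)
        rw [Set.sdiff_union_of_subset (by
          rintro z (hz | hz)
          · rw [hz]; exact hx
          · rw [Set.mem_singleton_iff] at hz
            rw [hz]; exact hy)] at h1
        exact ⟨_, h1⟩

end Pool.Agent.J4.H51.AC
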