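import Pool.Agent.J4.H51.AC.MnDefs

/-!
Invariant means: the contraction.
-/

set_option autoImplicit false

open scoped Classical

namespace Pool.Agent.J4.H51.AC

open Pool.Agent.W907.SG (W cox chiW)
open Pool.Agent.Q134.SV Pool.Agent.N13.QC Pool.Agent.J4.H51.JC

variable {V : Type} {G : SimpleGraph V}

theorem mnT_add (T : Set V) (f g : W G → ℝ) (hf : Bd f) (hg : Bd g) :
    mnT G T (fun x => f x + g x) = mnT G T f + mnT G T g := by
  unfold mnT
  split_ifs with h
  · exact h.choose_spec.add f g hf hg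
  · simp

theorem mnT_smul (T : Set V) (c : ℝ) (f : W G → ℝ) (hf : Bd f) :
    mnT G T (fun x => c * f x) = c * mnT G T f := by
  unfold mnT
  split_ifs with h
  · exact h.choose_spec.smul c f hf
  · simp

theorem mnT_bd (T : Set V) (f : W G → ℝ) (C : ℝ) (hf : ∀ x, |f x| ≤ C) : |mnT G T f| ≤ C := by
  unfold mnT
  split_ifs with h
  · exact h.choose_spec.bd f C hf
  · simpa using (abs_nonneg _).trans (hf 1)

theorem mnT_inv (T : Set V) {s : V} (hs : s ∈ T) (f : W G → ℝ) (hf : Bd f) :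
    mnT G T (fun x => f (gen G s * x)) = mnT G T f := by
  unfold mnT
  split_ifs with h
  · exact h.choose_spec.inv s hs f hf
  · rfl

theorem Bd.cons {n : ℕ} {α : (Fin (n + 1) → W G) → ℝ} (h : Bd α) (g : Fin n → W G) :
    Bd fun x => α (Fin.cons x g) := by
  obtain ⟨C, hC⟩ := h
  exact ⟨C, fun _ => hC _⟩

theorem Kt_bd (T : Set V) {n : ℕ} (α : (Fin (n + 1) → W G) → ℝ) (C : ℝ) (h : ∀ g, |α g| ≤ C)
    (g : Fin n → W G) : |Kt G T α g| ≤ C :=
  mnT_bd T _ C fun _ => h _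

theorem Kt_smul (T : Set V) {n : ℕ} (c : ℝ) (α : (Fin (n + 1) → W G) → ℝ) (h : Bd α)
    (g : Fin n → W G) : Kt G T (fun g' => c * α g') g = c * Kt G T α g :=
  mnT_smul T c _ (h.cons g)

theorem Kt_neg (T : Set V) {n : ℕ} (α β : (Fin (n + 1) → W G) → ℝ) (h : Bd α)
    (hb : ∀ g, β g = - α g) (g : Fin n → W G) : Kt G T β g = - Kt G T α g := by
  have e : β = fun g' => (-1 : ℝ) * α g' := by
    funext g'
    rw [hb, neg_one_mul]
  rw [e, Kt_smul T _ α h]
  ring

theorem Kt_zero (T : Set V) {n : ℕ} (α : (Fin (n + 1) → W G) → ℝ) (h : ∀ g, α g = 0)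
    (g : Fin n → W G) : Kt G T α g = 0 := by
  have := Kt_bd T α 0 (fun g => by rw [h, abs_zero]) g
  exact abs_nonpos_iff.1 this

/-- finite sums -/
theorem Kt_sum (T : Set V) {n : ℕ} {ι : Type} (s : Finset ι) (α : ι → (Fin (n + 1) → W G) → ℝ)
    (h : ∀ i, Bd (α i)) (g : Fin n → W G) :
    Kt G T (fun g' => ∑ i ∈ s, α i g') g = ∑ i ∈ s, Kt G T (α i) g := by
  induction s using Finset.induction_on with
  | empty =>
    simp only [Finset.sum_empty]
    exact Kt_zero T _ (fun _ => rfl) g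
  | insert i s hi ih =>
    rw [Finset.sum_insert hi, ← ih]
    have hb : Bd fun x => ∑ j ∈ s, α j (Fin.cons x g) := by
      choose C hC using h
      exact ⟨∑ j ∈ s, C j, fun x => (Finset.abs_sum_le_sum_abs _ _).trans
        (Finset.sum_le_sum fun j _ => hC j _)⟩
    have := mnT_add (G := G) T (fun x => α i (Fin.cons x g)) (fun x => ∑ j ∈ s, α j (Fin.cons x g))
      ((h i).cons g) hb
    unfold Kt
    rw [← this]
    congr 1
    funext x
    exact Finset.sum_insert hi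

theorem Kt_eqv (T : Set V) {s : V} (hs : s ∈ T) {n : ℕ} (α : (Fin (n + 1) → W G) → ℝ) (h : Bd α)
    (he : ∀ g, α (fun k => gen G s * g k) = - α g) (g : Fin n → W G) :
    Kt G T α (fun k => gen G s * g k) = - Kt G T α g := by
  have h1 := mnT_inv (G := G) T hs (fun x => α (Fin.cons x fun k => gen G s * g k)) (h.cons _)
  have h2 : (fun x => α (Fin.cons (gen G s * x) fun k => gen G s * g k)) =
      fun x => (-1 : ℝ) * α (Fin.cons x g) := by
    funext x
    rw [neg_one_mul, ← he]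
    congr 1
    funext k
    refine Fin.cases ?_ (fun j => ?_) k
    · simp
    · simp
  unfold Kt
  rw [← h1, h2, mnT_smul T _ _ (h.cons g)]
  ring

theorem mnT_one {T : Set V} (hT : ∃ m, Mn G T m) : mnT G T (fun _ => 1) = 1 := by
  unfold mnT
  rw [dif_pos hT]
  exact hT.choose_spec.one

theorem mnT_sum (T : Set V) {ι : Type} (s : Finset ι) (f : ι → W G → ℝ) (h : ∀ i, Bd (f i)) :
    mnT G T (fun x => ∑ i ∈ s, f i x) = ∑ i ∈ s, mnT G T (f i) := by
  induction s using Finset.induction_on with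
  | empty =>
    simp only [Finset.sum_empty]
    exact abs_nonpos_iff.1 (mnT_bd T _ 0 fun _ => by simp)
  | insert i s hi ih =>
    rw [Finset.sum_insert hi, ← ih]
    have hb : Bd fun x => ∑ j ∈ s, f j x := by
      choose C hC using h
      exact ⟨∑ j ∈ s, C j, fun x => (Finset.abs_sum_le_sum_abs _ _).trans
        (Finset.sum_le_sum fun j _ => hC j _)⟩
    rw [← mnT_add (G := G) T (f i) (fun x => ∑ j ∈ s, f j x) (h i) hb]
    congr 1
    funext x
    exact Finset.sum_insert hi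

/-- the homotopy formula (also for `n = 0`) -/
theorem Kt_cobd' {T : Set V} (hT : ∃ m, Mn G T m) {n : ℕ} (α : (Fin (n + 1) → W G) → ℝ)
    (h : Bd α) (g : Fin (n + 1) → W G) : cobd (Kt G T α) g + Kt G T (cobd α) g = α g := by
  have h1 : Kt G T (cobd α) g = mnT G T (fun x => α g * 1 +
      (-1) * ∑ i : Fin (n + 1), (-1 : ℝ) ^ (i : ℕ) * α (Fin.cons x (g ∘ i.succAbove))) := by
    unfold Kt
    congr 1
    funext x
    rw [cobd_cons, mul_one, neg_one_mul, ← sub_eq_add_neg]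
    rfl
  have hb1 : ∀ i : Fin (n + 1), Bd fun x : W G =>
      (-1 : ℝ) ^ (i : ℕ) * α (Fin.cons x (g ∘ i.succAbove)) := by
    intro i
    obtain ⟨C, hC⟩ := h
    refine ⟨C, fun x => ?_⟩
    rw [abs_mul, abs_pow, abs_neg, abs_one, one_pow, one_mul]
    exact hC _
  have hb2 : Bd fun x : W G => ∑ i : Fin (n + 1), (-1 : ℝ) ^ (i : ℕ) *
      α (Fin.cons x (g ∘ i.succAbove)) := by
    choose C hC using hb1
    exact ⟨∑ j, C j, fun x => (Finset.abs_sum_le_sum_abs _ _).trans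
      (Finset.sum_le_sum fun j _ => hC j _)⟩
  have hb3 : Bd fun _ : W G => (1 : ℝ) := ⟨1, fun _ => by simp⟩
  have hb4 : Bd fun _ : W G => α g * 1 := ⟨|α g * 1|, fun _ => le_rfl⟩
  have hb5 : Bd fun x : W G => (-1) * ∑ i : Fin (n + 1), (-1 : ℝ) ^ (i : ℕ) *
      α (Fin.cons x (g ∘ i.succAbove)) := by
    obtain ⟨C, hC⟩ := hb2
    exact ⟨C, fun x => by rw [abs_mul, abs_neg, abs_one, one_mul]; exact hC x⟩
  rw [h1, mnT_add T _ _ hb4 hb5, mnT_smul T _ _ hb3, mnT_one hT, mnT_smul T _ _ hb2,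
    mnT_sum T _ _ hb1]
  have h2 : ∀ i : Fin (n + 1), mnT G T (fun x : W G =>
      (-1 : ℝ) ^ (i : ℕ) * α (Fin.cons x (g ∘ i.succAbove))) =
      (-1 : ℝ) ^ (i : ℕ) * Kt G T α (g ∘ i.succAbove) := fun i =>
    mnT_smul T _ _ (h.cons _)
  rw [Finset.sum_congr rfl fun i _ => h2 i]
  unfold cobd
  ring

end Pool.Agent.J4.H51.AC
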