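import Pool.Agent.J4.H51.AC.Mn2

/-!
Invariant means: the steps (the existence of the means is the hypothesis `hM`).
-/

set_option autoImplicit false

open scoped Classical

namespace Pool.Agent.J4.H51.AC

open Pool.Agent.W907.SG (W cox chiW)
open Pool.Agent.Q134.SV Pool.Agent.N13.QC Pool.Agent.J4.H51.JC

variable {V : Type} {G : SimpleGraph V}

theorem F0.bd {m n : ℕ} {Φ : (Fin m → V) → (Fin n → W G) → ℝ} (h : F0 G Φ) (x : Fin m → V) :
    Bd (Φ x) := by
  obtain ⟨C, hC⟩ := h.bdd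
  exact ⟨C, fun g => hC x g⟩

theorem snoc_swap {m : ℕ} (u : Fin m → V) (y : V) (i j : Fin m) :
    (Fin.snoc (α := fun _ => V) (u ∘ Equiv.swap i j) y : Fin (m + 1) → V) =
      (Fin.snoc (α := fun _ => V) u y : Fin (m + 1) → V) ∘
        Equiv.swap (Fin.castSucc i) (Fin.castSucc j) := by
  funext k
  refine Fin.lastCases ?_ (fun k => ?_) k
  · rw [Fin.snoc_last, Function.comp_apply,
      Equiv.swap_apply_of_ne_of_ne (Fin.castSucc_lt_last i).ne' (Fin.castSucc_lt_last j).ne',
      Fin.snoc_last]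
  · rw [Fin.snoc_castSucc, Function.comp_apply, Function.comp_apply]
    have h : Equiv.swap (Fin.castSucc i) (Fin.castSucc j) (Fin.castSucc k) =
        Fin.castSucc (Equiv.swap i j k) := by
      by_cases h1 : k = i
      · subst h1
        rw [Equiv.swap_apply_left, Equiv.swap_apply_left]
      · by_cases h2 : k = j
        · subst h2
          rw [Equiv.swap_apply_right, Equiv.swap_apply_right]
        · rw [Equiv.swap_apply_of_ne_of_ne h1 h2, Equiv.swap_apply_of_ne_of_ne
            (fun h => h1 (Fin.castSucc_injective _ h)) (fun h => h2 (Fin.castSucc_injective _ h))]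
    rw [h, Fin.snoc_castSucc]

theorem snoc_upd {m : ℕ} (u : Fin m → V) (i : Fin m) (y y' : V) :
    (Fin.snoc (α := fun _ => V) (Function.update u i y') y : Fin (m + 1) → V) =
      (Fin.snoc (α := fun _ => V) (Function.update u i y) y' : Fin (m + 1) → V) ∘
        Equiv.swap (Fin.castSucc i) (Fin.last m) := by
  funext k
  refine Fin.lastCases ?_ (fun k => ?_) k
  · rw [Fin.snoc_last, Function.comp_apply, Equiv.swap_apply_right, Fin.snoc_castSucc,
      Function.update_self]
  · rw [Fin.snoc_castSucc, Function.comp_apply]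
    by_cases h1 : k = i
    · subst h1
      rw [Equiv.swap_apply_left, Fin.snoc_last, Function.update_self]
    · rw [Equiv.swap_apply_of_ne_of_ne (fun h => h1 (Fin.castSucc_injective _ h))
        (Fin.castSucc_lt_last k).ne, Fin.snoc_castSucc, Function.update_of_ne h1,
        Function.update_of_ne h1]

theorem range_swap {m : ℕ} (x : Fin m → V) (i j : Fin m) :
    Set.range (x ∘ Equiv.swap i j) = Set.range x := (Equiv.swap i j).surjective.range_comp x

theorem range_snoc_sub {m : ℕ} (u : Fin m → V) (y : V) :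
    Set.range u ⊆ Set.range (Fin.snoc (α := fun _ => V) u y : Fin (m + 1) → V) := by
  rintro _ ⟨i, rfl⟩
  exact ⟨Fin.castSucc i, by rw [Fin.snoc_castSucc]⟩

/-- the contraction is not zero: the function is not zero -/
theorem Kt_ne {T : Set V} {n : ℕ} {α : (Fin (n + 1) → W G) → ℝ} {g : Fin n → W G}
    (h : Kt G T α g ≠ 0) : ∃ g', α g' ≠ 0 := by
  by_contra hcon
  push Not at hcon
  exact h (Kt_zero T α hcon g)

variable [Fintype V]

theorem stp_ne {m n : ℕ} {Φ : (Fin (m + 1) → V) → (Fin (n + 1) → W G) → ℝ} {u : Fin m → V}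
    {g : Fin n → W G} (h : stp G Φ u g ≠ 0) :
    ∃ y g', Φ (Fin.snoc (α := fun _ => V) u y) g' ≠ 0 := by
  obtain ⟨y, _, hy⟩ := Finset.exists_ne_zero_of_sum_ne_zero h
  obtain ⟨g', hg'⟩ := Kt_ne hy
  exact ⟨y, g', hg'⟩

theorem stp_f0 {m n : ℕ} {Φ : (Fin (m + 1) → V) → (Fin (n + 1) → W G) → ℝ} (h : F0 G Φ) :
    F0 G (stp G Φ) := by
  refine ⟨?_, ?_, ?_⟩
  · intro u i j hij g
    unfold stp
    rw [← Finset.sum_neg_distrib]
    refine Finset.sum_congr rfl fun y _ => ?_
    rw [snoc_swap, range_swap]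
    refine Kt_neg _ _ _ (h.bd _) (fun g' => ?_) g
    exact h.alt _ _ _ (fun h' => hij (Fin.castSucc_injective _ h')) g'
  · intro u i g
    unfold stp
    rw [← Finset.sum_neg_distrib]
    refine Finset.sum_congr rfl fun y _ => ?_
    refine Kt_eqv _ (range_snoc_sub u y ⟨i, rfl⟩) _ (h.bd _) (fun g' => ?_) g
    have h1 := h.eqv (Fin.snoc (α := fun _ => V) u y) (Fin.castSucc i) g'
    rwa [Fin.snoc_castSucc] at h1
  · obtain ⟨C, hC⟩ := h.bdd
    refine ⟨∑ _y : V, C, fun u g => ?_⟩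
    unfold stp
    refine (Finset.abs_sum_le_sum_abs _ _).trans (Finset.sum_le_sum fun y _ => ?_)
    exact Kt_bd _ _ C (fun g' => hC _ g') g

/-- swap `castSucc i` and `last`: ∑_{y,y'} K_{T(u,y,y')} Φ(u,y,y') = 0 -/
theorem stp_cy {m n : ℕ} {Φ : (Fin (m + 1) → V) → (Fin (n + 1) → W G) → ℝ} (h : F0 G Φ) :
    Cy G (stp G Φ) := by
  intro u i g
  unfold stp
  have h1 : ∀ y y' : V, Kt G (Set.range (Fin.snoc (α := fun _ => V) (Function.update u i y') y))
      (Φ (Fin.snoc (α := fun _ => V) (Function.update u i y') y)) g =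
      - Kt G (Set.range (Fin.snoc (α := fun _ => V) (Function.update u i y) y'))
      (Φ (Fin.snoc (α := fun _ => V) (Function.update u i y) y')) g := by
    intro y y'
    rw [snoc_upd, range_swap]
    refine Kt_neg _ _ _ (h.bd _) (fun g' => ?_) g
    exact h.alt _ _ _ (Fin.castSucc_lt_last i).ne g'
  have h2 := Finset.sum_comm (s := (Finset.univ : Finset V)) (t := (Finset.univ : Finset V))
    (f := fun y y' => Kt G (Set.range (Fin.snoc (α := fun _ => V) (Function.update u i y) y'))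
      (Φ (Fin.snoc (α := fun _ => V) (Function.update u i y) y')) g)
  have h3 : ∑ y' : V, ∑ y : V,
      Kt G (Set.range (Fin.snoc (α := fun _ => V) (Function.update u i y) y'))
      (Φ (Fin.snoc (α := fun _ => V) (Function.update u i y) y')) g =
      - ∑ y' : V, ∑ y : V,
      Kt G (Set.range (Fin.snoc (α := fun _ => V) (Function.update u i y') y))
      (Φ (Fin.snoc (α := fun _ => V) (Function.update u i y') y)) g := by
    rw [← Finset.sum_neg_distrib]
    refine Finset.sum_congr rfl fun y' _ => ?_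
    rw [← Finset.sum_neg_distrib]
    refine Finset.sum_congr rfl fun y _ => ?_
    rw [h1 y y', neg_neg]
  rw [h3] at h2
  linarith

theorem sum_snoc {m n : ℕ} {Φ : (Fin (m + 1) → V) → (Fin n → W G) → ℝ} (hc : Cy G Φ)
    (u : Fin m → V) (g : Fin n → W G) :
    ∑ y : V, Φ (Fin.snoc (α := fun _ => V) u y) g = 0 := by
  by_cases hV : Nonempty V
  · obtain ⟨y0⟩ := hV
    rw [← hc (Fin.snoc (α := fun _ => V) u y0) (Fin.last m) g]
    refine Finset.sum_congr rfl fun y _ => ?_
    rw [Fin.update_snoc_last]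
  · rw [not_nonempty_iff] at hV
    exact Finset.sum_of_isEmpty _

theorem cobd_fsum {X : Type} {n : ℕ} {ι : Type} (s : Finset ι) (α : ι → (Fin n → X) → ℝ)
    (g : Fin (n + 1) → X) :
    cobd (fun g' => ∑ i ∈ s, α i g') g = ∑ i ∈ s, cobd (α i) g := by
  unfold cobd
  rw [Finset.sum_comm]
  refine Finset.sum_congr rfl fun i _ => ?_
  rw [Finset.mul_sum]

theorem cobd_fneg {X : Type} {n : ℕ} (α : (Fin n → X) → ℝ) (g : Fin (n + 1) → X) :
    cobd (fun g' => - α g') g = - cobd α g := by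
  unfold cobd
  rw [← Finset.sum_neg_distrib]
  refine Finset.sum_congr rfl fun i _ => ?_
  rw [mul_neg]

/-- `∑_y K_T (δ Φ) + δ (stp Φ) = ∑_y Φ` and the last one is zero (Cy) -/
theorem stp_cobd' (hM : ∀ T : Set V, Am G T → ∃ m, Mn G T m) {m n : ℕ}
    {Φ : (Fin (m + 1) → V) → (Fin (n + 1) → W G) → ℝ} (h : F0 G Φ)
    (hc : Cy G Φ) (hs : ∀ x g, Φ x g ≠ 0 → Am G (Set.range x)) (u : Fin m → V)
    (g : Fin (n + 1) → W G) :
    stp G (fun x => cobd (Φ x)) u g = - cobd (stp G Φ u) g := by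
  have h1 : ∀ x : Fin (m + 1) → V, Kt G (Set.range x) (cobd (Φ x)) g =
      Φ x g - cobd (Kt G (Set.range x) (Φ x)) g := by
    intro x
    by_cases hx : Am G (Set.range x)
    · have := Kt_cobd' (hM _ hx) (Φ x) (h.bd x) g
      linarith
    · have h0 : ∀ g', Φ x g' = 0 := by
        intro g'
        by_contra hne
        exact hx (hs x g' hne)
      have h2 : ∀ g', Kt G (Set.range x) (Φ x) g' = 0 := fun g' => Kt_zero _ _ h0 g'
      have h3 : ∀ g', cobd (Φ x) g' = 0 := by
        intro g'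
        unfold cobd
        exact Finset.sum_eq_zero fun i _ => by rw [h0, mul_zero]
      have h4 : cobd (Kt G (Set.range x) (Φ x)) g = 0 := by
        unfold cobd
        exact Finset.sum_eq_zero fun i _ => by rw [h2, mul_zero]
      rw [Kt_zero _ _ h3, h0, h4, sub_zero]
  have h2 : cobd (stp G Φ u) g = ∑ y : V, cobd (Kt G (Set.range (Fin.snoc (α := fun _ => V) u y))
      (Φ (Fin.snoc (α := fun _ => V) u y))) g :=
    cobd_fsum Finset.univ (fun y => Kt G (Set.range (Fin.snoc (α := fun _ => V) u y))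
      (Φ (Fin.snoc (α := fun _ => V) u y))) g
  rw [h2]
  have h3 : stp G (fun x => cobd (Φ x)) u g =
      ∑ y : V, (Φ (Fin.snoc (α := fun _ => V) u y) g -
        cobd (Kt G (Set.range (Fin.snoc (α := fun _ => V) u y))
          (Φ (Fin.snoc (α := fun _ => V) u y))) g) := by
    unfold stp
    exact Finset.sum_congr rfl fun y _ => h1 _
  rw [h3, Finset.sum_sub_distrib, sum_snoc hc u g, zero_sub]

omit [Fintype V] in
theorem am_of_adj {m : ℕ} {x : Fin m → V} (h : ∀ i j, i ≠ j → G.Adj (x i) (x j)) :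
    Am G (Set.range x) := by
  rintro _ ⟨i, rfl⟩ _ ⟨j, rfl⟩ _ ⟨k, rfl⟩ h1 _ h3 _
  exact absurd (h i j (fun h' => h1 (by rw [h']))) h3

theorem stepA' (hM : ∀ T : Set V, Am G T → ∃ m, Mn G T m) {m : ℕ}
    {Φ : (Fin (m + 1) → V) → (Fin (m + 2) → W G) → ℝ} (h : FA G Φ) :
    FA G (stp G Φ) := by
  refine ⟨stp_f0 h.f0, stp_cy h.f0, ?_, ?_⟩
  · intro u g
    have h1 := stp_cobd' hM h.f0 h.cyc (fun x g hx => am_of_adj (h.sup x g hx)) u g
    have h2 : stp G (fun x => cobd (Φ x)) u g = 0 := by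
      unfold stp
      exact Finset.sum_eq_zero fun y _ => Kt_zero _ _ (fun g' => h.clo _ g') g
    rw [h2] at h1
    linarith
  · intro u g hne i j hij
    obtain ⟨y, g', hy⟩ := stp_ne hne
    have h1 := h.sup _ g' hy (Fin.castSucc i) (Fin.castSucc j)
      (fun h' => hij (Fin.castSucc_injective _ h'))
    rwa [Fin.snoc_castSucc, Fin.snoc_castSucc] at h1

theorem stepB' (hM : ∀ T : Set V, Am G T → ∃ m, Mn G T m) {m : ℕ}
    {Φ : (Fin (m + 1) → V) → (Fin (m + 2) → W G) → ℝ}
    {Ξ : (Fin (m + 1) → V) → (Fin (m + 1) → W G) → ℝ} (h : FB G Φ Ξ) :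
    FB G (stp G Φ) (fun x g => - stp G Ξ x g) := by
  have hf := stp_f0 h.f0
  refine ⟨?_, ⟨?_, ?_, ?_⟩, ?_, ?_⟩
  · intro u g
    have h1 := stp_cobd' hM h.f0 h.cyc h.sup u g
    rw [cobd_fneg, ← h1]
    have h2 : Φ = fun x => cobd (Ξ x) := by
      funext x g'
      exact h.eq x g'
    rw [h2]
  · intro x i j hij g
    rw [hf.alt x i j hij g]
  · intro x i g
    rw [hf.eqv x i g]
  · obtain ⟨C, hC⟩ := hf.bdd
    exact ⟨C, fun x g => by rw [abs_neg]; exact hC x g⟩
  · intro x i g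
    rw [Finset.sum_neg_distrib, stp_cy h.f0 x i g, neg_zero]
  · intro u g hne
    have h1 : stp G Ξ u g ≠ 0 := fun h' => hne (by rw [h', neg_zero])
    obtain ⟨y, g', hy⟩ := stp_ne h1
    exact (h.sup _ g' hy).mono (range_snoc_sub u y)

/-- after the last step nothing is left: `stp Ξ` has arity 0 and changes its sign -/
theorem endB' (hM : ∀ T : Set V, Am G T → ∃ m, Mn G T m)
    {Φ : (Fin 1 → V) → (Fin 2 → W G) → ℝ} {Ξ : (Fin 1 → V) → (Fin 1 → W G) → ℝ}
    (h : FB G Φ Ξ) : ∀ u g, stp G Φ u g = 0 := by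
  intro u g
  have h1 := stp_cobd' hM (n := 0) h.f0 h.cyc h.sup u g
  have h2 : Φ = fun x => cobd (Ξ x) := by
    funext x g'
    exact h.eq x g'
  rw [h2, h1]
  have h3 : ∀ g' : Fin 0 → W G, stp G Ξ u g' = 0 := by
    intro g'
    unfold stp
    refine Finset.sum_eq_zero fun y _ => ?_
    have h4 := Kt_eqv (G := G) (T := Set.range (Fin.snoc (α := fun _ => V) u y)) (s := y)
      ⟨Fin.last 0, by rw [Fin.snoc_last]⟩ (Ξ (Fin.snoc (α := fun _ => V) u y)) (h.f0.bd _)
      (fun g'' => by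
        have h5 := h.f0.eqv (Fin.snoc (α := fun _ => V) u y) (Fin.last 0) g''
        rwa [Fin.snoc_last] at h5) g'
    have h5 : (fun k => gen G y * g' k) = g' := by
      funext k
      exact k.elim0
    rw [h5] at h4
    linarith
  have h4 : cobd (stp G Ξ u) g = 0 := by
    unfold cobd
    exact Finset.sum_eq_zero fun i _ => by rw [h3, mul_zero]
  rw [h4, neg_zero]

end Pool.Agent.J4.H51.AC
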