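import Pool.Agent.J4.H51.AC.Mn2

/-!
Invariant means: the value of a family of cocycles and the value of the next family.
-/

set_option autoImplicit false

open scoped Classical

namespace Pool.Agent.J4.H51.AC

open Pool.Agent.W907.SG (W cox chiW)
open Pool.Agent.Q134.SV Pool.Agent.N13.QC Pool.Agent.J4.H51.JC

variable {V : Type} {G : SimpleGraph V}

/-- functions which change their sign under transpositions -/
theorem alt_perm {n : ℕ} {F : (Fin n → V) → ℝ}
    (h : ∀ x (i j : Fin n), i ≠ j → F (x ∘ Equiv.swap i j) = - F x) (σ : Equiv.Perm (Fin n)) :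
    ∀ x, F (x ∘ σ) = ((Equiv.Perm.sign σ : ℤ) : ℝ) * F x := by
  induction σ using Equiv.Perm.swap_induction_on with
  | one => intro x; simp
  | swap_mul f i j hij ih =>
    intro x
    have e : x ∘ ⇑(Equiv.swap i j * f) = (x ∘ Equiv.swap i j) ∘ f := rfl
    rw [e, ih, h x i j hij, Equiv.Perm.sign_mul, Equiv.Perm.sign_swap hij]
    push_cast
    ring

/-- the last entry moved to the front -/
theorem alt_rot {m : ℕ} {F : (Fin (m + 1) → V) → ℝ}
    (h : ∀ x (i j : Fin (m + 1)), i ≠ j → F (x ∘ Equiv.swap i j) = - F x) (u : Fin m → V) (y : V) :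
    F (Fin.cons y u) = (-1) ^ m * F (Fin.snoc (α := fun _ => V) u y) := by
  have h1 := alt_perm h (finRotate (m + 1)) (Fin.cons y u)
  have h2 : (Fin.cons y u : Fin (m + 1) → V) ∘ ⇑(finRotate (m + 1)) =
      Fin.snoc (α := fun _ => V) u y := (Fin.snoc_eq_cons_rotate u y).symm
  rw [h2, sign_finRotate] at h1
  rw [h1]
  push_cast
  rw [← mul_assoc, ← pow_add, ← two_mul, pow_mul]
  norm_num

variable [Fintype V]

/-- the value of a sum of coboundaries -/
theorem val_cobd {m : ℕ} {B : (Fin (m + 1) → V) → (Fin (m + 1) → W G) → ℝ}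
    (halt : ∀ x (i j : Fin (m + 1)), i ≠ j → ∀ g, B (x ∘ Equiv.swap i j) g = - B x g)
    (hsup : ∀ x g, B x g ≠ 0 → ∀ i j, i ≠ j → G.Adj (x i) (x j))
    (heqv : ∀ x (i : Fin (m + 1)) g, B x (fun k => gen G (x i) * g k) = - B x g) :
    ∑ x : Fin (m + 1) → V, cobd (B x) (Fin.partialProd (gen G ∘ x)) =
      2 * (-1) ^ (m + 1) * ∑ u : Fin m → V, ∑ y : V,
        B (Fin.snoc (α := fun _ => V) u y) (Fin.partialProd (gen G ∘ u)) := by
  unfold cobd
  rw [Finset.sum_comm]
  have h0 : ∑ x : Fin (m + 1) → V, (-1 : ℝ) ^ (((0 : Fin (m + 2)) : ℕ)) *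
      B x (Fin.partialProd (gen G ∘ x) ∘ (0 : Fin (m + 2)).succAbove) =
      (-1) ^ (m + 1) * ∑ u : Fin m → V, ∑ y : V,
        B (Fin.snoc (α := fun _ => V) u y) (Fin.partialProd (gen G ∘ u)) := by
    rw [← Equiv.sum_comp (Fin.insertNthEquiv (fun _ : Fin (m + 1) => V) 0), Fintype.sum_prod_type,
      Finset.sum_comm, Finset.mul_sum]
    refine Finset.sum_congr rfl fun u _ => ?_
    rw [Finset.mul_sum]
    refine Finset.sum_congr rfl fun y _ => ?_
    have e0 : (Fin.insertNthEquiv (fun _ : Fin (m + 1) => V) 0) (y, u) =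
        (Fin.cons y u : Fin (m + 1) → V) := by
      simp [Fin.insertNthEquiv]
    rw [e0]
    have e1 : Fin.partialProd (gen G ∘ (Fin.cons y u : Fin (m + 1) → V)) ∘
        (0 : Fin (m + 2)).succAbove =
        fun k => gen G ((Fin.cons y u : Fin (m + 1) → V) 0) * Fin.partialProd (gen G ∘ u) k := by
      funext k
      simp only [Function.comp_apply, Fin.succAbove_zero]
      rw [Fin.partialProd_succ']
      congr 1
    rw [e1, heqv, alt_rot (F := fun x => B x (Fin.partialProd (gen G ∘ u)))
      (fun x i j hij => halt x i j hij _)]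
    simp
    ring
  have hl : ∑ x : Fin (m + 1) → V, (-1 : ℝ) ^ (((Fin.last (m + 1) : Fin (m + 2)) : ℕ)) *
      B x (Fin.partialProd (gen G ∘ x) ∘ (Fin.last (m + 1)).succAbove) =
      (-1) ^ (m + 1) * ∑ u : Fin m → V, ∑ y : V,
        B (Fin.snoc (α := fun _ => V) u y) (Fin.partialProd (gen G ∘ u)) := by
    rw [← Equiv.sum_comp (Fin.insertNthEquiv (fun _ : Fin (m + 1) => V) (Fin.last m)),
      Fintype.sum_prod_type, Finset.sum_comm, Finset.mul_sum]
    refine Finset.sum_congr rfl fun u _ => ?_
    rw [Finset.mul_sum]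
    refine Finset.sum_congr rfl fun y _ => ?_
    have e0 : (Fin.insertNthEquiv (fun _ : Fin (m + 1) => V) (Fin.last m)) (y, u) =
        (Fin.snoc (α := fun _ => V) u y : Fin (m + 1) → V) := by
      simp [Fin.insertNthEquiv]
    rw [e0]
    have e1 : Fin.partialProd (gen G ∘ (Fin.snoc (α := fun _ => V) u y : Fin (m + 1) → V)) ∘
        (Fin.last (m + 1)).succAbove = Fin.partialProd (gen G ∘ u) := by
      have e2 : (Fin.last (m + 1)) = (Fin.last m).succ := rfl
      rw [e2, ← Fin.partialProd_contractNth]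
      congr 1
      funext l
      rw [Fin.contractNth_apply_of_lt _ _ _ _ (by simp)]
      simp
    rw [e1, Fin.val_last]
  have hin : ∀ k : Fin m, ∑ x : Fin (m + 1) → V, (-1 : ℝ) ^ (((k.castSucc.succ : Fin (m + 2)) : ℕ)) *
      B x (Fin.partialProd (gen G ∘ x) ∘ (k.castSucc.succ).succAbove) = 0 := by
    intro k
    have hne : k.castSucc ≠ k.succ := (Fin.castSucc_lt_succ).ne
    set σ := Equiv.swap k.castSucc k.succ with hσ
    rw [← Finset.mul_sum]
    have h1 : ∑ v : Fin (m + 1) → V,
        B v (Fin.partialProd (gen G ∘ v) ∘ (k.castSucc.succ).succAbove) =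
        ∑ v : Fin (m + 1) → V, - 
        B v (Fin.partialProd (gen G ∘ v) ∘ (k.castSucc.succ).succAbove) := by
      rw [← Equiv.sum_comp (Equiv.arrowCongr σ (Equiv.refl V))]
      refine Finset.sum_congr rfl fun v _ => ?_
      have e1 : (Equiv.arrowCongr σ (Equiv.refl V)) v = v ∘ σ := by
        funext l
        simp [Equiv.arrowCongr, hσ]
      rw [e1, halt v _ _ hne]
      by_cases h0 : ∀ g, B v g = 0
      · rw [h0, h0]
      · push Not at h0
        obtain ⟨g₀, h0⟩ := h0
        have hadj := hsup v g₀ h0 _ _ hne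
        congr 2
        rw [← Fin.partialProd_contractNth, ← Fin.partialProd_contractNth]
        congr 1
        funext l
        rcases lt_trichotomy (l : ℕ) (k : ℕ) with h | h | h
        · rw [Fin.contractNth_apply_of_lt _ _ _ _ (by simpa using h),
            Fin.contractNth_apply_of_lt _ _ _ _ (by simpa using h)]
          simp only [Function.comp_apply, hσ]
          rw [Equiv.swap_apply_of_ne_of_ne]
          · intro e; rw [Fin.ext_iff] at e; simp at e; omega
          · intro e; rw [Fin.ext_iff] at e; simp at e; omega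
        · rw [Fin.contractNth_apply_of_eq _ _ _ _ (by simpa using h),
            Fin.contractNth_apply_of_eq _ _ _ _ (by simpa using h)]
          have : l = k := Fin.ext h
          subst this
          simp only [Function.comp_apply, hσ, Equiv.swap_apply_left, Equiv.swap_apply_right]
          exact (gen_comm _ hadj).symm
        · rw [Fin.contractNth_apply_of_gt _ _ _ _ (by simpa using h),
            Fin.contractNth_apply_of_gt _ _ _ _ (by simpa using h)]
          simp only [Function.comp_apply, hσ]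
          rw [Equiv.swap_apply_of_ne_of_ne]
          · intro e; rw [Fin.ext_iff] at e; simp at e; omega
          · intro e; rw [Fin.ext_iff] at e; simp at e; omega
    rw [Finset.sum_neg_distrib] at h1
    have h2 : ∑ v : Fin (m + 1) → V,
        B v (Fin.partialProd (gen G ∘ v) ∘ (k.castSucc.succ).succAbove) = 0 := by linarith
    rw [h2, mul_zero]
  rw [Fin.sum_univ_succ, Fin.sum_univ_castSucc, h0]
  have hl' : (Fin.last m).succ = Fin.last (m + 1) := rfl
  rw [hl', hl, Finset.sum_eq_zero fun k _ => hin k]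
  ring

omit [Fintype V] in
theorem range_swap {n : ℕ} (x : Fin n → V) (i j : Fin n) :
    Set.range (x ∘ Equiv.swap i j) = Set.range x := by
  rw [Set.range_comp, (Equiv.swap i j).surjective.range_eq, Set.image_univ]

/-- the value of a family of cocycles (with means) -/
theorem vl_step' (hM : ∀ T : Set V, Am G T → ∃ m, Mn G T m) {m : ℕ}
    {Φ : (Fin (m + 1) → V) → (Fin (m + 2) → W G) → ℝ} (h : FA G Φ) :
    vl G Φ = 2 * (-1) ^ (m + 1) * vl G (stp G Φ) := by
  have hbd : ∀ x, Bd (Φ x) := by
    obtain ⟨C, hC⟩ := h.f0.bdd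
    exact fun x => ⟨C, hC x⟩
  have hz : ∀ x, (¬ ∀ i j, i ≠ j → G.Adj (x i) (x j)) → ∀ g, Φ x g = 0 := by
    intro x hx g
    by_contra hne
    exact hx (h.sup x g hne)
  have hval := val_cobd (G := G) (B := fun x => Kt G (Set.range x) (Φ x)) (m := m)
    (fun x i j hij g => by
      rw [range_swap]
      exact Kt_neg _ _ _ (hbd x) (fun g' => h.f0.alt x i j hij g') g)
    (fun x g hne => by
      by_contra hx
      exact hne (Kt_zero _ _ (hz x hx) g))
    (fun x i g => Kt_eqv (Set.range x) (Set.mem_range_self i) _ (hbd x) (fun g' => h.f0.eqv x i g') g)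
  have e : ∀ x g, Φ x g = cobd (Kt G (Set.range x) (Φ x)) g := by
    intro x g
    by_cases hx : ∀ i j, i ≠ j → G.Adj (x i) (x j)
    · have hT : Am G (Set.range x) := by
        rintro _ ⟨i, rfl⟩ _ ⟨j, rfl⟩ _ ⟨k, rfl⟩ hij - hn
        exact absurd (hx i j fun e => hij (by rw [e])) hn
      have h1 := Kt_cobd' (hM _ hT) (Φ x) (hbd x) g
      rw [Kt_zero _ _ (h.clo x), add_zero] at h1
      exact h1.symm
    · rw [hz x hx]
      symm
      unfold cobd
      refine Finset.sum_eq_zero fun i _ => ?_
      rw [Kt_zero _ _ (hz x hx), mul_zero]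
  unfold vl
  rw [Finset.sum_congr rfl fun x _ => e x _, hval]
  rfl

end Pool.Agent.J4.H51.AC
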