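import Pool.Agent.J4.H51.AC.MnDefs

/-!
Duality for the simplicial volume (Hahn–Banach).
-/

set_option autoImplicit false

open scoped Classical

namespace Pool.Agent.J4.H51.AC

open Pool.Agent.W907.SG (W cox chiW)
open Pool.Agent.Q134.SV Pool.Agent.N13.QC Pool.Agent.J4.H51.JC

variable {V : Type} {G : SimpleGraph V}

section

variable (G) (n : ℕ) (H : Subgroup (W G))

/-- the norms of the chains homologous to `z` -/
def nrmSet (z : (Fin (n + 1) → W G) →₀ ℝ) : Set ℝ :=
  {r | ∃ z' : (Fin (n + 1) → W G) →₀ ℝ, Homol G n H z' z ∧ r = z'.sum fun _ t => |t|}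

/-- the seminorm of the class of a chain -/
noncomputable def pnm (z : (Fin (n + 1) → W G) →₀ ℝ) : ℝ := sInf (nrmSet G n H z)

variable {G n H}

theorem l1_nonneg (z : (Fin (n + 1) → W G) →₀ ℝ) : 0 ≤ z.sum fun _ t => |t| :=
  Finset.sum_nonneg fun _ _ => abs_nonneg _

theorem l1_add (x y : (Fin (n + 1) → W G) →₀ ℝ) : ((x + y).sum fun _ t => |t|) ≤
    (x.sum fun _ t => |t|) + y.sum fun _ t => |t| := by
  have h : ∀ z : (Fin (n + 1) → W G) →₀ ℝ, z.support ⊆ x.support ∪ y.support →
      (z.sum fun _ t => |t|) = ∑ g ∈ x.support ∪ y.support, |z g| := by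
    intro z hz
    exact Finsupp.sum_of_support_subset z hz _ (fun _ _ => abs_zero)
  rw [h _ Finsupp.support_add, h x Finset.subset_union_left, h y Finset.subset_union_right,
    ← Finset.sum_add_distrib]
  refine Finset.sum_le_sum fun g _ => ?_
  rw [Finsupp.add_apply]
  exact abs_add_le _ _

theorem l1_smul (c : ℝ) (x : (Fin (n + 1) → W G) →₀ ℝ) : ((c • x).sum fun _ t => |t|) =
    |c| * x.sum fun _ t => |t| := by
  rw [Finsupp.sum_smul_index (fun _ => abs_zero), Finsupp.sum, Finsupp.sum, Finset.mul_sum]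
  exact Finset.sum_congr rfl fun g _ => abs_mul _ _

theorem ev_add (c : (Fin (n + 1) → W G) → ℝ) (x y : (Fin (n + 1) → W G) →₀ ℝ) :
    ((x + y).sum fun g t => t * c g) = (x.sum fun g t => t * c g) + y.sum fun g t => t * c g :=
  Finsupp.sum_add_index' (fun _ => zero_mul _) fun _ _ _ => add_mul _ _ _

theorem ev_smul (c : (Fin (n + 1) → W G) → ℝ) (t : ℝ) (x : (Fin (n + 1) → W G) →₀ ℝ) :
    ((t • x).sum fun g t => t * c g) = t * x.sum fun g t => t * c g := by
  rw [Finsupp.sum_smul_index (fun _ => zero_mul _), Finsupp.sum, Finsupp.sum, Finset.mul_sum]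
  exact Finset.sum_congr rfl fun g _ => mul_assoc _ _ _

theorem bdd_nrmSet (z : (Fin (n + 1) → W G) →₀ ℝ) : BddBelow (nrmSet G n H z) :=
  ⟨0, by rintro _ ⟨z', -, rfl⟩; exact l1_nonneg z'⟩

theorem ne_nrmSet (z : (Fin (n + 1) → W G) →₀ ℝ) : (nrmSet G n H z).Nonempty :=
  ⟨_, z, fun _ _ _ => rfl, rfl⟩

theorem pnm_le {z z' : (Fin (n + 1) → W G) →₀ ℝ} (h : Homol G n H z' z) :
    pnm G n H z ≤ z'.sum fun _ t => |t| :=
  csInf_le (bdd_nrmSet z) ⟨z', h, rfl⟩

theorem pnm_nonneg (z : (Fin (n + 1) → W G) →₀ ℝ) : 0 ≤ pnm G n H z :=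
  le_csInf (ne_nrmSet z) (by rintro _ ⟨z', -, rfl⟩; exact l1_nonneg z')

theorem pnm_add (x y : (Fin (n + 1) → W G) →₀ ℝ) :
    pnm G n H (x + y) ≤ pnm G n H x + pnm G n H y := by
  refine le_of_forall_pos_le_add fun ε hε => ?_
  obtain ⟨_, ⟨x', hx', rfl⟩, hx⟩ := exists_lt_of_csInf_lt (ne_nrmSet (H := H) x)
    (show sInf (nrmSet G n H x) < pnm G n H x + ε / 2 by
      show pnm G n H x < _
      linarith)
  obtain ⟨_, ⟨y', hy', rfl⟩, hy⟩ := exists_lt_of_csInf_lt (ne_nrmSet (H := H) y)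
    (show sInf (nrmSet G n H y) < pnm G n H y + ε / 2 by
      show pnm G n H y < _
      linarith)
  have h1 : Homol G n H (x' + y') (x + y) := by
    intro c hc hd
    rw [ev_add, ev_add, hx' c hc hd, hy' c hc hd]
  have h2 := (pnm_le h1).trans (l1_add x' y')
  linarith

theorem pnm_smul_le {c : ℝ} (hc : 0 < c) (x : (Fin (n + 1) → W G) →₀ ℝ) :
    pnm G n H (c • x) ≤ c * pnm G n H x := by
  have h : c⁻¹ * pnm G n H (c • x) ≤ pnm G n H x := by
    refine le_csInf (ne_nrmSet x) ?_
    rintro _ ⟨x', hx', rfl⟩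
    have h1 : Homol G n H (c • x') (c • x) := by
      intro d hd hd'
      rw [ev_smul, ev_smul, hx' d hd hd']
    have h2 := pnm_le h1
    rw [l1_smul, abs_of_pos hc] at h2
    rw [inv_mul_le_iff₀ hc]
    exact h2
  rwa [inv_mul_le_iff₀ hc] at h

theorem pnm_smul {c : ℝ} (hc : 0 < c) (x : (Fin (n + 1) → W G) →₀ ℝ) :
    pnm G n H (c • x) = c * pnm G n H x := by
  refine le_antisymm (pnm_smul_le hc x) ?_
  have h := pnm_smul_le (H := H) (inv_pos.2 hc) (c • x)
  rw [smul_smul, inv_mul_cancel₀ hc.ne', one_smul, ← inv_mul_le_iff₀ (inv_pos.2 hc)] at h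
  rwa [inv_inv] at h

theorem pnm_zero' {z : (Fin (n + 1) → W G) →₀ ℝ} (h : Homol G n H 0 z) : pnm G n H z ≤ 0 := by
  have := pnm_le h
  rwa [Finsupp.sum_zero_index] at this

/-- Hahn–Banach -/
theorem ex_fun (z : (Fin (n + 1) → W G) →₀ ℝ) : ∃ F : ((Fin (n + 1) → W G) →₀ ℝ) →ₗ[ℝ] ℝ,
    F z = pnm G n H z ∧ ∀ x, F x ≤ pnm G n H x := by
  by_cases hz : z = 0
  · refine ⟨0, ?_, fun x => pnm_nonneg x⟩
    subst hz
    refine le_antisymm (pnm_nonneg _) (pnm_zero' fun c _ _ => rfl)
  · obtain ⟨F, hF, hF'⟩ := exists_extension_of_le_sublinear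
      (LinearPMap.mkSpanSingleton z (pnm G n H z) hz) (pnm G n H) (fun c hc x => pnm_smul hc x)
      pnm_add (by
        rintro ⟨x, hx⟩
        obtain ⟨t, rfl⟩ := Submodule.mem_span_singleton.1 hx
        have e : (LinearPMap.mkSpanSingleton z (pnm G n H z) hz) ⟨t • z, hx⟩ = t • pnm G n H z :=
          LinearPMap.mkSpanSingleton'_apply _ _ _ _ _
        rw [e]
        show t • pnm G n H z ≤ pnm G n H (t • z)
        rw [smul_eq_mul]
        rcases lt_trichotomy t 0 with ht | rfl | ht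
        · exact (mul_nonpos_of_nonpos_of_nonneg ht.le (pnm_nonneg z)).trans (pnm_nonneg _)
        · rw [zero_mul]; exact pnm_nonneg _
        · rw [pnm_smul ht])
    refine ⟨F, ?_, hF'⟩
    have h1 := hF ⟨z, Submodule.mem_span_singleton_self z⟩
    rw [LinearPMap.mkSpanSingleton_apply] at h1
    exact h1

end

theorem ex_dual [Fintype V] (n : ℕ) (a : (Fin n → V) → ℝ) (H : Subgroup (W G)) :
    ∃ c : (Fin (n + 1) → W G) → ℝ, (∀ g, |c g| ≤ 1) ∧
      (∀ h ∈ H, ∀ g, c (fun i => h * g i) = c g) ∧ (∀ g : Fin (n + 2) → W G, cobd c g = 0) ∧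
      ((fch G n a H).sum fun g t => t * c g) = svol G n a H := by
  obtain ⟨F, hF, hle⟩ := ex_fun (H := H) (fch G n a H)
  have hzero : ∀ z : (Fin (n + 1) → W G) →₀ ℝ, Homol G n H 0 z → F z = 0 := by
    intro z hz
    have h1 := (hle z).trans (pnm_zero' hz)
    have h2 : Homol G n H 0 (-z) := by
      intro c hc hd
      have e : (-z) = (-1 : ℝ) • z := by rw [neg_one_smul]
      rw [e, ev_smul, ← hz c hc hd, Finsupp.sum_zero_index, mul_zero]
    have h3 := (hle (-z)).trans (pnm_zero' h2)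
    rw [map_neg] at h3
    linarith
  have hev : ∀ z : (Fin (n + 1) → W G) →₀ ℝ, (z.sum fun g t => t * F (Finsupp.single g 1)) = F z := by
    intro z
    conv_rhs => rw [← Finsupp.sum_single z]
    rw [map_finsuppSum]
    refine Finset.sum_congr rfl fun g _ => ?_
    have e : (Finsupp.single g (z g) : (Fin (n + 1) → W G) →₀ ℝ) = z g • Finsupp.single g 1 := by
      rw [Finsupp.smul_single, smul_eq_mul, mul_one]
    show z g * F (Finsupp.single g 1) = F (Finsupp.single g (z g))
    rw [e, map_smul, smul_eq_mul]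
  have hs : ∀ g : Fin (n + 1) → W G,
      ((Finsupp.single g (1 : ℝ)).sum fun _ t => |t|) = 1 := by
    intro g
    rw [Finsupp.sum_single_index abs_zero, abs_one]
  refine ⟨fun g => F (Finsupp.single g 1), fun g => ?_, fun h hh g => ?_, fun g => ?_, ?_⟩
  · rw [abs_le]
    constructor
    · have h1 := hle (-Finsupp.single g 1)
      have h2 : pnm G n H (-Finsupp.single g 1) ≤ 1 := by
        refine (pnm_le (z' := -Finsupp.single g 1) fun _ _ _ => rfl).trans ?_
        have e : (-Finsupp.single g (1 : ℝ) : (Fin (n + 1) → W G) →₀ ℝ) =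
            (-1 : ℝ) • Finsupp.single g 1 := by rw [neg_one_smul]
        rw [e, l1_smul, hs, abs_neg, abs_one, one_mul]
      rw [map_neg] at h1
      linarith
    · refine (hle _).trans ((pnm_le (z' := Finsupp.single g 1) fun _ _ _ => rfl).trans ?_)
      rw [hs]
  · have h1 := hzero (Finsupp.single (fun i => h * g i) 1 - Finsupp.single g 1) (by
      intro c hc hd
      have e : (Finsupp.single (fun i => h * g i) (1 : ℝ) - Finsupp.single g 1 :
          (Fin (n + 1) → W G) →₀ ℝ) =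
          Finsupp.single (fun i => h * g i) 1 + (-1 : ℝ) • Finsupp.single g 1 := by
        rw [neg_one_smul, sub_eq_add_neg]
      rw [e, ev_add, ev_smul, Finsupp.sum_zero_index, Finsupp.sum_single_index (zero_mul _),
        Finsupp.sum_single_index (zero_mul _), hc h hh g]
      ring)
    rw [map_sub] at h1
    linarith
  · have h1 := hzero (∑ i : Fin (n + 2), ((-1 : ℝ) ^ (i : ℕ)) • Finsupp.single (g ∘ i.succAbove) 1)
      (by
        intro c hc hd
        rw [Finsupp.sum_zero_index]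
        have key : ∀ s : Finset (Fin (n + 2)), ((∑ i ∈ s, ((-1 : ℝ) ^ (i : ℕ)) •
            (Finsupp.single (g ∘ i.succAbove) 1 : (Fin (n + 1) → W G) →₀ ℝ)).sum
            fun g t => t * c g) = ∑ i ∈ s, (-1 : ℝ) ^ (i : ℕ) * c (g ∘ i.succAbove) := by
          intro s
          induction s using Finset.induction_on with
          | empty => simp
          | insert i s hi ih =>
            rw [Finset.sum_insert hi, Finset.sum_insert hi, ev_add, ev_smul, ih,
              Finsupp.sum_single_index (zero_mul _), one_mul]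
        rw [key]
        exact (hd g).symm)
    rw [map_sum] at h1
    simp only [map_smul, smul_eq_mul] at h1
    exact h1
  · rw [hev, hF]
    rfl

end Pool.Agent.J4.H51.AC
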