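import Pool.Agent.J4.H51.AC.Mn2
import Pool.Agent.J4.H51.AC.Qs
import Pool.Agent.N13.QC.Tr

/-!
Transfer of a bounded cocycle of a subgroup of finite index.
-/

set_option autoImplicit false

open scoped Classical

namespace Pool.Agent.J4.H51.AC

open Pool.Agent.W907.SG (W cox chiW)
open Pool.Agent.Q134.SV Pool.Agent.N13.QC Pool.Agent.J4.H51.JC

variable {V : Type} {G : SimpleGraph V}

theorem ex_trans [Fintype V] (n : ℕ) (a : (Fin n → V) → ℝ) (H : Subgroup (W G)) (hi : H.index ≠ 0)
    (hε : H ≤ (par G).ker) (c : (Fin (n + 1) → W G) → ℝ) (hb : ∀ g, |c g| ≤ 1)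
    (hc : ∀ h ∈ H, ∀ g, c (fun i => h * g i) = c g) (hd : ∀ g : Fin (n + 2) → W G, cobd c g = 0) :
    ∃ α : (Fin (n + 1) → W G) → ℝ, Bd α ∧ (∀ x g, α (fun i => gen G x * g i) = - α g) ∧
      (∀ g : Fin (n + 2) → W G, cobd α g = 0) ∧
      pair (gen G) a α = 2 ^ n * ((fch G n a H).sum fun g t => t * c g) := by
  have hfi : H.FiniteIndex := ⟨hi⟩
  have hfin : Finite (Quotient (QuotientGroup.rightRel H)) :=
    Finite.of_equiv _ (QuotientGroup.quotientRightRelEquivQuotientLeftRel H).symm
  have hft : Fintype (Quotient (QuotientGroup.rightRel H)) := Fintype.ofFinite _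
  let φ : (Fin (n + 1) → W G) → W G → ℝ := fun g q => ((par G q : ℤ) : ℝ) * c fun i => q * g i
  have hφ : ∀ g, ∀ γ ∈ H, ∀ x, φ g (γ * x) = φ g x := by
    intro g γ hγ x
    change ((par G (γ * x) : ℤ) : ℝ) * c (fun i => γ * x * g i) = ((par G x : ℤ) : ℝ) * c _
    have h2 : (fun i => γ * x * g i) = fun i => γ * (x * g i) := by
      funext i; rw [mul_assoc]
    rw [map_mul, MonoidHom.mem_ker.1 (hε hγ), one_mul, h2, hc γ hγ fun i => x * g i]
  let α : (Fin (n + 1) → W G) → ℝ := fun g => qs H (φ g)
  have hα : ∀ g, α g = ∑ q : Quotient (QuotientGroup.rightRel H), φ g q.out := fun g =>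
    finsum_eq_sum_of_fintype _
  refine ⟨α, ⟨Fintype.card (Quotient (QuotientGroup.rightRel H)), fun g => ?_⟩, ?_, ?_, ?_⟩
  · rw [hα]
    refine (Finset.abs_sum_le_sum_abs _ _).trans ?_
    have h1 : ∀ q : Quotient (QuotientGroup.rightRel H), |φ g q.out| ≤ 1 := by
      intro q
      change |((par G q.out : ℤ) : ℝ) * c _| ≤ 1
      rw [abs_mul]
      have h2 : |((par G q.out : ℤ) : ℝ)| = 1 := by
        rcases Int.units_eq_one_or (par G q.out) with h | h <;> rw [h] <;> simp
      rw [h2, one_mul]
      exact hb _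
    refine (Finset.sum_le_sum fun q _ => h1 q).trans ?_
    simp
  · intro x g
    have h1 : α (fun i => gen G x * g i) = qs H (fun q => -(φ g (q * gen G x))) := by
      change qs H _ = qs H _
      congr 1
      funext q
      change ((par G q : ℤ) : ℝ) * c (fun i => q * (gen G x * g i)) =
        -(((par G (q * gen G x) : ℤ) : ℝ) * c fun i => q * gen G x * g i)
      rw [map_mul, par_gen]
      have : (fun i => q * (gen G x * g i)) = fun i => q * gen G x * g i := by
        funext i; rw [mul_assoc]
      rw [this]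
      simp
    rw [h1]
    have h2 := qs_mul (Γ := H) (fun q => -(φ g q)) (fun γ hγ x => by rw [hφ g γ hγ x]) (gen G x)
    rw [h2]
    change qs H _ = -qs H _
    unfold qs
    rw [finsum_neg_distrib]
  · intro g
    have h1 : cobd α g = ∑ q : Quotient (QuotientGroup.rightRel H), ((par G q.out : ℤ) : ℝ) *
        cobd c (fun i => q.out * g i) := by
      unfold cobd
      simp only [hα, Finset.mul_sum]
      rw [Finset.sum_comm]
      refine Finset.sum_congr rfl fun q _ => Finset.sum_congr rfl fun i _ => ?_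
      change _ * (((par G q.out : ℤ) : ℝ) * c _) = _ * (_ * c _)
      simp only [Function.comp_def]
      ring
    rw [h1]
    exact Finset.sum_eq_zero fun q _ => by rw [hd, mul_zero]
  · have h1 : ((fch G n a H).sum fun g t => t * c g) = Finsupp.linearCombination ℝ c (fch G n a H) :=
      rfl
    have h2 : ∀ q : Quotient (QuotientGroup.rightRel H),
        Finsupp.linearCombination ℝ c (∑ v : Fin n → V,
          Finsupp.single (fun i => q.out * Fin.partialProd (gen G ∘ v) i)
            (((par G q.out : ℤ) : ℝ) * a v)) =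
        ∑ v : Fin n → V, a v * φ (Fin.partialProd (gen G ∘ v)) q.out := by
      intro q
      rw [map_sum]
      refine Finset.sum_congr rfl fun v _ => ?_
      rw [Finsupp.linearCombination_single, smul_eq_mul]
      change _ = a v * (((par G q.out : ℤ) : ℝ) * c _)
      ring
    have h3 : (2 : ℝ) ^ n * (1 / 2) ^ n = 1 := by
      rw [← mul_pow]
      norm_num
    rw [h1, fch, finsum_eq_sum_of_fintype, map_smul, map_sum, smul_eq_mul, ← mul_assoc, h3, one_mul,
      Finset.sum_congr rfl fun q _ => h2 q, Finset.sum_comm, pair]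
    refine Finset.sum_congr rfl fun v _ => ?_
    rw [hα, Finset.mul_sum]

end Pool.Agent.J4.H51.AC
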