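import Pool.Agent.J4.H51.AC.Mn1
import Pool.Agent.J4.H51.AC.Mn3
import Pool.Agent.J4.H51.AC.Mn4
import Pool.Agent.J4.H51.AC.Mn5
import Pool.Agent.J4.H51.AC.Mn5b

/-!
Boundaries in the amenable complex have zero volume.
-/

set_option autoImplicit false

open scoped Classical

namespace Pool.Agent.J4.H51.AC

open Pool.Agent.W907.SG (W cox chiW)
open Pool.Agent.Q134.SV Pool.Agent.N13.QC Pool.Agent.J4.H51.JC

variable {V : Type} {G : SimpleGraph V} [Fintype V] {n : ℕ}

theorem hM : ∀ T : Set V, Am G T → ∃ m, Mn G T m := fun T hT => ex_mean T.toFinite hT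

theorem vl_zero : ∀ (m : ℕ) {Φ : (Fin (m + 1) → V) → (Fin (m + 2) → W G) → ℝ}
    {Ξ : (Fin (m + 1) → V) → (Fin (m + 1) → W G) → ℝ}, FA G Φ → FB G Φ Ξ → vl G Φ = 0
  | 0, Φ, Ξ, hA, hB => by
      rw [vl_step' hM hA]
      have : vl G (stp G Φ) = 0 := Finset.sum_eq_zero fun u _ => endB' hM hB u _
      rw [this, mul_zero]
  | m + 1, Φ, Ξ, hA, hB => by
      rw [vl_step' hM hA, vl_zero m (stepA' hM hA) (stepB' hM hB), mul_zero]

theorem faOf {m : ℕ} {a : (Fin m → V) → ℝ} (ha : IsCyc m G a) {α : (Fin (m + 1) → W G) → ℝ}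
    (hb : Bd α) (he : ∀ x g, α (fun i => gen G x * g i) = - α g)
    (hc : ∀ g : Fin (m + 2) → W G, cobd α g = 0) : FA G fun x g => a x * α g := by
  refine ⟨⟨?_, ?_, ?_⟩, ?_, ?_, ?_⟩
  · intro x i j hij g
    rw [ha.alt x i j hij]
    ring
  · intro x i g
    rw [he]
    ring
  · obtain ⟨C, hC⟩ := hb
    refine ⟨(∑ x, |a x|) * C, fun x g => ?_⟩
    rw [abs_mul]
    refine mul_le_mul ?_ (hC g) (abs_nonneg _) (Finset.sum_nonneg fun _ _ => abs_nonneg _)
    exact Finset.single_le_sum (f := fun x => |a x|) (fun _ _ => abs_nonneg _) (Finset.mem_univ x)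
  · intro x i g
    change ∑ y, a (Function.update x i y) * α g = 0
    rw [← Finset.sum_mul, ha.cyc, zero_mul]
  · intro x g
    have : cobd (fun g => a x * α g) g = a x * cobd α g := by
      unfold cobd
      rw [Finset.mul_sum]
      exact Finset.sum_congr rfl fun i _ => by ring
    change cobd (fun g => a x * α g) g = 0
    rw [this, hc, mul_zero]
  · intro x g h
    exact ha.supp x fun h0 => h (by rw [h0, zero_mul])

omit [Fintype V] in
/-- swap of the first and another entry -/
theorem cons_update_swap {m : ℕ} (x : Fin m → V) (i : Fin m) (y y' : V) :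
    (Fin.cons y (Function.update x i y') : Fin (m + 1) → V) ∘ Equiv.swap 0 i.succ =
      Fin.cons y' (Function.update x i y) := by
  funext k
  simp only [Function.comp_apply]
  refine Fin.cases ?_ (fun j => ?_) k
  · rw [Equiv.swap_apply_left]
    simp
  · by_cases hj : j = i
    · subst hj
      rw [Equiv.swap_apply_right]
      simp
    · rw [Equiv.swap_apply_of_ne_of_ne (Fin.succ_ne_zero j) (fun h => hj (Fin.succ_injective _ h))]
      simp [hj]

theorem fbOf {m : ℕ} {b : (Fin (m + 1) → V) → ℝ} (hal : Alt b)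
    (hs : ∀ w, b w ≠ 0 → Am G (Set.range w)) {α : (Fin (m + 1) → W G) → ℝ}
    (hb : Bd α) (he : ∀ x g, α (fun i => gen G x * g i) = - α g)
    (hc : ∀ g : Fin (m + 2) → W G, cobd α g = 0) :
    FB G (fun x g => bdy b x * α g) (fun x g => ∑ y : V, b (Fin.cons y x) *
      Kt G (Set.range (Fin.cons y x : Fin (m + 1) → V)) α g) := by
  have halt : ∀ (v : Fin (m + 1) → V) (i j : Fin (m + 1)), i ≠ j →
      b (v ∘ Equiv.swap i j) = - b v := by
    intro v i j hij
    exact hal v i j hij
  refine ⟨?_, ⟨?_, ?_, ?_⟩, ?_, ?_⟩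
  · intro x g
    have h1 : cobd (fun g => ∑ y : V, b (Fin.cons y x) *
        Kt G (Set.range (Fin.cons y x : Fin (m + 1) → V)) α g) g =
        ∑ y : V, b (Fin.cons y x) *
          cobd (Kt G (Set.range (Fin.cons y x : Fin (m + 1) → V)) α) g := by
      unfold cobd
      simp only [Finset.mul_sum]
      rw [Finset.sum_comm]
      exact Finset.sum_congr rfl fun y _ => Finset.sum_congr rfl fun i _ => by ring
    change bdy b x * α g = _
    rw [h1]
    unfold bdy
    rw [Finset.sum_mul]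
    refine Finset.sum_congr rfl fun y _ => ?_
    by_cases h0 : b (Fin.cons y x) = 0
    · rw [h0]; ring
    · have h2 := Kt_cobd' (ex_mean (Set.toFinite _) (hs _ h0)) α hb g
      rw [Kt_zero _ (cobd α) hc, add_zero] at h2
      rw [h2]
  · intro x i j hij g
    rw [← Finset.sum_neg_distrib]
    refine Finset.sum_congr rfl fun y _ => ?_
    rw [cons_swap, range_swap, halt _ _ _ (fun h => hij (Fin.succ_injective _ h))]
    ring
  · intro x i g
    rw [← Finset.sum_neg_distrib]
    refine Finset.sum_congr rfl fun y _ => ?_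
    rw [Kt_eqv _ (show x i ∈ Set.range (Fin.cons y x : Fin (m + 1) → V) from ⟨i.succ, by simp⟩) α hb
      (he (x i)) g]
    ring
  · obtain ⟨C, hC⟩ := hb
    refine ⟨∑ w, |b w| * C, fun x g => ?_⟩
    refine (Finset.abs_sum_le_sum_abs _ _).trans ?_
    have h1 : ∀ y : V, |b (Fin.cons y x) *
        Kt G (Set.range (Fin.cons y x : Fin (m + 1) → V)) α g| ≤ |b (Fin.cons y x)| * C := by
      intro y
      rw [abs_mul]
      exact mul_le_mul_of_nonneg_left (Kt_bd _ α C hC g) (abs_nonneg _)
    refine (Finset.sum_le_sum fun y _ => h1 y).trans ?_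
    have hC0 : 0 ≤ C := (abs_nonneg _).trans (hC fun _ => 1)
    have hinj : Function.Injective fun y : V => (Fin.cons y x : Fin (m + 1) → V) := by
      intro y y' h
      have := congrFun h 0
      simpa using this
    rw [← Finset.sum_image (f := fun w : Fin (m + 1) → V => |b w| * C)
      (g := fun y : V => (Fin.cons y x : Fin (m + 1) → V)) (fun y _ y' _ h => hinj h)]
    exact Finset.sum_le_sum_of_subset_of_nonneg (Finset.subset_univ _)
      fun w _ _ => mul_nonneg (abs_nonneg _) hC0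
  · intro x i g
    change ∑ y' : V, ∑ y : V, _ = 0
    set S := ∑ y' : V, ∑ y : V, b (Fin.cons y (Function.update x i y')) *
      Kt G (Set.range (Fin.cons y (Function.update x i y') : Fin (m + 1) → V)) α g with hS
    have h1 : S = - S := by
      conv_lhs => rw [hS, Finset.sum_comm]
      rw [hS, ← Finset.sum_neg_distrib]
      refine Finset.sum_congr rfl fun y _ => ?_
      rw [← Finset.sum_neg_distrib]
      refine Finset.sum_congr rfl fun y' _ => ?_
      rw [← cons_update_swap x i y' y, range_swap, halt _ _ _ (Fin.succ_ne_zero i).symm]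
      ring
    linarith
  · intro x g h
    obtain ⟨y, -, hy⟩ := Finset.exists_ne_zero_of_sum_ne_zero h
    have h0 : b (Fin.cons y x) ≠ 0 := fun h0 => hy (by rw [h0, zero_mul])
    refine (hs _ h0).mono ?_
    rintro _ ⟨i, rfl⟩
    exact ⟨i.succ, by simp⟩

/-- the pairing of a boundary in the amenable complex with a bounded cocycle is zero -/
theorem pair_zero {m : ℕ} {a : (Fin (m + 1) → V) → ℝ} (ha : IsCyc (m + 1) G a) (hB : AmBd G a)
    {α : (Fin (m + 2) → W G) → ℝ} (hb : Bd α) (he : ∀ x g, α (fun i => gen G x * g i) = - α g)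
    (hc : ∀ g : Fin (m + 3) → W G, cobd α g = 0) : pair (gen G) a α = 0 := by
  obtain ⟨b, h1, h2, h3⟩ := hB
  have hA := faOf ha hb he hc
  have hB := fbOf h1 h2 hb he hc
  rw [h3] at hB
  exact vl_zero m hA hB

/-- **The converse.** The class of a boundary in the amenable complex has seminorm zero. -/
theorem svol_zero {m : ℕ} {a : (Fin (m + 1) → V) → ℝ} (ha : IsCyc (m + 1) G a) (hB : AmBd G a)
    (H : Subgroup (W G)) (hi : H.index ≠ 0) (hε : H ≤ (par G).ker) : svol G (m + 1) a H = 0 := by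
  obtain ⟨c, c1, c2, c3, c4⟩ := ex_dual (m + 1) a H
  obtain ⟨α, a1, a2, a3, a4⟩ := ex_trans (m + 1) a H hi hε c c1 c2 c3
  rw [pair_zero ha hB a1 a2 a3, c4] at a4
  have : (2 : ℝ) ^ (m + 1) ≠ 0 := by positivity
  rcases mul_eq_zero.1 a4.symm with h | h
  · exact absurd h this
  · exact h

theorem push_self (a : (Fin n → V) → ℝ) : push (fun x : V => x) a = a := by
  funext v
  unfold push
  rw [Finset.sum_eq_single v]
  · exact if_pos rfl
  · intro w _ hw
    exact if_neg fun e => hw e
  · intro h; exact absurd (Finset.mem_univ _) h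

/-- linear growth of the volume -/
theorem svol_pos {m : ℕ} {a : (Fin (m + 1) → V) → ℝ} (ha : IsCyc (m + 1) G a) (hB : ¬ AmBd G a) :
    ∃ c : ℝ, 0 < c ∧ ∀ H : Subgroup (W G), H.index ≠ 0 → H ≤ (par G).ker →
      c * (H.index : ℝ) ≤ svol G (m + 1) a H := by
  obtain ⟨θ, h, hθ, hp⟩ := dual2 ha.alt hB
  obtain ⟨C, hC0, hC⟩ := A_quant (V₀ := V) (G₀ := G) θ h hθ
  have hp' : 0 < |∑ v, a v * θ v| := abs_pos.2 hp
  refine ⟨|∑ v, a v * θ v| / C, by positivity, fun H hi hε => ?_⟩
  have h1 := hC V G (fun x => x) (fun x y h => Or.inr h) a ha H hi hε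
  rw [push_self] at h1
  rw [div_mul_eq_mul_div, div_le_iff₀ hC0]
  linarith

/-- **The criterion.** -/
theorem svol_iff {m : ℕ} {a : (Fin (m + 1) → V) → ℝ} (ha : IsCyc (m + 1) G a)
    (H : Subgroup (W G)) (hi : H.index ≠ 0) (hε : H ≤ (par G).ker) :
    svol G (m + 1) a H = 0 ↔ AmBd G a := by
  refine ⟨fun h => ?_, fun h => svol_zero ha h H hi hε⟩
  by_contra hB
  obtain ⟨c, hc, h1⟩ := svol_pos ha hB
  have h2 := h1 H hi hε
  rw [h] at h2
  have h3 : (0 : ℝ) < H.index := by exact_mod_cast Nat.pos_of_ne_zero hi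
  have := mul_pos hc h3
  linarith

end Pool.Agent.J4.H51.AC
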