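import Pool.Agent.J4.H51.AC.Fin2

/-!
Invariant means on the special subgroups of the amenable sets: definitions.
-/

set_option autoImplicit false

open scoped Classical

namespace Pool.Agent.J4.H51.AC

open Pool.Agent.W907.SG (W cox chiW)
open Pool.Agent.Q134.SV Pool.Agent.N13.QC Pool.Agent.J4.H51.JC

/-- bounded functions -/
def Bd {X : Type} (f : X → ℝ) : Prop := ∃ C : ℝ, ∀ x, |f x| ≤ C

section

variable {V : Type} (G : SimpleGraph V)

/-- a mean on `W G` which is invariant under the left translations by the elements of `T` -/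
structure Mn (T : Set V) (m : (W G → ℝ) → ℝ) : Prop where
  add : ∀ f g : W G → ℝ, Bd f → Bd g → m (fun x => f x + g x) = m f + m g
  smul : ∀ (c : ℝ) (f : W G → ℝ), Bd f → m (fun x => c * f x) = c * m f
  one : m (fun _ => 1) = 1
  bd : ∀ (f : W G → ℝ) (C : ℝ), (∀ x, |f x| ≤ C) → |m f| ≤ C
  inv : ∀ s ∈ T, ∀ f : W G → ℝ, Bd f → m (fun x => f (gen G s * x)) = m f

/-- a mean which is invariant under `T`, if there is one, zero otherwise -/
noncomputable def mnT (T : Set V) : (W G → ℝ) → ℝ :=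
  if h : ∃ m, Mn G T m then h.choose else fun _ => 0

/-- the contraction: the mean over the first argument -/
noncomputable def Kt (T : Set V) {n : ℕ} (α : (Fin (n + 1) → W G) → ℝ) : (Fin n → W G) → ℝ :=
  fun g => mnT G T fun h => α (Fin.cons h g)

/-- one step: the contraction for the sets of the vertices of `(u, y)`, sum over `y` -/
noncomputable def stp [Fintype V] {m n : ℕ} (Φ : (Fin (m + 1) → V) → (Fin (n + 1) → W G) → ℝ) :
    (Fin m → V) → (Fin n → W G) → ℝ :=
  fun u g => ∑ y : V, Kt G (Set.range (Fin.snoc (α := fun _ => V) u y))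
    (Φ (Fin.snoc (α := fun _ => V) u y)) g

/-- alternating in the vertices, and it changes the sign under the generators of the vertices; bounded -/
structure F0 {m n : ℕ} (Φ : (Fin m → V) → (Fin n → W G) → ℝ) : Prop where
  alt : ∀ x (i j : Fin m), i ≠ j → ∀ g, Φ (x ∘ Equiv.swap i j) g = - Φ x g
  eqv : ∀ x (i : Fin m) g, Φ x (fun k => gen G (x i) * g k) = - Φ x g
  bdd : ∃ C : ℝ, ∀ x g, |Φ x g| ≤ C

/-- the cycle condition -/
def Cy [Fintype V] {m n : ℕ} (Φ : (Fin m → V) → (Fin n → W G) → ℝ) : Prop :=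
  ∀ x (i : Fin m) g, ∑ y : V, Φ (Function.update x i y) g = 0

/-- the families of cocycles, supported by the simplices of the flag complex -/
structure FA [Fintype V] {m : ℕ} (Φ : (Fin m → V) → (Fin (m + 1) → W G) → ℝ) : Prop where
  f0 : F0 G Φ
  cyc : Cy G Φ
  clo : ∀ x g, cobd (Φ x) g = 0
  sup : ∀ x g, Φ x g ≠ 0 → ∀ i j, i ≠ j → G.Adj (x i) (x j)

/-- the families of coboundaries, supported by amenable sets -/
structure FB [Fintype V] {m : ℕ} (Φ : (Fin m → V) → (Fin (m + 1) → W G) → ℝ)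
    (Ξ : (Fin m → V) → (Fin m → W G) → ℝ) : Prop where
  eq : ∀ x g, Φ x g = cobd (Ξ x) g
  f0 : F0 G Ξ
  cyc : Cy G Ξ
  sup : ∀ x g, Ξ x g ≠ 0 → Am G (Set.range x)

/-- the value: the sum of the values at the simplices `(1, x_1, x_1 x_2, …)` -/
noncomputable def vl [Fintype V] {m : ℕ} (Φ : (Fin m → V) → (Fin (m + 1) → W G) → ℝ) : ℝ :=
  ∑ x : Fin m → V, Φ x (Fin.partialProd (gen G ∘ x))

end

end Pool.Agent.J4.H51.AC
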