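import Pool.Agent.J4.H51.AC.Defs
import Pool.Agent.Q134.SE.Chi

/-!
Chains on the amenable sets: the operators `R z`, which replace a pair of non-adjacent vertices
`z, y` by `z - y`.
-/

set_option autoImplicit false

open scoped Classical

namespace Pool.Agent.J4.H51.AC

open Pool.Agent.W907.SG (W cox chiW)
open Pool.Agent.Q134.SV Pool.Agent.J4.H51.JC

/-- functions on tuples of all lengths -/
abbrev Tot (V : Type) : Type := (d : ℕ) → (Fin d → V) → ℝ

variable {V : Type} [Fintype V] (G : SimpleGraph V)

/-- `z` and `w` are in `T`, `z` has a non-neighbour `y ≠ z` in `T`, and `w` is `z` or `y` -/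
def Pr {V : Type} (G : SimpleGraph V) (T : Set V) (z w : V) : Prop :=
  z ∈ T ∧ ∃ y ∈ T, y ≠ z ∧ ¬ G.Adj z y ∧ (w = z ∨ w = y)

/-- the operator `R z`: a pair `z, y` of non-adjacent vertices is replaced by `z - y` -/
noncomputable def R (z : V) (c : Tot V) : Tot V := fun d u =>
  - ∑ w, if Pr G (insert w (Set.range u)) z w then c (d + 1) (Fin.cons w u) else 0

/-- the iterated operator, `x 0` is the outermost one -/
noncomputable def RR : (k : ℕ) → (Fin k → V) → Tot V → Tot V
  | 0, _, c => c
  | k + 1, x, c => R G (x 0) (RR k (Fin.tail x) c)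

/-- the pairing -/
noncomputable def pr (d : ℕ) (f c : (Fin d → V) → ℝ) : ℝ := (d.factorial : ℝ)⁻¹ * ∑ u, f u * c u

/-- the coboundary on the simplices -/
noncomputable def dl {V : Type} (G : SimpleGraph V) {d : ℕ} (f : (Fin d → V) → ℝ) : (Fin (d + 1) → V) → ℝ := fun w =>
  if (∀ i j, i ≠ j → G.Adj (w i) (w j)) then cobd f w else 0

/-- the boundary -/
noncomputable def bd (c : Tot V) : Tot V := fun d => bdy (c (d + 1))

/-- alternating chains on the amenable sets -/
structure AmC {V : Type} (G : SimpleGraph V) (c : Tot V) : Prop where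
  alt : ∀ d, Alt (c d)
  am : ∀ d u, c d u ≠ 0 → Am G (Set.range u)

/-- `x` is injective with values outside of `η` and `η ∪ x` is a simplex -/
def Gd {V : Type} (G : SimpleGraph V) (η : Finset V) {k : ℕ} (x : Fin k → V) : Prop :=
  Function.Injective x ∧ (∀ i, x i ∉ η) ∧ G.IsClique ((η : Set V) ∪ Set.range x)

end Pool.Agent.J4.H51.AC
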