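import Pool.Agent.J4.H51.AC.NuDefs

/-!
The recursive cone construction and the comparison of two chain maps.
-/

set_option autoImplicit false

open scoped Classical

namespace Pool.Agent.J4.H51.AC

open Pool.Agent.W907.SG (W cox chiW)
open Pool.Agent.Q134.SV Pool.Agent.J4.H51.JC

section F

variable {X V : Type}

/-- `cc` is the cone point -/
noncomputable def ph (cc : Finset X → V) : (k : ℕ) → (Fin k → X) → ((Fin k → V) → ℝ) → ℝ
  | 0, _, f => f (fun i => i.elim0)
  | k + 1, τ, f => ∑ i : Fin (k + 1), (-1 : ℝ) ^ (i : ℕ) * ph cc k (τ ∘ i.succAbove)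
      (fun u => f (Fin.cons (cc (Finset.univ.image τ)) u))

variable (cc : Finset X → V)

theorem ph_sub : ∀ (k : ℕ) (τ : Fin k → X) (f g : (Fin k → V) → ℝ),
    ph cc k τ (fun u => f u - g u) = ph cc k τ f - ph cc k τ g
  | 0, _, _, _ => rfl
  | k + 1, τ, f, g => by
      simp only [ph]
      rw [← Finset.sum_sub_distrib]
      refine Finset.sum_congr rfl fun i _ => ?_
      rw [ph_sub k]
      ring

theorem ph_cobd : ∀ (k : ℕ) (τ : Fin (k + 1) → X) (f : (Fin k → V) → ℝ),
    ph cc (k + 1) τ (cobd f) = cobd (fun σ => ph cc k σ f) τ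
  | 0, τ, f => by
      simp only [ph, cobd]
      refine Finset.sum_congr rfl fun i _ => ?_
      congr 1
      rw [Fin.sum_univ_one]
      simp only [Fin.val_zero, pow_zero, one_mul]
      congr 1
  | k + 1, τ, f => by
      have h1 : ∀ i : Fin (k + 2), ph cc (k + 1) (τ ∘ i.succAbove)
          (fun u => cobd f (Fin.cons (cc (Finset.univ.image τ)) u)) =
          ph cc (k + 1) (τ ∘ i.succAbove) f - cobd (fun σ => ph cc k σ
            (fun u => f (Fin.cons (cc (Finset.univ.image τ)) u))) (τ ∘ i.succAbove) := by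
        intro i
        rw [← ph_cobd k, ← ph_sub]
        congr 1
        funext u
        exact cobd_cons f _ u
      show ∑ i : Fin (k + 2), (-1 : ℝ) ^ (i : ℕ) * ph cc (k + 1) (τ ∘ i.succAbove)
          (fun u => cobd f (Fin.cons (cc (Finset.univ.image τ)) u)) = _
      rw [Finset.sum_congr rfl fun i _ => by rw [h1 i, mul_sub], Finset.sum_sub_distrib]
      have h2 := cobd_cobd k (fun σ => ph cc k σ
            (fun u => f (Fin.cons (cc (Finset.univ.image τ)) u))) τ
      have h3 : ∑ i : Fin (k + 2), (-1 : ℝ) ^ (i : ℕ) * cobd (fun σ => ph cc k σ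
            (fun u => f (Fin.cons (cc (Finset.univ.image τ)) u))) (τ ∘ i.succAbove) = 0 := h2
      rw [h3, sub_zero]
      rfl

lemma comp_succAbove_eq {k : ℕ} {τ : Fin (k + 1) → X} {i j : Fin (k + 1)} (hij : (j : ℕ) = i + 1)
    (h : τ i = τ j) : τ ∘ i.succAbove = τ ∘ j.succAbove := by
  funext l
  simp only [Function.comp]
  rcases lt_trichotomy (l : ℕ) (i : ℕ) with hl | hl | hl
  · rw [Fin.succAbove_of_castSucc_lt i l (by rw [Fin.lt_def]; exact hl),
      Fin.succAbove_of_castSucc_lt j l (by rw [Fin.lt_def]; simp; omega)]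
  · rw [Fin.succAbove_of_le_castSucc i l (by rw [Fin.le_def]; simp; omega),
      Fin.succAbove_of_castSucc_lt j l (by rw [Fin.lt_def]; simp; omega)]
    have e1 : l.succ = j := by ext; simp; omega
    have e2 : l.castSucc = i := by ext; simp; omega
    rw [e1, e2, h]
  · rw [Fin.succAbove_of_le_castSucc i l (by rw [Fin.le_def]; simp; omega),
      Fin.succAbove_of_le_castSucc j l (by rw [Fin.le_def]; simp; omega)]

theorem ph_adj : ∀ (k : ℕ) (τ : Fin k → X) (i j : Fin k), (j : ℕ) = i + 1 → τ i = τ j →
    ∀ (f : (Fin k → V) → ℝ), ph cc k τ f = 0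
  | 0, _, i, _, _, _, _ => i.elim0
  | k + 1, τ, i, j, hij, h, f => by
      simp only [ph]
      have hne : i ≠ j := by intro h0; rw [h0] at hij; omega
      have h1 : ∀ l ∈ (Finset.univ : Finset (Fin (k + 1))), l ∉ ({i, j} : Finset (Fin (k + 1))) →
          (-1 : ℝ) ^ (l : ℕ) * ph cc k (τ ∘ l.succAbove)
            (fun u => f (Fin.cons (cc (Finset.univ.image τ)) u)) = 0 := by
        intro l _ hl
        simp only [Finset.mem_insert, Finset.mem_singleton, not_or] at hl
        obtain ⟨i', hi'⟩ := Fin.exists_succAbove_eq (x := i) (y := l) (Ne.symm hl.1)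
        obtain ⟨j', hj'⟩ := Fin.exists_succAbove_eq (x := j) (y := l) (Ne.symm hl.2)
        have hv : (j' : ℕ) = i' + 1 := by
          have a1 := congrArg Fin.val hi'
          have a2 := congrArg Fin.val hj'
          have n1 : (l : ℕ) ≠ i := fun h0 => hl.1 (Fin.ext h0)
          have n2 : (l : ℕ) ≠ j := fun h0 => hl.2 (Fin.ext h0)
          rcases lt_or_ge (i'.castSucc) l with b1 | b1
          · rw [Fin.succAbove_of_castSucc_lt l i' b1] at a1
            rw [Fin.lt_def] at b1
            rcases lt_or_ge (j'.castSucc) l with b2 | b2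
            · rw [Fin.succAbove_of_castSucc_lt l j' b2] at a2
              simp at a1 a2; omega
            · rw [Fin.succAbove_of_le_castSucc l j' b2] at a2
              rw [Fin.le_def] at b2
              simp at a1 a2 b1 b2; omega
          · rw [Fin.succAbove_of_le_castSucc l i' b1] at a1
            rw [Fin.le_def] at b1
            rcases lt_or_ge (j'.castSucc) l with b2 | b2
            · rw [Fin.succAbove_of_castSucc_lt l j' b2] at a2
              rw [Fin.lt_def] at b2
              simp at a1 a2 b1 b2; omega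
            · rw [Fin.succAbove_of_le_castSucc l j' b2] at a2
              simp at a1 a2; omega
        rw [ph_adj k (τ ∘ l.succAbove) i' j' hv (by
          simp only [Function.comp]; rw [hi', hj', h]), mul_zero]
      rw [← Finset.sum_subset (Finset.subset_univ ({i, j} : Finset (Fin (k + 1)))) h1,
        Finset.sum_pair hne, comp_succAbove_eq hij h, hij, pow_succ]
      ring

/-- `ph` sees only the values of `f` at the tuples `(cc S_0, cc S_1, ...)` with `S_0 ⊇ S_1 ⊇ ...` -/
theorem ph_zero : ∀ (k : ℕ) (τ : Fin k → X) (f : (Fin k → V) → ℝ),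
    (∀ S : Fin k → Finset X, (∀ i j, i ≤ j → S j ⊆ S i) → (∀ i, (S i).Nonempty) →
      (∀ i, S i ⊆ Finset.univ.image τ) → f (fun i => cc (S i)) = 0) → ph cc k τ f = 0
  | 0, τ, f, hf => by
      have := hf (fun i => i.elim0) (fun i => i.elim0) (fun i => i.elim0) (fun i => i.elim0)
      simp only [ph]
      rw [← this]
      congr 1
      funext i
      exact i.elim0
  | k + 1, τ, f, hf => by
      simp only [ph]
      refine Finset.sum_eq_zero fun l _ => ?_
      rw [ph_zero k (τ ∘ l.succAbove), mul_zero]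
      intro S h1 h2 h3
      have hsub : ∀ i, S i ⊆ Finset.univ.image τ := by
        intro i x hx
        obtain ⟨y, -, hy⟩ := Finset.mem_image.1 (h3 i hx)
        exact Finset.mem_image.2 ⟨l.succAbove y, Finset.mem_univ _, hy⟩
      have h4 := hf (Fin.cons (Finset.univ.image τ) S) (by
        intro i j hij
        refine Fin.cases ?_ (fun j' => ?_) j (motive := fun j => i ≤ j →
          (Fin.cons (Finset.univ.image τ) S : Fin (k + 1) → Finset X) j ⊆
          (Fin.cons (Finset.univ.image τ) S : Fin (k + 1) → Finset X) i) hij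
        · intro h0
          have : i = 0 := le_antisymm h0 (Fin.zero_le _)
          rw [this]
        · intro h0
          refine Fin.cases ?_ (fun i' => ?_) i (motive := fun i => i ≤ j'.succ →
            (Fin.cons (Finset.univ.image τ) S : Fin (k + 1) → Finset X) j'.succ ⊆
            (Fin.cons (Finset.univ.image τ) S : Fin (k + 1) → Finset X) i) h0
          · intro _
            simp only [Fin.cons_succ, Fin.cons_zero]
            exact hsub j'
          · intro h00
            simp only [Fin.cons_succ]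
            exact h1 i' j' (Fin.succ_le_succ_iff.1 h00)) (by
        intro i
        refine Fin.cases ?_ (fun i' => ?_) i
        · simp only [Fin.cons_zero]
          exact ⟨τ 0, Finset.mem_image_of_mem _ (Finset.mem_univ _)⟩
        · simp only [Fin.cons_succ]
          exact h2 i') (by
        intro i
        refine Fin.cases ?_ (fun i' => ?_) i
        · simp only [Fin.cons_zero]
          exact Finset.Subset.refl _
        · simp only [Fin.cons_succ]
          exact hsub i')
      rw [← h4]
      congr 1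
      funext i
      refine Fin.cases ?_ (fun i' => ?_) i
      · simp
      · simp

/-- the homotopy -/
noncomputable def HHd (φ : (k : ℕ) → (Fin k → X) → ((Fin k → V) → ℝ) → ℝ) :
    (k : ℕ) → (Fin k → X) → ((Fin (k + 1) → V) → ℝ) → ℝ
  | 0, _, _ => 0
  | k + 1, τ, g =>
      ph cc (k + 1) τ (fun u => g (Fin.cons (cc (Finset.univ.image τ)) u)) -
        φ (k + 1) τ (fun u => g (Fin.cons (cc (Finset.univ.image τ)) u)) -
        ∑ i : Fin (k + 1), (-1 : ℝ) ^ (i : ℕ) * HHd φ k (τ ∘ i.succAbove)
          (fun u => g (Fin.cons (cc (Finset.univ.image τ)) u))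

theorem HHd_sub (φ : (k : ℕ) → (Fin k → X) → ((Fin k → V) → ℝ) → ℝ)
    (hsub : ∀ k τ f g, φ k τ (fun u => f u - g u) = φ k τ f - φ k τ g) :
    ∀ (k : ℕ) (τ : Fin k → X) (f g : (Fin (k + 1) → V) → ℝ),
      HHd cc φ k τ (fun u => f u - g u) = HHd cc φ k τ f - HHd cc φ k τ g
  | 0, _, _, _ => by simp [HHd]
  | k + 1, τ, f, g => by
      simp only [HHd]
      rw [ph_sub cc (k + 1) τ (fun u => f (Fin.cons (cc (Finset.univ.image τ)) u))
        (fun u => g (Fin.cons (cc (Finset.univ.image τ)) u)),
        hsub (k + 1) τ (fun u => f (Fin.cons (cc (Finset.univ.image τ)) u))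
        (fun u => g (Fin.cons (cc (Finset.univ.image τ)) u))]
      have h1 : ∀ i : Fin (k + 1), HHd cc φ k (τ ∘ i.succAbove)
          (fun u => f (Fin.cons (cc (Finset.univ.image τ)) u) -
            g (Fin.cons (cc (Finset.univ.image τ)) u)) =
          HHd cc φ k (τ ∘ i.succAbove) (fun u => f (Fin.cons (cc (Finset.univ.image τ)) u)) -
          HHd cc φ k (τ ∘ i.succAbove) (fun u => g (Fin.cons (cc (Finset.univ.image τ)) u)) :=
        fun i => HHd_sub φ hsub k (τ ∘ i.succAbove)
          (fun u => f (Fin.cons (cc (Finset.univ.image τ)) u))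
          (fun u => g (Fin.cons (cc (Finset.univ.image τ)) u))
      rw [Finset.sum_congr rfl fun i _ => by rw [h1 i, mul_sub], Finset.sum_sub_distrib]
      ring

/-- comparison with another chain map `φ` (`HH` does not depend on `C`, `K`) -/
theorem hom (φ : (k : ℕ) → (Fin k → X) → ((Fin k → V) → ℝ) → ℝ)
    (h0 : ∀ τ f, φ 0 τ f = f (fun i => i.elim0))
    (hsub : ∀ k τ f g, φ k τ (fun u => f u - g u) = φ k τ f - φ k τ g) :
    ∃ HH : (k : ℕ) → (Fin k → X) → ((Fin (k + 1) → V) → ℝ) → ℝ, ∀ (C : Set X) (K : Set V),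
      (∀ k (τ : Fin (k + 1) → X) (f : (Fin k → V) → ℝ), (∀ i, τ i ∈ C) →
        φ (k + 1) τ (cobd f) = cobd (fun σ => φ k σ f) τ) →
      (∀ S : Finset X, S.Nonempty → (∀ x ∈ S, x ∈ C) → cc S ∈ K) →
      (∀ k (τ : Fin k → X) f, (∀ i, τ i ∈ C) → (∀ u, (∀ i, u i ∈ K) → f u = 0) → φ k τ f = 0) →
      (∀ k (τ : Fin k → X) f, (∀ i, τ i ∈ C) → (∀ u, (∀ i, u i ∈ K) → f u = 0) → HH k τ f = 0) ∧
      ∀ k (τ : Fin (k + 1) → X) (f : (Fin (k + 1) → V) → ℝ), (∀ i, τ i ∈ C) →
        ph cc (k + 1) τ f = φ (k + 1) τ f + HH (k + 1) τ (cobd f) +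
          cobd (fun σ => HH k σ f) τ := by
  refine ⟨HHd cc φ, fun C K hφ hcc hK => ⟨?_, ?_⟩⟩
  · -- locality
    intro k
    induction k with
    | zero => intro τ f _ _; rfl
    | succ k ih =>
      intro τ f hτ hf
      have hc : cc (Finset.univ.image τ) ∈ K := by
        refine hcc _ ⟨τ 0, Finset.mem_image_of_mem _ (Finset.mem_univ _)⟩ ?_
        intro x hx
        obtain ⟨i, -, rfl⟩ := Finset.mem_image.1 hx
        exact hτ i
      have hfc : ∀ u : Fin (k + 1) → V, (∀ i, u i ∈ K) →
          f (Fin.cons (cc (Finset.univ.image τ)) u) = 0 := by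
        intro u hu
        refine hf _ fun i => ?_
        refine Fin.cases ?_ (fun i' => ?_) i
        · simpa using hc
        · simpa using hu i'
      simp only [HHd]
      rw [ph_zero cc (k + 1) τ, hK (k + 1) τ _ hτ hfc, Finset.sum_eq_zero, sub_zero, sub_zero]
      · intro i _
        rw [ih (τ ∘ i.succAbove) _ (fun j => hτ _) hfc, mul_zero]
      · intro S _ h2 h3
        refine hfc _ fun i => hcc _ (h2 i) fun x hx => ?_
        obtain ⟨j, -, rfl⟩ := Finset.mem_image.1 (h3 i hx)
        exact hτ j
  · -- the identity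
    intro k
    induction k with
    | zero =>
      intro τ f hτ
      have e1 : HHd cc φ 1 τ (cobd f) = ph cc 1 τ (fun u => f u - cobd (fun u' =>
          f (Fin.cons (cc (Finset.univ.image τ)) u')) u) - φ 1 τ (fun u => f u - cobd (fun u' =>
          f (Fin.cons (cc (Finset.univ.image τ)) u')) u) := by
        have h1 : (fun u : Fin 1 → V => cobd f (Fin.cons (cc (Finset.univ.image τ)) u)) =
            fun u => f u - cobd (fun u' => f (Fin.cons (cc (Finset.univ.image τ)) u')) u := by
          funext u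
          exact cobd_cons f _ u
        simp only [HHd]
        rw [h1]
        simp
      rw [e1, ph_sub, hsub, ph_cobd, hφ 0 τ _ hτ]
      have e2 : (fun σ : Fin 0 → X => φ 0 σ (fun u' =>
          f (Fin.cons (cc (Finset.univ.image τ)) u'))) = fun σ => ph cc 0 σ (fun u' =>
          f (Fin.cons (cc (Finset.univ.image τ)) u')) := by
        funext σ
        rw [h0]; rfl
      have e3 : cobd (fun σ : Fin 0 → X => HHd cc φ 0 σ f) τ = 0 := by
        simp [cobd, HHd]
      rw [e2, e3]
      ring
    | succ k ih =>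
      intro τ f hτ
      set c := cc (Finset.univ.image τ) with hc
      have h1 : (fun u : Fin (k + 2) → V => cobd f (Fin.cons c u)) =
          fun u => f u - cobd (fun u' => f (Fin.cons c u')) u := by
        funext u
        exact cobd_cons f _ u
      have e1 : HHd cc φ (k + 2) τ (cobd f) =
          ph cc (k + 2) τ (fun u => f u - cobd (fun u' => f (Fin.cons c u')) u) -
          φ (k + 2) τ (fun u => f u - cobd (fun u' => f (Fin.cons c u')) u) -
          ∑ i : Fin (k + 2), (-1 : ℝ) ^ (i : ℕ) * HHd cc φ (k + 1) (τ ∘ i.succAbove)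
            (fun u => f u - cobd (fun u' => f (Fin.cons c u')) u) := by
        have h2 : HHd cc φ (k + 2) τ (cobd f) =
          ph cc (k + 2) τ (fun u => cobd f (Fin.cons c u)) -
          φ (k + 2) τ (fun u => cobd f (Fin.cons c u)) -
          ∑ i : Fin (k + 2), (-1 : ℝ) ^ (i : ℕ) * HHd cc φ (k + 1) (τ ∘ i.succAbove)
            (fun u => cobd f (Fin.cons c u)) := rfl
        rw [h2, h1]
      rw [e1, ph_sub, hsub, ph_cobd, hφ (k + 1) τ _ hτ]
      have e2 : ∀ i : Fin (k + 2), HHd cc φ (k + 1) (τ ∘ i.succAbove)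
          (fun u => f u - cobd (fun u' => f (Fin.cons c u')) u) =
          HHd cc φ (k + 1) (τ ∘ i.succAbove) f - (ph cc (k + 1) (τ ∘ i.succAbove)
            (fun u' => f (Fin.cons c u')) - φ (k + 1) (τ ∘ i.succAbove)
            (fun u' => f (Fin.cons c u')) - cobd (fun σ => HHd cc φ k σ
              (fun u' => f (Fin.cons c u'))) (τ ∘ i.succAbove)) := by
        intro i
        rw [HHd_sub cc φ hsub (k + 1) (τ ∘ i.succAbove) f (cobd (fun u' => f (Fin.cons c u')))]
        have := ih (τ ∘ i.succAbove) (fun u' => f (Fin.cons c u')) (fun j => hτ _)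
        rw [this]
        ring
      have e3 : ∑ i : Fin (k + 2), (-1 : ℝ) ^ (i : ℕ) * HHd cc φ (k + 1) (τ ∘ i.succAbove)
            (fun u => f u - cobd (fun u' => f (Fin.cons c u')) u) =
          cobd (fun σ => HHd cc φ (k + 1) σ f) τ - (cobd (fun σ => ph cc (k + 1) σ
            (fun u' => f (Fin.cons c u'))) τ - cobd (fun σ => φ (k + 1) σ
            (fun u' => f (Fin.cons c u'))) τ - cobd (cobd (fun σ => HHd cc φ k σ
              (fun u' => f (Fin.cons c u')))) τ) := by
        have h3 : ∀ G : (Fin (k + 1) → X) → ℝ, cobd G τ =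
          ∑ i : Fin (k + 2), (-1 : ℝ) ^ (i : ℕ) * G (τ ∘ i.succAbove) := fun G => rfl
        rw [h3, h3, h3, h3, ← Finset.sum_sub_distrib, ← Finset.sum_sub_distrib,
          ← Finset.sum_sub_distrib]
        refine Finset.sum_congr rfl fun i _ => ?_
        rw [e2 i]
        ring
      rw [e3, cobd_cobd]
      ring

end F

end Pool.Agent.J4.H51.AC
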