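import Pool.Agent.J4.H51.AC.AmMap
import Pool.Agent.J4.H51.AC.Ph

/-!
The local term of an alternating function which is a cocycle on the amenable sets.
-/

set_option autoImplicit false

open scoped Classical

namespace Pool.Agent.J4.H51.AC

open Pool.Agent.W907.SG (W cox)
open Pool.Agent.Q134.SV Pool.Agent.J4.H51.JC

variable {V : Type} [Fintype V] {G : SimpleGraph V}

/-- the barycentric map -/
noncomputable def phb (k : ℕ) (τ : Fin k → Finset V) (f : (Fin k → V) → ℝ) : ℝ :=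
  ∑ v : Fin k → V, (∏ i, bary (τ i) (v i)) * f v

theorem phb_cobd (k : ℕ) (τ : Fin (k + 1) → Finset V) (f : (Fin k → V) → ℝ)
    (hτ : ∀ i, (τ i).Nonempty) : phb (k + 1) τ (cobd f) = cobd (fun σ => phb k σ f) τ := by
  unfold phb
  unfold cobd
  simp only [Finset.mul_sum]
  rw [Finset.sum_comm]
  refine Finset.sum_congr rfl fun l _ => ?_
  rw [← Equiv.sum_comp (Fin.insertNthEquiv (fun _ : Fin (k + 1) => V) l),
    Fintype.sum_prod_type, Finset.sum_comm]
  refine Finset.sum_congr rfl fun u _ => ?_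
  have h1 : ∀ x : V, (∏ i, bary (τ i) ((Fin.insertNthEquiv (fun _ : Fin (k + 1) => V) l) (x, u) i)) *
      ((-1 : ℝ) ^ (l : ℕ) * f ((Fin.insertNthEquiv (fun _ : Fin (k + 1) => V) l) (x, u) ∘
        l.succAbove)) = bary (τ l) x * ((∏ i, bary (τ (l.succAbove i)) (u i)) *
        ((-1 : ℝ) ^ (l : ℕ) * f u)) := by
    intro x
    rw [Fin.prod_univ_succAbove _ l]
    have e1 : (Fin.insertNthEquiv (fun _ : Fin (k + 1) => V) l) (x, u) ∘ l.succAbove = u := by
      funext i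
      simp [Fin.insertNthEquiv]
    rw [e1]
    simp only [Fin.insertNthEquiv, Equiv.coe_fn_mk, Fin.insertNth_apply_same,
      Fin.insertNth_apply_succAbove]
    ring
  rw [Finset.sum_congr rfl fun x _ => h1 x, ← Finset.sum_mul, sum_bary (hτ l), one_mul]
  simp only [Function.comp_apply]
  ring

omit [Fintype V] in
theorem am_of_cq {K : Set V} (hK : Cq G K) {k : ℕ} {u : Fin k → V} (hu : ∀ i, u i ∈ K) :
    Am G (Set.range u) := by
  rintro _ ⟨i, rfl⟩ _ ⟨j, rfl⟩ _ ⟨l, rfl⟩ h1 _ h3 _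
  exact absurd (hK _ (hu i) _ (hu j) h1) h3

/-- the local term -/
theorem ex_Psi {m : ℕ} (θ : (Fin (m + 1) → V) → ℝ) (h : Alt θ)
    (hθ : ∀ w : Fin (m + 2) → V, Am G (Set.range w) → cobd θ w = 0) :
    ∃ Ψ : (Fin (m + 1) → Finset V) → ℝ, OK G Ψ ∧ ∃ e : (Fin m → Finset V) → ℝ,
      ∀ τ : Fin (m + 1) → Finset V, (∀ i, (τ i).Nonempty) → Cq G {x | ∃ i, x ∈ τ i} →
        Ψ τ = evA θ h (bary ∘ τ) + cobd e τ := by
  rcases isEmpty_or_nonempty V with hV | hV
  · refine ⟨0, ⟨fun _ _ _ _ _ => rfl, fun _ _ _ => rfl, fun τ hτ => ?_, fun τ hτ => ?_⟩, 0,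
      fun τ hτ => ?_⟩
    · obtain ⟨x, -⟩ := hτ 0; exact hV.elim x
    · obtain ⟨x, -⟩ := hτ 0; exact hV.elim x
    · obtain ⟨x, -⟩ := hτ 0; exact hV.elim x
  let Ψ : (Fin (m + 1) → Finset V) → ℝ := fun τ =>
    if ∃ i, τ i = ∅ then 0 else ph (cS G) (m + 1) τ θ
  have hΨ : ∀ τ : Fin (m + 1) → Finset V, (∀ i, (τ i).Nonempty) → Ψ τ = ph (cS G) (m + 1) τ θ := by
    intro τ hτ
    simp only [Ψ]
    rw [if_neg]
    rintro ⟨i, hi⟩
    exact (hτ i).ne_empty hi
  have hcob : ∀ τ : Fin (m + 2) → Finset V, (∀ i, (τ i).Nonempty) →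
      cobd Ψ τ = ph (cS G) (m + 2) τ (cobd θ) := by
    intro τ hτ
    rw [ph_cobd]
    unfold cobd
    refine Finset.sum_congr rfl fun k _ => ?_
    rw [hΨ (τ ∘ k.succAbove) fun i => hτ _]
  refine ⟨Ψ, ⟨fun τ i j hij he => ?_, fun τ i hi => ?_, fun τ hτ hC hM => ?_, fun τ hτ hC => ?_⟩, ?_⟩
  · simp only [Ψ]
    split_ifs
    · rfl
    · exact ph_adj _ _ τ i j hij he θ
  · simp only [Ψ]
    rw [if_pos ⟨i, hi⟩]
  · rw [hcob τ hτ]
    refine ph_zero _ _ _ _ fun S hS hne hsub => ?_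
    have hmem : ∀ i, ∀ D ∈ S i, ∃ l, τ l = D := fun i D hD => by
      obtain ⟨l, -, e⟩ := (@Finset.mem_image _ _ (_) _ _ _).1 (hsub i hD)
      exact ⟨l, e⟩
    refine hθ _ (am_chain S hS hne (fun i => hM.mono fun D hD => ?_) fun i D hD => ?_)
    · obtain ⟨l, e⟩ := hmem i D hD
      exact Finset.mem_image.2 ⟨l, Finset.mem_univ _, e⟩
    · obtain ⟨l, rfl⟩ := hmem i D hD
      exact hC l
  · rw [hcob τ hτ]
    refine ph_zero _ _ _ _ fun S hS hne hsub => ?_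
    have hmem : ∀ i, ∀ D ∈ S i, ∃ l, τ l = D := fun i D hD => by
      obtain ⟨l, -, e⟩ := (@Finset.mem_image _ _ (_) _ _ _).1 (hsub i hD)
      exact ⟨l, e⟩
    refine hθ _ (am_of_cq hC fun i => ?_)
    obtain ⟨D, hD, hx⟩ := cS_in (G := G) (hne i) (fun D hD => by
      obtain ⟨l, rfl⟩ := hmem i D hD
      exact hτ l)
    obtain ⟨l, rfl⟩ := hmem i D hD
    exact ⟨l, hx⟩
  · obtain ⟨HH, hHH⟩ := hom (cS G) (phb (V := V)) (by
      intro τ f
      unfold phb
      rw [Fintype.sum_unique]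
      simp only [Finset.univ_eq_empty, Finset.prod_empty, one_mul]
      congr 1) (by
      intro k τ f g
      unfold phb
      rw [← Finset.sum_sub_distrib]
      exact Finset.sum_congr rfl fun v _ => by ring)
    refine ⟨fun σ => HH m σ θ, fun τ hτ hC => ?_⟩
    obtain ⟨h1, h2⟩ := hHH {D | D.Nonempty ∧ (D : Set V) ⊆ {x | ∃ i, x ∈ τ i}} {x | ∃ i, x ∈ τ i}
      (fun k τ f hτ' => phb_cobd k τ f fun i => (hτ' i).1)
      (by
        intro S hS hSC
        obtain ⟨D, hD, hx⟩ := cS_in (G := G) hS (fun D hD => (hSC D hD).1)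
        exact (hSC D hD).2 hx)
      (by
        intro k σ f hσ hf
        unfold phb
        refine Finset.sum_eq_zero fun v _ => ?_
        by_cases h0 : ∏ i, bary (σ i) (v i) = 0
        · rw [h0, zero_mul]
        · rw [hf v, mul_zero]
          intro i
          refine (hσ i).2 (bary_ne fun h1 => h0 (Finset.prod_eq_zero (Finset.mem_univ i) h1)))
    have hτC : ∀ i, τ i ∈ {D : Finset V | D.Nonempty ∧ (D : Set V) ⊆ {x | ∃ i, x ∈ τ i}} :=
      fun i => ⟨hτ i, fun x hx => ⟨i, hx⟩⟩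
    rw [hΨ τ hτ, h2 m τ θ hτC, h1 (m + 1) τ (cobd θ) hτC fun u hu => hθ u (am_of_cq hC hu),
      add_zero, evA_apply]
    rfl

end Pool.Agent.J4.H51.AC
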