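import Pool.Agent.J4.H51.AC.SpDefs

/-!
The local term of an alternating function which is a cocycle on the amenable sets contained in a set `K`.
-/

set_option autoImplicit false

open scoped Classical

namespace Pool.Agent.J4.H51.AC

open Pool.Agent.W907.SG (W cox)
open Pool.Agent.Q134.SV Pool.Agent.J4.H51.JC

variable {V : Type} [Fintype V] {G : SimpleGraph V}

/-- the local term for sets in `K` -/
theorem ex_PsiK {m : ℕ} (K : Set V) (θ : (Fin (m + 1) → V) → ℝ) (h : Alt θ)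
    (hθ : ∀ w : Fin (m + 2) → V, (∀ i, w i ∈ K) → Am G (Set.range w) → cobd θ w = 0) :
    ∃ Ψ : (Fin (m + 1) → Finset V) → ℝ, OKK G K Ψ ∧ ∃ e : (Fin m → Finset V) → ℝ,
      ∀ τ : Fin (m + 1) → Finset V, (∀ i, (τ i).Nonempty) → (∀ i, (τ i : Set V) ⊆ K) →
        Cq G {x | ∃ i, x ∈ τ i} → Ψ τ = evA θ h (bary ∘ τ) + cobd e τ := by
  rcases isEmpty_or_nonempty V with hV | hV
  · refine ⟨0, ⟨fun _ _ _ _ _ => rfl, fun _ _ _ => rfl, fun τ hτ => ?_, fun τ hτ => ?_⟩, 0,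
      fun τ hτ => ?_⟩
    · obtain ⟨x, -⟩ := hτ 0; exact hV.elim x
    · obtain ⟨x, -⟩ := hτ 0; exact hV.elim x
    · obtain ⟨x, -⟩ := hτ 0; exact hV.elim x
  let Ψ : (Fin (m + 1) → Finset V) → ℝ := fun τ =>
    if ∃ i, τ i = ∅ then 0 else ph (cS G) (m + 1) τ θ
  have hΨ : ∀ τ : Fin (m + 1) → Finset V, (∀ i, (τ i).Nonempty) → Ψ τ = ph (cS G) (m + 1) τ θ := by
    intro τ hτ
    simp only [Ψ]
    rw [if_neg]
    rintro ⟨i, hi⟩
    exact (hτ i).ne_empty hi
  have hcob : ∀ τ : Fin (m + 2) → Finset V, (∀ i, (τ i).Nonempty) →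
      cobd Ψ τ = ph (cS G) (m + 2) τ (cobd θ) := by
    intro τ hτ
    rw [ph_cobd]
    unfold cobd
    refine Finset.sum_congr rfl fun k _ => ?_
    rw [hΨ (τ ∘ k.succAbove) fun i => hτ _]
  refine ⟨Ψ, ⟨fun τ i j hij he => ?_, fun τ i hi => ?_, fun τ hτ hC hK hM => ?_,
    fun τ hτ hK hC => ?_⟩, ?_⟩
  · simp only [Ψ]
    split_ifs
    · rfl
    · exact ph_adj _ _ τ i j hij he θ
  · simp only [Ψ]
    rw [if_pos ⟨i, hi⟩]
  · rw [hcob τ hτ]
    refine ph_zero _ _ _ _ fun S hS hne hsub => ?_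
    have hmem : ∀ i, ∀ D ∈ S i, ∃ l, τ l = D := fun i D hD => by
      obtain ⟨l, -, e⟩ := (@Finset.mem_image _ _ (_) _ _ _).1 (hsub i hD)
      exact ⟨l, e⟩
    refine hθ _ (fun i => ?_) (am_chain S hS hne (fun i => hM.mono fun D hD => ?_)
      fun i D hD => ?_)
    · obtain ⟨D, hD, hx⟩ := cS_in (G := G) (hne i) (fun D hD => by
        obtain ⟨l, rfl⟩ := hmem i D hD
        exact hτ l)
      obtain ⟨l, rfl⟩ := hmem i D hD
      exact hK l hx
    · obtain ⟨l, e⟩ := hmem i D hD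
      exact Finset.mem_image.2 ⟨l, Finset.mem_univ _, e⟩
    · obtain ⟨l, rfl⟩ := hmem i D hD
      exact hC l
  · rw [hcob τ hτ]
    refine ph_zero _ _ _ _ fun S hS hne hsub => ?_
    have hmem : ∀ i, ∀ D ∈ S i, ∃ l, τ l = D := fun i D hD => by
      obtain ⟨l, -, e⟩ := (@Finset.mem_image _ _ (_) _ _ _).1 (hsub i hD)
      exact ⟨l, e⟩
    have hin : ∀ i, ∃ l, cS G (S i) ∈ τ l := fun i => by
      obtain ⟨D, hD, hx⟩ := cS_in (G := G) (hne i) (fun D hD => by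
        obtain ⟨l, rfl⟩ := hmem i D hD
        exact hτ l)
      obtain ⟨l, rfl⟩ := hmem i D hD
      exact ⟨l, hx⟩
    refine hθ _ (fun i => ?_) (am_of_cq hC fun i => hin i)
    obtain ⟨l, hl⟩ := hin i
    exact hK l hl
  · obtain ⟨HH, hHH⟩ := hom (cS G) (phb (V := V)) (by
      intro τ f
      unfold phb
      rw [Fintype.sum_unique]
      simp only [Finset.univ_eq_empty, Finset.prod_empty, one_mul]
      congr 1) (by
      intro k τ f g
      unfold phb
      rw [← Finset.sum_sub_distrib]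
      exact Finset.sum_congr rfl fun v _ => by ring)
    refine ⟨fun σ => HH m σ θ, fun τ hτ hK hC => ?_⟩
    obtain ⟨h1, h2⟩ := hHH {D | D.Nonempty ∧ (D : Set V) ⊆ {x | ∃ i, x ∈ τ i}} {x | ∃ i, x ∈ τ i}
      (fun k τ f hτ' => phb_cobd k τ f fun i => (hτ' i).1)
      (by
        intro S hS hSC
        obtain ⟨D, hD, hx⟩ := cS_in (G := G) hS (fun D hD => (hSC D hD).1)
        exact (hSC D hD).2 hx)
      (by
        intro k σ f hσ hf
        unfold phb
        refine Finset.sum_eq_zero fun v _ => ?_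
        by_cases h0 : ∏ i, bary (σ i) (v i) = 0
        · rw [h0, zero_mul]
        · rw [hf v, mul_zero]
          intro i
          refine (hσ i).2 (bary_ne fun h1 => h0 (Finset.prod_eq_zero (Finset.mem_univ i) h1)))
    have hτC : ∀ i, τ i ∈ {D : Finset V | D.Nonempty ∧ (D : Set V) ⊆ {x | ∃ i, x ∈ τ i}} :=
      fun i => ⟨hτ i, fun x hx => ⟨i, hx⟩⟩
    rw [hΨ τ hτ, h2 m τ θ hτC, h1 (m + 1) τ (cobd θ) hτC fun u hu => hθ u (fun i => by
      obtain ⟨l, hl⟩ := hu i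
      exact hK l hl) (am_of_cq hC hu), add_zero, evA_apply]
    rfl

end Pool.Agent.J4.H51.AC
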