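import Pool.Agent.J4.H51.AC.NuDefs

/-!
The operators `R z` on the chains of the amenable complex: they anticommute with each other and
with the boundary.
-/

set_option autoImplicit false

open scoped Classical

namespace Pool.Agent.J4.H51.AC

open Pool.Agent.W907.SG (W cox chiW)
open Pool.Agent.Q134.SV Pool.Agent.J4.H51.JC

section A0

variable {V : Type} {G : SimpleGraph V}

theorem Am.mono {S T : Set V} (h : Am G T) (hST : S ⊆ T) : Am G S :=
  fun x hx y hy z hz => h x (hST hx) y (hST hy) z (hST hz)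

theorem Pr.mono {S T : Set V} (hST : S ⊆ T) {z w : V} (h : Pr G S z w) : Pr G T z w := by
  obtain ⟨h1, y, h2, h3⟩ := h
  exact ⟨hST h1, y, hST h2, h3⟩

/-- the difference of the two weights -/
theorem Pr_split {S : Set V} {w x : V} (hT : Am G (insert w (insert x S))) (hwx : w ≠ x)
    (hx : x ∉ S) (z : V) :
    Pr G (insert w (insert x S)) z w ↔ (Pr G (insert w S) z w ∨ (¬ G.Adj w x ∧ (z = w ∨ z = x))) := by
  constructor
  · rintro ⟨hz, y, hy, hyz, hn, rfl | rfl⟩
    · -- w = z
      rcases hy with rfl | rfl | hy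
      · exact absurd rfl hyz
      · exact Or.inr ⟨hn, Or.inl rfl⟩
      · exact Or.inl ⟨Or.inl rfl, y, Or.inr hy, hyz, hn, Or.inl rfl⟩
    · -- w = y
      rcases hz with rfl | rfl | hz
      · exact absurd rfl hyz
      · exact Or.inr ⟨fun h => hn h.symm, Or.inr rfl⟩
      · exact Or.inl ⟨Or.inr hz, w, Or.inl rfl, hyz, hn, Or.inr rfl⟩
  · rintro (h | ⟨hn, rfl | rfl⟩)
    · exact h.mono (Set.insert_subset_insert (Set.subset_insert _ _))
    · exact ⟨Or.inl rfl, x, Or.inr (Or.inl rfl), hwx.symm, hn, Or.inl rfl⟩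
    · exact ⟨Or.inr (Or.inl rfl), w, Or.inl rfl, hwx, fun h => hn h.symm, Or.inr rfl⟩

/-- `w` has a non-neighbour in `S` -/
theorem Pr_out {S : Set V} {w z : V} (h : Pr G (insert w S) z w) (hw : w ∉ S) :
    ∃ y ∈ S, ¬ G.Adj w y := by
  obtain ⟨hz, y, hy, hyz, hn, rfl | rfl⟩ := h
  · rcases hy with rfl | hy
    · exact absurd rfl hyz
    · exact ⟨y, hy, hn⟩
  · rcases hz with rfl | hz
    · exact absurd rfl hyz
    · exact ⟨z, hz, fun h => hn h.symm⟩

theorem Pr_excl {S : Set V} {w x : V} (hT : Am G (insert w (insert x S))) (hwx : w ≠ x)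
    (hx : x ∉ S) (hw : w ∉ S) {z : V} (h : Pr G (insert w S) z w) : G.Adj w x := by
  by_contra hn
  obtain ⟨y, hy, hwy⟩ := Pr_out h hw
  have := hT w (Or.inl rfl) x (Or.inr (Or.inl rfl)) y (Or.inr (Or.inr hy)) hwx
    (fun e => hw (e ▸ hy)) hn hwy
  exact hx (this ▸ hy)

end A0

section A

variable {V : Type} [Fintype V] {G : SimpleGraph V}

omit [Fintype V] in
theorem cons_swap {n : ℕ} (x : V) (v : Fin n → V) (i j : Fin n) :
    (Fin.cons x (v ∘ Equiv.swap i j) : Fin (n + 1) → V) =
      (Fin.cons x v : Fin (n + 1) → V) ∘ Equiv.swap i.succ j.succ := by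
  funext k
  refine Fin.cases ?_ (fun l => ?_) k
  · rw [Function.comp_apply, Equiv.swap_apply_of_ne_of_ne (Fin.succ_ne_zero i).symm
      (Fin.succ_ne_zero j).symm]
    simp
  · simp only [Fin.cons_succ, Function.comp_apply]
    rcases eq_or_ne l i with rfl | hi
    · rw [Equiv.swap_apply_left, Equiv.swap_apply_left, Fin.cons_succ]
    · rcases eq_or_ne l j with rfl | hj
      · rw [Equiv.swap_apply_right, Equiv.swap_apply_right, Fin.cons_succ]
      · rw [Equiv.swap_apply_of_ne_of_ne hi hj, Equiv.swap_apply_of_ne_of_ne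
          (fun e => hi (Fin.succ_injective _ e)) (fun e => hj (Fin.succ_injective _ e)),
          Fin.cons_succ]

omit [Fintype V] in
/-- exchange of the first two entries -/
theorem alt_two {d : ℕ} {b : (Fin (d + 2) → V) → ℝ} (h : Alt b) (w x : V) (u : Fin d → V) :
    b (Fin.cons w (Fin.cons x u)) = - b (Fin.cons x (Fin.cons w u)) := by
  have h1 := h (Fin.cons x (Fin.cons w u)) 0 1 (by simp)
  rw [← h1]
  congr 1
  funext k
  refine Fin.cases ?_ (fun l => ?_) k
  · simp [Function.comp_apply]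
  · refine Fin.cases ?_ (fun l => ?_) l
    · simp [Function.comp_apply]
    · have e0 : (l.succ.succ : Fin (d + 2)) ≠ 1 := fun e =>
        Fin.succ_ne_zero l (Fin.succ_injective _ (e.trans Fin.succ_zero_eq_one.symm))
      rw [Function.comp_apply, Equiv.swap_apply_of_ne_of_ne (Fin.succ_ne_zero _) e0]
      simp

omit [Fintype V] in
theorem alt_zero {n : ℕ} {b : (Fin n → V) → ℝ} (h : Alt b) {v : Fin n → V} {i j : Fin n}
    (hij : i ≠ j) (hv : v i = v j) : b v = 0 := by
  have h1 := h v i j hij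
  have h2 : v ∘ Equiv.swap i j = v := by
    funext k
    rw [Function.comp_apply]
    rcases eq_or_ne k i with rfl | hi
    · rw [Equiv.swap_apply_left, hv]
    · rcases eq_or_ne k j with rfl | hj
      · rw [Equiv.swap_apply_right, hv]
      · rw [Equiv.swap_apply_of_ne_of_ne hi hj]
  rw [h2] at h1
  linarith

omit [Fintype V] in
theorem alt_nmem {d : ℕ} {b : (Fin (d + 1) → V) → ℝ} (h : Alt b) {w : V} {u : Fin d → V}
    (hb : b (Fin.cons w u) ≠ 0) : w ∉ Set.range u := by
  rintro ⟨i, rfl⟩
  exact hb (alt_zero h (Fin.succ_ne_zero i).symm (by simp))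

omit [Fintype V] in
theorem range_cons' {d : ℕ} (w : V) (u : Fin d → V) :
    Set.range (Fin.cons w u : Fin (d + 1) → V) = insert w (Set.range u) := Fin.range_cons w u

theorem antisum {X : Type} [Fintype X] {F : X → X → ℝ} (hF : ∀ w x, F w x = - F x w) :
    ∑ w, ∑ x, F w x = 0 := by
  have h1 : ∑ w, ∑ x, F w x = - ∑ w, ∑ x, F w x := by
    conv_lhs => rw [Finset.sum_comm]
    simp only [← Finset.sum_neg_distrib]
    exact Finset.sum_congr rfl fun w _ => Finset.sum_congr rfl fun x _ => hF x w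
  linarith

theorem R_am {c : Tot V} (h : AmC G c) (z : V) : AmC G (R G z c) := by
  refine ⟨fun d v i j hij => ?_, fun d u hu => ?_⟩
  · unfold R
    rw [range_swap, neg_neg, ← Finset.sum_neg_distrib]
    refine Finset.sum_congr rfl fun x _ => ?_
    rw [cons_swap, h.alt (d + 1) _ _ _ (fun e => hij (Fin.succ_injective _ e))]
    split_ifs <;> simp
  · unfold R at hu
    rw [neg_ne_zero] at hu
    obtain ⟨w, _, hw⟩ := Finset.exists_ne_zero_of_sum_ne_zero hu
    have hc : c (d + 1) (Fin.cons w u) ≠ 0 := by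
      intro h0; apply hw; rw [h0]; simp
    refine (h.am _ _ hc).mono ?_
    rw [range_cons']
    exact Set.subset_insert _ _

/-- the set of the simplex with two more vertices -/
theorem two_am {c : Tot V} (h : AmC G c) {d : ℕ} {w x : V} {u : Fin d → V}
    (hc : c (d + 2) (Fin.cons w (Fin.cons x u)) ≠ 0) :
    Am G (insert w (insert x (Set.range u))) ∧ w ≠ x ∧ x ∉ Set.range u ∧ w ∉ Set.range u := by
  have h1 := h.am _ _ hc
  rw [range_cons', range_cons'] at h1
  have h2 := alt_nmem (h.alt _) hc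
  rw [range_cons'] at h2
  have h3 : c (d + 2) (Fin.cons x (Fin.cons w u)) ≠ 0 := by
    intro h0; apply hc; rw [alt_two (h.alt _), h0, neg_zero]
  have h4 := alt_nmem (h.alt _) h3
  rw [range_cons'] at h4
  exact ⟨h1, fun e => h2 (Or.inl e), fun e => h4 (Or.inr e), fun e => h2 (Or.inr e)⟩

theorem R_bd {c : Tot V} (h : AmC G c) (z : V) : bd (R G z c) = - R G z (bd c) := by
  funext d u
  have h0 : ∀ w x, ((if Pr G (insert w (insert x (Set.range u))) z w then
      c (d + 2) (Fin.cons w (Fin.cons x u)) else 0) - (if Pr G (insert w (Set.range u)) z w then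
      c (d + 2) (Fin.cons w (Fin.cons x u)) else 0)) =
      (if ¬ G.Adj w x ∧ (z = w ∨ z = x) then c (d + 2) (Fin.cons w (Fin.cons x u)) else 0) := by
    intro w x
    by_cases hc : c (d + 2) (Fin.cons w (Fin.cons x u)) = 0
    · simp [hc]
    · obtain ⟨h1, h2, h3, h4⟩ := two_am h hc
      rw [if_congr (Pr_split h1 h2 h3 z) rfl rfl]
      by_cases hp : Pr G (insert w (Set.range u)) z w
      · have := Pr_excl h1 h2 h3 h4 hp
        simp [hp, this]
      · simp [hp]
  have h1 : bd (R G z c) d u = - ∑ w, ∑ x, (if Pr G (insert w (insert x (Set.range u))) z w then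
      c (d + 2) (Fin.cons w (Fin.cons x u)) else 0) := by
    unfold bd bdy R
    rw [Finset.sum_comm' (t' := Finset.univ) (s' := fun _ => Finset.univ) (by simp)]
    rw [← Finset.sum_neg_distrib]
    refine Finset.sum_congr rfl fun x _ => ?_
    rw [range_cons']
  have h2 : (- R G z (bd c)) d u = - ∑ w, ∑ x, (if Pr G (insert w (Set.range u)) z w then
      c (d + 2) (Fin.cons w (Fin.cons x u)) else 0) := by
    change - R G z (bd c) d u = _
    unfold R
    rw [neg_neg, ← Finset.sum_neg_distrib]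
    refine Finset.sum_congr rfl fun w _ => ?_
    unfold bd bdy
    split_ifs
    · rw [← Finset.sum_neg_distrib]
      refine Finset.sum_congr rfl fun x _ => ?_
      rw [alt_two (h.alt _) x w u]
    · simp
  rw [h1, h2, neg_inj, ← sub_eq_zero, ← Finset.sum_sub_distrib]
  simp only [← Finset.sum_sub_distrib, h0]
  refine antisum fun w x => ?_
  rw [alt_two (h.alt _) w x u, if_congr (P := ¬ G.Adj w x ∧ (z = w ∨ z = x))
    (Q := ¬ G.Adj x w ∧ (z = x ∨ z = w)) (by rw [G.adj_comm, or_comm]) rfl rfl]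
  split_ifs <;> simp

theorem bd_am {c : Tot V} (h : AmC G c) : AmC G (bd c) := by
  refine ⟨fun d => (h.alt (d + 1)).bd, fun d u hu => ?_⟩
  unfold bd bdy at hu
  obtain ⟨w, _, hw⟩ := Finset.exists_ne_zero_of_sum_ne_zero hu
  refine (h.am _ _ hw).mono ?_
  rw [range_cons']
  exact Set.subset_insert _ _

theorem R_two {c : Tot V} (z z' : V) (d : ℕ) (u : Fin d → V) : R G z (R G z' c) d u =
    ∑ w, ∑ x, if Pr G (insert w (Set.range u)) z w ∧
      Pr G (insert x (insert w (Set.range u))) z' x then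
        c (d + 2) (Fin.cons x (Fin.cons w u)) else 0 := by
  unfold R
  rw [← Finset.sum_neg_distrib]
  refine Finset.sum_congr rfl fun w _ => ?_
  split_ifs with h
  · rw [neg_neg, range_cons']
    refine Finset.sum_congr rfl fun x _ => ?_
    simp [h]
  · simp [h]

omit [Fintype V] in
theorem Pr_anti {S : Set V} {w x : V} (hT : Am G (insert x (insert w S))) (hwx : w ≠ x)
    (hx : x ∉ S) (hw : w ∉ S) (z z' : V) :
    (Pr G (insert w S) z w ∧ Pr G (insert x (insert w S)) z' x) ↔
      (Pr G (insert w S) z w ∧ Pr G (insert x S) z' x) := by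
  constructor
  · rintro ⟨h1, h2⟩
    refine ⟨h1, ?_⟩
    rcases (Pr_split hT hwx.symm hw z').1 h2 with h3 | ⟨h3, _⟩
    · exact h3
    · rw [Set.insert_comm] at hT
      exact absurd (Pr_excl hT hwx hx hw h1).symm h3
  · rintro ⟨h1, h2⟩
    exact ⟨h1, h2.mono (Set.insert_subset_insert (Set.subset_insert _ _))⟩

theorem R_two' {c : Tot V} (h : AmC G c) (z z' : V) (d : ℕ) (u : Fin d → V) :
    R G z (R G z' c) d u = ∑ w, ∑ x, if Pr G (insert w (Set.range u)) z w ∧
      Pr G (insert x (Set.range u)) z' x then c (d + 2) (Fin.cons x (Fin.cons w u)) else 0 := by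
  rw [R_two]
  refine Finset.sum_congr rfl fun w _ => Finset.sum_congr rfl fun x _ => ?_
  by_cases hc : c (d + 2) (Fin.cons x (Fin.cons w u)) = 0
  · simp [hc]
  · obtain ⟨h1, h2, h3, h4⟩ := two_am h hc
    rw [if_congr (Pr_anti h1 h2.symm h4 h3 z z') rfl rfl]

theorem R_anti {c : Tot V} (h : AmC G c) (z z' : V) : R G z (R G z' c) = - R G z' (R G z c) := by
  funext d u
  change _ = - R G z' (R G z c) d u
  rw [R_two' h, R_two' h, Finset.sum_comm, ← Finset.sum_neg_distrib]
  refine Finset.sum_congr rfl fun w _ => ?_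
  rw [← Finset.sum_neg_distrib]
  refine Finset.sum_congr rfl fun x _ => ?_
  rw [alt_two (h.alt _) w x u, if_congr (and_comm) rfl rfl]
  split_ifs <;> simp

theorem R_nadj {c : Tot V} (h : AmC G c) (z z' : V) (hz : ¬ G.Adj z z') : R G z (R G z' c) = 0 := by
  funext d u
  change _ = (0 : ℝ)
  rw [R_two' h]
  refine Finset.sum_eq_zero fun w _ => Finset.sum_eq_zero fun x _ => ?_
  by_cases hc : c (d + 2) (Fin.cons x (Fin.cons w u)) = 0
  · simp [hc]
  · obtain ⟨hT, hxw, hw, hx⟩ := two_am h hc
    rw [if_neg]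
    rintro ⟨⟨hz1, y, hy, hyz, hn, hwy⟩, ⟨hz2, y', hy', hyz', hn', hxy⟩⟩
    have s1 : insert w (Set.range u) ⊆ insert x (insert w (Set.range u)) := Set.subset_insert _ _
    have s2 : insert x (Set.range u) ⊆ insert x (insert w (Set.range u)) :=
      Set.insert_subset_insert (Set.subset_insert _ _)
    rcases eq_or_ne z z' with rfl | hzz
    · have e := hT z (s1 hz1) y (s1 hy) y' (s2 hy') hyz.symm hyz'.symm hn hn'
      subst e
      have hzu : z ∈ Set.range u := by
        rcases hz1 with rfl | hz1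
        · rcases hz2 with rfl | hz2
          · exact absurd rfl hxw
          · exact hz2
        · exact hz1
      rcases hwy with rfl | rfl
      · exact hw hzu
      · rcases hxy with rfl | rfl
        · exact hx hzu
        · exact hxw rfl
    · have e := hT z (s1 hz1) y (s1 hy) z' (s2 hz2) hyz.symm hzz hn hz
      subst e
      have e' := hT y (s1 hy) y' (s2 hy') z (s1 hz1) hyz'.symm hzz.symm hn'
        (fun h => hz h.symm)
      subst e'
      rcases hwy with rfl | rfl
      · rcases hxy with rfl | rfl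
        · rcases hy with rfl | hy
          · exact hxw rfl
          · exact hx hy
        · exact hxw rfl
      · rcases hxy with rfl | rfl
        · exact hxw rfl
        · rcases hz2 with rfl | hz2
          · exact hxw rfl
          · exact hw hz2

theorem R_cl {c : Tot V} (h : ∀ d u, c d u ≠ 0 → ∀ i j, i ≠ j → G.Adj (u i) (u j)) (z : V) :
    R G z c = 0 := by
  funext d u
  change _ = (0 : ℝ)
  unfold R
  rw [neg_eq_zero]
  refine Finset.sum_eq_zero fun w _ => ?_
  split_ifs with hp
  · by_contra hc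
    obtain ⟨hz, y, hy, hyz, hn, _⟩ := hp
    rw [← range_cons'] at hz hy
    obtain ⟨i, rfl⟩ := hz
    obtain ⟨j, rfl⟩ := hy
    exact hn (h _ _ hc i j fun e => hyz (by rw [e]))
  · rfl

theorem R_smul (r : ℝ) (c : Tot V) (z : V) : R G z (r • c) = r • R G z c := by
  funext d u
  change R G z (r • c) d u = r * R G z c d u
  unfold R
  rw [mul_neg, Finset.mul_sum]
  congr 1
  refine Finset.sum_congr rfl fun w _ => ?_
  split_ifs
  · rfl
  · simp

theorem RR_am {c : Tot V} (h : AmC G c) {k : ℕ} (x : Fin k → V) : AmC G (RR G k x c) := by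
  induction k with
  | zero => exact h
  | succ k ih => exact R_am (ih (Fin.tail x)) (x 0)

/-- moving an index to the front -/
theorem RR_move {c : Tot V} (h : AmC G c) {k : ℕ} (x : Fin (k + 1) → V) (i : Fin (k + 1)) :
    RR G (k + 1) x c = (-1 : ℝ) ^ (i : ℕ) • R G (x i) (RR G k (x ∘ i.succAbove) c) := by
  induction k with
  | zero =>
    have : i = 0 := Fin.eq_zero i
    subst this
    simp [RR]
  | succ k ih =>
    refine Fin.cases ?_ (fun j => ?_) i
    · rw [Fin.val_zero, pow_zero, one_smul]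
      rfl
    · change R G (x 0) (RR G (k + 1) (Fin.tail x) c) = _
      rw [ih (Fin.tail x) j, R_smul, R_anti (RR_am h _)]
      change _ = (-1 : ℝ) ^ ((j.succ : Fin (k + 2)) : ℕ) • R G (x j.succ)
        (R G ((x ∘ j.succ.succAbove) 0) (RR G k (Fin.tail (x ∘ j.succ.succAbove)) c))
      have e1 : (x ∘ j.succ.succAbove) 0 = x 0 := by
        rw [Function.comp_apply, Fin.succ_succAbove_zero]
      have e2 : Fin.tail (x ∘ j.succ.succAbove) = Fin.tail x ∘ j.succAbove := by
        funext l
        change x (j.succ.succAbove l.succ) = x (j.succAbove l).succ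
        rw [Fin.succ_succAbove_succ]
      rw [e1, e2, Fin.val_succ, pow_succ, mul_neg_one, neg_smul, smul_neg]
      rfl

theorem RR_nadj {c : Tot V} (h : AmC G c) {k : ℕ} (x : Fin k → V) (i j : Fin k) (hij : i ≠ j)
    (hx : ¬ G.Adj (x i) (x j)) : RR G k x c = 0 := by
  match k, x, i, j, hij, hx with
  | 0, _, i, _, _, _ => exact i.elim0
  | 1, _, i, j, hij, _ => exact absurd ((Fin.eq_zero i).trans (Fin.eq_zero j).symm) hij
  | k + 2, x, i, j, hij, hx =>
    obtain ⟨l, hl⟩ := Fin.exists_succAbove_eq hij.symm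
    rw [RR_move h x i, RR_move h (x ∘ i.succAbove) l, R_smul]
    have : (x ∘ i.succAbove) l = x j := by rw [Function.comp_apply, hl]
    rw [this, R_nadj (RR_am h _) _ _ hx, smul_zero, smul_zero]

theorem RR_smul (r : ℝ) (c : Tot V) {k : ℕ} (x : Fin k → V) :
    RR G k x (r • c) = r • RR G k x c := by
  induction k with
  | zero => rfl
  | succ k ih =>
    change R G (x 0) (RR G k (Fin.tail x) (r • c)) = r • R G (x 0) (RR G k (Fin.tail x) c)
    rw [ih, R_smul]

theorem RR_bd {c : Tot V} (h : AmC G c) {k : ℕ} (x : Fin k → V) :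
    bd (RR G k x c) = (-1 : ℝ) ^ k • RR G k x (bd c) := by
  induction k with
  | zero => rw [pow_zero, one_smul]; rfl
  | succ k ih =>
    change bd (R G (x 0) (RR G k (Fin.tail x) c)) = _ • R G (x 0) (RR G k (Fin.tail x) (bd c))
    rw [R_bd (RR_am h _), ih, R_smul, pow_succ, mul_neg_one, neg_smul]

end A

end Pool.Agent.J4.H51.AC
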