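import Pool.Agent.J4.H51.AC.Psi

/-!
Special cubulated manifolds: definitions.
-/

set_option autoImplicit false

open scoped Classical

namespace Pool.Agent.J4.H51.AC

open Pool.Agent.W907.SG (W cox chiW)
open Pool.Agent.Q134.SV Pool.Agent.J4.H51.JC

section

variable {V : Type} [Fintype V]

/-- A compact special cube complex `Γ\X` with an `n`-cycle. `X` is the set of the vertices of a convex
subcomplex of the Davis complex of the right-angled Coxeter group `W G` (its cubes are the cosets of the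
finite special subgroups which are contained in `X`), and `Γ` a subgroup of `W G` which acts on `X` with
finitely many orbits. The link of `x ∈ X` is the flag complex of the subgraph induced on the set of the
`s` with `x s ∈ X`. The cycle is given by its links `a x`: `a x (s_1, …, s_n)` is the coefficient of the cube
with the vertices `x s_{i_1} ⋯ s_{i_k}`, oriented by the order of its edges `x → x s_i` at `x`; so `a x`
is an `(n-1)`-cycle of the link of `x` and `a (x s) = - a x` at the cubes which contain the edge from `x`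
to `x s`. -/
structure SpC (n : ℕ) (G : SimpleGraph V) (Γ : Subgroup (W G)) (X : Set (W G))
    (a : W G → (Fin n → V) → ℝ) : Prop where
  inv : ∀ γ ∈ Γ, ∀ x ∈ X, γ * x ∈ X
  coc : ∃ F : Finset (W G), ∀ x ∈ X, ∃ γ ∈ Γ, γ * x ∈ F
  conv : ∀ x ∈ X, ∀ y ∈ X, ∀ s, (cox G).toCoxeterSystem.length ((x * gen G s)⁻¹ * y) <
    (cox G).toCoxeterSystem.length (x⁻¹ * y) → x * gen G s ∈ X
  a_inv : ∀ γ ∈ Γ, ∀ x ∈ X, a (γ * x) = a x
  a_cyc : ∀ x ∈ X, IsCyc n G (a x)
  a_lk : ∀ x ∈ X, ∀ u, a x u ≠ 0 → ∀ i, x * gen G (u i) ∈ X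
  a_edge : ∀ x ∈ X, ∀ s, x * gen G s ∈ X → ∀ u : Fin n → V, s ∈ Set.range u →
    a (x * gen G s) u = - a x u

/-- A closed oriented special cubulated (homology) manifold of dimension `n`: a compact special cube
complex with an `n`-cycle whose links are homology spheres with the fundamental cycles `a x`. -/
structure SpM (n : ℕ) (G : SimpleGraph V) (Γ : Subgroup (W G)) (X : Set (W G))
    (a : W G → (Fin n → V) → ℝ) : Prop extends SpC n G Γ X a where
  sph : ∀ x ∈ X, HSph n (G.induce {s | x * gen G s ∈ X}) (fun u => a x (fun i => (u i : V)))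

/-- the cube at `x` with the directions `σ`: the left coset of the special subgroup -/
def cube {V : Type} (G : SimpleGraph V) (x : W G) (σ : Finset V) : Set (W G) :=
  {y | x⁻¹ * y ∈ Subgroup.closure (gen G '' (σ : Set V))}

/-- the `d`-dimensional cubes of `X` -/
def Cub {V : Type} (G : SimpleGraph V) (X : Set (W G)) (d : ℕ) : Type :=
  {C : Set (W G) // C ⊆ X ∧ ∃ (x : W G) (σ : Finset V), G.IsClique (σ : Set V) ∧ σ.card = d ∧
    C = cube G x σ}

/-- the number of the `Γ`-orbits of `d`-dimensional cubes of `X` -/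
noncomputable def ncub {V : Type} {G : SimpleGraph V} (Γ : Subgroup (W G)) (X : Set (W G))
    (d : ℕ) : ℕ :=
  Nat.card (Quot fun C D : Cub G X d => ∃ γ ∈ Γ, D.1 = (fun y => γ * y) '' C.1)

/-- the Euler characteristic of the quotient of the cube complex by `Γ` -/
noncomputable def chiX {G : SimpleGraph V} (Γ : Subgroup (W G)) (X : Set (W G)) : ℤ :=
  ∑ d ∈ Finset.range (Fintype.card V + 1), (-1 : ℤ) ^ d * (ncub Γ X d : ℤ)

variable (G : SimpleGraph V) {n : ℕ}

/-- the conditions on the local term for sets in `K` -/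
structure OKK (K : Set V) (Ψ : (Fin n → Finset V) → ℝ) : Prop where
  adj : ∀ τ : Fin n → Finset V, ∀ i j : Fin n, (j : ℕ) = i + 1 → τ i = τ j → Ψ τ = 0
  emp : ∀ τ : Fin n → Finset V, ∀ i, τ i = ∅ → Ψ τ = 0
  mv : ∀ τ : Fin (n + 1) → Finset V, (∀ i, (τ i).Nonempty) → (∀ i, Cq G (τ i : Set V)) →
    (∀ i, (τ i : Set V) ⊆ K) → Mv G (Finset.univ.image τ) → cobd Ψ τ = 0
  cl : ∀ τ : Fin (n + 1) → Finset V, (∀ i, (τ i).Nonempty) → (∀ i, (τ i : Set V) ⊆ K) →
    Cq G {x | ∃ i, x ∈ τ i} → cobd Ψ τ = 0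

/-- the cochain of an orbit `O` of vertices -/
noncomputable def bo (O : Set (W G)) (Ψ : (Fin n → Finset V) → ℝ) (g : Fin (n + 1) → W G) : ℝ :=
  ∑ᶠ v : W G, if v ∈ O then cobd Ψ (fun i => dr v (g i)) else 0

/-- the sum over the right cosets `Γ x` of a function which is invariant under `Γ` -/
noncomputable def qs {G : SimpleGraph V} (Γ : Subgroup (W G)) (φ : W G → ℝ) : ℝ :=
  ∑ᶠ q : Quotient (QuotientGroup.rightRel Γ), φ (Quotient.out q)

end

end Pool.Agent.J4.H51.AC
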