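import Pool.Agent.J4.H51.AC.PsiK
import Pool.Agent.J4.H51.AC.Ev
import Pool.Agent.J4.H51.AC.Fin2

/-!
Gromov's question for special cubulated manifolds.
-/

set_option autoImplicit false

open scoped Classical

namespace Pool.Agent.J4.H51.AC

open Pool.Agent.W907.SG (W cox chiW)
open Pool.Agent.Q134.SV Pool.Agent.J4.H51.JC

variable {V : Type} [Fintype V] {G : SimpleGraph V}

/-! ### extension by zero -/

section ext

variable {K : Set V} {n : ℕ}

/-- extension by zero -/
noncomputable def ext0 (θ : (Fin n → K) → ℝ) : (Fin n → V) → ℝ := fun u =>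
  if h : ∀ i, u i ∈ K then θ (fun i => ⟨u i, h i⟩) else 0

omit [Fintype V] in
theorem ext0_coe (θ : (Fin n → K) → ℝ) (u : Fin n → K) : ext0 θ (fun i => (u i : V)) = θ u := by
  unfold ext0
  rw [dif_pos fun i => (u i).2]

omit [Fintype V] in
theorem ext0_alt {θ : (Fin n → K) → ℝ} (h : Alt θ) : Alt (ext0 θ) := by
  intro v i j hij
  unfold ext0
  by_cases hv : ∀ k, v k ∈ K
  · rw [dif_pos hv, dif_pos (show ∀ k, (v ∘ Equiv.swap i j) k ∈ K from fun k => hv _)]
    exact h (fun k => ⟨v k, hv k⟩) i j hij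
  · rw [dif_neg hv, dif_neg, neg_zero]
    intro h'
    apply hv
    intro k
    have := h' (Equiv.swap i j k)
    simpa using this

omit [Fintype V] in
theorem ext0_cobd (θ : (Fin n → K) → ℝ) (w : Fin (n + 1) → K) :
    cobd (ext0 θ) (fun i => (w i : V)) = cobd θ w := by
  unfold cobd
  refine Finset.sum_congr rfl fun k _ => ?_
  have := ext0_coe θ (w ∘ k.succAbove)
  rw [← this]
  rfl

/-- sums over tuples in `K` -/
theorem sum_ext (a : (Fin n → V) → ℝ) (ha : ∀ u, a u ≠ 0 → ∀ i, u i ∈ K) (θ : (Fin n → K) → ℝ) :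
    ∑ u, a u * ext0 θ u = ∑ u : Fin n → K, a (fun i => (u i : V)) * θ u := by
  have hinj : Function.Injective (fun (u : Fin n → K) (i : Fin n) => (u i : V)) := by
    intro u v h
    funext i
    exact Subtype.ext (congrFun h i)
  rw [← Finset.sum_subset (Finset.subset_univ (Finset.univ.image
    (fun (u : Fin n → K) (i : Fin n) => (u i : V)))), Finset.sum_image (fun _ _ _ _ h => hinj h)]
  · exact Finset.sum_congr rfl fun u _ => by rw [ext0_coe]
  · intro u _ hu
    by_cases h0 : a u = 0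
    · rw [h0, zero_mul]
    · exfalso
      apply hu
      rw [Finset.mem_image]
      exact ⟨fun i => ⟨u i, ha u h0 i⟩, Finset.mem_univ _, rfl⟩

theorem cyc_restrict {a : (Fin n → V) → ℝ} (ha : IsCyc n G a) (hK : ∀ u, a u ≠ 0 → ∀ i, u i ∈ K) :
    IsCyc n (G.induce K) (fun u => a (fun i => (u i : V))) where
  alt v i j hij := ha.alt (fun k => (v k : V)) i j hij
  supp v hv i j hij := ha.supp _ hv i j hij
  cyc v i := by
    have h1 := ha.cyc (fun k => (v k : V)) i
    have h2 : ∀ x : K, (fun k => ((Function.update v i x k : K) : V)) =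
        Function.update (fun k => (v k : V)) i (x : V) := by
      intro x
      funext k
      by_cases hk : k = i
      · subst hk; simp
      · rw [Function.update_of_ne hk, Function.update_of_ne hk]
    simp only [h2]
    rw [← h1]
    rw [← Finset.sum_subset (Finset.subset_univ ((Finset.univ : Finset K).map
      (Function.Embedding.subtype _))), Finset.sum_map]
    · rfl
    · intro x _ hx
      by_contra hne
      apply hx
      have := hK _ hne i
      rw [Function.update_self] at this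
      rw [Finset.mem_map]
      exact ⟨⟨x, this⟩, Finset.mem_univ _, rfl⟩

end ext

/-! ### the theorem -/

section

variable {m : ℕ} {Γ : Subgroup (W G)} {X : Set (W G)} {a : W G → (Fin (m + 1) → V) → ℝ}

/-- the directions at a vertex of the orbit of `v₀` to a point of `X` -/
theorem dr_orbit (hX : SpC (m + 1) G Γ X a) {v₀ : W G} (hv : v₀ ∈ X) (v : W G)
    (h : ∃ γ ∈ Γ, v = γ * v₀) (g : W G) (hg : g ∈ X) :
    (dr v g : Set V) ⊆ {s | v₀ * gen G s ∈ X} := by
  obtain ⟨γ, hγ, rfl⟩ := h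
  intro s hs
  have hs' : Sep G (wl G (γ * v₀) s) (γ * v₀) g := mem_dr.1 hs
  have h1 : len G ((γ * v₀ * gen G s)⁻¹ * g) < len G ((γ * v₀)⁻¹ * g) := by
    rw [mul_inv_rev, gen_inv, mul_assoc, ← desc_iff]
    have := (sep_mul (γ * v₀) (gen G s) 1 ((γ * v₀)⁻¹ * g)).1
    apply this
    rw [mul_one, mul_inv_cancel_left]
    exact hs'
  have h2 := hX.conv _ (hX.inv γ hγ v₀ hv) g hg s h1
  have h3 := hX.inv γ⁻¹ (Γ.inv_mem hγ) _ h2
  have h4 : γ⁻¹ * (γ * v₀ * gen G s) = v₀ * gen G s := by group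
  rw [h4] at h3
  exact h3

/-- If all bounded `n`-cocycles of `Γ` are coboundaries then the cycle bounds in the amenable complexes of
all links. -/
theorem special_am (hX : SpC (m + 1) G Γ X a) (hz : ZeroSV (m + 1) Γ) (v₀ : W G) (hv : v₀ ∈ X) :
    AmBd (G.induce {s | v₀ * gen G s ∈ X}) (fun u => a v₀ (fun i => (u i : V))) := by
  by_contra hJ
  set K : Set V := {s | v₀ * gen G s ∈ X} with hK
  have haK : ∀ u, a v₀ u ≠ 0 → ∀ i, u i ∈ K := fun u hu i => hX.a_lk v₀ hv u hu i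
  have hcycK := cyc_restrict (K := K) (hX.a_cyc v₀ hv) haK
  obtain ⟨θK, hθA, hθ, hp⟩ := dual2 (G := G.induce K)
    (a := fun u : Fin (m + 1) → K => a v₀ (fun i => (u i : V))) hcycK.alt hJ
  -- extension by zero
  have hA := ext0_alt hθA
  have hcl : ∀ w : Fin (m + 2) → V, (∀ i, w i ∈ K) → Am G (Set.range w) →
      cobd (ext0 θK) w = 0 := by
    intro w hw hAm
    have h1 := ext0_cobd θK (fun i => (⟨w i, hw i⟩ : K))
    rw [show w = fun i => ((⟨w i, hw i⟩ : K) : V) from rfl, h1]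
    apply hθ
    rintro _ ⟨i, rfl⟩ _ ⟨j, rfl⟩ _ ⟨l, rfl⟩ h2 h3 h4 h5
    apply Subtype.ext
    exact hAm _ ⟨i, rfl⟩ _ ⟨j, rfl⟩ _ ⟨l, rfl⟩ (fun e => h2 (Subtype.ext e))
      (fun e => h3 (Subtype.ext e)) h4 h5
  have hpair : ∑ s, a v₀ s * ext0 θK s ≠ 0 := by
    rw [sum_ext (a v₀) haK θK]
    exact hp
  obtain ⟨Ψ, hΨ, e, he⟩ := ex_PsiK K (ext0 θK) hA hcl
  have hO := dr_orbit hX hv
  set O : Set (W G) := {v | ∃ γ ∈ Γ, v = γ * v₀} with hOdef
  -- the value
  have hval : ∑ i : Fin (m + 2), ∑ s, a v₀ s * Ψ ((fun j => dr (Fin.partialProd (gen G ∘ s) i)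
      (Fin.partialProd (gen G ∘ s) j)) ∘ i.succAbove) =
      2 ^ (m + 1) / ((m + 1).factorial : ℝ) * ∑ s, a v₀ s * ext0 θK s := by
    have h1 : ∀ i : Fin (m + 2), ∑ s, a v₀ s * Ψ ((fun j => dr (Fin.partialProd (gen G ∘ s) i)
        (Fin.partialProd (gen G ∘ s) j)) ∘ i.succAbove) =
        (((i : ℕ).factorial : ℝ) * ((m + 1 - i).factorial : ℝ))⁻¹ *
          ∑ s, a v₀ s * ext0 θK s := by
      intro i
      rw [← add_zero ((((i : ℕ).factorial : ℝ) * ((m + 1 - i).factorial : ℝ))⁻¹ *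
          ∑ s, a v₀ s * ext0 θK s), ← sum_row (hX.a_cyc v₀ hv) e i, Finset.mul_sum,
        ← Finset.sum_add_distrib]
      refine Finset.sum_congr rfl fun s _ => ?_
      by_cases h0 : a v₀ s = 0
      · simp [h0]
      · have hs := (hX.a_cyc v₀ hv).supp s h0
        rw [he, evA_row hs hA i]
        · ring
        · intro k
          rw [Finset.nonempty_iff_ne_empty]
          intro e0
          have := pp_inj hs (dr_eq_empty.1 e0)
          exact Fin.succAbove_ne _ _ this.symm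
        · intro k x hx
          obtain ⟨p, rfl, -⟩ := (mem_row hs i k x).1 hx
          exact haK s h0 p
        · rintro x ⟨k, hx⟩ y ⟨l, hy⟩ hxy
          obtain ⟨p, rfl, -⟩ := (mem_row hs i k x).1 hx
          obtain ⟨q, rfl, -⟩ := (mem_row hs i l y).1 hy
          exact hs p q fun e => hxy (by rw [e])
    rw [Finset.sum_congr rfl fun i _ => h1 i, ← Finset.sum_mul, sum_coef]
  have hev := ev_bo hX hv hΨ hO
  rw [hval] at hev
  -- invariance of the orbit
  have hOinv : ∀ γ ∈ Γ, ∀ v, γ * v ∈ O ↔ v ∈ O := by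
    intro γ hγ v
    constructor
    · rintro ⟨δ, hδ, e⟩
      refine ⟨γ⁻¹ * δ, Γ.mul_mem (Γ.inv_mem hγ) hδ, ?_⟩
      rw [mul_assoc, ← e, inv_mul_cancel_left]
    · rintro ⟨δ, hδ, rfl⟩
      exact ⟨γ * δ, Γ.mul_mem hγ hδ, (mul_assoc _ _ _).symm⟩
  -- the bounded cocycle of the group
  obtain ⟨Bd, hBd⟩ := bo_bound hΨ hO
  have hxX : ∀ γ : Γ, (γ : W G) * v₀ ∈ X := fun γ => hX.inv γ γ.2 v₀ hv
  obtain ⟨b, hb, hbc⟩ := hz (fun g => bo G O Ψ fun i => (g i : W G) * v₀) (by
    intro γ g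
    have h1 := bo_inv (O := O) (Ψ := Ψ) (γ : W G) (hOinv γ γ.2) (fun i => (g i : W G) * v₀)
    rw [← h1]
    congr 1
    funext i
    rw [Subgroup.coe_mul, mul_assoc]) (by
    intro g
    exact bo_coc hΨ hO (fun i => (g i : W G) * v₀) fun i => hxX (g i)) ⟨Bd, fun g =>
      hBd _ fun i => hxX (g i)⟩
  -- on the vertices
  let ρ : X → X := fun x => ⟨(toSub Γ (x : W G) : W G) * v₀, hxX _⟩
  let cX : (Fin (m + 2) → X) → ℝ := fun g => bo G O Ψ fun i => (g i : W G)
  let bX : (Fin (m + 1) → X) → ℝ := fun g => b fun i => toSub Γ (g i : W G)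
  have hcX : cobd cX = 0 := by
    funext g
    exact bo_coc hΨ hO (fun i => (g i : W G)) fun i => (g i).2
  have hbX : ∀ g : Fin (m + 2) → X, cobd bX g = cX (ρ ∘ g) := by
    intro g
    exact hbc fun i => toSub Γ (g i : W G)
  have hpr : ∀ g : Fin (m + 2) → X, cobd (fun u => bX u - pri ρ (m + 1) cX u) g = cX g := by
    intro g
    have h1 := prism ρ (m + 1) cX g
    rw [hcX] at h1
    have h2 := pri_zero ρ (m + 2) g
    rw [show (0 : (Fin (m + 3) → X) → ℝ) = fun _ => 0 from rfl, h2] at h1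
    rw [cobd_sub, hbX g]
    linarith
  let BX : (Fin (m + 1) → X) → ℝ := fun u => bX u - pri ρ (m + 1) cX u
  have hBXinv : ∀ γ (hγ : γ ∈ Γ) (u : Fin (m + 1) → X),
      BX (fun i => ⟨γ * u i, hX.inv γ hγ _ (u i).2⟩) = BX u := by
    intro γ hγ u
    let φ : X → X := fun x => ⟨γ * x, hX.inv γ hγ _ x.2⟩
    have hφ : ∀ x, toSub Γ ((φ x : X) : W G) = ⟨γ, hγ⟩ * toSub Γ (x : W G) := fun x =>
      toSub_mul Γ ⟨γ, hγ⟩ (x : W G)
    have h1 : bX (φ ∘ u) = bX u := by
      have h2 := hb ⟨γ, hγ⟩ fun i => toSub Γ (u i : W G)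
      refine Eq.trans ?_ h2
      change b _ = b _
      congr 1
      funext i
      exact hφ (u i)
    have h2 : pri ρ (m + 1) cX (φ ∘ u) = pri ρ (m + 1) cX u := by
      refine pri_equiv ρ φ (fun x => ?_) (m + 1) cX cX (fun g => ?_) u
      · apply Subtype.ext
        change ((toSub Γ ((φ x : X) : W G) : Γ) : W G) * v₀ = γ * ((toSub Γ (x : W G) : W G) * v₀)
        rw [hφ x, Subgroup.coe_mul, mul_assoc]
      · exact bo_inv (O := O) (Ψ := Ψ) γ (hOinv γ hγ) (fun i => (g i : W G))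
    change bX (φ ∘ u) - pri ρ (m + 1) cX (φ ∘ u) = bX u - pri ρ (m + 1) cX u
    rw [h1, h2]
  -- on all points
  let B : (Fin (m + 1) → W G) → ℝ := fun u =>
    if h : ∀ i, u i ∈ X then BX (fun i => ⟨u i, h i⟩) else 0
  have hB : ∀ γ ∈ Γ, ∀ g : Fin (m + 1) → W G, (∀ i, g i ∈ X) → B (fun i => γ * g i) = B g := by
    intro γ hγ g hg
    simp only [B]
    rw [dif_pos hg, dif_pos fun i => hX.inv γ hγ _ (hg i)]
    exact hBXinv γ hγ fun i => ⟨g i, hg i⟩
  have hBc : ∀ g : Fin (m + 2) → W G, (∀ i, g i ∈ X) → cobd B g = bo G O Ψ g := by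
    intro g hg
    have h1 := hpr fun i => ⟨g i, hg i⟩
    rw [show bo G O Ψ g = cX fun i => ⟨g i, hg i⟩ from rfl, ← h1]
    unfold cobd
    refine Finset.sum_congr rfl fun k _ => ?_
    congr 1
    simp only [B]
    rw [dif_pos (show ∀ i, (g ∘ k.succAbove) i ∈ X from fun i => hg _)]
    rfl
  have hst := stokesX hX B hB
  have heq : (fun x => if x ∈ X then ∑ s, a x s * cobd B
      (fun i => x * Fin.partialProd (gen G ∘ s) i) else 0) =
      fun x => if x ∈ X then ∑ s, a x s * bo G O Ψ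
        (fun i => x * Fin.partialProd (gen G ∘ s) i) else 0 := by
    funext x
    by_cases hx : x ∈ X
    · rw [if_pos hx, if_pos hx]
      refine Finset.sum_congr rfl fun s _ => ?_
      by_cases h0 : a x s = 0
      · rw [h0, zero_mul, zero_mul]
      · rw [hBc _ fun i => (pp_mem hX hx h0 i).1]
    · rw [if_neg hx, if_neg hx]
  rw [heq, hev] at hst
  have h2 : (2 : ℝ) ^ (m + 1) / ((m + 1).factorial : ℝ) ≠ 0 := by positivity
  exact mul_ne_zero h2 hpair hst

/-- Gromov's question for special cubulated manifolds: the curvature at all vertices is zero. -/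
theorem special_main (hX : SpM (m + 1) G Γ X a) (hz : ZeroSV (m + 1) Γ) (v₀ : W G) (hv : v₀ ∈ X) :
    chiW (G.induce {s | v₀ * gen G s ∈ X}) = 0 :=
  chi_zero (cyc_restrict (K := {s | v₀ * gen G s ∈ X}) (hX.a_cyc v₀ hv)
    (fun u hu i => hX.a_lk v₀ hv u hu i)) (hX.sph v₀ hv) (special_am hX.toSpC hz v₀ hv)

end

end Pool.Agent.J4.H51.AC
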